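import Pool.Agent.Lib.MP_ccffa6_gt.TOP.MChB

/-! Critical points, Hessians and Morse charts. -/

open Set Filter Topology
open scoped ContDiff

noncomputable section

namespace Pool.Agent.Lib.MP_ccffa6_gt

variable {E : Type} [NormedAddCommGroup E] [NormedSpace ℝ E] [FiniteDimensional ℝ E]
  {E' : Type} [NormedAddCommGroup E'] [NormedSpace ℝ E'] [FiniteDimensional ℝ E']
  {F : Type} [NormedAddCommGroup F] [NormedSpace ℝ F] [FiniteDimensional ℝ F]
  {P : Type} [NormedAddCommGroup P] [NormedSpace ℝ P] [FiniteDimensional ℝ P]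

omit [NormedSpace ℝ P] [FiniteDimensional ℝ P] in
theorem top_mchc_chart {W : Set E} {x : E} {φ : F → E} {ψ : E → F} (h : Chart W x φ ψ) (p : P) :
    ∀ᶠ q in 𝓝[W ×ˢ univ] (x, p), q.1 ∈ W ∧ Chart W q.1 φ ψ := by
  rw [nhdsWithin_prod_eq]
  exact tendsto_fst.eventually (eventually_mem_nhdsWithin.and h.eventually)

theorem top_ncrit_open {d : ℕ} {W : Set E} (hW : IsSub d W) {G : E × P → ℝ}
    (hG : ContDiff ℝ ∞ G) {x : E} {p : P} (hx : x ∈ W) (h : ¬ Crit W (fun y => G (y, p)) x) :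
    ∀ᶠ q in 𝓝[W ×ˢ univ] (x, p), ¬ Crit W (fun y => G (y, q.2)) q.1 := by
  obtain ⟨φ, ψ, hc⟩ := hW x hx
  have hd : ∀ q : E × P, DifferentiableAt ℝ (fun y => G (y, q.2)) q.1 := fun q =>
    ((hG.comp (contDiff_prodMk_left q.2)).differentiable (by simp)).differentiableAt
  have h1 : Continuous fun q : E × P => fderiv ℝ ((fun y => G (y, q.2)) ∘ φ) (ψ q.1) :=
    (ContDiff.fderiv (m := ∞) (n := 0) (f := fun q : E × P => (fun y => G (y, q.2)) ∘ φ)
      (hG.comp ((hc.smφ.comp contDiff_snd).prodMk contDiff_fst.snd))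
      ((hc.smψ.comp contDiff_fst).of_le (by simp)) (by simp)).continuous
  filter_upwards [top_mchc_chart hc p, nhdsWithin_le_nhds
    ((h1.continuousAt (x := (x, p))).eventually_ne (mt (hc.crit_iff hx (hd (x, p))).2 h))]
    with q h2 h3
  exact mt (h2.2.crit_iff h2.1 (hd q)).1 h3

theorem top_pos_open {d k : ℕ} {W : Set E} (hW : IsSub d W) {G : E × P → ℝ}
    (hG : ContDiff ℝ ∞ G) {x : E} {p : P} (hx : x ∈ W) (hc : Crit W (fun y => G (y, p)) x)
    (h : PosAt d k W (fun y => G (y, p)) x) :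
    ∀ᶠ q in 𝓝[W ×ˢ univ] (x, p), PosAt d k W (fun y => G (y, q.2)) q.1 := by
  obtain ⟨φ, ψ, hφ⟩ := hW x hx
  obtain ⟨N, hd, hN⟩ := h.chart hφ hx (hG.comp (contDiff_prodMk_left p)) hc
  have h0 : ContDiff ℝ ∞ fun r : (E × P) × Rd d => fderiv ℝ ((fun y => G (y, r.1.2)) ∘ φ) r.2 :=
    ContDiff.fderiv (m := ∞) (f := fun r : (E × P) × Rd d => (fun y => G (y, r.1.2)) ∘ φ)
      (hG.comp ((hφ.smφ.comp contDiff_snd).prodMk contDiff_fst.fst.snd)) contDiff_snd (by simp)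
  have h1 : Continuous fun q : E × P =>
      fderiv ℝ (fderiv ℝ ((fun y => G (y, q.2)) ∘ φ)) (ψ q.1) :=
    (ContDiff.fderiv (m := ∞) (n := 0) (f := fun q : E × P => fderiv ℝ ((fun y => G (y, q.2)) ∘ φ))
      h0 ((hφ.smψ.comp contDiff_fst).of_le (by simp)) (by simp)).continuous
  have h2 := ((isCompact_sphere (0 : Rd d) 1).inter_right
    N.closed_of_finiteDimensional).eventually_forall_of_forall_eventually (x₀ := (x, p))
    (P := fun q v => 0 < fderiv ℝ (fderiv ℝ ((fun y => G (y, q.2)) ∘ φ)) (ψ q.1) v v) fun v hv =>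
      continuousAt_const.eventually_lt (((h1.comp continuous_fst).clm_apply
        continuous_snd).clm_apply continuous_snd).continuousAt
        (hN v hv.2 (ne_zero_of_mem_unit_sphere ⟨v, hv.1⟩))
  filter_upwards [top_mchc_chart hφ p, nhdsWithin_le_nhds h2] with q h3 h4
  refine PosAt.of_chart h3.2 h3.1 (hG.comp (contDiff_prodMk_left q.2)) N hd fun v hv h5 => ?_
  have h6 := h4 (‖v‖⁻¹ • v) ⟨mem_sphere_zero_iff_norm.2 (norm_smul_inv_norm h5), N.smul_mem _ hv⟩
  have h7 : 0 < ‖v‖⁻¹ := inv_pos.2 (norm_pos_iff.2 h5)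
  simp only [map_smul, smul_apply, smul_eq_mul] at h6
  exact (mul_pos_iff_of_pos_left h7).1 ((mul_pos_iff_of_pos_left h7).1 h6)

theorem top_crit_finite {d : ℕ} {W A : Set E} (hW : IsSub d W) {f : E → ℝ} (hf : ContDiff ℝ ∞ f)
    (hA : IsCompact A) (hAW : A ⊆ W) (h : ∀ x ∈ A, Crit W f x → ∃ i j, MChart W f x i j) :
    {x | x ∈ A ∧ Crit W f x}.Finite := by
  refine hA.induction_on (p := fun s => {x | x ∈ s ∧ Crit W f x}.Finite) (by simp)
    (fun s t hst ht => ht.subset fun y hy => ⟨hst hy.1, hy.2⟩) (fun s t hs ht =>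
      (hs.union ht).subset fun y hy => hy.1.imp (fun h => ⟨h, hy.2⟩) fun h => ⟨h, hy.2⟩)
    fun x hx => ⟨{y | Crit W f y → y = x}, nhdsWithin_mono x hAW ?_,
      (finite_singleton x).subset fun y hy => hy.1 hy.2⟩
  by_cases hc : Crit W f x
  · obtain ⟨i, j, h1⟩ := h x hx hc
    exact h1.isolated (hAW hx) hf
  · have h1 := top_ncrit_open hW (G := fun q : E × ℝ => f q.1) (hf.comp contDiff_fst) (p := 0)
      (hAW hx) hc
    rw [nhdsWithin_prod_eq, nhdsWithin_univ] at h1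
    filter_upwards [h1.curry] with y hy h2
    exact absurd h2 hy.self_of_nhds

end Pool.Agent.Lib.MP_ccffa6_gt
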