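import Pool.Agent.Lib.MP_ccffa6_gt.TOP.MPert0

/-! Perturbation to a Morse function, relative to the levels and to finitely many points. -/

open Set Filter Topology
open scoped ContDiff

noncomputable section

namespace Pool.Agent.Lib.MP_ccffa6_gt

variable {E : Type} [NormedAddCommGroup E] [NormedSpace ℝ E] [FiniteDimensional ℝ E]

theorem Slab.crit_mem {d : ℕ} {W : Set E} {f : E → ℝ} {a b : ℝ} {ν : E → E}
    (hS : Slab d W f a b ν) {x : E} (hx : x ∈ W ∩ f ⁻¹' Icc a b) (hc : Crit W f x) :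
    f x ∈ Ioo a b := by
  by_contra h
  have h1 : f x = a ∨ f x = b := by
    rcases hx.2.1.eq_or_lt with h1 | h1
    · exact Or.inl h1.symm
    · exact Or.inr (le_antisymm hx.2.2 (not_lt.1 fun h2 => h ⟨h1, h2⟩))
  obtain ⟨h2, h3⟩ := hS.tν x ⟨hx.1, h1⟩
  exact one_ne_zero (h3.symm.trans (hc _ h2))

theorem top_crit_compact {d : ℕ} {W A B : Set E} (hW : IsSub d W) {f : E → ℝ}
    (hf : ContDiff ℝ ∞ f) (hA : IsCompact A) (hAW : A ⊆ W)
    (hM : ∀ x ∈ B, ∃ i j, MChart W f x i j) : IsCompact {x | x ∈ A ∧ Crit W f x ∧ x ∉ B} := by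
  refine hA.of_isClosed_subset (isClosed_of_closure_subset fun x hx => ?_) fun x hx => hx.1
  have hxA : x ∈ A := hA.isClosed.closure_subset (closure_mono (fun y hy => hy.1) hx)
  by_contra hn
  have h1 : ∀ᶠ y in 𝓝[W] x, ¬ (Crit W f y ∧ y ∉ B) := by
    by_cases hc : Crit W f x
    · have hB : x ∈ B := by
        by_contra hB
        exact hn ⟨hxA, hc, hB⟩
      obtain ⟨i, j, h⟩ := hM x hB
      filter_upwards [h.isolated (hAW hxA) hf] with y hy h2 using h2.2 (hy h2.1 ▸ hB)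
    · filter_upwards [top_ncrit_open0 hW hf (hAW hxA) hc] with y hy h2 using hy h2.1
  obtain ⟨y, hy1, hy2⟩ := mem_closure_iff_nhds.1 hx _ (eventually_nhdsWithin_iff.1 h1)
  exact hy1 (hAW hy2.1) hy2.2

/-- Relative Morsification with an index bound. -/
theorem top_mpert {d k : ℕ} {W : Set E} {f : E → ℝ} {a b : ℝ} {ν : E → E}
    (hS : Slab d W f a b ν) {B : Set E} (hB : B.Finite)
    (hM : ∀ x ∈ B, ∃ i j, MChart W f x i j)
    (hp : ∀ x ∈ W ∩ f ⁻¹' Icc a b, Crit W f x → x ∉ B → PosAt d k W f x) :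
    ∃ g : E → ℝ, ContDiff ℝ ∞ g ∧ (∀ x, f x ∈ Ioo a b → g x ∈ Ioo a b) ∧
      (∀ x, x ∈ B ∨ f x ∉ Ioo a b → g =ᶠ[𝓝 x] f) ∧
      ∀ x ∈ W ∩ g ⁻¹' Icc a b, Crit W g x → x ∉ B →
        ∃ i j, i + j = d ∧ i ≤ k ∧ MChart W g x i j := by
  have hZ := top_crit_compact hS.sub hS.sm hS.cpt inter_subset_left hM
  have hO : IsOpen (f ⁻¹' Ioo a b ∩ Bᶜ) :=
    (isOpen_Ioo.preimage hS.sm.continuous).inter hB.isClosed.isOpen_compl
  obtain ⟨χ, hχ, -, h1, hK, hK'⟩ := exists_cutoff hZ.isClosed hO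
    fun x hx => ⟨hS.crit_mem hx.1 hx.2.1, hx.2.2⟩
  have hKc : IsCompact (tsupport χ) := hK' hZ
  obtain ⟨V, hV, hZV, hV1⟩ := mem_nhdsSet_iff_exists.1 h1
  let G : E × (E →L[ℝ] ℝ) → ℝ := fun q => f q.1 + χ q.1 * q.2 q.1
  have hG : ContDiff ℝ ∞ G := (hS.sm.comp contDiff_fst).add
    ((hχ.comp contDiff_fst).mul (contDiff_snd.clm_apply contDiff_fst))
  have hG0 : (fun y => G (y, 0)) = f := by funext y; simp [G]
  have e1 : ∀ᶠ l in 𝓝 (0 : E →L[ℝ] ℝ), ∀ y ∈ tsupport χ, G (y, l) ∈ Ioo a b := by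
    refine hKc.eventually_forall_of_forall_eventually (P := fun l y => G (y, l) ∈ Ioo a b)
      fun y hy => ?_
    have h2 : Continuous fun q : (E →L[ℝ] ℝ) × E => G (q.2, q.1) :=
      hG.continuous.comp continuous_swap
    exact h2.continuousAt.eventually (isOpen_Ioo.mem_nhds (by simpa [G] using (hK hy).1))
  have e2 : ∀ᶠ l in 𝓝 (0 : E →L[ℝ] ℝ), ∀ y ∈ (W ∩ f ⁻¹' Icc a b) ∩ tsupport χ, y ∈ W →
      Crit W (fun z => G (z, l)) y → PosAt d k W (fun z => G (z, l)) y := by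
    refine top_tube_within (hS.cpt.inter_right (isClosed_tsupport χ))
      (Q := fun y l => Crit W (fun z => G (z, l)) y → PosAt d k W (fun z => G (z, l)) y)
      fun y hy => ?_
    by_cases hc : Crit W f y
    · filter_upwards [top_pos_open hS.sub hG (p := 0) hy.1.1 (hG0.symm ▸ hc)
        (hG0.symm ▸ hp y hy.1 hc (hK hy.2).2)] with q hq _ using hq
    · filter_upwards [top_ncrit_open hS.sub hG (p := 0) hy.1.1 (hG0.symm ▸ hc)] with q hq h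
        using absurd h hq
  have e3 : ∀ᶠ l in 𝓝 (0 : E →L[ℝ] ℝ), ∀ y ∈ ((W ∩ f ⁻¹' Icc a b) ∩ tsupport χ) \ V, y ∈ W →
      ¬ Crit W (fun z => G (z, l)) y := by
    refine top_tube_within ((hS.cpt.inter_right (isClosed_tsupport χ)).diff hV)
      (Q := fun y l => ¬ Crit W (fun z => G (z, l)) y) fun y hy => ?_
    refine top_ncrit_open hS.sub hG (p := 0) hy.1.1.1 (hG0.symm ▸ fun hc => ?_)
    exact hy.2 (hZV ⟨hy.1.1, hc, (hK hy.1.2).2⟩)
  obtain ⟨Bad, hBad, hgen⟩ := top_generic hS.sub hS.sm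
  obtain ⟨l, ⟨e1, e2, e3⟩, hl⟩ := hBad.exists_of_eventually (e1.and (e2.and e3))
  have hg : ContDiff ℝ ∞ fun y => G (y, l) := hG.comp (contDiff_id.prodMk contDiff_const)
  have hout : ∀ x, x ∉ tsupport χ → (fun y => G (y, l)) =ᶠ[𝓝 x] f := fun x hx => by
    filter_upwards [notMem_tsupport_iff_eventuallyEq.1 hx] with y hy
    simp [G, hy]
  refine ⟨fun y => G (y, l), hg, fun x hx => ?_,
    fun x hx => hout x fun h => hx.elim (hK h).2 fun h2 => h2 (hK h).1, fun x hx hc hxB => ?_⟩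
  · by_cases h : x ∈ tsupport χ
    · exact e1 x h
    · exact mem_of_eq_of_mem (hout x h).eq_of_nhds hx
  have hxK : x ∈ tsupport χ := by
    by_contra h
    have h2 : Crit W f x := hc.congr hx.1 (hg.differentiable (by simp) x)
      (hS.sm.differentiable (by simp) x) ((hout x h).symm.filter_mono nhdsWithin_le_nhds)
    have h3 : f x ∈ Icc a b := (hout x h).eq_of_nhds ▸ hx.2
    have h4 : χ x = 1 := hV1 (hZV ⟨⟨hx.1, h3⟩, h2, hxB⟩)
    exact h (subset_tsupport χ (by simp [h4]))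
  have hxA : x ∈ (W ∩ f ⁻¹' Icc a b) ∩ tsupport χ :=
    ⟨⟨hx.1, Ioo_subset_Icc_self (hK hxK).1⟩, hxK⟩
  have hxV : x ∈ V := by
    by_contra h
    exact e3 x ⟨hxA, h⟩ hx.1 hc
  have h5 : (fun y => G (y, l)) =ᶠ[𝓝 x] fun y => f y + l y := by
    filter_upwards [hV.mem_nhds hxV] with y hy
    have : χ y = 1 := hV1 hy
    simp [G, this]
  obtain ⟨φ, ψ, hch, hi⟩ := hgen l hl x hx.1 (hc.congr hx.1 (hg.differentiable (by simp) x)
    ((hS.sm.add l.contDiff).differentiable (by simp) x) (h5.symm.filter_mono nhdsWithin_le_nhds))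
  have h6 : (fun y => G (y, l)) ∘ φ =ᶠ[𝓝 (ψ x)] (fun y => f y + l y) ∘ φ := by
    refine h5.comp_tendsto ?_
    simpa [hch.self hx.1] using hch.smφ.continuous.tendsto (ψ x)
  refine top_mchart hS.sub hx.1 hch hg hc ?_ (e2 x hxA hx.1 hc)
  rw [(h6.fderiv (𝕜 := ℝ)).fderiv_eq]
  exact hi

theorem Slab.near {d : ℕ} {W : Set E} {f g : E → ℝ} {a b : ℝ} {ν : E → E}
    (hS : Slab d W f a b ν) (hg : ContDiff ℝ ∞ g) (h1 : ∀ x ∈ W, f x ∈ Ioo a b → g x ∈ Ioo a b)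
    (h2 : ∀ x ∈ W, f x ∉ Ioo a b → g =ᶠ[𝓝 x] f) :
    Slab d W g a b ν ∧ W ∩ g ⁻¹' Icc a b = W ∩ f ⁻¹' Icc a b ∧
      Lev W g a = Lev W f a ∧ Lev W g b = Lev W f b := by
  have key : ∀ s : Set ℝ, Ioo a b ⊆ s ∨ Disjoint (Ioo a b) s → W ∩ g ⁻¹' s = W ∩ f ⁻¹' s := by
    intro s hs
    ext x
    refine and_congr_right fun hx => ?_
    by_cases h : f x ∈ Ioo a b
    · rcases hs with hs | hs
      · exact iff_of_true (hs (h1 x hx h)) (hs h)
      · exact iff_of_false (disjoint_left.1 hs (h1 x hx h)) (disjoint_left.1 hs h)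
    · rw [mem_preimage, mem_preimage, (h2 x hx h).eq_of_nhds]
  have k1 := key (Icc a b) (Or.inl Ioo_subset_Icc_self)
  have k2 := key {a, b} (Or.inr (by simp))
  refine ⟨⟨hS.sub, hg, hS.le, k1 ▸ hS.cpt, k2 ▸ hS.cν, fun x hx => ?_⟩, k1,
    key {a} (Or.inr (by simp)), key {b} (Or.inr (by simp))⟩
  rw [k2] at hx
  have h3 : f x ∉ Ioo a b := by
    rcases hx.2 with h | h <;> simp [show f x = _ from h]
  rw [(h2 x hx.1 h3).fderiv_eq]
  exact hS.tν x hx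

/-- Relative Morsification with an index bound. -/
theorem top_morsify {d k : ℕ} {W : Set E} {f : E → ℝ} {a b : ℝ} {ν : E → E}
    (hS : Slab d W f a b ν) {B : Set E} (hB : B.Finite)
    (hM : ∀ x ∈ B, x ∈ W ∧ ∃ i j, MChart W f x i j)
    (hp : ∀ x ∈ W ∩ f ⁻¹' Icc a b, Crit W f x → x ∉ B → PosAt d k W f x) :
    ∃ g : E → ℝ, Slab d W g a b ν ∧ W ∩ g ⁻¹' Icc a b = W ∩ f ⁻¹' Icc a b ∧
      Lev W g a = Lev W f a ∧ Lev W g b = Lev W f b ∧
      (∀ x, x ∈ B ∨ f x ∉ Ioo a b → g =ᶠ[𝓝 x] f) ∧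
      ∀ x ∈ W ∩ g ⁻¹' Icc a b, Crit W g x → x ∉ B →
        ∃ i j, i + j = d ∧ i ≤ k ∧ MChart W g x i j := by
  obtain ⟨g, h1, h2, h3, h4⟩ := top_mpert hS hB (fun x hx => (hM x hx).2) hp
  obtain ⟨h5, h6, h7, h8⟩ := hS.near h1 (fun x _ => h2 x) fun x _ hx => h3 x (Or.inr hx)
  exact ⟨g, h5, h6, h7, h8, h3, h4⟩

/-- Every slab carries a Morse function. -/
theorem top_morsify0 {d : ℕ} {W : Set E} {f : E → ℝ} {a b : ℝ} {ν : E → E}
    (hS : Slab d W f a b ν) :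
    ∃ g : E → ℝ, Slab d W g a b ν ∧ W ∩ g ⁻¹' Icc a b = W ∩ f ⁻¹' Icc a b ∧
      Lev W g a = Lev W f a ∧ Lev W g b = Lev W f b ∧
      {x | x ∈ W ∩ g ⁻¹' Icc a b ∧ Crit W g x}.Finite ∧
      ∀ x ∈ W ∩ g ⁻¹' Icc a b, Crit W g x → ∃ i j, i + j = d ∧ MChart W g x i j := by
  obtain ⟨g, h1, h2, h3, h4, -, h5⟩ := top_morsify (k := d) hS finite_empty (by simp)
    fun x hx _ _ => PosAt.triv f hx.1 le_rfl
  have h6 : ∀ x ∈ W ∩ g ⁻¹' Icc a b, Crit W g x → ∃ i j, i + j = d ∧ MChart W g x i j := by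
    intro x hx hc
    obtain ⟨i, j, h6, -, h7⟩ := h5 x hx hc (notMem_empty x)
    exact ⟨i, j, h6, h7⟩
  refine ⟨g, h1, h2, h3, h4, top_crit_finite h1.sub h1.sm h1.cpt inter_subset_left
    fun x hx hc => ?_, h6⟩
  obtain ⟨i, j, -, h7⟩ := h6 x hx hc
  exact ⟨i, j, h7⟩

end Pool.Agent.Lib.MP_ccffa6_gt
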