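import Pool.Agent.Lib.MP_ccffa6_gt.TOP.MDefs

/-! Definitions and sub-block statements of block TOP. -/

open Set Filter Topology Metric
open scoped ContDiff RealInnerProductSpace

noncomputable section

namespace Pool.Agent.Lib.MP_ccffa6_gt

variable {E : Type} [NormedAddCommGroup E] [NormedSpace ℝ E]
  {E' : Type} [NormedAddCommGroup E'] [NormedSpace ℝ E']
  {E₂ : Type} [NormedAddCommGroup E₂] [NormedSpace ℝ E₂]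
  {K : Type} [NormedAddCommGroup K] [NormedSpace ℝ K]

/-- All critical points of the slab have a Morse chart. -/
def Morse (d : ℕ) (W : Set E) (f : E → ℝ) (a b : ℝ) : Prop :=
  ∀ x ∈ W ∩ f ⁻¹' Icc a b, Crit W f x → ∃ i k, i + k = d ∧ MChart W f x i k

/-- Critical points of the slab without a Morse chart of index at most `l`. -/
def Bad (d l : ℕ) (W : Set E) (f : E → ℝ) (a b : ℝ) : Set E :=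
  {x | x ∈ W ∩ f ⁻¹' Icc a b ∧ Crit W f x ∧ ¬ ∃ i k, i + k = d ∧ i ≤ l ∧ MChart W f x i k}

/-- The geometric part of a tube. -/
structure TubeG (j m : ℕ) (W : Set E) (ε : ℝ) (T : Rd (j + 1) × Rd m → E)
    (Λ : E → Rd (j + 1) × Rd m) : Prop where
  hε : 0 < ε
  smT : ContDiff ℝ ∞ T
  smΛ : ContDiff ℝ ∞ Λ
  mem : ∀ σ y, ‖σ‖ = 1 → ‖y‖ < ε → T (σ, y) ∈ W ∧ Λ (T (σ, y)) = (σ, y)
  op : ∃ O, IsOpen O ∧ O ∩ W = T '' (sphere 0 1 ×ˢ ball 0 ε)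
  bij : ∀ σ y, ‖σ‖ = 1 → ‖y‖ < ε →
    BijOn (fderiv ℝ T (σ, y)) {q | ⟪σ, q.1⟫ = 0} (Tan W (T (σ, y)))

/-- The data `r, Φ` are the pull-back of `R, Ψ` on the closed tube of radius `ρ`. -/
structure Flat {j m : ℕ} (T : Rd (j + 1) × Rd m → E) (ρ : ℝ) (M : Set E') (r : E → E')
    (Φ : E → (E × (ℝ × K)) →L[ℝ] ((E' × ℝ) × (ℝ × K))) (R : Rd (j + 1) → E')
    (Ψ : Rd (j + 1) → (Rd (j + 1) × Rd m × K) →L[ℝ] ((E' × ℝ) × (ℝ × K))) : Prop where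
  cR : ContinuousOn R (closedBall 0 1)
  mR : MapsTo R (closedBall 0 1) M
  cΨ : ContinuousOn Ψ (closedBall 0 1)
  bΨ : ∀ w ∈ closedBall (0 : Rd (j + 1)) 1, BijOn (Ψ w) univ (pl (T1 M (R w)) (ℝ × K))
  eR : ∀ σ y, ‖σ‖ = 1 → ‖y‖ ≤ ρ → r (T (σ, y)) = R σ
  eΨ : ∀ σ y, ‖σ‖ = 1 → ‖y‖ ≤ ρ → ∀ u z k, Ψ σ (u, z, k) =
    Φ (T (σ, y)) (fderiv ℝ T (σ, y) (u - ⟪σ, u⟫ • σ, z), (⟪σ, u⟫, k))

/-- The new function `G` on the tube and the function `V` on the filling. -/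
structure TubeFn {j m : ℕ} (F G : Rd (j + 1) × Rd m → ℝ) (V : Rd (j + 1) → ℝ)
    (a b ε ρ ρ' : ℝ) : Prop where
  hρ : 0 < ρ
  hρ' : ρ < ρ'
  hε : ρ' < ε
  smG : ContDiff ℝ ∞ G
  smV : ContDiff ℝ ∞ V
  out : ∀ σ y, ρ' ≤ ‖y‖ → G (σ, y) = F (σ, y)
  memG : ∀ σ y, ‖σ‖ = 1 → ‖y‖ < ε → G (σ, y) ∈ Ioo a b
  memV : ∀ w, ‖w‖ ≤ ρ → V w ∈ Ioo a b
  regV : ∀ w, ‖w‖ ≤ ρ → fderiv ℝ V w ≠ 0
  shell : ∀ σ θ (t : ℝ), ‖σ‖ = 1 → ‖θ‖ = 1 → ρ / 2 ≤ t → t ≤ ρ → G (σ, t • θ) = V (t • σ)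
  crit : ∀ σ y, ‖σ‖ = 1 → ‖y‖ < ε → y ≠ 0 →
    (∀ q : Rd (j + 1) × Rd m, ⟪σ, q.1⟫ = 0 → fderiv ℝ G (σ, y) q = 0) →
    ∀ z : Rd m, z ≠ 0 → ⟪y, z⟫ = 0 → 0 < fderiv ℝ (fderiv ℝ G) (σ, y) (0, z) (0, z)

/-- The tube trick and the filling, pure calculus. -/
def G1Stmt : Prop :=
  ∀ (j m : ℕ) (F : Rd (j + 1) × Rd m → ℝ) (e : Rd (j + 1)) (a b c ε κ δ : ℝ),
    ContDiff ℝ ∞ F → ‖e‖ = 1 → 0 < ε → 0 < κ → 0 < δ →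
    (∀ σ y, ‖σ‖ = 1 → ‖y‖ < ε → F (σ, y) ∈ Ioo a b) →
    (∀ σ y, ‖σ‖ = 1 → ‖y‖ < ε → ⟪e, σ⟫ < -1 + δ →
      F (σ, y) = c + κ * (1 + ⟪e, σ⟫) - ‖y‖ ^ 2) →
    (∀ σ, ‖σ‖ = 1 → σ ≠ -e → c < F (σ, 0)) →
    (∀ σ y, ‖σ‖ = 1 → ‖y‖ < ε →
      (∀ q : Rd (j + 1) × Rd m, ⟪σ, q.1⟫ = 0 → fderiv ℝ F (σ, y) q = 0) → σ = -e ∧ y = 0) →
    ∃ G V ρ ρ', TubeFn F G V a b ε ρ ρ'

/-- The part of a normal bordism which does not mention the two levels. -/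
structure Core (d : ℕ) (W : Set E) (f : E → ℝ) (a b : ℝ) (M : Set E') (r : E → E')
    (Φ : E → (E × K) →L[ℝ] ((E' × ℝ) × K)) : Prop where
  sub : IsSub d W
  sm : ContDiff ℝ ∞ f
  cpt : IsCompact (W ∩ f ⁻¹' Icc a b)
  cr : ContinuousOn r (W ∩ f ⁻¹' Icc a b)
  mr : MapsTo r (W ∩ f ⁻¹' Icc a b) M
  cΦ : ContinuousOn Φ (W ∩ f ⁻¹' Icc a b)
  bΦ : ∀ p ∈ W ∩ f ⁻¹' Icc a b, BijOn (Φ p) (pl (Tan W p) K) (pl (T1 M (r p)) K)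

/-- Two bordisms which agree near the two levels, through a linear embedding `ι`. -/
structure Ends (W : Set E) (f : E → ℝ) (W₂ : Set E₂) (f₂ : E₂ → ℝ) (a b : ℝ) (ι : E →L[ℝ] E₂)
    (π : E₂ →L[ℝ] E) (r : E → E') (Φ : E → (E × K) →L[ℝ] ((E' × ℝ) × K)) (r₂ : E₂ → E')
    (Φ₂ : E₂ → (E₂ × K) →L[ℝ] ((E' × ℝ) × K)) : Prop where
  inv : ∀ x, π (ι x) = x
  leva : Lev W₂ f₂ a = ι '' Lev W f a
  levb : Lev W₂ f₂ b = ι '' Lev W f b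
  loc : ∀ x ∈ W ∩ f ⁻¹' {a, b}, W₂ =ᶠ[𝓝 (ι x)] ι '' W
  fn : ∀ x ∈ W ∩ f ⁻¹' {a, b}, ∀ᶠ y in 𝓝[W] x, f₂ (ι y) = f y
  er : ∀ x ∈ W ∩ f ⁻¹' {a, b}, r₂ (ι x) = r x
  eΦ : ∀ x ∈ W ∩ f ⁻¹' {a, b}, ∀ v ∈ Tan W x, ∀ k, Φ₂ (ι x) (ι v, k) = Φ x (v, k)

/-- A normal bordism with fixed `K, η, r, Φ` whose lower level is stably good. -/
def Pk (n : ℕ) (η : Bil K) (M : Set E') (ΩM : E' → Bil (E' × ℝ)) (W : Set E) (f : E → ℝ)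
    (a b : ℝ) (r : E → E') (Φ : E → (E × K) →L[ℝ] ((E' × ℝ) × K)) : Prop :=
  ∃ (ν : E → E) (Ωa : E → Bil (E × ℝ)) (φ : E → E') (ψ : E' → E),
    Slab (2 * n + 2) W f a b ν ∧ NDat (2 * n + 2) W f a b M φ ψ r Φ ∧ ND ⊤ η ∧
    Formal (Lev W f a) Ωa ∧ Formal M ΩM ∧ SGood n (Lev W f a) Ωa ∧
    NDHtpy (Lev W f a) (fun x => pl (T1 (Lev W f a) x) K) (fun x => osum (Ωa x) η)
      (fun x => (osum (ΩM (r x)) η).bilinearComp ((Φ x).comp (incl (ν x) K))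
        ((Φ x).comp (incl (ν x) K))) ∧
    NDHtpy (Lev W f b) (fun x => pl (T1 (Lev W f b) x) K) (fun x => osum (pb2 φ ΩM x) η)
      (fun x => (osum (ΩM (r x)) η).bilinearComp ((Φ x).comp (incl (ν x) K))
        ((Φ x).comp (incl (ν x) K)))

/-- The surgered manifold `W₂`: the union of a copy `α` of `W` minus the closed tube of radius
`ρ / 2` and of a copy `β` of `ball ρ × sphere`. -/
structure Surg {j m : ℕ} (W : Set E) (T : Rd (j + 1) × Rd m → E) (ρ ρ' : ℝ) (W₂ : Set E₂)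
    (ι : E →L[ℝ] E₂) (π : E₂ →L[ℝ] E) (α : E → E₂) (β : Rd (j + 1) × Rd m → E₂)
    (ϖ : E₂ →L[ℝ] Rd (j + 1) × Rd m) (OA OB : Set E₂) : Prop where
  smα : ContDiff ℝ ∞ α
  smβ : ContDiff ℝ ∞ β
  πι : ∀ x, π (ι x) = x
  πα : ∀ x, π (α x) = x
  ϖβ : ∀ q, ϖ (β q) = q
  far : ∀ x ∈ W, x ∉ T '' (sphere 0 1 ×ˢ ball 0 ρ') → α x = ι x
  opA : IsOpen OA
  opB : IsOpen OB
  eqA : OA ∩ W₂ = α '' (W \ T '' (sphere 0 1 ×ˢ closedBall 0 (ρ / 2)))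
  eqB : OB ∩ W₂ = β '' (ball 0 ρ ×ˢ sphere 0 1)
  cov : W₂ ⊆ OA ∪ OB
  glue : ∀ σ θ (t : ℝ), ‖σ‖ = 1 → ‖θ‖ = 1 → ρ / 2 < t → t < ρ → α (T (σ, t • θ)) = β (t • σ, θ)
  only : ∀ w θ, ‖w‖ < ρ → ‖θ‖ = 1 → β (w, θ) ∈ OA → ρ / 2 < ‖w‖

/-- What one surgery produces. -/
structure SurgOut (d k : ℕ) (W : Set E) (f : E → ℝ) (a b : ℝ) (p : E) (M : Set E') (r : E → E')
    (Φ : E → (E × K) →L[ℝ] ((E' × ℝ) × K)) (W₂ : Set E₂) (f₂ : E₂ → ℝ) (ι : E →L[ℝ] E₂)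
    (π : E₂ →L[ℝ] E) (r₂ : E₂ → E') (Φ₂ : E₂ → (E₂ × K) →L[ℝ] ((E' × ℝ) × K)) : Prop where
  core : Core d W₂ f₂ a b M r₂ Φ₂
  ends : Ends W f W₂ f₂ a b ι π r Φ r₂ Φ₂
  old : ∀ x ∈ W ∩ f ⁻¹' Icc a b, Crit W f x → x ≠ p → ι x ∈ W₂ ∧ f₂ (ι x) = f x ∧
    ∀ i l, MChart W f x i l → MChart W₂ f₂ (ι x) i l
  new : ∀ z ∈ W₂ ∩ f₂ ⁻¹' Icc a b, Crit W₂ f₂ z →
    (∃ x ∈ W ∩ f ⁻¹' Icc a b, Crit W f x ∧ x ≠ p ∧ z = ι x) ∨ PosAt d k W₂ f₂ z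

/-- One surgery along a framed tube. -/
def SurgStmt : Prop :=
  ∀ (E : Type) [NormedAddCommGroup E] [NormedSpace ℝ E] [FiniteDimensional ℝ E]
    (E' : Type) [NormedAddCommGroup E'] [NormedSpace ℝ E'] [FiniteDimensional ℝ E']
    (K : Type) [NormedAddCommGroup K] [NormedSpace ℝ K] [FiniteDimensional ℝ K]
    (j m : ℕ) (W : Set E) (f : E → ℝ) (a b : ℝ) (p : E) (M : Set E') (r : E → E')
    (Φ : E → (E × (ℝ × K)) →L[ℝ] ((E' × ℝ) × (ℝ × K))) (e : Rd (j + 1)) (ε κ δ : ℝ)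
    (T : Rd (j + 1) × Rd (m + 1) → E) (Λ : E → Rd (j + 1) × Rd (m + 1)) (R : Rd (j + 1) → E')
    (Ψ : Rd (j + 1) → (Rd (j + 1) × Rd (m + 1) × K) →L[ℝ] ((E' × ℝ) × (ℝ × K))),
    Core (j + m + 1) W f a b M r Φ → Tube j (m + 1) W f a b p M r Φ e ε κ δ T Λ R Ψ →
    ∃ (E₂ : Type) (_ : NormedAddCommGroup E₂) (_ : NormedSpace ℝ E₂) (_ : FiniteDimensional ℝ E₂)
      (W₂ : Set E₂) (f₂ : E₂ → ℝ) (ι : E →L[ℝ] E₂) (π : E₂ →L[ℝ] E) (r₂ : E₂ → E')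
      (Φ₂ : E₂ → (E₂ × (ℝ × K)) →L[ℝ] ((E' × ℝ) × (ℝ × K))),
      SurgOut (j + m + 1) (j + 1) W f a b p M r Φ W₂ f₂ ι π r₂ Φ₂

end Pool.Agent.Lib.MP_ccffa6_gt
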