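import Pool.Agent.Lib.MP_ccffa6_gt.TOP.G1b
import Pool.Agent.Lib.MP_ccffa6_gt.TOP.Dat

/-! The tube trick and the filling. -/

open Set Filter Topology Metric
open scoped ContDiff RealInnerProductSpace

noncomputable section

namespace Pool.Agent.Lib.MP_ccffa6_gt

theorem top_g1_bd2 {Z : Type} [NormedAddCommGroup Z] [NormedSpace ℝ Z] {F : Z → ℝ}
    (hF : ContDiff ℝ ∞ F) {Q : Set Z} (hQ : IsCompact Q) :
    ∃ C : ℝ, ∀ q ∈ Q, ∀ v, |fderiv ℝ (fderiv ℝ F) q v v| ≤ C * ‖v‖ ^ 2 := by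
  have c2 : Continuous (fderiv ℝ (fderiv ℝ F)) :=
    (hF.fderiv_right (m := 1) (by norm_cast)).continuous_fderiv (by simp)
  obtain ⟨C, hC⟩ := hQ.exists_bound_of_continuousOn (E := Z →L[ℝ] Z →L[ℝ] ℝ)
    (f := fderiv ℝ (fderiv ℝ F)) c2.continuousOn
  refine ⟨C, fun q hq v => ?_⟩
  have := (fderiv ℝ (fderiv ℝ F) q).le_opNorm₂ v v
  rw [Real.norm_eq_abs, mul_assoc, ← sq] at this
  exact this.trans (mul_le_mul_of_nonneg_right (hC q hq) (by positivity))

theorem top_g1_low0 {Z : Type} [NormedAddCommGroup Z] [NormedSpace ℝ Z] {D : Z → Z →L[ℝ] ℝ}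
    (hD : Continuous D) {B : Set Z} (hB : IsCompact B) (h : ∀ q ∈ B, D q ≠ 0) :
    ∃ a : ℝ, 0 < a ∧ ∀ q ∈ B, ∀ M : ℝ, 0 ≤ M → (∀ p, |D q p| ≤ M * ‖p‖) → a ≤ M := by
  obtain ⟨a, ha, hle⟩ := hB.exists_forall_le' (a := 0) hD.norm.continuousOn fun q hq =>
    norm_pos_iff.2 (h q hq)
  exact ⟨a, ha, fun q hq M hM hb =>
    (hle q hq).trans (ContinuousLinearMap.opNorm_le_bound _ hM hb)⟩

section

variable {X Y : Type} [NormedAddCommGroup X] [InnerProductSpace ℝ X]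
  [NormedAddCommGroup Y] [InnerProductSpace ℝ Y]

/-- No critical point off the core over the cap. -/
theorem top_g1_cap {F : X × Y → ℝ} (hF : ContDiff ℝ ∞ F) {e : X} (he : ‖e‖ = 1)
    {c ε κ δ k L ρ : ℝ} (hκ : 0 < κ) (hk : 0 < k) (hL : 0 ≤ L)
    (cap : ∀ σ y, ‖σ‖ = 1 → ‖y‖ < ε → ⟪e, σ⟫ < -1 + δ →
      F (σ, y) = c + κ * (1 + ⟪e, σ⟫) - ‖y‖ ^ 2)
    {σ : X} {y : Y} (hσ : ‖σ‖ = 1) (hy : ‖y‖ < ε) (h1 : ⟪e, σ⟫ < -1 + δ) (h2 : ⟪e, σ⟫ < 0)
    (hy0 : y ≠ 0) (hc : ∀ q : X × Y, ⟪σ, q.1⟫ = 0 → fderiv ℝ (topG F e c k L ρ) (σ, y) q = 0) :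
    False := by
  have hS0 := Real.smoothTransition.nonneg (‖y‖ ^ 2 / ρ ^ 2 - 1)
  have hS1 := Real.smoothTransition.le_one (‖y‖ ^ 2 / ρ ^ 2 - 1)
  by_cases h : σ = ⟪e, σ⟫ • e
  · have h3 : ⟪e, σ⟫ = -1 := by
      have := congrArg norm h
      rw [hσ, norm_smul, he, mul_one, Real.norm_eq_abs, abs_of_neg h2] at this
      linarith
    have h4 := top_g1_lineF (hF.differentiable (by simp)) (σ, y) (0, y)
    have h5 := (top_g1_dsq (σ, y) ((0 : X), y)).const_sub c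
    have hcn : Continuous fun s : ℝ => ‖((σ, y) + s • ((0 : X), y)).2‖ := by fun_prop
    have h6 : ∀ᶠ s : ℝ in 𝓝 0, ‖((σ, y) + s • ((0 : X), y)).2‖ < ε :=
      hcn.continuousAt.eventually_lt continuousAt_const (by simpa using hy)
    have h7 := h4.unique (h5.congr_of_eventuallyEq (by
      filter_upwards [h6] with s hs
      have e1 : (σ, y) + s • ((0 : X), y) = (σ, ((σ, y) + s • ((0 : X), y)).2) := by simp
      rw [e1, cap _ _ hσ hs h1, h3]
      ring))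
    have h8 := hc (0, y) (inner_zero_right _)
    rw [topG_fderiv hF, topU_fderiv, h7, cap _ _ hσ hy h1, topU] at h8
    simp only [h3, inner_zero_right, real_inner_self_eq_norm_sq] at h8
    have h9 : 0 < ‖y‖ ^ 2 := pow_pos (norm_pos_iff.2 hy0) 2
    nlinarith
  · have hσ0 : σ ≠ 0 := fun h0 => by simp [h0] at hσ
    obtain ⟨n, hn, ho, hp⟩ := top_g1_dir he hσ0 h
    have d1 := top_g1_circ_der σ n
    have d2 : HasDerivAt (fun t : ℝ => ⟪e, Real.cos t • σ + Real.sin t • n⟫) ⟪e, n⟫ 0 := by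
      simpa using (hasDerivAt_const (0 : ℝ) e).inner ℝ d1
    have d3 := HasFDerivAt.comp_hasDerivAt (0 : ℝ)
      (f := fun t : ℝ => (Real.cos t • σ + Real.sin t • n, y)) (l := F) (l' := fderiv ℝ F (σ, y))
      (by simpa using (hF.differentiable (by simp) (σ, y)).hasFDerivAt)
      (d1.prodMk (hasDerivAt_const (0 : ℝ) y))
    have d4 := (((d2.const_add 1).const_mul κ).const_add c).sub_const (‖y‖ ^ 2)
    have h6 : ∀ᶠ t : ℝ in 𝓝 0, ⟪e, Real.cos t • σ + Real.sin t • n⟫ < -1 + δ :=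
      d2.continuousAt.eventually_lt continuousAt_const (by simpa using h1)
    have h7 := d3.unique (d4.congr_of_eventuallyEq (by
      filter_upwards [h6] with t ht
      exact cap _ _ (top_g1_circ hσ (hn.trans hσ) ho t) hy ht))
    have h8 := hc (n, 0) ho
    rw [topG_fderiv hF, topU_fderiv, h7] at h8
    simp only [inner_zero_right, mul_zero, add_zero] at h8
    have h9 : 0 < k + L * ‖y‖ ^ 2 := by positivity
    exact (top_g1_comb hS0 hS1 (mul_pos h9 hp) (mul_pos hκ hp)).ne' h8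

/-- A uniform lower bound for the tangential derivative. -/
theorem top_g1_low [FiniteDimensional ℝ X] [FiniteDimensional ℝ Y] {F : X × Y → ℝ}
    (hF : ContDiff ℝ ∞ F) {B : Set (X × Y)} (hB : IsCompact B) (h1 : ∀ q ∈ B, ‖q.1‖ = 1)
    (h : ∀ q ∈ B, ¬ ∀ p : X × Y, ⟪q.1, p.1⟫ = 0 → fderiv ℝ F q p = 0) :
    ∃ c₁ : ℝ, 0 < c₁ ∧ ∀ q ∈ B, ∀ M : ℝ, 0 ≤ M →
      (∀ p : X × Y, ⟪q.1, p.1⟫ = 0 → |fderiv ℝ F q p| ≤ M * ‖p‖) → c₁ ≤ M := by
  let P : X → X × Y →L[ℝ] X × Y := fun σ => ContinuousLinearMap.id ℝ _ -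
    ((innerSL ℝ σ).comp (ContinuousLinearMap.fst ℝ X Y)).smulRight (σ, 0)
  have hP : ∀ σ p, P σ p = (p.1 - ⟪σ, p.1⟫ • σ, p.2) := fun σ p => by
    ext <;> simp [P]
  have hc : Continuous fun q : X × Y => (fderiv ℝ F q).comp (P q.1) := by
    refine continuous_clm_apply.2 fun p => ?_
    simp only [ContinuousLinearMap.comp_apply, hP]
    exact (hF.continuous_fderiv (by simp)).clm_apply (by fun_prop)
  obtain ⟨a, ha, hle⟩ := top_g1_low0 hc hB fun q hq h0 => h q hq fun p hp => by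
    have := congrArg (fun T : X × Y →L[ℝ] ℝ => T p) h0
    simpa [hP, hp] using this
  refine ⟨a / 2, by positivity, fun q hq M hM hb => ?_⟩
  have : a ≤ M * 2 := by
    refine hle q hq _ (by positivity) fun p => ?_
    rw [ContinuousLinearMap.comp_apply, mul_assoc]
    refine (hb _ ?_).trans (mul_le_mul_of_nonneg_left ?_ hM)
    · rw [hP, inner_sub_right, inner_smul_right, real_inner_self_eq_norm_sq, h1 q hq]
      ring
    · rw [hP, Prod.norm_def]
      have a1 := norm_fst_le p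
      have a2 := norm_snd_le p
      have a3 := abs_real_inner_le_norm q.1 p.1
      have a4 := norm_sub_le p.1 (⟪q.1, p.1⟫ • q.1)
      rw [norm_smul, Real.norm_eq_abs, h1 q hq] at a4
      rw [h1 q hq] at a3
      exact max_le (by linarith) (by linarith [norm_nonneg p])
  linarith

/-- The estimate away from the cap. -/
theorem top_g1_far {F : X × Y → ℝ} (hF : ContDiff ℝ ∞ F) {e : X} (he : ‖e‖ = 1)
    {c k L ρ C γ c₁ : ℝ} (hk : 0 < k) (hL : 0 ≤ L) (hρ : 0 < ρ) (hC : 0 < C) (hγ : 0 < γ)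
    {σ : X} {y z : Y} (hσ : ‖σ‖ = 1) (hy : ‖y‖ ≤ 2 * ρ)
    (hK : C + 1 ≤ L * (1 + ⟪e, σ⟫) - 1) (g1 : γ ≤ F (σ, y) - topU e c k L (σ, y))
    (g2 : F (σ, y) - topU e c k L (σ, y) ≤ C + 1)
    (hb : |fderiv ℝ (fderiv ℝ F) (σ, y) (0, z) (0, z)| ≤ C * ‖z‖ ^ 2)
    (low : ∀ M : ℝ, 0 ≤ M →
      (∀ p : X × Y, ⟪σ, p.1⟫ = 0 → |fderiv ℝ F (σ, y) p| ≤ M * ‖p‖) → c₁ ≤ M)
    (s1 : k + 4 * L * ρ ^ 2 + 8 * L * ρ ≤ c₁ / 4) (s2 : 8 * C * (C + 1) * ρ < γ * c₁)
    (hc : ∀ q : X × Y, ⟪σ, q.1⟫ = 0 → fderiv ℝ (topG F e c k L ρ) (σ, y) q = 0)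
    (hz : z ≠ 0) (ho : ⟪y, z⟫ = 0) :
    0 < fderiv ℝ (fderiv ℝ (topG F e c k L ρ)) (σ, y) (0, z) (0, z) := by
  have hS0 := Real.smoothTransition.nonneg (‖y‖ ^ 2 / ρ ^ 2 - 1)
  have hS1 := Real.smoothTransition.le_one (‖y‖ ^ 2 / ρ ^ 2 - 1)
  have hs : 0 ≤ deriv Real.smoothTransition (‖y‖ ^ 2 / ρ ^ 2 - 1) / ρ ^ 2 :=
    div_nonneg (top_g1_dS _) (by positivity)
  simp only [topG_fderiv hF, topU_fderiv] at hc
  rw [topG_second hF e c k L ρ σ ho]
  have hx : ⟪e, σ⟫ ≤ 1 := by simpa [he, hσ] using real_inner_le_norm e σ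
  generalize Real.smoothTransition (‖y‖ ^ 2 / ρ ^ 2 - 1) = S at hS0 hS1 hc ⊢
  generalize deriv Real.smoothTransition (‖y‖ ^ 2 / ρ ^ 2 - 1) / ρ ^ 2 = s at hs hc ⊢
  generalize F (σ, y) - topU e c k L (σ, y) = Γ at g1 g2 hc ⊢
  have hK2 : L * (1 + ⟪e, σ⟫) - 1 ≤ 2 * L := by nlinarith
  generalize L * (1 + ⟪e, σ⟫) - 1 = K at hK hK2 hc ⊢
  have hΓ : 0 < Γ := hγ.trans_le g1
  have hA : C < 2 * (1 - S) * K + 2 * s * Γ := by
    rcases le_or_gt S (1 / 2) with h | h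
    · nlinarith [mul_nonneg hs hΓ.le]
    · have hr : ‖y‖ ^ 2 ≤ 4 * ρ ^ 2 := by nlinarith [norm_nonneg y]
      have hM := low (2 * (k + 4 * L * ρ ^ 2 + 8 * L * ρ + 4 * s * (C + 1) * ρ)) (by positivity)
        fun p hp => by
          have a0 := hc p hp
          have a1 : |⟪e, p.1⟫| ≤ ‖p‖ := by
            have := abs_real_inner_le_norm e p.1
            rw [he, one_mul] at this
            exact this.trans (norm_fst_le p)
          have a2 : |⟪y, p.2⟫| ≤ 2 * ρ * ‖p‖ := (abs_real_inner_le_norm y p.2).trans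
            (mul_le_mul hy (norm_snd_le p) (norm_nonneg _) (by positivity))
          have b1 : |(k + L * ‖y‖ ^ 2) * ⟪e, p.1⟫| ≤ (k + 4 * L * ρ ^ 2) * ‖p‖ := by
            rw [abs_mul, abs_of_nonneg (by positivity)]
            exact mul_le_mul (by nlinarith) a1 (abs_nonneg _) (by positivity)
          have b2 : |2 * K * ⟪y, p.2⟫| ≤ 8 * L * ρ * ‖p‖ := by
            rw [abs_mul, abs_of_nonneg (by linarith)]
            exact (mul_le_mul (show 2 * K ≤ 4 * L by linarith) a2 (abs_nonneg _)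
              (by positivity)).trans_eq (by ring)
          have b3 : |2 * s * Γ * ⟪y, p.2⟫| ≤ 4 * s * (C + 1) * ρ * ‖p‖ := by
            rw [abs_mul, abs_of_nonneg (by positivity)]
            exact (mul_le_mul (mul_le_mul_of_nonneg_left g2 (by positivity)) a2 (abs_nonneg _)
              (by positivity)).trans_eq (by ring)
          have b4 := (abs_add_le _ _).trans (add_le_add b1 b2)
          have b5 : |(1 - S) * ((k + L * ‖y‖ ^ 2) * ⟪e, p.1⟫ + 2 * K * ⟪y, p.2⟫)| ≤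
              (k + 4 * L * ρ ^ 2) * ‖p‖ + 8 * L * ρ * ‖p‖ := by
            rw [abs_mul, abs_of_nonneg (sub_nonneg.2 hS1)]
            exact (mul_le_of_le_one_left (abs_nonneg _) (by linarith)).trans b4
          have b6 : S * fderiv ℝ F (σ, y) p =
              -((1 - S) * ((k + L * ‖y‖ ^ 2) * ⟪e, p.1⟫ + 2 * K * ⟪y, p.2⟫) +
                2 * s * Γ * ⟪y, p.2⟫) := by linarith
          have b7 := (abs_add_le _ _).trans (add_le_add b5 b3)
          rw [← abs_neg, ← b6, abs_mul, abs_of_nonneg hS0] at b7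
          nlinarith [abs_nonneg (fderiv ℝ F (σ, y) p)]
      have a1 : c₁ ≤ 16 * s * (C + 1) * ρ := by linarith
      have a2 : C * (8 * (C + 1) * ρ) < 2 * s * γ * (8 * (C + 1) * ρ) := by
        nlinarith [mul_le_mul_of_nonneg_left a1 hγ.le]
      have a3 := lt_of_mul_lt_mul_right a2 (by positivity)
      nlinarith [mul_le_mul_of_nonneg_left g1 hs,
        mul_nonneg (sub_nonneg.2 hS1) (show 0 ≤ K by linarith)]
  have hz2 : 0 < ‖z‖ ^ 2 := pow_pos (norm_pos_iff.2 hz) 2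
  have a4 := (abs_le.1 hb).1
  nlinarith [mul_lt_mul_of_pos_left hA hz2, mul_le_mul_of_nonneg_left a4 hS0,
    mul_nonneg (sub_nonneg.2 hS1) (mul_pos hC hz2).le]

end

theorem top_g1_small {f : ℝ → ℝ} (hf : Continuous f) {a : ℝ} (h : f 0 < a) :
    ∀ᶠ x in 𝓝[>] (0 : ℝ), f x < a :=
  (hf.continuousAt.eventually_lt continuousAt_const h).filter_mono nhdsWithin_le_nhds

theorem top_g1 : G1Stmt := by
  intro j m F e a b c ε κ δ hF he hε hκ hδ mem cap up reg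
  have hee : ⟪e, -e⟫ = -1 := by rw [inner_neg_right, real_inner_self_eq_norm_sq, he]; norm_num
  have hc : c ∈ Ioo a b := by
    have h := mem (-e) 0 (by simpa using he) (by simpa using hε)
    rw [cap (-e) 0 (by simpa using he) (by simpa using hε) (by linarith), hee] at h
    simpa using h
  obtain ⟨d, hd0, hd1, hd2⟩ : ∃ d : ℝ, 0 < d ∧ d ≤ δ ∧ d ≤ 1 :=
    ⟨min δ 1, lt_min hδ one_pos, min_le_left _ _, min_le_right _ _⟩
  have hQ : IsCompact (closedBall (0 : Rd (j + 1)) 1 ×ˢ closedBall (0 : Rd m) ε) :=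
    (isCompact_closedBall _ _).prod (isCompact_closedBall _ _)
  have c1 : Continuous (fderiv ℝ F) := hF.continuous_fderiv (by simp)
  obtain ⟨C0, b0⟩ := hQ.exists_bound_of_continuousOn
    (hF.continuous.sub (continuous_const (y := c))).continuousOn
  obtain ⟨C1, b1⟩ := hQ.exists_bound_of_continuousOn c1.continuousOn
  obtain ⟨C2, b2⟩ := top_g1_bd2 hF hQ
  obtain ⟨C, hC, hC0, hC1, hC2⟩ : ∃ C : ℝ, 0 < C ∧ C0 ≤ C ∧ C1 ≤ C ∧ C2 ≤ C :=
    ⟨max (max 1 C0) (max C1 C2), by positivity, by simp, by simp, by simp⟩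
  have hB0 : IsCompact (sphere (0 : Rd (j + 1)) 1 ∩ {σ | d ≤ 1 + ⟪e, σ⟫}) :=
    (isCompact_sphere _ _).inter_right (isClosed_le continuous_const (by fun_prop))
  have hne : ∀ σ : Rd (j + 1), d ≤ 1 + ⟪e, σ⟫ → σ ≠ -e := by
    rintro σ h rfl
    linarith
  obtain ⟨μ, hμ, hμ'⟩ := hB0.exists_forall_le' (a := 0) (f := fun σ => F (σ, 0) - c)
    (Continuous.continuousOn (by have := hF.continuous; fun_prop))
    fun σ h => sub_pos.2 (up σ (by simpa using h.1) (hne σ h.2))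
  obtain ⟨c₁, hc₁, low⟩ := top_g1_low hF (hB0.prod (isCompact_closedBall (0 : Rd m) (ε / 2)))
    (fun q hq => by simpa using hq.1.1) fun q hq h => hne q.1 hq.1.2
      (reg q.1 q.2 (by simpa using hq.1.1)
        (lt_of_le_of_lt (by simpa using hq.2) (half_lt_self hε)) h).1
  obtain ⟨k, ⟨k1, k2, k3⟩, hk⟩ := (((top_g1_small (f := fun x => 8 * x) (a := μ) (by fun_prop)
    (by simpa)).and ((top_g1_small (f := fun x => 8 * x) (a := c₁) (by fun_prop) (by simpa)).and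
    (top_g1_small (f := fun x => c + 2 * x) (a := b) (by fun_prop) (by simpa using hc.2)))).and
    self_mem_nhdsWithin).exists
  have hk : 0 < k := hk
  obtain ⟨L, hL1, hLd⟩ : ∃ L : ℝ, 1 ≤ L ∧ C + 2 ≤ L * d := by
    refine ⟨(C + 2) / d, ?_, (div_mul_cancel₀ _ hd0.ne').ge⟩
    rw [le_div_iff₀ hd0]
    linarith
  obtain ⟨ρ, ⟨r1, r2, r3, r4, r5, r6, r7⟩, hρ⟩ := ((
    (top_g1_small (f := fun x => 4 * x) (a := ε) (by fun_prop) (by simpa)).and (
    (top_g1_small (f := fun x => 2 * C * x + 8 * L * x ^ 2) (a := μ / 2) (by fun_prop)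
      (by simpa)).and (
    (top_g1_small (f := fun x => 4 * L * x ^ 2 + 8 * L * x) (a := c₁ / 8) (by fun_prop)
      (by simpa)).and (
    (top_g1_small (f := fun x => 8 * C * (C + 1) * x) (a := μ / 4 * c₁) (by fun_prop)
      (by simp only [mul_zero]; positivity)).and (
    (top_g1_small (f := fun x => 4 * x ^ 2) (a := 1) (by fun_prop) (by simp)).and (
    (top_g1_small (f := fun x => a + 4 * x ^ 2) (a := c) (by fun_prop) (by simpa using hc.1)).and
    (top_g1_small (f := fun x => c + 2 * k + 8 * L * x ^ 2) (a := b) (by fun_prop)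
      (by simpa using k3)))))))).and self_mem_nhdsWithin).exists
  have hρ : 0 < ρ := hρ
  have hL0 : 0 ≤ L := by linarith
  have hU : ∀ (σ : Rd (j + 1)) (y : Rd m), ‖σ‖ = 1 → ‖y‖ ≤ 2 * ρ →
      c - 4 * ρ ^ 2 ≤ topU e c k L (σ, y) ∧ topU e c k L (σ, y) ≤ c + 2 * k + 8 * L * ρ ^ 2 := by
    intro σ y hσ hy
    have hx : |⟪e, σ⟫| ≤ 1 := by simpa [he, hσ] using abs_real_inner_le_norm e σ
    obtain ⟨x1, x2⟩ := abs_le.1 hx
    have hr : ‖y‖ ^ 2 ≤ 4 * ρ ^ 2 := by nlinarith [norm_nonneg y]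
    have u1 : 0 ≤ k * (1 + ⟪e, σ⟫) := mul_nonneg hk.le (by linarith)
    have u2 : k * (1 + ⟪e, σ⟫) ≤ k * 2 := mul_le_mul_of_nonneg_left (by linarith) hk.le
    have u3 : 0 ≤ L * (1 + ⟪e, σ⟫) := mul_nonneg hL0 (by linarith)
    have u4 : L * (1 + ⟪e, σ⟫) ≤ L * 2 := mul_le_mul_of_nonneg_left (by linarith) hL0
    have u5 := mul_le_mul u4 hr (sq_nonneg _) (by positivity)
    have u6 := mul_nonneg u3 (sq_nonneg ‖y‖)
    have u7 := sq_nonneg ‖y‖
    simp only [topU]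
    constructor <;> linarith
  refine ⟨topG F e c k L ρ, topV e c k L ρ, ρ, 2 * ρ, hρ, by linarith, by linarith,
    topG_smooth hF e c k L ρ, topV_smooth e c k L ρ,
    fun σ y hy => topG_out F e c k L hρ (by simp only; linarith), fun σ y hσ hy => ?_,
    fun w hw => ?_, fun w hw => topV_reg he c hk hL1 hρ hw, fun σ θ t hσ hθ t1 t2 => ?_,
    fun σ y hσ hy hy0 hcr z hz ho => ?_⟩
  · rcases le_total ‖y‖ (2 * ρ) with h | h
    · obtain ⟨u1, u2⟩ := hU σ y hσ h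
      have := (convex_Ioo a b).add_smul_sub_mem (x := topU e c k L (σ, y))
        ⟨by linarith, by linarith⟩ (mem σ y hσ hy)
        ⟨Real.smoothTransition.nonneg (‖y‖ ^ 2 / ρ ^ 2 - 1), Real.smoothTransition.le_one _⟩
      exact this
    · rw [topG_out F e c k L hρ (by simp only; linarith)]
      exact mem σ y hσ hy
  · obtain ⟨v1, v2⟩ := topV_mem he c hk hL0 hρ hw
    have := mul_nonneg hL0 (sq_nonneg ρ)
    exact ⟨by nlinarith, by nlinarith⟩
  · have ht : 0 ≤ t := le_trans (by positivity) t1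
    have hn : ‖t • θ‖ = t := by rw [norm_smul, hθ, mul_one, Real.norm_eq_abs, abs_of_nonneg ht]
    rw [topG_in F e c k L hρ (by simp only; rw [hn]; exact t2), topV_shell hσ c k L hρ t1, topU]
    simp only [hn]
  · rcases lt_or_ge (3 / 2 * ρ) ‖y‖ with h | h
    · have hev : topG F e c k L ρ =ᶠ[𝓝 (σ, y)] F := by
        have : ∀ᶠ q : Rd (j + 1) × Rd m in 𝓝 (σ, y), 3 / 2 * ρ < ‖q.2‖ :=
          continuousAt_const.eventually_lt (by fun_prop) h
        filter_upwards [this] with q hq using topG_out F e c k L hρ hq.le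
      rw [hev.fderiv_eq] at hcr
      exact absurd (reg σ y hσ hy hcr).2 hy0
    have hy2 : ‖y‖ ≤ 2 * ρ := by linarith
    rcases lt_or_ge (1 + ⟪e, σ⟫) d with h1 | h1
    · exact (top_g1_cap hF he hκ hk hL0 cap hσ hy (by linarith) (by linarith) hy0 hcr).elim
    have m1 : ∀ y' : Rd m, ‖y'‖ ≤ ε →
        (σ, y') ∈ closedBall (0 : Rd (j + 1)) 1 ×ˢ closedBall (0 : Rd m) ε :=
      fun y' h' => ⟨by simpa using hσ.le, by simpa using h'⟩
    have m2 : σ ∈ sphere (0 : Rd (j + 1)) 1 ∩ {σ | d ≤ 1 + ⟪e, σ⟫} := ⟨by simpa using hσ, h1⟩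
    obtain ⟨u1, u2⟩ := hU σ y hσ hy2
    have l1 := Convex.norm_image_sub_le_of_norm_fderiv_le (𝕜 := ℝ)
      (fun q _ => hF.differentiable (by simp) q) (fun q hq => (b1 q hq).trans hC1)
      ((convex_closedBall _ _).prod (convex_closedBall _ _)) (m1 0 (by simpa using hε.le))
      (m1 y hy.le)
    have l2 : ‖(σ, y) - (σ, (0 : Rd m))‖ = ‖y‖ := by simp [Prod.norm_def]
    rw [l2, Real.norm_eq_abs] at l1
    have l3 := (abs_le.1 l1).1
    have l4 := mul_le_mul_of_nonneg_left hy2 hC.le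
    have l5 := hμ' σ m2
    have l6 := (abs_le.1 ((b0 _ (m1 y hy.le)).trans hC0)).2
    simp only [Pi.sub_apply] at l5 l6
    refine top_g1_far hF he hk hL0 hρ hC (γ := μ / 4) (c₁ := c₁) (by positivity) hσ hy2
      (by nlinarith [mul_le_mul_of_nonneg_left h1 hL0]) (by linarith) (by linarith)
      ?_ (low (σ, y) ⟨m2, ?_⟩) (by linarith) r4 hcr hz ho
    · have := b2 _ (m1 y hy.le) (0, z)
      rw [show ‖((0 : Rd (j + 1)), z)‖ = ‖z‖ by simp [Prod.norm_def]] at this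
      exact this.trans (mul_le_mul_of_nonneg_right hC2 (sq_nonneg _))
    · rw [mem_closedBall_zero_iff]
      simp only
      linarith

end Pool.Agent.Lib.MP_ccffa6_gt
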