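import Pool.Agent.Lib.MP_ccffa6_gt.TOP.TubeF
import Pool.Agent.Lib.MP_ccffa6_gt.K.Lin

/-! Making the normal data constant in the normal direction of a thin tube. -/

open Set Filter Topology Metric
open scoped ContDiff RealInnerProductSpace

noncomputable section

namespace Pool.Agent.Lib.MP_ccffa6_gt

variable {E : Type} [NormedAddCommGroup E] [NormedSpace ℝ E] [FiniteDimensional ℝ E]
  {E' : Type} [NormedAddCommGroup E'] [NormedSpace ℝ E'] [FiniteDimensional ℝ E']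
  {E₂ : Type} [NormedAddCommGroup E₂] [NormedSpace ℝ E₂] [FiniteDimensional ℝ E₂]
  {K : Type} [NormedAddCommGroup K] [NormedSpace ℝ K] [FiniteDimensional ℝ K]

theorem top_norm_cut {α β : ℝ} (h : α < β) : ∃ τ : ℝ → ℝ, Continuous τ ∧
    (∀ t, 0 ≤ τ t ∧ τ t ≤ 1) ∧ (∀ t, t ≤ α → τ t = 0) ∧ ∀ t, β ≤ t → τ t = 1 := by
  have hp : 0 < β - α := sub_pos.2 h
  refine ⟨fun t => max 0 (min 1 ((t - α) / (β - α))), by fun_prop, fun t =>
    ⟨le_max_left _ _, max_le zero_le_one (min_le_left _ _)⟩, fun t ht => ?_, fun t ht => ?_⟩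
  · exact max_eq_left ((min_le_right _ _).trans
      (div_nonpos_of_nonpos_of_nonneg (sub_nonpos.2 ht) hp.le))
  · have : 1 ≤ (t - α) / (β - α) := by rw [le_div_iff₀ hp]; linarith
    show max 0 (min 1 ((t - α) / (β - α))) = 1
    rw [min_eq_left this]; exact max_eq_right zero_le_one

omit [FiniteDimensional ℝ E] [FiniteDimensional ℝ K] in
theorem top_norm_prod {S S' : Submodule ℝ E} {A : E →L[ℝ] E} (h : BijOn A S S') :
    BijOn (A.prodMap (ContinuousLinearMap.id ℝ K)) (pl S K) (pl S' K) := by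
  refine ⟨fun v hv => ⟨h.mapsTo hv.1, trivial⟩, fun v hv w hw e => ?_, fun w hw => ?_⟩
  · have e1 : A v.1 = A w.1 := congrArg Prod.fst e
    have e2 : v.2 = w.2 := by simpa using congrArg Prod.snd e
    exact Prod.ext (h.injOn hv.1 hw.1 e1) e2
  · obtain ⟨u, hu, e⟩ := h.surjOn hw.1
    exact ⟨(u, w.2), ⟨hu, trivial⟩, Prod.ext e rfl⟩

/-- Contract the tube radially, then interpolate back to `Φ` with a second cut-off. -/
theorem top_norm {d j m : ℕ} {W : Set E} {f : E → ℝ} {a b : ℝ} {p : E} {M : Set E'} {r : E → E'}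
    {Φ : E → (E × (ℝ × K)) →L[ℝ] ((E' × ℝ) × (ℝ × K))} {e : Rd (j + 1)} {ε κ δ : ℝ}
    {T : Rd (j + 1) × Rd m → E} {Λ : E → Rd (j + 1) × Rd m} {R : Rd (j + 1) → E'}
    {Ψ : Rd (j + 1) → (Rd (j + 1) × Rd m × K) →L[ℝ] ((E' × ℝ) × (ℝ × K))}
    (hC : Core d W f a b M r Φ) (h : Tube j m W f a b p M r Φ e ε κ δ T Λ R Ψ) {ρ ρ' : ℝ}
    (h0 : 0 < ρ) (h1 : ρ < ρ') (h2 : ρ' < ε) :
    ∃ (r' : E → E') (Φ' : E → (E × (ℝ × K)) →L[ℝ] ((E' × ℝ) × (ℝ × K))),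
      Core d W f a b M r' Φ' ∧ Flat T ρ M r' Φ' R Ψ ∧
      ∀ x, x ∉ T '' (sphere 0 1 ×ˢ ball 0 ρ') → r' x = r x ∧ Φ' x = Φ x := by
  have hG : TubeG j m W ε T Λ :=
    ⟨h.hε, h.smT, h.smΛ, fun σ y hσ hy => ⟨(h.mem σ y hσ hy).1, (h.mem σ y hσ hy).2.2⟩, h.op, h.bij⟩
  obtain ⟨τ, cτ, bτ, τ0, τ1⟩ := top_norm_cut (α := ρ) (β := (ρ + ρ') / 2) (by linarith)
  obtain ⟨υ, cυ, bυ, υ0, υ1⟩ := top_norm_cut (α := (ρ + ρ') / 2) (β := ρ') (by linarith)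
  have hΛ : ∀ σ y, ‖σ‖ = 1 → ‖y‖ < ε → Λ (T (σ, y)) = (σ, y) := fun σ y hσ hy =>
    (h.mem σ y hσ hy).2.2
  have hZ : ∀ σ y, ‖σ‖ = 1 → ‖y‖ < ε → T (σ, y) ∈ W ∩ f ⁻¹' Icc a b := fun σ y hσ hy =>
    ⟨(h.mem σ y hσ hy).1, Ioo_subset_Icc_self (h.mem σ y hσ hy).2.1⟩
  have hn : ∀ y : Rd m, ‖y‖ < ε → ‖τ ‖y‖ • y‖ < ε := fun y hy => by
    rw [norm_smul, Real.norm_of_nonneg (bτ _).1]
    exact lt_of_le_of_lt (mul_le_of_le_one_left (norm_nonneg _) (bτ _).2) hy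
  let s : E → Rd (j + 1) × Rd m := fun x => ((Λ x).1, τ ‖(Λ x).2‖ • (Λ x).2)
  have cΛ : Continuous Λ := h.smΛ.continuous
  have cT : Continuous T := h.smT.continuous
  have cs : Continuous s := by
    have : Continuous fun x => τ ‖(Λ x).2‖ := cτ.comp (by fun_prop)
    exact cΛ.fst.prodMk (this.smul cΛ.snd)
  have hs : ∀ σ y, ‖σ‖ = 1 → ‖y‖ < ε → s (T (σ, y)) = (σ, τ ‖y‖ • y) := fun σ y hσ hy => by
    simp only [s, hΛ σ y hσ hy]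
  let A : E → (E × (ℝ × K)) →L[ℝ] (E × (ℝ × K)) := fun x =>
    ((fderiv ℝ T (s x)).comp (fderiv ℝ Λ x)).prodMap (ContinuousLinearMap.id ℝ (ℝ × K))
  have cA : Continuous A := by
    have c1 : Continuous fun x => (fderiv ℝ T (s x)).comp (fderiv ℝ Λ x) :=
      ((h.smT.continuous_fderiv (by simp)).comp cs).clm_comp (h.smΛ.continuous_fderiv (by simp))
    exact (ContinuousLinearMap.prodMapL ℝ E E (ℝ × K) (ℝ × K)).continuous.comp
      (c1.prodMk continuous_const)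
  let v : E → E' × ((E × (ℝ × K)) →L[ℝ] ((E' × ℝ) × (ℝ × K))) := fun x =>
    (r (T (s x)), (1 - υ ‖(Λ x).2‖) • (Φ (T (s x))).comp (A x) + υ ‖(Λ x).2‖ • Φ x)
  have hU : ∀ x ∈ T '' (sphere 0 1 ×ˢ ball 0 ε), ∃ σ y, ‖σ‖ = 1 ∧ ‖y‖ < ε ∧ x = T (σ, y) := by
    rintro x ⟨⟨σ, y⟩, ⟨hσ, hy⟩, rfl⟩
    exact ⟨σ, y, by simpa using hσ, by simpa using hy, rfl⟩
  have mU : MapsTo (fun x => T (s x)) (T '' (sphere 0 1 ×ˢ ball 0 ε)) (W ∩ f ⁻¹' Icc a b) := by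
    intro x hx
    obtain ⟨σ, y, hσ, hy, rfl⟩ := hU x hx
    show T (s (T (σ, y))) ∈ _
    rw [hs σ y hσ hy]; exact hZ _ _ hσ (hn y hy)
  have sU : T '' (sphere 0 1 ×ˢ ball 0 ε) ⊆ W ∩ f ⁻¹' Icc a b := by
    intro x hx
    obtain ⟨σ, y, hσ, hy, rfl⟩ := hU x hx
    exact hZ _ _ hσ hy
  have cv : ContinuousOn v (T '' (sphere 0 1 ×ˢ ball 0 ε)) := by
    have c0 : ContinuousOn (fun x => T (s x)) (T '' (sphere 0 1 ×ˢ ball 0 ε)) :=
      (cT.comp cs).continuousOn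
    have c1 : Continuous fun x => υ ‖(Λ x).2‖ := cυ.comp (by fun_prop)
    refine (hC.cr.comp c0 mU).prodMk (ContinuousOn.add ?_ ?_)
    · exact (continuous_const.sub c1).continuousOn.smul
        ((hC.cΦ.comp c0 mU).clm_comp cA.continuousOn)
    · exact c1.continuousOn.smul (hC.cΦ.mono sU)
  have hv : ∀ σ y, ‖σ‖ = 1 → ‖y‖ < ε → v (T (σ, y)) = (r (T (σ, τ ‖y‖ • y)),
      (1 - υ ‖y‖) • (Φ (T (σ, τ ‖y‖ • y))).comp (((fderiv ℝ T (σ, τ ‖y‖ • y)).comp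
        (fderiv ℝ Λ (T (σ, y)))).prodMap (ContinuousLinearMap.id ℝ (ℝ × K))) +
        υ ‖y‖ • Φ (T (σ, y))) := fun σ y hσ hy => by
    simp only [v, A, hs σ y hσ hy, hΛ σ y hσ hy]
  obtain ⟨g, cg, g1, g2⟩ := hG.exists_glue (Z := W ∩ f ⁻¹' Icc a b) inter_subset_left h2
    (u := fun x => (r x, Φ x)) (v := v) (hC.cr.prodMk hC.cΦ) cv (fun σ y hσ hy hy' => by
      rw [hv σ y hσ hy', τ1 _ (by linarith), υ1 _ hy]; simp)
  have hout : ∀ x, x ∉ T '' (sphere 0 1 ×ˢ ball 0 ε) → g x = (r x, Φ x) := fun x hx =>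
    g2 x fun hx' => hx (image_mono (Set.prod_mono Subset.rfl (ball_subset_ball h2.le)) hx')
  refine ⟨fun x => (g x).1, fun x => (g x).2,
    ⟨hC.sub, hC.sm, hC.cpt, cg.fst, fun x hx => ?_, cg.snd, fun x hx => ?_⟩,
    ⟨h.cR, h.mR, h.cΨ, h.bΨ, fun σ y hσ hy => ?_, fun σ y hσ hy u z k => ?_⟩, fun x hx => ?_⟩
  · by_cases hx' : x ∈ T '' (sphere 0 1 ×ˢ ball 0 ε)
    · obtain ⟨σ, y, hσ, hy, rfl⟩ := hU x hx'
      show (g _).1 ∈ M
      rw [g1 σ y hσ hy, hv σ y hσ hy]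
      exact hC.mr (hZ _ _ hσ (hn y hy))
    · show (g _).1 ∈ M
      rw [hout x hx']; exact hC.mr hx
  · by_cases hx' : x ∈ T '' (sphere 0 1 ×ˢ ball 0 ε)
    · obtain ⟨σ, y, hσ, hy, rfl⟩ := hU x hx'
      rw [g1 σ y hσ hy, hv σ y hσ hy]
      have b1 := (h.bij σ _ hσ (hn y hy)).comp (hG.bijΛ hσ hy)
      have b2 := (hC.bΦ _ (hZ _ _ hσ (hn y hy))).comp (top_norm_prod (K := ℝ × K)
        (A := (fderiv ℝ T (σ, τ ‖y‖ • y)).comp (fderiv ℝ Λ (T (σ, y)))) b1)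
      refine b2.congr fun w hw => ?_
      rcases le_total ‖y‖ ((ρ + ρ') / 2) with hl | hl
      · simp [υ0 _ hl]
      · obtain ⟨q, hq, e⟩ := (h.bij σ y hσ hy).surjOn hw.1
        have e1 : fderiv ℝ T (σ, y) (fderiv ℝ Λ (T (σ, y)) w.1) = w.1 := by
          rw [← e, hG.left hσ hy hq]
        have e2 : ((fderiv ℝ T (σ, y)).comp (fderiv ℝ Λ (T (σ, y)))).prodMap
            (ContinuousLinearMap.id ℝ (ℝ × K)) w = w := Prod.ext e1 rfl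
        simp only [τ1 _ hl, one_smul, Function.comp_apply, add_apply,
          smul_apply, ContinuousLinearMap.comp_apply, e2]
        rw [← add_smul]; simp
    · rw [hout x hx']; exact hC.bΦ x hx
  · have hy' : ‖y‖ < ε := by linarith
    show (g _).1 = _
    rw [g1 σ y hσ hy', hv σ y hσ hy', τ0 _ hy, zero_smul, h.eR σ hσ]
  · have hy' : ‖y‖ < ε := by linarith
    show _ = (g _).2 _
    have hq : ⟪σ, ((u - ⟪σ, u⟫ • σ, z) : Rd (j + 1) × Rd m).1⟫ = 0 := by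
      show ⟪σ, u - ⟪σ, u⟫ • σ⟫ = 0
      rw [inner_sub_right, real_inner_smul_right, real_inner_self_eq_norm_sq, hσ]; ring
    rw [g1 σ y hσ hy', hv σ y hσ hy', τ0 _ hy, υ0 _ (by linarith), h.eΨ σ hσ]
    simp [hG.left hσ hy' hq]
  · have := g2 x hx
    exact ⟨congrArg Prod.fst this, congrArg Prod.snd this⟩

end Pool.Agent.Lib.MP_ccffa6_gt
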