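import Pool.Agent.Lib.MP_ccffa6_gt.TOP.MChA

/-! Critical points, Hessians and Morse charts. -/

open Set Filter Topology
open scoped ContDiff

noncomputable section

namespace Pool.Agent.Lib.MP_ccffa6_gt

variable {E : Type} [NormedAddCommGroup E] [NormedSpace ℝ E] [FiniteDimensional ℝ E]
  {E' : Type} [NormedAddCommGroup E'] [NormedSpace ℝ E'] [FiniteDimensional ℝ E']
  {F : Type} [NormedAddCommGroup F] [NormedSpace ℝ F] [FiniteDimensional ℝ F]
  {P : Type} [NormedAddCommGroup P] [NormedSpace ℝ P] [FiniteDimensional ℝ P]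

theorem top_mchb_q {i j : ℕ} (c : ℝ) (z : Rd i × Rd j) :
    fderiv ℝ (fun z : Rd i × Rd j => c - ‖z.1‖ ^ 2 + ‖z.2‖ ^ 2) z = 0 ↔ z = 0 := by
  have h := ((hasFDerivAt_fst (𝕜 := ℝ) (p := z)).norm_sq.const_sub c).fun_add
    (hasFDerivAt_snd (𝕜 := ℝ) (p := z)).norm_sq
  rw [h.fderiv]
  refine ⟨fun h0 => ?_, fun h0 => by simp [h0]⟩
  have h1 := DFunLike.congr_fun h0 (z.1, 0)
  have h2 := DFunLike.congr_fun h0 (0, z.2)
  exact Prod.ext (by simpa using h1) (by simpa using h2)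

theorem top_mchb_tendsto {W : Set E} {x : E} {φ : F → E} {ψ : E → F} (h : Chart W x φ ψ)
    (hx : x ∈ W) : Tendsto φ (𝓝 (ψ x)) (𝓝[W] x) :=
  tendsto_nhdsWithin_iff.2 ⟨by simpa only [h.self hx] using h.smφ.continuous.tendsto (ψ x),
    h.right.mono fun _ hz => hz.1⟩

theorem MChart.crit {W : Set E} {f : E → ℝ} {x : E} {i j : ℕ} (h : MChart W f x i j) (hx : x ∈ W)
    (hf : ContDiff ℝ ∞ f) : Crit W f x := by
  obtain ⟨φ, ψ, hc, h0, he⟩ := h
  rw [hc.crit_iff hx (hf.differentiable (by simp) x), h0,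
    EventuallyEq.fderiv_eq (f₁ := f ∘ φ) he, top_mchb_q]

theorem MChart.isolated {W : Set E} {f : E → ℝ} {x : E} {i j : ℕ} (h : MChart W f x i j)
    (hx : x ∈ W) (hf : ContDiff ℝ ∞ f) : ∀ᶠ y in 𝓝[W] x, Crit W f y → y = x := by
  obtain ⟨φ, ψ, hc, h0, he⟩ := h
  have ht : Tendsto ψ (𝓝[W] x) (𝓝 0) :=
    h0 ▸ (hc.smψ.continuous.tendsto x).mono_left nhdsWithin_le_nhds
  filter_upwards [self_mem_nhdsWithin, hc.eventually, ht.eventually he.eventually_nhds]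
    with y hy h1 h2 h3
  rw [h1.crit_iff hy (hf.differentiable (by simp) y), EventuallyEq.fderiv_eq (f₁ := f ∘ φ) h2,
    top_mchb_q] at h3
  rw [← h1.self hy, h3, ← h0, hc.self hx]

theorem MChart.congr {W : Set E} {f g : E → ℝ} {x : E} {i j : ℕ} (h : MChart W f x i j)
    (hx : x ∈ W) (he : g =ᶠ[𝓝[W] x] f) : MChart W g x i j := by
  obtain ⟨φ, ψ, hc, h0, h1⟩ := h
  refine ⟨φ, ψ, hc, h0, ?_⟩
  filter_upwards [h1, (h0 ▸ top_mchb_tendsto hc hx).eventually he] with z h2 h3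
  rw [h3, h2, he.self_of_nhdsWithin hx]

theorem MChart.dim {d : ℕ} {W : Set E} {f : E → ℝ} {x : E} {i j : ℕ} (h : MChart W f x i j)
    (hx : x ∈ W) (hW : IsSub d W) : i + j = d := by
  obtain ⟨φ, ψ, hc, -⟩ := h
  rw [← hW.finrank hx, hc.finrank hx]
  simp

/-- Transport of a Morse chart along a local diffeomorphism `α : W → W'` with inverse `β`. -/
theorem MChart.map {W : Set E} {W' : Set E'} {f : E → ℝ} {f' : E' → ℝ} {x : E} {i j : ℕ}
    (h : MChart W f x i j) (hx : x ∈ W) {α : E → E'} {β : E' → E} (hα : ContDiff ℝ ∞ α)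
    (hβ : ContDiff ℝ ∞ β) (h1 : ∀ᶠ y in 𝓝[W] x, α y ∈ W' ∧ β (α y) = y ∧ f' (α y) = f y)
    (h2 : ∀ᶠ z in 𝓝[W'] (α x), β z ∈ W ∧ α (β z) = z) : MChart W' f' (α x) i j := by
  obtain ⟨φ, ψ, hc, h0, he⟩ := h
  obtain ⟨-, h3, h4⟩ := h1.self_of_nhdsWithin hx
  have ht : Tendsto β (𝓝[W'] (α x)) (𝓝[W] x) := tendsto_nhdsWithin_iff.2
    ⟨by simpa only [h3] using (hβ.continuous.tendsto (α x)).mono_left nhdsWithin_le_nhds,
      h2.mono fun _ hz => hz.1⟩
  have h5 := (top_mchb_tendsto hc hx).eventually h1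
  refine ⟨α ∘ φ, ψ ∘ β, ⟨hα.comp hc.smφ, hc.smψ.comp hβ, ?_, ?_⟩, ?_, ?_⟩
  · filter_upwards [h2, ht.eventually hc.left] with z h6 h7
    simp only [Function.comp, h7, h6.2]
  · rw [Function.comp_apply, h3]
    filter_upwards [h5, hc.right] with z h6 h7
    exact ⟨h6.1, by simp only [Function.comp, h6.2.1, h7.2]⟩
  · rw [Function.comp_apply, h3, h0]
  · filter_upwards [h0 ▸ h5, he] with z h6 h7
    rw [Function.comp_apply, h6.2.2, h7, h4]

end Pool.Agent.Lib.MP_ccffa6_gt
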