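import Pool.Agent.Lib.MP_ccffa6_gt.TOP.Sg3
import Pool.Agent.Lib.MP_ccffa6_gt.TOP.MChB

/-! Critical points on the surgered manifold. -/

open Set Filter Topology Metric
open scoped ContDiff RealInnerProductSpace

noncomputable section

namespace Pool.Agent.Lib.MP_ccffa6_gt

variable {E : Type} [NormedAddCommGroup E] [NormedSpace ℝ E] [FiniteDimensional ℝ E]
  {E' : Type} [NormedAddCommGroup E'] [NormedSpace ℝ E'] [FiniteDimensional ℝ E']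
  {E₂ : Type} [NormedAddCommGroup E₂] [NormedSpace ℝ E₂] [FiniteDimensional ℝ E₂]
  {K : Type} [NormedAddCommGroup K] [NormedSpace ℝ K] [FiniteDimensional ℝ K]

variable {j m : ℕ} {W : Set E} {ε ρ ρ' : ℝ} {T : Rd (j + 1) × Rd (m + 1) → E}
  {Λ : E → Rd (j + 1) × Rd (m + 1)} {W₂ : Set E₂} {ι : E →L[ℝ] E₂} {π : E₂ →L[ℝ] E} {α : E → E₂}
  {β : Rd (j + 1) × Rd (m + 1) → E₂} {ϖ : E₂ →L[ℝ] Rd (j + 1) × Rd (m + 1)} {OA OB : Set E₂}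

variable {g : E → ℝ} {V : Rd (j + 1) → ℝ} {f₂ : E₂ → ℝ} {a b : ℝ}

omit [FiniteDimensional ℝ E] [FiniteDimensional ℝ E₂] in
theorem top_sg5_near {A : Set E} {O : Set E₂} {φ : E → E₂} {ψ : E₂ → E} (h : Diff A (O ∩ W₂) φ ψ)
    (hO : IsOpen O) {x : E} (hx : x ∈ A) : ∀ᶠ z in 𝓝[W₂] (φ x), ψ z ∈ A ∧ φ (ψ z) = z := by
  filter_upwards [mem_nhdsWithin_of_mem_nhds (hO.mem_nhds (h.mapφ hx).1), self_mem_nhdsWithin]
    with z h1 h2 using ⟨h.mapψ ⟨h1, h2⟩, h.right z ⟨h1, h2⟩⟩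

theorem top_sg5_der {A : Set E} {O : Set E₂} {φ : E → E₂} (h : Diff A (O ∩ W₂) φ π)
    (hO : IsOpen O) (hg : ContDiff ℝ ∞ g) (hf : ContDiff ℝ ∞ f₂) (hA : ∀ x ∈ A, f₂ (φ x) = g x)
    {x : E} (hx : x ∈ A) {v : E₂} (hv : v ∈ Tan W₂ (φ x)) :
    fderiv ℝ f₂ (φ x) v = fderiv ℝ g x (π v) := by
  have h1 := (hg.differentiable (by simp) (π (φ x))).hasFDerivAt.comp (φ x) π.hasFDerivAt
  rw [Tan.fderiv_congr (h.mapφ hx).2 (hf.differentiable (by simp) _) h1.differentiableAt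
    ((top_sg5_near h hO hx).mono fun z hz => by rw [← hz.2, hA _ hz.1, hz.2]; rfl) hv, h1.fderiv,
    h.left x hx]
  rfl

theorem Surg.critA (h : Surg W T ρ ρ' W₂ ι π α β ϖ OA OB)
    (hT : TubeG j (m + 1) W ε T Λ) (hg : ContDiff ℝ ∞ g) (hf : ContDiff ℝ ∞ f₂)
    (hA : ∀ x ∈ W \ T '' (sphere 0 1 ×ˢ closedBall 0 (ρ / 2)), f₂ (α x) = g x)
    {x : E} (hx : x ∈ W \ T '' (sphere 0 1 ×ˢ closedBall 0 (ρ / 2))) :
    Crit W₂ f₂ (α x) ↔ Crit W g x := by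
  have k := fun v => top_sg5_der h.diffA h.opA hg hf hA hx (v := v)
  refine ⟨fun hc u hu => ?_, fun hc v hv => (k v hv).trans (hc _ ((h.tanA hT hx).mapsTo hv))⟩
  obtain ⟨v, hv, rfl⟩ := (h.tanA hT hx).surjOn hu
  exact (k v hv).symm.trans (hc v hv)

theorem Surg.critB (h : Surg W T ρ ρ' W₂ ι π α β ϖ OA OB) (hV : ContDiff ℝ ∞ V)
    (hf : ContDiff ℝ ∞ f₂)
    (hB : ∀ w θ, ‖w‖ < ρ → ‖θ‖ = 1 → f₂ (β (w, θ)) = V w)
    {w : Rd (j + 1)} {θ : Rd (m + 1)} (hw : ‖w‖ < ρ) (hθ : ‖θ‖ = 1) (hr : fderiv ℝ V w ≠ 0) :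
    ¬ Crit W₂ f₂ (β (w, θ)) := by
  refine fun hc => hr (ContinuousLinearMap.ext fun u => ?_)
  obtain ⟨v, hv, e⟩ := (h.tanB hw hθ).surjOn (show (u, 0) ∈ _ from inner_zero_right θ)
  have k := top_sg5_der (g := V ∘ Prod.fst) h.diffB h.opB (hV.comp contDiff_fst) hf
    (fun q hq => hB _ _ (mem_ball_zero_iff.1 hq.1) (mem_sphere_zero_iff_norm.1 hq.2))
    (x := (w, θ)) ⟨mem_ball_zero_iff.2 hw, mem_sphere_zero_iff_norm.2 hθ⟩ hv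
  rw [hc v hv, e, ((hV.differentiable (by simp) w).hasFDerivAt.comp (w, θ) hasFDerivAt_fst).fderiv]
    at k
  exact k.symm

theorem Surg.mchart (h : Surg W T ρ ρ' W₂ ι π α β ϖ OA OB)
    (hT : TubeG j (m + 1) W ε T Λ)
    (hA : ∀ x ∈ W \ T '' (sphere 0 1 ×ˢ closedBall 0 (ρ / 2)), f₂ (α x) = g x)
    {x : E} (hx : x ∈ W \ T '' (sphere 0 1 ×ˢ closedBall 0 (ρ / 2))) {i l : ℕ}
    (hm : MChart W g x i l) : MChart W₂ f₂ (α x) i l := by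
  refine hm.map hx.1 h.smα π.contDiff ?_
    ((top_sg5_near h.diffA h.opA hx).mono fun z hz => ⟨hz.1.1, hz.2⟩)
  filter_upwards [mem_nhdsWithin_of_mem_nhds ((hT.compact (ρ / 2)).isClosed.isOpen_compl.mem_nhds
    hx.2), self_mem_nhdsWithin] with y h1 h2
  exact ⟨(h.diffA.mapφ ⟨h2, h1⟩).2, h.πα y, hA y ⟨h2, h1⟩⟩

/-- Positivity along the directions orthogonal to `y`. -/
theorem Surg.posAt (h : Surg W T ρ ρ' W₂ ι π α β ϖ OA OB) (h0 : 0 < ρ) (hρ : ρ < ε)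
    (hT : TubeG j (m + 1) W ε T Λ) (hf : ContDiff ℝ ∞ f₂)
    (hA : ∀ x ∈ W \ T '' (sphere 0 1 ×ˢ closedBall 0 (ρ / 2)), f₂ (α x) = g x)
    {G : Rd (j + 1) × Rd (m + 1) → ℝ} (hG : ContDiff ℝ ∞ G)
    (he : ∀ σ y, ‖σ‖ = 1 → ‖y‖ < ε → g (T (σ, y)) = G (σ, y)) {σ : Rd (j + 1)} {y : Rd (m + 1)}
    (hσ : ‖σ‖ = 1) (h1 : ρ / 2 < ‖y‖) (h2 : ‖y‖ < ε)
    (hp : ∀ z : Rd (m + 1), z ≠ 0 → ⟪y, z⟫ = 0 →
      0 < fderiv ℝ (fderiv ℝ G) (σ, y) (0, z) (0, z)) :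
    PosAt (j + m + 1) (j + 1) W₂ f₂ (α (T (σ, y))) := by
  have hy : y ≠ 0 := norm_pos_iff.1 ((half_pos h0).trans h1)
  have e2 : (2 : WithTop ℕ∞) ≤ ∞ := WithTop.coe_le_coe.2 (le_top (a := (2 : ℕ∞)))
  have k0 : ∀ᶠ v : ((ℝ ∙ y)ᗮ : Submodule ℝ (Rd (m + 1))) in 𝓝 0, ‖y + v‖ ∈ Ioo (ρ / 2) ε :=
    (show Continuous fun v : ((ℝ ∙ y)ᗮ : Submodule ℝ (Rd (m + 1))) => ‖y + v‖ by
      fun_prop).continuousAt.eventually_mem (by simpa using Ioo_mem_nhds h1 h2)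
  have k1 : ∀ z : Rd (m + 1), ‖z‖ ∈ Ioo (ρ / 2) ε →
      T (σ, z) ∈ W \ T '' (sphere 0 1 ×ˢ closedBall 0 (ρ / 2)) := fun z hz =>
    ⟨(hT.mem σ z hσ hz.2).1, fun hm =>
      hz.1.not_ge ((hT.mem_closedBall ((half_lt_self h0).trans hρ) hσ hz.2).1 hm)⟩
  refine PosAt.of_line (c := fun v : ((ℝ ∙ y)ᗮ : Submodule ℝ (Rd (m + 1))) => α (T (σ, y + v)))
    (hf.of_le e2).contDiffAt (by rw [top_finrank_perp hy]; omega)
    ((h.smα.comp (hT.smT.comp (contDiff_const.prodMk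
      (contDiff_const.add (Submodule.subtypeL _).contDiff)))).of_le e2).contDiffAt
    (by simp) (k0.mono fun v hv => (h.diffA.mapφ (k1 _ hv)).2) fun v hv => ?_
  have k2 : (fun t : ℝ => f₂ (α (T (σ, y + (t • v :))))) =ᶠ[𝓝 0]
      fun t : ℝ => G ((σ, y) + t • (0, (v : Rd (m + 1)))) := by
    have : Tendsto (fun t : ℝ => t • v) (𝓝 0) (𝓝 0) :=
      (continuous_id.smul continuous_const).tendsto' 0 0 (zero_smul ℝ v)
    filter_upwards [this.eventually k0] with t ht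
    rw [hA _ (k1 _ ht), he _ _ hσ ht.2]
    simp
  rw [k2.deriv.deriv_eq, ← top_hess_line (hG.of_le e2).contDiffAt]
  exact hp v (by simpa using hv) (Submodule.mem_orthogonal_singleton_iff_inner_right.1 v.2)

end Pool.Agent.Lib.MP_ccffa6_gt
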