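import Pool.Agent.Lib.MP_ccffa6_gt.TOP.TubeF
import Pool.Agent.Lib.MP_ccffa6_gt.K.Ext

/-! Existence of the surgered manifold. -/

open Set Filter Topology Metric
open scoped ContDiff RealInnerProductSpace

noncomputable section

namespace Pool.Agent.Lib.MP_ccffa6_gt

section

theorem s1_exists_h {ρ : ℝ} (hρ : 0 < ρ) :
    ∃ h : ℝ → ℝ, ContDiff ℝ ∞ h ∧ ∀ t, ρ ≤ t → h (t ^ 2) = t⁻¹ := by
  have hs : ContDiffOn ℝ ∞ (fun t : ℝ => (√t)⁻¹) (Ioi 0) := by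
    intro t ht
    have ht' : (0 : ℝ) < t := ht
    exact ((Real.contDiffAt_sqrt ht'.ne').inv (Real.sqrt_pos.2 ht').ne').contDiffWithinAt
  obtain ⟨g, hg, h1, -, -⟩ := exists_smooth_nhdsSet (A := Ici (ρ ^ 2)) isClosed_Ici isOpen_Ioi
    (fun t ht => lt_of_lt_of_le (pow_pos hρ 2) ht) hs
  refine ⟨g, hg, fun t ht => ?_⟩
  have h0 : 0 ≤ t := hρ.le.trans ht
  have := h1.self_of_nhdsSet (t ^ 2) (show ρ ^ 2 ≤ t ^ 2 from pow_le_pow_left₀ hρ.le ht 2)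
  rw [this, Real.sqrt_sq h0]

variable {A : Type} [NormedAddCommGroup A] [InnerProductSpace ℝ A]
  {B : Type} [NormedAddCommGroup B] [InnerProductSpace ℝ B]

/-- `(σ, y) ↦ (|y| σ, y / |y|)`. -/
def swA (h : ℝ → ℝ) (q : A × B) : A × B :=
  ((‖q.2‖ ^ 2 * h (‖q.2‖ ^ 2)) • q.1, h (‖q.2‖ ^ 2) • q.2)

/-- `(w, θ) ↦ (w / |w|, |w| θ)`. -/
def swB (h : ℝ → ℝ) (q : A × B) : A × B :=
  (h (‖q.1‖ ^ 2) • q.1, (‖q.1‖ ^ 2 * h (‖q.1‖ ^ 2)) • q.2)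

theorem swA_smooth {h : ℝ → ℝ} (hh : ContDiff ℝ ∞ h) : ContDiff ℝ ∞ (swA h : A × B → A × B) := by
  have h1 : ContDiff ℝ ∞ fun q : A × B => ‖q.2‖ ^ 2 := (contDiff_norm_sq ℝ).comp contDiff_snd
  exact ((h1.mul (hh.comp h1)).smul contDiff_fst).prodMk ((hh.comp h1).smul contDiff_snd)

theorem swB_smooth {h : ℝ → ℝ} (hh : ContDiff ℝ ∞ h) : ContDiff ℝ ∞ (swB h : A × B → A × B) := by
  have h1 : ContDiff ℝ ∞ fun q : A × B => ‖q.1‖ ^ 2 := (contDiff_norm_sq ℝ).comp contDiff_fst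
  exact ((hh.comp h1).smul contDiff_fst).prodMk ((h1.mul (hh.comp h1)).smul contDiff_snd)

variable {h : ℝ → ℝ} {ρ : ℝ}

theorem swA_eq (hρ : 0 < ρ) (hh : ∀ t, ρ ≤ t → h (t ^ 2) = t⁻¹) (σ : A) {y : B} (hy : ρ ≤ ‖y‖) :
    swA h (σ, y) = (‖y‖ • σ, ‖y‖⁻¹ • y) := by
  have h0 : ‖y‖ ≠ 0 := (hρ.trans_le hy).ne'
  simp only [swA, hh _ hy]
  congr 2
  field_simp

theorem swB_eq (hρ : 0 < ρ) (hh : ∀ t, ρ ≤ t → h (t ^ 2) = t⁻¹) {w : A} (θ : B) (hw : ρ ≤ ‖w‖) :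
    swB h (w, θ) = (‖w‖⁻¹ • w, ‖w‖ • θ) := by
  have h0 : ‖w‖ ≠ 0 := (hρ.trans_le hw).ne'
  simp only [swB, hh _ hw]
  congr 2
  field_simp

theorem s1_norm_unit {y : B} (hy : 0 < ‖y‖) : ‖‖y‖⁻¹ • y‖ = 1 := by
  rw [norm_smul, norm_inv, norm_norm, inv_mul_cancel₀ hy.ne']

omit [InnerProductSpace ℝ B] in
theorem s1_norm_rad {σ : A} (hσ : ‖σ‖ = 1) (y : B) : ‖‖y‖ • σ‖ = ‖y‖ := by
  rw [norm_smul, norm_norm, hσ, mul_one]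

theorem swB_swA (hρ : 0 < ρ) (hh : ∀ t, ρ ≤ t → h (t ^ 2) = t⁻¹) {σ : A} (hσ : ‖σ‖ = 1) {y : B}
    (hy : ρ ≤ ‖y‖) : swB h (swA h (σ, y)) = (σ, y) := by
  have h0 : ‖y‖ ≠ 0 := (hρ.trans_le hy).ne'
  rw [swA_eq hρ hh σ hy, swB_eq hρ hh _ (by rw [s1_norm_rad hσ]; exact hy), s1_norm_rad hσ,
    smul_smul, smul_smul, inv_mul_cancel₀ h0, mul_inv_cancel₀ h0, one_smul, one_smul]

theorem swA_swB (hρ : 0 < ρ) (hh : ∀ t, ρ ≤ t → h (t ^ 2) = t⁻¹) {w : A} {θ : B} (hθ : ‖θ‖ = 1)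
    (hw : ρ ≤ ‖w‖) : swA h (swB h (w, θ)) = (w, θ) := by
  have h0 : ‖w‖ ≠ 0 := (hρ.trans_le hw).ne'
  rw [swB_eq hρ hh θ hw, swA_eq hρ hh _ (by rw [s1_norm_rad hθ]; exact hw), s1_norm_rad hθ,
    smul_smul, smul_smul, inv_mul_cancel₀ h0, mul_inv_cancel₀ h0, one_smul, one_smul]

/-- Derivative of `swB` where it is given by polar coordinates. -/
theorem swB_fderiv (hρ : 0 < ρ) (hh : ∀ t, ρ ≤ t → h (t ^ 2) = t⁻¹) {w : A} (θ : B)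
    (hw : ρ < ‖w‖) (u : A) (z : B) :
    fderiv ℝ (swB h) (w, θ) (u, z) =
      (‖w‖⁻¹ • (u - ⟪‖w‖⁻¹ • w, u⟫ • (‖w‖⁻¹ • w)), ⟪‖w‖⁻¹ • w, u⟫ • θ + ‖w‖ • z) := by
  have h0 : 0 < ‖w‖ := hρ.trans hw
  have hw0 : w ≠ 0 := norm_pos_iff.1 h0
  have hev : (swB h : A × B → A × B) =ᶠ[𝓝 (w, θ)] fun q => (‖q.1‖⁻¹ • q.1, ‖q.1‖ • q.2) := by
    have : ∀ᶠ q : A × B in 𝓝 (w, θ), ρ < ‖q.1‖ :=
      (continuous_fst.norm).continuousAt.eventually (lt_mem_nhds hw)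
    filter_upwards [this] with q hq
    exact swB_eq hρ hh q.2 hq.le
  have hn : HasFDerivAt (fun x : A => ‖x‖) (‖w‖⁻¹ • innerSL ℝ w) w := by
    have h2 := (hasStrictFDerivAt_norm_sq w).hasFDerivAt
    have h3 := h2.sqrt (by positivity)
    simp only [Real.sqrt_sq (norm_nonneg _)] at h3
    refine h3.congr_fderiv ?_
    ext v
    simp only [smul_apply, smul_eq_mul, innerSL_apply_apply, nsmul_eq_mul,
      Nat.cast_ofNat]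
    field_simp
  have hn1 := hn.comp (w, θ) (hasFDerivAt_fst (𝕜 := ℝ) (p := (w, θ)))
  have hi := (hasDerivAt_inv h0.ne').comp_hasFDerivAt (w, θ) hn1
  have hd := (hi.smul (hasFDerivAt_fst (𝕜 := ℝ) (p := (w, θ)))).prodMk
    (hn1.smul (hasFDerivAt_snd (𝕜 := ℝ) (p := (w, θ))))
  rw [hev.fderiv_eq]
  have := hd.fderiv
  simp only [Function.comp_def] at this
  erw [this]
  simp only [ContinuousLinearMap.prod_apply, add_apply,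
    smul_apply, ContinuousLinearMap.coe_fst', ContinuousLinearMap.coe_snd',
    ContinuousLinearMap.smulRight_apply, ContinuousLinearMap.comp_apply, innerSL_apply_apply,
    smul_eq_mul, inner_smul_left, conj_trivial, Prod.mk.injEq]
  constructor
  · rw [smul_sub, smul_smul, smul_smul, sub_eq_add_neg, ← neg_smul]
    congr 2
    field_simp
  · rw [add_comm]

end

section

variable {E : Type} [NormedAddCommGroup E] [NormedSpace ℝ E]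
  {A : Type} [NormedAddCommGroup A] [InnerProductSpace ℝ A]
  {B : Type} [NormedAddCommGroup B] [InnerProductSpace ℝ B]

/-- The graph over the complement of the thin tube. -/
def sIo (h : ℝ → ℝ) (s : E → ℝ) (Λ : E → A × B) (x : E) : E × (A × B) :=
  (x, s x • swA h (Λ x))

/-- The graph over the new handle. -/
def sKa (h : ℝ → ℝ) (T : A × B → E) (q : A × B) : E × (A × B) := (T (swB h q), q)

/-- The complement of the thin tube. -/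
def sO (T : A × B → E) (r : ℝ) : Set E := (T '' (sphere 0 1 ×ˢ closedBall 0 r))ᶜ

/-- The surgered set. -/
def sW (W : Set E) (T : A × B → E) (Λ : E → A × B) (h : ℝ → ℝ) (s : E → ℝ) (r₁ r₂ : ℝ) :
    Set (E × (A × B)) :=
  sIo h s Λ '' (W ∩ sO T r₁) ∪ sKa h T '' (ball 0 r₂ ×ˢ sphere 0 1)

/-- The open set which cuts out the first graph. -/
def sUA (E A B : Type) [NormedAddCommGroup A] [NormedAddCommGroup B] (r₁ : ℝ) :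
    Set (E × (A × B)) := {q | ‖q.2.2‖ < 1 ∨ r₁ < ‖q.2.1‖}

/-- The open set which cuts out the second graph. -/
def sUB (A B : Type) [NormedAddCommGroup A] [NormedAddCommGroup B] (r₂ r₃ : ℝ) :
    Set (A × B) := {q | r₂ / r₃ < ‖q.2‖ ∧ ‖q.1‖ < r₂}

/-- The tube and the auxiliary functions. -/
structure SAux (W : Set E) (T : A × B → E) (Λ : E → A × B) (ε r₁ r₂ r₃ : ℝ) (h : ℝ → ℝ)
    (s : E → ℝ) : Prop where
  smT : ContDiff ℝ ∞ T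
  smΛ : ContDiff ℝ ∞ Λ
  mem : ∀ σ y, ‖σ‖ = 1 → ‖y‖ < ε → T (σ, y) ∈ W ∧ Λ (T (σ, y)) = (σ, y)
  h1 : 0 < r₁
  h12 : r₁ < r₂
  h23 : r₂ < r₃
  h3 : r₃ < ε
  smh : ContDiff ℝ ∞ h
  eh : ∀ t, r₁ ≤ t → h (t ^ 2) = t⁻¹
  sms : ContDiff ℝ ∞ s
  s01 : ∀ x, s x ∈ Icc (0 : ℝ) 1
  s1 : ∀ σ y, ‖σ‖ = 1 → ‖y‖ ≤ r₃ → s (T (σ, y)) = 1
  s0 : ∀ x ∈ W, x ∈ tsupport s → x ∈ T '' (sphere 0 1 ×ˢ ball 0 ε)

omit [NormedSpace ℝ E] [InnerProductSpace ℝ A] [InnerProductSpace ℝ B] in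
theorem sUA_open (r₁ : ℝ) : IsOpen (sUA E A B r₁) :=
  (isOpen_lt (continuous_snd.snd.norm) continuous_const).union
    (isOpen_lt continuous_const (continuous_snd.fst.norm))

omit [InnerProductSpace ℝ A] [InnerProductSpace ℝ B] in
theorem sUB_open (r₂ r₃ : ℝ) : IsOpen (sUB A B r₂ r₃) :=
  (isOpen_lt continuous_const (continuous_snd.norm)).inter
    (isOpen_lt (continuous_fst.norm) continuous_const)

theorem exists_sAux [FiniteDimensional ℝ E] [FiniteDimensional ℝ A] [FiniteDimensional ℝ B]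
    {W : Set E} {T : A × B → E} {Λ : E → A × B} {ε ε' r₁ r₂ : ℝ} (smT : ContDiff ℝ ∞ T)
    (smΛ : ContDiff ℝ ∞ Λ)
    (mem : ∀ σ y, ‖σ‖ = 1 → ‖y‖ < ε → T (σ, y) ∈ W ∧ Λ (T (σ, y)) = (σ, y))
    (op : ∃ O, IsOpen O ∧ O ∩ W = T '' (sphere 0 1 ×ˢ ball 0 ε)) (h1 : 0 < r₁) (h12 : r₁ < r₂)
    (h2 : r₂ < ε') (hε : ε' ≤ ε) : ∃ r₃ h s, SAux W T Λ ε' r₁ r₂ r₃ h s := by
  obtain ⟨r₃, h23, h3⟩ := exists_between h2
  obtain ⟨h, smh, eh⟩ := s1_exists_h h1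
  obtain ⟨O, hO, hOW⟩ := op
  have hK : IsCompact (T '' (sphere (0 : A) 1 ×ˢ closedBall (0 : B) r₃)) :=
    ((isCompact_sphere _ _).prod (isCompact_closedBall _ _)).image smT.continuous
  have hO' : IsOpen (O ∩ {x | ‖(Λ x).2‖ < ε'}) :=
    hO.inter (isOpen_lt smΛ.continuous.snd.norm continuous_const)
  have hKO : T '' (sphere (0 : A) 1 ×ˢ closedBall (0 : B) r₃) ⊆ O ∩ {x | ‖(Λ x).2‖ < ε'} := by
    rintro x ⟨⟨σ, y⟩, ⟨hσ, hy⟩, rfl⟩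
    have hy' : ‖y‖ < ε' := (mem_closedBall_zero_iff.1 hy).trans_lt h3
    have : T (σ, y) ∈ O ∩ W := by
      rw [hOW]
      exact ⟨(σ, y), ⟨hσ, mem_ball_zero_iff.2 (hy'.trans_le hε)⟩, rfl⟩
    refine ⟨this.1, ?_⟩
    show ‖(Λ (T (σ, y))).2‖ < ε'
    rw [(mem σ y (mem_sphere_zero_iff_norm.1 hσ) (hy'.trans_le hε)).2]
    exact hy'
  obtain ⟨s, sms, s01, s1, s0, -⟩ := exists_cutoff hK.isClosed hO' hKO
  refine ⟨r₃, h, s, smT, smΛ, fun σ y hσ hy => mem σ y hσ (hy.trans_le hε), h1, h12, h23, h3, smh,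
    eh, sms, s01, ?_, ?_⟩
  · intro σ y hσ hy
    exact s1.self_of_nhdsSet _ ⟨(σ, y), ⟨mem_sphere_zero_iff_norm.2 hσ,
      mem_closedBall_zero_iff.2 hy⟩, rfl⟩
  · intro x hx hs
    obtain ⟨⟨σ, y⟩, ⟨hσ, hy⟩, rfl⟩ := hOW.subset ⟨(s0 hs).1, hx⟩
    have h2 : ‖(Λ (T (σ, y))).2‖ < ε' := (s0 hs).2
    rw [(mem σ y (mem_sphere_zero_iff_norm.1 hσ) (mem_ball_zero_iff.1 hy)).2] at h2
    exact ⟨(σ, y), ⟨hσ, mem_ball_zero_iff.2 h2⟩, rfl⟩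

variable {W : Set E} {T : A × B → E} {Λ : E → A × B} {ε r₁ r₂ r₃ : ℝ} {h : ℝ → ℝ}
  {s : E → ℝ}

namespace SAux

theorem smIo (H : SAux W T Λ ε r₁ r₂ r₃ h s) : ContDiff ℝ ∞ (sIo h s Λ) :=
  contDiff_id.prodMk (H.sms.smul ((swA_smooth H.smh).comp H.smΛ))

theorem smKa (H : SAux W T Λ ε r₁ r₂ r₃ h s) : ContDiff ℝ ∞ (sKa h T) :=
  (H.smT.comp (swB_smooth H.smh)).prodMk contDiff_id

theorem mem_O (H : SAux W T Λ ε r₁ r₂ r₃ h s) {σ : A} {y : B} (hσ : ‖σ‖ = 1)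
    (h1 : r₁ < ‖y‖) (h2 : ‖y‖ < ε) : T (σ, y) ∈ W ∩ sO T r₁ := by
  refine ⟨(H.mem σ y hσ h2).1, ?_⟩
  rintro ⟨⟨σ', y'⟩, ⟨hσ', hy'⟩, he⟩
  rw [mem_closedBall_zero_iff] at hy'
  rw [mem_sphere_zero_iff_norm] at hσ'
  have e1 := (H.mem σ' y' hσ' (hy'.trans_lt (h1.trans h2))).2
  rw [he, (H.mem σ y hσ h2).2] at e1
  obtain ⟨-, rfl⟩ := Prod.mk.inj e1
  exact absurd hy' (not_le.2 h1)

theorem of_supp (H : SAux W T Λ ε r₁ r₂ r₃ h s) {x : E} (hx : x ∈ W ∩ sO T r₁)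
    (hs : x ∈ tsupport s) : ∃ σ y, ‖σ‖ = 1 ∧ r₁ < ‖y‖ ∧ ‖y‖ < ε ∧ x = T (σ, y) := by
  obtain ⟨⟨σ, y⟩, ⟨hσ, hy⟩, rfl⟩ := H.s0 x hx.1 hs
  refine ⟨σ, y, mem_sphere_zero_iff_norm.1 hσ, ?_, mem_ball_zero_iff.1 hy, rfl⟩
  by_contra hn
  exact hx.2 ⟨(σ, y), ⟨hσ, mem_closedBall_zero_iff.2 (not_lt.1 hn)⟩, rfl⟩

theorem io_tube (H : SAux W T Λ ε r₁ r₂ r₃ h s) {σ : A} {y : B} (hσ : ‖σ‖ = 1)
    (h1 : r₁ < ‖y‖) (h2 : ‖y‖ < ε) :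
    sIo h s Λ (T (σ, y)) = (T (σ, y), s (T (σ, y)) • (‖y‖ • σ, ‖y‖⁻¹ • y)) := by
  rw [sIo, (H.mem σ y hσ h2).2, swA_eq H.h1 H.eh σ h1.le]

theorem norm_tube (H : SAux W T Λ ε r₁ r₂ r₃ h s) {σ : A} {y : B} (hσ : ‖σ‖ = 1)
    (h1 : r₁ < ‖y‖) (h2 : ‖y‖ < ε) :
    ‖(sIo h s Λ (T (σ, y))).2.1‖ = s (T (σ, y)) * ‖y‖ ∧
      ‖(sIo h s Λ (T (σ, y))).2.2‖ = s (T (σ, y)) := by
  rw [H.io_tube hσ h1 h2]
  have h0 := (H.s01 (T (σ, y))).1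
  simp only [Prod.smul_mk]
  rw [norm_smul, norm_smul (s _), s1_norm_rad hσ, s1_norm_unit (H.h1.trans h1),
    Real.norm_of_nonneg h0, mul_one]
  exact ⟨rfl, rfl⟩

/-- On the overlap the two graphs coincide. -/
theorem overlap (H : SAux W T Λ ε r₁ r₂ r₃ h s) {w : A} {θ : B} (hθ : ‖θ‖ = 1)
    (h1 : r₁ < ‖w‖) (h2 : ‖w‖ ≤ r₃) :
    T (swB h (w, θ)) ∈ W ∩ sO T r₁ ∧ sKa h T (w, θ) = sIo h s Λ (T (swB h (w, θ))) := by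
  have e := swB_eq (B := B) H.h1 H.eh θ h1.le
  have hσ := s1_norm_unit (H.h1.trans h1)
  have hy := s1_norm_rad hθ w
  have hy1 : r₁ < ‖‖w‖ • θ‖ := by rw [hy]; exact h1
  have hy2 : ‖‖w‖ • θ‖ ≤ r₃ := by rw [hy]; exact h2
  refine ⟨by rw [e]; exact H.mem_O hσ hy1 (hy2.trans_lt H.h3), ?_⟩
  have e2 := swA_swB H.h1 H.eh hθ h1.le
  rw [sKa, sIo]
  congr 1
  rw [e] at e2 ⊢
  rw [(H.mem _ _ hσ (hy2.trans_lt H.h3)).2, H.s1 _ _ hσ hy2, one_smul, e2]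

theorem io_mem_UA (H : SAux W T Λ ε r₁ r₂ r₃ h s) {x : E} (hx : x ∈ W ∩ sO T r₁) :
    sIo h s Λ x ∈ sUA E A B r₁ := by
  by_cases hs : s x = 0
  · left
    simp [sIo, hs]
  · obtain ⟨σ, y, hσ, h1, h2, rfl⟩ := H.of_supp hx (subset_tsupport _ hs)
    obtain ⟨e1, e2⟩ := H.norm_tube hσ h1 h2
    rcases (H.s01 (T (σ, y))).2.lt_or_eq with hl | he
    · left
      rw [e2]; exact hl
    · right
      rw [e1, he, one_mul]; exact h1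

theorem inter_UA (H : SAux W T Λ ε r₁ r₂ r₃ h s) :
    sW W T Λ h s r₁ r₂ ∩ sUA E A B r₁ = sIo h s Λ '' (W ∩ sO T r₁) := by
  refine Subset.antisymm ?_ ?_
  · rintro q ⟨hq | ⟨⟨w, θ⟩, ⟨hw, hθ⟩, rfl⟩, hU⟩
    · exact hq
    · rw [mem_ball_zero_iff] at hw
      rw [mem_sphere_zero_iff_norm] at hθ
      have h1 : r₁ < ‖w‖ := by
        rcases hU with hU | hU
        · exact absurd hU (by simp [sKa, hθ])
        · exact hU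
      obtain ⟨e1, e2⟩ := H.overlap hθ h1 (hw.trans H.h23).le
      exact ⟨_, e1, e2.symm⟩
  · rintro q ⟨x, hx, rfl⟩
    exact ⟨Or.inl ⟨x, hx, rfl⟩, H.io_mem_UA hx⟩

theorem inter_UB (H : SAux W T Λ ε r₁ r₂ r₃ h s) :
    sW W T Λ h s r₁ r₂ ∩ Prod.snd ⁻¹' sUB A B r₂ r₃ = sKa h T '' (ball 0 r₂ ×ˢ sphere 0 1) := by
  have hr2 : 0 < r₂ := H.h1.trans H.h12
  have hr3 : 0 < r₃ := hr2.trans H.h23
  refine Subset.antisymm ?_ ?_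
  · rintro q ⟨⟨x, hx, rfl⟩ | hq, hU⟩
    · have hs : s x ≠ 0 := by
        intro hs
        have := hU.1
        simp only [sIo, hs, zero_smul, Prod.snd_zero, norm_zero] at this
        exact absurd this (not_lt.2 (div_pos hr2 hr3).le)
      obtain ⟨σ, y, hσ, h1, h2, rfl⟩ := H.of_supp hx (subset_tsupport _ hs)
      obtain ⟨e1, e2⟩ := H.norm_tube hσ h1 h2
      obtain ⟨u1, u2⟩ := hU
      rw [e2] at u1
      rw [e1] at u2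
      have hy0 : 0 < ‖y‖ := H.h1.trans h1
      have hy3 : ‖y‖ ≤ r₃ := by
        rw [div_lt_iff₀ hr3] at u1
        by_contra hn
        have hs0 := (H.s01 (T (σ, y))).1
        nlinarith [not_le.1 hn]
      have hs1 := H.s1 σ y hσ hy3
      rw [hs1, one_mul] at u2
      refine ⟨(‖y‖ • σ, ‖y‖⁻¹ • y), ⟨?_, ?_⟩, ?_⟩
      · rw [mem_ball_zero_iff, s1_norm_rad hσ]; exact u2
      · rw [mem_sphere_zero_iff_norm]; exact s1_norm_unit hy0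
      · rw [H.io_tube hσ h1 h2, hs1, one_smul, sKa, ← swA_eq H.h1 H.eh σ h1.le,
          swB_swA H.h1 H.eh hσ h1.le]
    · exact hq
  · rintro q ⟨⟨w, θ⟩, ⟨hw, hθ⟩, rfl⟩
    refine ⟨Or.inr ⟨(w, θ), ⟨hw, hθ⟩, rfl⟩, ?_, mem_ball_zero_iff.1 hw⟩
    rw [mem_sphere_zero_iff_norm] at hθ
    show r₂ / r₃ < ‖θ‖
    rw [hθ]
    exact (div_lt_one hr3).2 H.h23

theorem not_UA (H : SAux W T Λ ε r₁ r₂ r₃ h s) {q : E × (A × B)}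
    (hq : q ∈ sW W T Λ h s r₁ r₂) (hU : q ∉ sUA E A B r₁) :
    ∃ w θ, ‖w‖ ≤ r₁ ∧ ‖θ‖ = 1 ∧ q = sKa h T (w, θ) := by
  rcases hq with ⟨x, hx, rfl⟩ | ⟨⟨w, θ⟩, ⟨-, hθ⟩, rfl⟩
  · exact absurd (H.io_mem_UA hx) hU
  · refine ⟨w, θ, ?_, mem_sphere_zero_iff_norm.1 hθ, rfl⟩
    by_contra hn
    exact hU (Or.inr (not_le.1 hn))

/-- Off the tube the first graph is the zero section. -/
theorem io_off (H : SAux W T Λ ε r₁ r₂ r₃ h s) {x : E} (hx : x ∈ W)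
    (hn : x ∉ T '' (sphere 0 1 ×ˢ ball 0 ε)) : sIo h s Λ x = (x, 0) := by
  have : s x = 0 := by
    by_contra hs
    exact hn (H.s0 x hx (subset_tsupport _ hs))
  simp [sIo, this]

end SAux

end

variable {E : Type} [NormedAddCommGroup E] [NormedSpace ℝ E] [FiniteDimensional ℝ E]

theorem sg1_exists {j m : ℕ} {W : Set E} {T : Rd (j + 1) × Rd m → E}
    {Λ : E → Rd (j + 1) × Rd m} {ε ρ ρ' : ℝ} (smT : ContDiff ℝ ∞ T) (smΛ : ContDiff ℝ ∞ Λ)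
    (mem : ∀ σ y, ‖σ‖ = 1 → ‖y‖ < ε → T (σ, y) ∈ W ∧ Λ (T (σ, y)) = (σ, y))
    (op : ∃ O, IsOpen O ∧ O ∩ W = T '' (sphere 0 1 ×ˢ ball 0 ε)) (hρ : 0 < ρ) (hρ' : ρ < ρ')
    (hε : ρ' ≤ ε) :
    ∃ (W₂ : Set (E × (Rd (j + 1) × Rd m))) (α : E → E × (Rd (j + 1) × Rd m))
      (β : Rd (j + 1) × Rd m → E × (Rd (j + 1) × Rd m)) (OA OB : Set (E × (Rd (j + 1) × Rd m))),
      Surg W T ρ ρ' W₂ (ContinuousLinearMap.inl ℝ E _) (ContinuousLinearMap.fst ℝ E _) α β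
        (ContinuousLinearMap.snd ℝ E _) OA OB := by
  obtain ⟨r₃, h, s, H⟩ := exists_sAux smT smΛ mem op (half_pos hρ) (half_lt_self hρ) hρ' hε
  refine ⟨sW W T Λ h s (ρ / 2) ρ, sIo h s Λ, sKa h T, sUA E _ _ (ρ / 2),
    Prod.snd ⁻¹' sUB _ _ ρ r₃, H.smIo, H.smKa, fun _ => rfl, fun _ => rfl, fun _ => rfl,
    fun x hx hn => H.io_off hx hn, sUA_open _, (sUB_open _ _).preimage continuous_snd, ?_, ?_, ?_,
    ?_, ?_⟩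
  · rw [inter_comm, H.inter_UA]; rfl
  · rw [inter_comm, H.inter_UB]
  · intro q hq
    by_cases hU : q ∈ sUA E _ _ (ρ / 2)
    · exact Or.inl hU
    · obtain ⟨w, θ, hw, hθ, rfl⟩ := H.not_UA hq hU
      exact Or.inr (H.inter_UB.superset ⟨(w, θ), ⟨mem_ball_zero_iff.2 (hw.trans_lt H.h12),
        mem_sphere_zero_iff_norm.2 hθ⟩, rfl⟩).2
  · intro σ θ t hσ hθ h1 h2
    have ht : 0 < t := (half_pos hρ).trans h1
    have hw : ‖t • σ‖ = t := by rw [norm_smul, hσ, mul_one, Real.norm_of_nonneg ht.le]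
    have e := (H.overlap (w := t • σ) hθ (by rw [hw]; exact h1)
      (by rw [hw]; exact (h2.trans H.h23).le)).2
    rw [e, swB_eq H.h1 H.eh θ (by rw [hw]; exact h1.le), hw, smul_smul, inv_mul_cancel₀ ht.ne',
      one_smul]
  · intro w θ _ hθ hU
    rcases hU with hU | hU
    · exact absurd hU (by simp [sKa, hθ])
    · exact hU

theorem top_sg1 {j m : ℕ} {W : Set E} {ε : ℝ} {T : Rd (j + 1) × Rd m → E}
    {Λ : E → Rd (j + 1) × Rd m} (h : TubeG j m W ε T Λ) {ρ ρ' : ℝ} (h0 : 0 < ρ) (h1 : ρ < ρ')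
    (h2 : ρ' < ε) :
    ∃ (E₂ : Type) (_ : NormedAddCommGroup E₂) (_ : NormedSpace ℝ E₂) (_ : FiniteDimensional ℝ E₂)
      (W₂ : Set E₂) (ι : E →L[ℝ] E₂) (π : E₂ →L[ℝ] E) (α : E → E₂)
      (β : Rd (j + 1) × Rd m → E₂) (ϖ : E₂ →L[ℝ] Rd (j + 1) × Rd m) (OA OB : Set E₂),
      Surg W T ρ ρ' W₂ ι π α β ϖ OA OB := by
  obtain ⟨W₂, α, β, OA, OB, H⟩ := sg1_exists h.smT h.smΛ h.mem h.op h0 h1 h2.le
  exact ⟨_, inferInstance, inferInstance, inferInstance, W₂, _, _, α, β, _, OA, OB, H⟩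

end Pool.Agent.Lib.MP_ccffa6_gt
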