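import Pool.Agent.Lib.MP_ccffa6_gt.TOP.Sg3
import Pool.Agent.Lib.MP_ccffa6_gt.TOP.Sg1
import Pool.Agent.Lib.MP_ccffa6_gt.K.Lin

/-! The normal data on the surgered manifold. -/

open Set Filter Topology Metric
open scoped ContDiff RealInnerProductSpace

noncomputable section

namespace Pool.Agent.Lib.MP_ccffa6_gt

section

variable {A : Type} [NormedAddCommGroup A] [InnerProductSpace ℝ A]
  {B : Type} [NormedAddCommGroup B] [InnerProductSpace ℝ B]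
  {K : Type} [NormedAddCommGroup K] [NormedSpace ℝ K]

/-- `((u, z), (t, k)) ↦ (u, z - t θ, k)`. -/
def sAc (A K : Type) [NormedAddCommGroup A] [InnerProductSpace ℝ A] [NormedAddCommGroup K]
    [NormedSpace ℝ K] (θ : B) : ((A × B) × (ℝ × K)) →L[ℝ] (A × B × K) :=
  ((ContinuousLinearMap.fst ℝ A B).comp (ContinuousLinearMap.fst ℝ _ _)).prod
    (((ContinuousLinearMap.snd ℝ A B).comp (ContinuousLinearMap.fst ℝ _ _) -
      ((ContinuousLinearMap.fst ℝ ℝ K).comp (ContinuousLinearMap.snd ℝ _ _)).smulRight θ).prod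
    ((ContinuousLinearMap.snd ℝ ℝ K).comp (ContinuousLinearMap.snd ℝ _ _)))

/-- `((u, z), (t, k)) ↦ ((u - ⟪σ, u⟫ σ) / ρ + t σ, ⟪σ, u⟫ θ + ρ z, k)`. -/
def sAs (K : Type) [NormedAddCommGroup K] [NormedSpace ℝ K] (σ : A) (ρ : ℝ) (θ : B) :
    ((A × B) × (ℝ × K)) →L[ℝ] (A × B × K) :=
  (ρ⁻¹ • ((ContinuousLinearMap.fst ℝ A B).comp (ContinuousLinearMap.fst ℝ _ _) -
      ((innerSL ℝ σ).comp ((ContinuousLinearMap.fst ℝ A B).comp
        (ContinuousLinearMap.fst ℝ _ _))).smulRight σ) +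
      ((ContinuousLinearMap.fst ℝ ℝ K).comp (ContinuousLinearMap.snd ℝ _ _)).smulRight σ).prod
    ((((innerSL ℝ σ).comp ((ContinuousLinearMap.fst ℝ A B).comp
        (ContinuousLinearMap.fst ℝ _ _))).smulRight θ +
      ρ • (ContinuousLinearMap.snd ℝ A B).comp (ContinuousLinearMap.fst ℝ _ _)).prod
    ((ContinuousLinearMap.snd ℝ ℝ K).comp (ContinuousLinearMap.snd ℝ _ _)))

theorem sAc_apply (θ : B) (v : (A × B) × (ℝ × K)) :
    sAc A K θ v = (v.1.1, v.1.2 - v.2.1 • θ, v.2.2) := rfl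

theorem sAs_apply (σ : A) (ρ : ℝ) (θ : B) (v : (A × B) × (ℝ × K)) :
    sAs K σ ρ θ v = (ρ⁻¹ • (v.1.1 - ⟪σ, v.1.1⟫ • σ) + v.2.1 • σ,
      ⟪σ, v.1.1⟫ • θ + ρ • v.1.2, v.2.2) := rfl

/-- The interpolation. -/
def sAt (K : Type) [NormedAddCommGroup K] [NormedSpace ℝ K] (τ : ℝ) (σ : A) (ρ : ℝ) (θ : B) :
    ((A × B) × (ℝ × K)) →L[ℝ] (A × B × K) := (1 - τ) • sAc A K θ + τ • sAs K σ ρ θ

theorem sAt_apply (τ : ℝ) (σ : A) (ρ : ℝ) (θ : B) (v : (A × B) × (ℝ × K)) :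
    sAt K τ σ ρ θ v = (1 - τ) • (v.1.1, v.1.2 - v.2.1 • θ, v.2.2) +
      τ • (ρ⁻¹ • (v.1.1 - ⟪σ, v.1.1⟫ • σ) + v.2.1 • σ, ⟪σ, v.1.1⟫ • θ + ρ • v.1.2, v.2.2) := rfl

theorem sAt_one (σ : A) (ρ : ℝ) (θ : B) : sAt K 1 σ ρ θ = sAs K σ ρ θ := by
  simp [sAt]

theorem sAt_cont [FiniteDimensional ℝ A] [FiniteDimensional ℝ B] [FiniteDimensional ℝ K]
    {X : Type} [TopologicalSpace X] {τ ρ : X → ℝ} {σ : X → A} {θ : X → B} (hτ : Continuous τ)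
    (hρ : Continuous ρ) (hσ : Continuous σ) (hθ : Continuous θ) (h0 : ∀ x, ρ x ≠ 0) :
    Continuous fun x => sAt K (τ x) (σ x) (ρ x) (θ x) := by
  rw [continuous_clm_apply]
  intro v
  simp only [sAt_apply]
  have hi : Continuous fun x => (ρ x)⁻¹ := hρ.inv₀ h0
  fun_prop

theorem sAt_inj {τ ρ : ℝ} {σ : A} {θ : B} (hτ : τ ∈ Icc (0 : ℝ) 1) (hρ : 0 < ρ) (hθ : ‖θ‖ = 1)
    (hσ : τ = 0 ∨ ‖σ‖ = 1) {v : (A × B) × (ℝ × K)} (hv : ⟪θ, v.1.2⟫ = 0)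
    (h : sAt K τ σ ρ θ v = 0) : v = 0 := by
  obtain ⟨⟨u, z⟩, t, k⟩ := v
  rw [sAt_apply] at h
  simp only [Prod.smul_mk, Prod.mk_add_mk, Prod.mk_eq_zero] at h hv
  obtain ⟨h1, h2, h3⟩ := h
  have hk : k = 0 := by
    rw [← add_smul, sub_add_cancel, one_smul] at h3
    exact h3
  have hθθ : ⟪θ, θ⟫ = 1 := by rw [real_inner_self_eq_norm_sq, hθ]; norm_num
  have e2 := congrArg (fun x => ⟪θ, x⟫) h2
  simp only [inner_add_right, inner_smul_right, inner_sub_right, hv, hθθ, inner_zero_right] at e2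
  have key : t = 0 ∧ τ * ⟪σ, u⟫ = 0 := by
    rcases hσ with h0 | hσ
    · subst h0
      constructor <;> linarith
    · have hσσ : ⟪σ, σ⟫ = 1 := by rw [real_inner_self_eq_norm_sq, hσ]; norm_num
      have e1 := congrArg (fun x => ⟪σ, x⟫) h1
      simp only [inner_add_right, inner_smul_right, inner_sub_right, hσσ, inner_zero_right] at e1
      have hd : 0 < (1 - τ) ^ 2 + τ ^ 2 := by nlinarith [sq_nonneg (1 - 2 * τ)]
      have ht : ((1 - τ) ^ 2 + τ ^ 2) * t = 0 := by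
        linear_combination τ * e1 - (1 - τ) * e2
      have ht0 : t = 0 := (mul_eq_zero.1 ht).resolve_left hd.ne'
      refine ⟨ht0, ?_⟩
      rw [ht0] at e2
      linarith
  obtain ⟨rfl, hu⟩ := key
  have hu' : u = 0 := by
    have : ((1 - τ) + τ * ρ⁻¹) • u = 0 := by
      rw [← h1, zero_smul, add_zero, smul_smul, smul_sub, smul_smul, add_smul,
        show τ * ρ⁻¹ * ⟪σ, u⟫ = ρ⁻¹ * (τ * ⟪σ, u⟫) by ring, hu, mul_zero, zero_smul, sub_zero]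
    refine (smul_eq_zero.1 this).resolve_left ?_
    have := inv_pos.2 hρ
    rcases hτ.2.lt_or_eq with h | h
    · have := mul_nonneg hτ.1 this.le
      linarith
    · rw [h]; linarith
  have hz : z = 0 := by
    have : ((1 - τ) + τ * ρ) • z = 0 := by
      rw [← h2, zero_smul, sub_zero, smul_add, smul_smul, smul_smul, hu, zero_smul, zero_add,
        add_smul]
    refine (smul_eq_zero.1 this).resolve_left ?_
    rcases hτ.2.lt_or_eq with h | h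
    · have := mul_nonneg hτ.1 hρ.le
      linarith
    · rw [h]; linarith
  rw [hu', hz, hk]
  rfl

/-- An injective map on a subspace of full dimension is a bijection. -/
theorem s5_bijOn {U V : Type} [NormedAddCommGroup U] [NormedSpace ℝ U] [FiniteDimensional ℝ U]
    [NormedAddCommGroup V] [NormedSpace ℝ V] [FiniteDimensional ℝ V] {P : Submodule ℝ U}
    {L : U →L[ℝ] V} (hi : ∀ v ∈ P, L v = 0 → v = 0)
    (hd : Module.finrank ℝ P = Module.finrank ℝ V) : BijOn L P univ := by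
  have hinj : Function.Injective ((L : U →ₗ[ℝ] V).domRestrict P) := by
    rw [injective_iff_map_eq_zero]
    intro v hv
    exact Subtype.ext (hi v v.2 hv)
  have hs := (LinearMap.injective_iff_surjective_of_finrank_eq_finrank hd).1 hinj
  refine ⟨fun _ _ => mem_univ _, fun x hx y hy e => ?_, fun y _ => ?_⟩
  · exact congrArg Subtype.val (hinj (a₁ := ⟨x, hx⟩) (a₂ := ⟨y, hy⟩) e)
  · obtain ⟨x, hx⟩ := hs y
    exact ⟨x, x.2, hx⟩

/-- The vectors whose second component is orthogonal to `θ`. -/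
def sPerp (A K : Type) [NormedAddCommGroup A] [InnerProductSpace ℝ A] [NormedAddCommGroup K]
    [NormedSpace ℝ K] (θ : B) : Submodule ℝ ((A × B) × K) :=
  LinearMap.ker (((innerSL ℝ θ).comp ((ContinuousLinearMap.snd ℝ A B).comp
    (ContinuousLinearMap.fst ℝ _ K)) : ((A × B) × K) →L[ℝ] ℝ) : ((A × B) × K) →ₗ[ℝ] ℝ)

theorem mem_sPerp {θ : B} {v : (A × B) × K} : v ∈ sPerp A K θ ↔ ⟪θ, v.1.2⟫ = 0 := Iff.rfl

theorem sAt_bijOn [FiniteDimensional ℝ A] [FiniteDimensional ℝ B] [FiniteDimensional ℝ K]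
    {τ ρ : ℝ} {σ : A} {θ : B} (hτ : τ ∈ Icc (0 : ℝ) 1) (hρ : 0 < ρ) (hθ : ‖θ‖ = 1)
    (hσ : τ = 0 ∨ ‖σ‖ = 1) : BijOn (sAt K τ σ ρ θ) (sPerp A (ℝ × K) θ) univ := by
  refine s5_bijOn (fun v hv h => sAt_inj hτ hρ hθ hσ (mem_sPerp.1 hv) h) ?_
  have h1 := LinearMap.finrank_range_add_finrank_ker (((innerSL ℝ θ).comp
    ((ContinuousLinearMap.snd ℝ A B).comp (ContinuousLinearMap.fst ℝ _ (ℝ × K))) :
      ((A × B) × (ℝ × K)) →L[ℝ] ℝ) : ((A × B) × (ℝ × K)) →ₗ[ℝ] ℝ)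
  have h2 : LinearMap.range (((innerSL ℝ θ).comp
    ((ContinuousLinearMap.snd ℝ A B).comp (ContinuousLinearMap.fst ℝ _ (ℝ × K))) :
      ((A × B) × (ℝ × K)) →L[ℝ] ℝ) : ((A × B) × (ℝ × K)) →ₗ[ℝ] ℝ) = ⊤ := by
    rw [LinearMap.range_eq_top]
    intro t
    refine ⟨((0, t • θ), 0), ?_⟩
    show ⟪θ, t • θ⟫ = t
    rw [inner_smul_right, real_inner_self_eq_norm_sq, hθ]; norm_num
  rw [h2, finrank_top] at h1
  simp only [Module.finrank_prod, Module.finrank_self] at h1 ⊢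
  unfold sPerp
  omega

end

section

theorem s6_tan_ball_sphere {A : Type} [NormedAddCommGroup A] [InnerProductSpace ℝ A]
    [FiniteDimensional ℝ A] {B : Type} [NormedAddCommGroup B] [InnerProductSpace ℝ B]
    [FiniteDimensional ℝ B] {ρ : ℝ} {w : A} {θ : B} (hw : ‖w‖ < ρ) (hθ : ‖θ‖ = 1) (v : A × B) :
    v ∈ Tan (ball (0 : A) ρ ×ˢ sphere (0 : B) 1) (w, θ) ↔ ⟪θ, v.2⟫ = 0 := by
  have hm : (w, θ) ∈ ball (0 : A) ρ ×ˢ sphere (0 : B) 1 :=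
    ⟨mem_ball_zero_iff.2 hw, mem_sphere_zero_iff_norm.2 hθ⟩
  constructor
  · intro hv
    have h1 : HasFDerivAt (fun q : A × B => ‖q.2‖ ^ 2)
        ((2 • innerSL ℝ θ).comp (ContinuousLinearMap.snd ℝ A B)) (w, θ) :=
      HasFDerivAt.comp (g := fun x : B => ‖x‖ ^ 2) (f := Prod.snd) (w, θ)
        (hasStrictFDerivAt_norm_sq θ).hasFDerivAt hasFDerivAt_snd
    have h2 := Tan.fderiv_congr (g := fun _ => (1 : ℝ)) hm h1.differentiableAt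
      (differentiableAt_const _) (by
        filter_upwards [self_mem_nhdsWithin] with q hq
        rw [mem_sphere_zero_iff_norm.1 hq.2]; norm_num) hv
    rw [h1.fderiv, fderiv_fun_const] at h2
    simpa using h2
  · intro hv
    obtain ⟨h, smh, eh⟩ := s1_exists_h (show (0 : ℝ) < 1 / 2 by norm_num)
    have hd : DifferentiableAt ℝ (swB h : B × B → B × B) (θ, 0) :=
      ((swB_smooth smh).differentiable (by simp)).differentiableAt
    have hl : HasDerivAt (fun t : ℝ => ((θ + t • v.2, 0) : B × B)) (v.2, 0) 0 := by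
      have := (((hasDerivAt_id (0 : ℝ)).smul_const v.2).const_add θ).prodMk
        (hasDerivAt_const (0 : ℝ) (0 : B))
      simpa using this
    have hc := (hd.hasFDerivAt.comp_hasDerivAt_of_eq (0 : ℝ) hl (by simp))
    rw [swB_fderiv (by norm_num) eh 0 (by rw [hθ]; norm_num)] at hc
    have hc1 := (hasFDerivAt_fst (𝕜 := ℝ)).comp_hasDerivAt (0 : ℝ) hc
    have hw1 : HasDerivAt (fun t : ℝ => w + t • v.1) v.1 0 := by
      simpa using ((hasDerivAt_id (0 : ℝ)).smul_const v.1).const_add w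
    have hγ := hw1.prodMk hc1
    simp only [hθ, inv_one, one_smul, hv, zero_smul, sub_zero, ContinuousLinearMap.coe_fst',
      Prod.mk.eta] at hγ
    have := Tan.curve (S := ball (0 : A) ρ ×ˢ sphere (0 : B) 1) hγ (by
      have e1 : ∀ᶠ t : ℝ in 𝓝 0, ‖w + t • v.1‖ < ρ :=
        (by fun_prop : Continuous fun t : ℝ => ‖w + t • v.1‖).continuousAt.eventually
          (gt_mem_nhds (by simpa using hw))
      have e2 : ∀ᶠ t : ℝ in 𝓝 0, 1 / 2 < ‖θ + t • v.2‖ :=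
        (by fun_prop : Continuous fun t : ℝ => ‖θ + t • v.2‖).continuousAt.eventually
          (lt_mem_nhds (by simp only [zero_smul, add_zero, hθ]; norm_num))
      filter_upwards [e1, e2] with t h1 h2
      refine ⟨mem_ball_zero_iff.2 h1, mem_sphere_zero_iff_norm.2 ?_⟩
      simp only [Function.comp_apply]
      rw [swB_eq (by norm_num) eh 0 h2.le]
      exact s1_norm_unit (by linarith))
    simp only [Function.comp_apply, zero_smul, add_zero] at this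
    rwa [swB_eq (by norm_num) eh 0 (by rw [hθ]; norm_num), hθ, inv_one, one_smul] at this

variable {E : Type} [NormedAddCommGroup E] [NormedSpace ℝ E] [FiniteDimensional ℝ E]
  {E₂ : Type} [NormedAddCommGroup E₂] [NormedSpace ℝ E₂] [FiniteDimensional ℝ E₂]
  {K : Type} [NormedAddCommGroup K] [NormedSpace ℝ K] [FiniteDimensional ℝ K]
  {j m : ℕ} {W : Set E} {T : Rd (j + 1) × Rd m → E} {ρ ρ' : ℝ} {W₂ : Set E₂} {ι : E →L[ℝ] E₂}
  {π : E₂ →L[ℝ] E} {α : E → E₂} {β : Rd (j + 1) × Rd m → E₂} {ϖ : E₂ →L[ℝ] Rd (j + 1) × Rd m}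
  {OA OB : Set E₂}

theorem s6_inter_eventuallyEq {X : Type} [TopologicalSpace X] {O S : Set X} {x : X}
    (h : O ∈ 𝓝 x) : (O ∩ S : Set X) =ᶠ[𝓝 x] S := by
  filter_upwards [h] with y hy
  exact propext ⟨fun h => h.2, fun h => ⟨hy, h⟩⟩

theorem s6_tanA (H : Surg W T ρ ρ' W₂ ι π α β ϖ OA OB) (hT : Continuous T) {x : E}
    (hx : x ∈ W \ T '' (sphere 0 1 ×ˢ closedBall 0 (ρ / 2))) :
    BijOn π (Tan W₂ (α x)) (Tan W x) := by
  have hD := Diff.image (S := W \ T '' (sphere 0 1 ×ˢ closedBall 0 (ρ / 2))) H.smα π.contDiff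
    (fun x _ => H.πα x)
  have h1 := hD.symm.tan_bijOn (x := α x) ⟨x, hx, rfl⟩
  have hA : α x ∈ OA := (H.eqA.superset ⟨x, hx, rfl⟩).1
  rw [π.fderiv, H.πα, ← H.eqA, Tan.congr (s6_inter_eventuallyEq (H.opA.mem_nhds hA)),
    sdiff_eq_compl_inter, Tan.congr (s6_inter_eventuallyEq ((((isCompact_sphere _ _).prod
      (isCompact_closedBall _ _)).image hT).isClosed.isOpen_compl.mem_nhds hx.2))] at h1
  exact h1

omit [FiniteDimensional ℝ E] in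
theorem s6_tanB (H : Surg W T ρ ρ' W₂ ι π α β ϖ OA OB) {w : Rd (j + 1)} {θ : Rd m}
    (hw : ‖w‖ < ρ) (hθ : ‖θ‖ = 1) :
    BijOn ϖ (Tan W₂ (β (w, θ))) {v | ⟪θ, v.2⟫ = 0} ∧
      ∀ v ∈ Tan W₂ (β (w, θ)), fderiv ℝ β (w, θ) (ϖ v) = v := by
  have hm : (w, θ) ∈ ball (0 : Rd (j + 1)) ρ ×ˢ sphere (0 : Rd m) 1 :=
    ⟨mem_ball_zero_iff.2 hw, mem_sphere_zero_iff_norm.2 hθ⟩
  have hD := Diff.image (S := ball (0 : Rd (j + 1)) ρ ×ˢ sphere (0 : Rd m) 1) H.smβ ϖ.contDiff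
    (fun x _ => H.ϖβ x)
  have hB : β (w, θ) ∈ OB := (H.eqB.superset ⟨_, hm, rfl⟩).1
  have hT : Tan (β '' (ball (0 : Rd (j + 1)) ρ ×ˢ sphere (0 : Rd m) 1)) (β (w, θ)) =
      Tan W₂ (β (w, θ)) := by
    rw [← H.eqB, Tan.congr (s6_inter_eventuallyEq (H.opB.mem_nhds hB))]
  constructor
  · have h1 := hD.symm.tan_bijOn (x := β (w, θ)) ⟨_, hm, rfl⟩
    rw [ϖ.fderiv, H.ϖβ, hT] at h1
    have : (Tan (ball (0 : Rd (j + 1)) ρ ×ˢ sphere (0 : Rd m) 1) (w, θ) :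
        Set (Rd (j + 1) × Rd m)) = {v | ⟪θ, v.2⟫ = 0} := by
      ext v
      exact s6_tan_ball_sphere hw hθ v
    rwa [this] at h1
  · intro v hv
    have := hD.symm.tan_left (x := β (w, θ)) ⟨_, hm, rfl⟩ (v := v) (by rw [hT]; exact hv)
    rwa [ϖ.fderiv, H.ϖβ] at this

omit [FiniteDimensional ℝ E] [FiniteDimensional ℝ E₂] in
/-- On the overlap. -/
theorem s6_glue (H : Surg W T ρ ρ' W₂ ι π α β ϖ OA OB) {w : Rd (j + 1)} {θ : Rd m}
    (hρ : 0 < ρ) (h1 : ρ / 2 < ‖w‖) (h2 : ‖w‖ < ρ) (hθ : ‖θ‖ = 1) :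
    β (w, θ) = α (T (‖w‖⁻¹ • w, ‖w‖ • θ)) := by
  have h0 : 0 < ‖w‖ := (half_pos hρ).trans h1
  rw [H.glue _ θ _ (s1_norm_unit h0) hθ h1 h2, smul_smul, mul_inv_cancel₀ h0.ne', one_smul]

theorem s6_tan_glue (H : Surg W T ρ ρ' W₂ ι π α β ϖ OA OB) (hT : ContDiff ℝ ∞ T)
    {w : Rd (j + 1)} {θ : Rd m} (hρ : 0 < ρ) (h1 : ρ / 2 < ‖w‖) (h2 : ‖w‖ < ρ) (hθ : ‖θ‖ = 1)
    {v : E₂} (hv : v ∈ Tan W₂ (β (w, θ))) :
    π v = fderiv ℝ T (‖w‖⁻¹ • w, ‖w‖ • θ)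
      (‖w‖⁻¹ • ((ϖ v).1 - ⟪‖w‖⁻¹ • w, (ϖ v).1⟫ • (‖w‖⁻¹ • w)),
        ⟪‖w‖⁻¹ • w, (ϖ v).1⟫ • θ + ‖w‖ • (ϖ v).2) := by
  obtain ⟨h, smh, eh⟩ := s1_exists_h (half_pos hρ)
  obtain ⟨hb, hl⟩ := s6_tanB H h2 hθ
  have hm : (w, θ) ∈ ball (0 : Rd (j + 1)) ρ ×ˢ sphere (0 : Rd m) 1 :=
    ⟨mem_ball_zero_iff.2 h2, mem_sphere_zero_iff_norm.2 hθ⟩
  have dβ : DifferentiableAt ℝ β (w, θ) := (H.smβ.differentiable (by simp)).differentiableAt
  have dS : DifferentiableAt ℝ (swB h : Rd (j + 1) × Rd m → _) (w, θ) :=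
    ((swB_smooth smh).differentiable (by simp)).differentiableAt
  have dT : ∀ q, DifferentiableAt ℝ T q := fun q => (hT.differentiable (by simp)).differentiableAt
  have key := Tan.fderiv_congr (f := π ∘ β) (g := T ∘ swB h) hm
    (π.differentiableAt.comp _ dβ) ((dT _).comp _ dS) (by
      have : ∀ᶠ q : Rd (j + 1) × Rd m in 𝓝 (w, θ), ρ / 2 < ‖q.1‖ :=
        (continuous_fst.norm).continuousAt.eventually (lt_mem_nhds h1)
      filter_upwards [self_mem_nhdsWithin, nhdsWithin_le_nhds this] with q hq hq1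
      obtain ⟨w', θ'⟩ := q
      simp only [Function.comp_apply]
      rw [s6_glue H hρ hq1 (mem_ball_zero_iff.1 hq.1) (mem_sphere_zero_iff_norm.1 hq.2), H.πα,
        swB_eq (half_pos hρ) eh θ' hq1.le])
    ((s6_tan_ball_sphere h2 hθ (ϖ v)).2 (hb.mapsTo hv))
  rw [fderiv_comp _ π.differentiableAt dβ, fderiv_comp _ (dT _) dS, π.fderiv] at key
  simp only [ContinuousLinearMap.comp_apply] at key
  rw [hl v hv, swB_eq (half_pos hρ) eh θ h1.le, ← Prod.mk.eta (p := ϖ v),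
    swB_fderiv (half_pos hρ) eh θ h1] at key
  exact key

omit [FiniteDimensional ℝ E] [FiniteDimensional ℝ E₂] [FiniteDimensional ℝ K] in
theorem s6_bijOn_pl {P : Submodule ℝ E₂} {Q : Submodule ℝ E} {L : E₂ →L[ℝ] E} (h : BijOn L P Q) :
    BijOn (L.prodMap (ContinuousLinearMap.id ℝ K)) (pl P K) (pl Q K) := by
  have := h.prodMap (bijOn_id (univ : Set K))
  have e1 : (pl P K : Set (E₂ × K)) = (P : Set E₂) ×ˢ univ := rfl
  have e2 : (pl Q K : Set (E × K)) = (Q : Set E) ×ˢ univ := rfl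
  rw [e1, e2]
  exact this

end

section

/-- A ramp from `0` (at `a`) to `1` (at `a + d`). -/
def sRamp (a d t : ℝ) : ℝ := max 0 (min 1 ((t - a) / d))

theorem sRamp_cont (a d : ℝ) : Continuous (sRamp a d) := by
  unfold sRamp; fun_prop

theorem sRamp_mem (a d t : ℝ) : sRamp a d t ∈ Icc (0 : ℝ) 1 :=
  ⟨le_max_left _ _, max_le zero_le_one (min_le_left _ _)⟩

theorem sRamp_zero {a d t : ℝ} (hd : 0 < d) (h : t ≤ a) : sRamp a d t = 0 :=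
  max_eq_left (min_le_of_right_le (div_nonpos_of_nonpos_of_nonneg (sub_nonpos.2 h) hd.le))

theorem sRamp_one {a d t : ℝ} (hd : 0 < d) (h : a + d ≤ t) : sRamp a d t = 1 := by
  rw [sRamp, min_eq_left ((one_le_div hd).2 (by linarith)), max_eq_right zero_le_one]

/-- Radial projection to the closed unit ball. -/
def sHat {A : Type} [NormedAddCommGroup A] [NormedSpace ℝ A] (d : ℝ) (w : A) : A :=
  (max ‖w‖ d)⁻¹ • w

theorem sHat_cont {A : Type} [NormedAddCommGroup A] [NormedSpace ℝ A] {d : ℝ} (hd : 0 < d) :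
    Continuous (sHat d : A → A) :=
  ((continuous_norm.max continuous_const).inv₀ fun _ => (lt_max_of_lt_right hd).ne').smul
    continuous_id

theorem sHat_mem {A : Type} [NormedAddCommGroup A] [NormedSpace ℝ A] {d : ℝ} (hd : 0 < d)
    (w : A) : sHat d w ∈ closedBall (0 : A) 1 := by
  have h0 : 0 < max ‖w‖ d := lt_max_of_lt_right hd
  rw [mem_closedBall_zero_iff, sHat, norm_smul, norm_inv, Real.norm_of_nonneg h0.le,
    inv_mul_le_iff₀ h0, mul_one]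
  exact le_max_left _ _

theorem sHat_eq {A : Type} [NormedAddCommGroup A] [NormedSpace ℝ A] {d : ℝ} {w : A}
    (h : d ≤ ‖w‖) : sHat d w = ‖w‖⁻¹ • w := by rw [sHat, max_eq_left h]

variable {E : Type} [NormedAddCommGroup E] [NormedSpace ℝ E] [FiniteDimensional ℝ E]
  {E' : Type} [NormedAddCommGroup E'] [NormedSpace ℝ E'] [FiniteDimensional ℝ E']
  {E₂ : Type} [NormedAddCommGroup E₂] [NormedSpace ℝ E₂] [FiniteDimensional ℝ E₂]
  {K : Type} [NormedAddCommGroup K] [NormedSpace ℝ K] [FiniteDimensional ℝ K]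
  {j m : ℕ} {W : Set E} {T : Rd (j + 1) × Rd m → E} {Λ : E → Rd (j + 1) × Rd m} {ρ ρ' : ℝ}
  {W₂ : Set E₂} {ι : E →L[ℝ] E₂}
  {π : E₂ →L[ℝ] E} {α : E → E₂} {β : Rd (j + 1) × Rd m → E₂} {ϖ : E₂ →L[ℝ] Rd (j + 1) × Rd m}
  {OA OB : Set E₂}

open Classical in
/-- The cut-off on the surgered manifold. -/
def sCut (ρ : ℝ) (ϖ : E₂ →L[ℝ] Rd (j + 1) × Rd m) (OB : Set E₂) (q : E₂) : ℝ :=
  if q ∈ OB then 1 - sRamp (7 / 10 * ρ) (ρ / 10) ‖(ϖ q).1‖ else 0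

section

omit [FiniteDimensional ℝ E] [FiniteDimensional ℝ E₂]

theorem sg6_memB (H : Surg W T ρ ρ' W₂ ι π α β ϖ OA OB) {q : E₂} (hq : q ∈ W₂) (hB : q ∈ OB) :
    ∃ w θ, ‖w‖ < ρ ∧ ‖θ‖ = 1 ∧ q = β (w, θ) := by
  obtain ⟨⟨w, θ⟩, ⟨hw, hθ⟩, e⟩ := H.eqB.subset ⟨hB, hq⟩
  exact ⟨w, θ, mem_ball_zero_iff.1 hw, mem_sphere_zero_iff_norm.1 hθ, e.symm⟩

theorem sg6_shell (hρ : 0 < ρ)
    (mem : ∀ σ y, ‖σ‖ = 1 → ‖y‖ < ρ → T (σ, y) ∈ W ∧ Λ (T (σ, y)) = (σ, y)) {σ : Rd (j + 1)}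
    {y : Rd m} (hσ : ‖σ‖ = 1) (h1 : ρ / 2 < ‖y‖) (h2 : ‖y‖ < ρ) :
    T (σ, y) ∈ W \ T '' (sphere 0 1 ×ˢ closedBall 0 (ρ / 2)) := by
  refine ⟨(mem σ y hσ h2).1, ?_⟩
  rintro ⟨⟨σ', y'⟩, ⟨hσ', hy'⟩, he⟩
  rw [mem_closedBall_zero_iff] at hy'
  have e1 := (mem σ' y' (mem_sphere_zero_iff_norm.1 hσ') (hy'.trans_lt (half_lt_self hρ))).2
  rw [he, (mem σ y hσ h2).2] at e1
  obtain ⟨-, rfl⟩ := Prod.mk.inj e1
  exact absurd hy' (not_le.2 h1)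

theorem sg6_notA (H : Surg W T ρ ρ' W₂ ι π α β ϖ OA OB) (hρ : 0 < ρ)
    (mem : ∀ σ y, ‖σ‖ = 1 → ‖y‖ < ρ → T (σ, y) ∈ W ∧ Λ (T (σ, y)) = (σ, y)) {q : E₂}
    (hq : q ∈ W₂) (hA : q ∉ OA) : q ∈ OB ∧ ‖(ϖ q).1‖ ≤ ρ / 2 := by
  have hB : q ∈ OB := (H.cov hq).resolve_left hA
  obtain ⟨w, θ, hw, hθ, rfl⟩ := sg6_memB H hq hB
  refine ⟨hB, ?_⟩
  rw [H.ϖβ]
  by_contra hn
  have h1 : ρ / 2 < ‖w‖ := not_le.1 hn
  refine hA ?_
  rw [s6_glue H hρ h1 hw hθ]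
  exact (H.eqA.superset ⟨_, sg6_shell hρ mem (s1_norm_unit ((half_pos hρ).trans h1))
    (by rw [s1_norm_rad hθ]; exact h1) (by rw [s1_norm_rad hθ]; exact hw), rfl⟩).1

theorem sg6_cut_ne_zero (H : Surg W T ρ ρ' W₂ ι π α β ϖ OA OB) (hρ : 0 < ρ) {q : E₂}
    (hq : q ∈ W₂) (hc : sCut ρ ϖ OB q ≠ 0) :
    ∃ w θ, ‖w‖ < 8 / 10 * ρ ∧ ‖θ‖ = 1 ∧ q = β (w, θ) ∧
      (sCut ρ ϖ OB q ≠ 1 → 7 / 10 * ρ < ‖w‖) := by
  have hB : q ∈ OB := by
    by_contra hn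
    exact hc (if_neg hn)
  obtain ⟨w, θ, -, hθ, rfl⟩ := sg6_memB H hq hB
  rw [sCut, if_pos hB, H.ϖβ] at hc ⊢
  refine ⟨w, θ, ?_, hθ, rfl, fun h1 => ?_⟩
  · by_contra hn
    rw [sRamp_one (by positivity) (by linarith [not_lt.1 hn])] at hc
    exact hc (sub_self _)
  · by_contra hn
    rw [sRamp_zero (by positivity) (not_lt.1 hn)] at h1
    exact h1 (sub_zero _)

theorem sg6_cut_cont (H : Surg W T ρ ρ' W₂ ι π α β ϖ OA OB) (hρ : 0 < ρ) :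
    ContinuousOn (sCut ρ ϖ OB) W₂ := by
  intro q hq
  by_cases hB : q ∈ OB
  · have hc : Continuous fun q : E₂ => 1 - sRamp (7 / 10 * ρ) (ρ / 10) ‖(ϖ q).1‖ :=
      continuous_const.sub ((sRamp_cont _ _).comp ϖ.continuous.fst.norm)
    refine (hc.continuousAt.congr ?_).continuousWithinAt
    filter_upwards [H.opB.mem_nhds hB] with y hy
    rw [sCut, if_pos hy]
  · have hK : IsCompact (β '' (closedBall 0 (8 / 10 * ρ) ×ˢ sphere 0 1)) :=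
      ((isCompact_closedBall _ _).prod (isCompact_sphere _ _)).image H.smβ.continuous
    have hn : q ∉ β '' (closedBall 0 (8 / 10 * ρ) ×ˢ sphere 0 1) := fun hm =>
      hB (H.eqB.superset (image_mono (Set.prod_mono (closedBall_subset_ball (by linarith))
        Subset.rfl) hm)).1
    refine (continuousWithinAt_const (b := (0 : ℝ))).congr_of_eventuallyEq ?_ (if_neg hB)
    filter_upwards [self_mem_nhdsWithin,
      nhdsWithin_le_nhds (hK.isClosed.isOpen_compl.mem_nhds hn)] with y hy hy'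
    by_contra hc
    obtain ⟨w, θ, hw, hθ, rfl, -⟩ := sg6_cut_ne_zero H hρ hy hc
    exact hy' ⟨(w, θ), ⟨mem_closedBall_zero_iff.2 hw.le, mem_sphere_zero_iff_norm.2 hθ⟩, rfl⟩

theorem sg6_cut_one (H : Surg W T ρ ρ' W₂ ι π α β ϖ OA OB) (hρ : 0 < ρ)
    (mem : ∀ σ y, ‖σ‖ = 1 → ‖y‖ < ρ → T (σ, y) ∈ W ∧ Λ (T (σ, y)) = (σ, y)) {q : E₂}
    (hq : q ∈ W₂) (hA : q ∉ OA) : ∀ᶠ y in 𝓝 q, sCut ρ ϖ OB y = 1 := by
  obtain ⟨hB, hw⟩ := sg6_notA H hρ mem hq hA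
  have : ∀ᶠ y in 𝓝 q, ‖(ϖ y).1‖ < 7 / 10 * ρ :=
    ϖ.continuous.fst.norm.continuousAt.eventually (gt_mem_nhds (by linarith))
  filter_upwards [this, H.opB.mem_nhds hB] with y hy hy'
  rw [sCut, if_pos hy', sRamp_zero (by positivity) hy.le, sub_zero]

theorem sg6_paste (H : Surg W T ρ ρ' W₂ ι π α β ϖ OA OB) (hρ : 0 < ρ)
    (mem : ∀ σ y, ‖σ‖ = 1 → ‖y‖ < ρ → T (σ, y) ∈ W ∧ Λ (T (σ, y)) = (σ, y)) {Z₂ : Set E₂}
    (hZ : Z₂ ⊆ W₂) {V : Type} [NormedAddCommGroup V] [NormedSpace ℝ V] {FA FB : E₂ → V}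
    (hA : ContinuousOn FA (Z₂ ∩ OA)) (hB : Continuous FB) :
    ContinuousOn (fun q => (1 - sCut ρ ϖ OB q) • FA q + sCut ρ ϖ OB q • FB q) Z₂ := by
  intro q hq
  by_cases hq' : q ∈ OA
  · have hc := ((sg6_cut_cont H hρ).mono hZ) q hq
    have h1 : ContinuousWithinAt FA Z₂ q :=
      (hA q ⟨hq, hq'⟩).mono_of_mem_nhdsWithin (inter_mem_nhdsWithin _ (H.opA.mem_nhds hq'))
    exact ((continuousWithinAt_const.sub hc).smul h1).add (hc.smul hB.continuousWithinAt)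
  · refine (hB.continuousAt.congr ?_).continuousWithinAt
    filter_upwards [sg6_cut_one H hρ mem (hZ hq) hq'] with y hy
    rw [hy, sub_self, zero_smul, zero_add, one_smul]

theorem sg6_cut_far (H : Surg W T ρ ρ' W₂ ι π α β ϖ OA OB) (hρ : 0 < ρ) {x : E} (hx : x ∈ W)
    (hn : x ∉ T '' (sphere 0 1 ×ˢ ball 0 ρ)) : sCut ρ ϖ OB (α x) = 0 := by
  have hA : α x ∈ OA ∩ W₂ := H.eqA.superset ⟨x, ⟨hx, fun hm => hn (image_mono
    (Set.prod_mono Subset.rfl (closedBall_subset_ball (half_lt_self hρ))) hm)⟩, rfl⟩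
  by_contra hc
  obtain ⟨w, θ, hw, hθ, e, -⟩ := sg6_cut_ne_zero H hρ hA.2 hc
  have hw' : ‖w‖ < ρ := by linarith
  have h1 := H.only w θ hw' hθ (by rw [← e]; exact hA.1)
  have e2 : x = T (‖w‖⁻¹ • w, ‖w‖ • θ) := by
    rw [← H.πα x, e, s6_glue H hρ h1 hw' hθ, H.πα]
  have m1 : ‖w‖⁻¹ • w ∈ sphere (0 : Rd (j + 1)) 1 :=
    mem_sphere_zero_iff_norm.2 (s1_norm_unit ((half_pos hρ).trans h1))
  have m2 : ‖w‖ • θ ∈ ball (0 : Rd m) ρ :=
    mem_ball_zero_iff.2 (by rw [s1_norm_rad hθ]; exact hw')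
  exact hn ⟨(‖w‖⁻¹ • w, ‖w‖ • θ), ⟨m1, m2⟩, e2.symm⟩

end

theorem sg6_exists (H : Surg W T ρ ρ' W₂ ι π α β ϖ OA OB) (hρ : 0 < ρ) (hT : ContDiff ℝ ∞ T)
    (mem : ∀ σ y, ‖σ‖ = 1 → ‖y‖ < ρ → T (σ, y) ∈ W ∧ Λ (T (σ, y)) = (σ, y))
    {Z : Set E} {Z₂ : Set E₂} (hZ₂ : Z₂ ⊆ W₂)
    (hZ : ∀ x ∈ W \ T '' (sphere 0 1 ×ˢ closedBall 0 (ρ / 2)), α x ∈ Z₂ → x ∈ Z)
    {M : Set E'} {r : E → E'} {Φ : E → (E × (ℝ × K)) →L[ℝ] ((E' × ℝ) × (ℝ × K))}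
    (cr : ContinuousOn r Z) (mr : MapsTo r Z M) (cΦ : ContinuousOn Φ Z)
    (bΦ : ∀ p ∈ Z, BijOn (Φ p) (pl (Tan W p) (ℝ × K)) (pl (T1 M (r p)) (ℝ × K)))
    {R : Rd (j + 1) → E'} {Ψ : Rd (j + 1) → (Rd (j + 1) × Rd m × K) →L[ℝ] ((E' × ℝ) × (ℝ × K))}
    (cR : ContinuousOn R (closedBall 0 1)) (mR : MapsTo R (closedBall 0 1) M)
    (cΨ : ContinuousOn Ψ (closedBall 0 1))
    (bΨ : ∀ w ∈ closedBall (0 : Rd (j + 1)) 1, BijOn (Ψ w) univ (pl (T1 M (R w)) (ℝ × K)))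
    (nr : ∀ σ y, ‖σ‖ = 1 → ρ / 2 < ‖y‖ → ‖y‖ < ρ → r (T (σ, y)) = R σ)
    (nΦ : ∀ σ y, ‖σ‖ = 1 → ρ / 2 < ‖y‖ → ‖y‖ < ρ → ∀ u z t k, ⟪σ, u⟫ = 0 →
      Φ (T (σ, y)) (fderiv ℝ T (σ, y) (u, z), (t, k)) = Ψ σ (u + t • σ, z, k)) :
    ∃ (r₂ : E₂ → E') (Φ₂ : E₂ → (E₂ × (ℝ × K)) →L[ℝ] ((E' × ℝ) × (ℝ × K))),
      ContinuousOn r₂ Z₂ ∧ MapsTo r₂ Z₂ M ∧ ContinuousOn Φ₂ Z₂ ∧
      (∀ q ∈ Z₂, BijOn (Φ₂ q) (pl (Tan W₂ q) (ℝ × K)) (pl (T1 M (r₂ q)) (ℝ × K))) ∧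
      ∀ x ∈ W, x ∉ T '' (sphere 0 1 ×ˢ ball 0 ρ) →
        r₂ (α x) = r x ∧ ∀ v k, Φ₂ (α x) (v, k) = Φ x (π v, k) := by
  have hρ2 := half_pos hρ
  set c := sCut ρ ϖ OB with hc
  let hat : E₂ → Rd (j + 1) := fun q => sHat (ρ / 2) (ϖ q).1
  let ΦA : E₂ → (E₂ × (ℝ × K)) →L[ℝ] ((E' × ℝ) × (ℝ × K)) := fun q =>
    (Φ (π q)).comp (π.prodMap (ContinuousLinearMap.id ℝ _))
  let ΦB : E₂ → (E₂ × (ℝ × K)) →L[ℝ] ((E' × ℝ) × (ℝ × K)) := fun q =>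
    (Ψ (hat q)).comp ((sAt K (sRamp (ρ / 2) (ρ / 10) ‖(ϖ q).1‖) (hat q) (max ‖(ϖ q).1‖ (ρ / 2))
      (ϖ q).2).comp (ϖ.prodMap (ContinuousLinearMap.id ℝ _)))
  have chat : Continuous hat := (sHat_cont hρ2).comp ϖ.continuous.fst
  have hA : ∀ q ∈ Z₂ ∩ OA, ∃ x ∈ W \ T '' (sphere 0 1 ×ˢ closedBall 0 (ρ / 2)), x ∈ Z ∧
      q = α x := by
    rintro q ⟨h1, h2⟩
    obtain ⟨x, hx, rfl⟩ := H.eqA.subset ⟨h2, hZ₂ h1⟩
    exact ⟨x, hx, hZ x hx h1, rfl⟩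
  have hπ : MapsTo π (Z₂ ∩ OA) Z := by
    intro q hq
    obtain ⟨x, -, hx, rfl⟩ := hA q hq
    rwa [H.πα]
  -- where the cut-off vanishes
  have h0 : ∀ q ∈ Z₂, c q = 0 → q ∈ OA := by
    intro q hq hc0
    by_contra hn
    have := (sg6_cut_one H hρ mem (hZ₂ hq) hn).self_of_nhds
    rw [← hc, hc0] at this
    exact zero_ne_one this
  -- where it does not vanish
  have h1 : ∀ q ∈ Z₂, c q ≠ 0 → (1 - c q) • r (π q) + c q • R (hat q) = R (hat q) ∧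
      (∀ v ∈ pl (Tan W₂ q) (ℝ × K), ((1 - c q) • ΦA q + c q • ΦB q) v = ΦB q v) ∧
      BijOn (ΦB q) (pl (Tan W₂ q) (ℝ × K)) (pl (T1 M (R (hat q))) (ℝ × K)) := by
    intro q hq hc0
    obtain ⟨w, θ, hw, hθ, rfl, hc1⟩ := sg6_cut_ne_zero H hρ (hZ₂ hq) hc0
    have hw' : ‖w‖ < ρ := by linarith
    refine ⟨?_, ?_, ?_⟩
    · by_cases e : c (β (w, θ)) = 1
      · rw [e, sub_self, zero_smul, zero_add, one_smul]
      · have h7 := hc1 e
        have h5 : ρ / 2 < ‖w‖ := by linarith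
        have : r (π (β (w, θ))) = R (hat (β (w, θ))) := by
          simp only [hat, H.ϖβ]
          rw [s6_glue H hρ h5 hw' hθ, H.πα, sHat_eq h5.le, nr _ _ (s1_norm_unit (hρ2.trans h5))
            (by rw [s1_norm_rad hθ]; exact h5) (by rw [s1_norm_rad hθ]; exact hw')]
        rw [this, ← add_smul, sub_add_cancel, one_smul]
    · intro v hv
      by_cases e : c (β (w, θ)) = 1
      · rw [e, sub_self, zero_smul, zero_add, one_smul]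
      · have h7 := hc1 e
        have h5 : ρ / 2 < ‖w‖ := by linarith
        have hσ := s1_norm_unit (hρ2.trans h5)
        have : ΦA (β (w, θ)) v = ΦB (β (w, θ)) v := by
          obtain ⟨v, t, k⟩ := v
          have e1 := s6_tan_glue H hT hρ h5 hw' hθ (mem_pl.1 hv)
          have e2 : π (β (w, θ)) = T (‖w‖⁻¹ • w, ‖w‖ • θ) := by
            rw [s6_glue H hρ h5 hw' hθ, H.πα]
          simp only [ΦA, ΦB, hat, H.ϖβ, ContinuousLinearMap.comp_apply,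
            ContinuousLinearMap.coe_prodMap', Prod.map_apply, ContinuousLinearMap.coe_id', id]
          rw [sRamp_one (by positivity) (by linarith), sAt_one, sHat_eq h5.le, max_eq_left h5.le,
            sAs_apply, e1, e2, nΦ _ _ hσ (by rw [s1_norm_rad hθ]; exact h5)
              (by rw [s1_norm_rad hθ]; exact hw')]
          rw [inner_smul_right, inner_sub_right, inner_smul_right (‖w‖⁻¹ • w) (‖w‖⁻¹ • w),
            real_inner_self_eq_norm_sq, hσ]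
          ring
        rw [add_apply, smul_apply, smul_apply, this, ← add_smul, sub_add_cancel, one_smul]
    · have b1 : BijOn (ϖ.prodMap (ContinuousLinearMap.id ℝ (ℝ × K)))
          (pl (Tan W₂ (β (w, θ))) (ℝ × K)) (sPerp (Rd (j + 1)) (ℝ × K) θ) :=
        (s6_tanB H hw' hθ).1.prodMap (bijOn_id (univ : Set (ℝ × K))) |>.congr
          (fun _ _ => rfl) |> fun h => by
            have e2 : (sPerp (Rd (j + 1)) (ℝ × K) θ : Set _) =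
                {v : Rd (j + 1) × Rd m | ⟪θ, v.2⟫ = 0} ×ˢ (univ : Set (ℝ × K)) := by
              ext v
              simp [mem_sPerp]
            rw [e2]
            exact h
      have b2 := sAt_bijOn (K := K) (σ := sHat (ρ / 2) w) (ρ := max ‖w‖ (ρ / 2))
        (sRamp_mem (ρ / 2) (ρ / 10) ‖w‖) (lt_max_of_lt_right hρ2) hθ (by
          rcases le_total ‖w‖ (ρ / 2) with h | h
          · exact Or.inl (sRamp_zero (by positivity) h)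
          · right
            rw [sHat_eq h]
            exact s1_norm_unit (hρ2.trans_le h))
      have b3 := bΨ _ (sHat_mem hρ2 w)
      simp only [ΦB, hat, H.ϖβ]
      exact b3.comp (b2.comp b1)
  refine ⟨fun q => (1 - c q) • r (π q) + c q • R (hat q),
    fun q => (1 - c q) • ΦA q + c q • ΦB q, ?_, ?_, ?_, ?_, ?_⟩
  · exact sg6_paste H hρ mem hZ₂ (cr.comp π.continuous.continuousOn hπ)
      (cR.comp_continuous chat fun q => sHat_mem hρ2 _)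
  · intro q hq
    by_cases e : c q = 0
    · simp only [e, sub_zero, one_smul, zero_smul, add_zero]
      exact mr (hπ ⟨hq, h0 q hq e⟩)
    · simp only [(h1 q hq e).1]
      exact mR (sHat_mem hρ2 _)
  · refine sg6_paste H hρ mem hZ₂
      ((cΦ.comp π.continuous.continuousOn hπ).clm_comp continuousOn_const) ?_
    refine (cΨ.comp_continuous chat fun q => sHat_mem hρ2 _).clm_comp
      ((sAt_cont ((sRamp_cont _ _).comp ϖ.continuous.fst.norm)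
        (ϖ.continuous.fst.norm.max continuous_const) chat ϖ.continuous.snd
        fun _ => (lt_max_of_lt_right hρ2).ne').clm_comp continuous_const)
  · intro q hq
    by_cases e : c q = 0
    · simp only [e, sub_zero, one_smul, zero_smul, add_zero]
      obtain ⟨x, hx, hx', rfl⟩ := hA q ⟨hq, h0 q hq e⟩
      simp only [ΦA, H.πα]
      exact (bΦ x hx').comp (s6_bijOn_pl (s6_tanA H hT.continuous hx))
    · obtain ⟨e1, e2, e3⟩ := h1 q hq e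
      simp only [e1]
      exact e3.congr fun v hv => (e2 v hv).symm
  · intro x hx hn
    have e : c (α x) = 0 := sg6_cut_far H hρ hx hn
    simp only [e, sub_zero, one_smul, zero_smul, add_zero, ΦA, H.πα, true_and]
    intro v k
    rfl

end

variable {E : Type} [NormedAddCommGroup E] [NormedSpace ℝ E] [FiniteDimensional ℝ E]
  {E' : Type} [NormedAddCommGroup E'] [NormedSpace ℝ E'] [FiniteDimensional ℝ E']
  {E₂ : Type} [NormedAddCommGroup E₂] [NormedSpace ℝ E₂] [FiniteDimensional ℝ E₂]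
  {K : Type} [NormedAddCommGroup K] [NormedSpace ℝ K] [FiniteDimensional ℝ K]

variable {j m : ℕ} {W : Set E} {ε ρ ρ' : ℝ} {T : Rd (j + 1) × Rd (m + 1) → E}
  {Λ : E → Rd (j + 1) × Rd (m + 1)} {W₂ : Set E₂} {ι : E →L[ℝ] E₂} {π : E₂ →L[ℝ] E} {α : E → E₂}
  {β : Rd (j + 1) × Rd (m + 1) → E₂} {ϖ : E₂ →L[ℝ] Rd (j + 1) × Rd (m + 1)} {OA OB : Set E₂}

/-- The normal data extend over the surgered manifold. -/
theorem Surg.exists_nd (h : Surg W T ρ ρ' W₂ ι π α β ϖ OA OB) (h0 : 0 < ρ) (hρ : ρ < ε)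
    (hT : TubeG j (m + 1) W ε T Λ) {Z : Set E} (hZ : Z ⊆ W)
    (hZT : ∀ σ y, ‖σ‖ = 1 → ‖y‖ < ε → T (σ, y) ∈ Z) {M : Set E'} {r : E → E'}
    {Φ : E → (E × (ℝ × K)) →L[ℝ] ((E' × ℝ) × (ℝ × K))} {R : Rd (j + 1) → E'}
    {Ψ : Rd (j + 1) → (Rd (j + 1) × Rd (m + 1) × K) →L[ℝ] ((E' × ℝ) × (ℝ × K))}
    (hF : Flat T ρ M r Φ R Ψ) (cr : ContinuousOn r Z) (mr : MapsTo r Z M)
    (cΦ : ContinuousOn Φ Z)
    (bΦ : ∀ p ∈ Z, BijOn (Φ p) (pl (Tan W p) (ℝ × K)) (pl (T1 M (r p)) (ℝ × K))) :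
    ∃ (r₂ : E₂ → E') (Φ₂ : E₂ → (E₂ × (ℝ × K)) →L[ℝ] ((E' × ℝ) × (ℝ × K))),
      ContinuousOn r₂ {z | z ∈ W₂ ∧ (z ∈ OA → π z ∈ Z)} ∧
      MapsTo r₂ {z | z ∈ W₂ ∧ (z ∈ OA → π z ∈ Z)} M ∧
      ContinuousOn Φ₂ {z | z ∈ W₂ ∧ (z ∈ OA → π z ∈ Z)} ∧
      (∀ z ∈ W₂, (z ∈ OA → π z ∈ Z) →
        BijOn (Φ₂ z) (pl (Tan W₂ z) (ℝ × K)) (pl (T1 M (r₂ z)) (ℝ × K))) ∧
      ∀ x ∈ W, x ∉ T '' (sphere 0 1 ×ˢ ball 0 ε) →
        r₂ (α x) = r x ∧ ∀ v k, Φ₂ (α x) (v, k) = Φ x (π v, k) := by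
  obtain ⟨r₂, Φ₂, h1, h2, h3, h4, h5⟩ := sg6_exists (Z := Z)
    (Z₂ := {z | z ∈ W₂ ∧ (z ∈ OA → π z ∈ Z)}) h h0 hT.smT
    (fun σ y hσ hy => hT.mem σ y hσ (hy.trans hρ)) (fun _ hz => hz.1)
    (fun x hx hz => by
      have := hz.2 (h.eqA.superset ⟨x, hx, rfl⟩).1
      rwa [h.πα] at this)
    cr mr cΦ bΦ hF.cR hF.mR hF.cΨ hF.bΨ (fun σ y hσ _ hy => hF.eR σ y hσ hy.le)
    (fun σ y hσ _ hy u z t k hu => by
      have e : ⟪σ, u + t • σ⟫ = t := by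
        rw [inner_add_right, hu, inner_smul_right, real_inner_self_eq_norm_sq, hσ]; ring
      rw [hF.eΨ σ y hσ hy.le, e, add_sub_cancel_right])
  exact ⟨r₂, Φ₂, h1, h2, h3, fun z hz hz' => h4 z ⟨hz, hz'⟩, fun x hx hn => h5 x hx fun hm =>
    hn (image_mono (Set.prod_mono Subset.rfl (ball_subset_ball hρ.le)) hm)⟩

end Pool.Agent.Lib.MP_ccffa6_gt
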