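import Pool.Agent.Lib.MP_ccffa6_gt.TOP.Sg1
import Pool.Agent.Lib.MP_ccffa6_gt.TOP.Sg5
import Pool.Agent.Lib.MP_ccffa6_gt.TOP.Sg6
import Pool.Agent.Lib.MP_ccffa6_gt.TOP.Norm
import Pool.Agent.Lib.MP_ccffa6_gt.TOP.G1

/-! One surgery along a framed tube. -/

open Set Filter Topology Metric
open scoped ContDiff RealInnerProductSpace

noncomputable section

namespace Pool.Agent.Lib.MP_ccffa6_gt

theorem top_surg : SurgStmt := by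
  intro E _ _ _ E' _ _ _ K _ _ _ j m W f a b p M r Φ e ε κ δ T Λ R Ψ hC h
  have hT : TubeG j (m + 1) W ε T Λ := ⟨h.hε, h.smT, h.smΛ,
    fun σ y h1 h2 => ⟨(h.mem σ y h1 h2).1, (h.mem σ y h1 h2).2.2⟩, h.op, h.bij⟩
  have hF : ContDiff ℝ ∞ (f ∘ T) := hC.sm.comp h.smT
  obtain ⟨G, V, ρ, ρ', hG⟩ := top_g1 j (m + 1) (f ∘ T) e a b (f p) ε κ δ hF h.he h.hε h.hκ h.hδ
    (fun σ y h1 h2 => (h.mem σ y h1 h2).2.1) h.cap h.up
    fun σ y h1 h2 h3 => h.reg σ y h1 h2 ((hT.crit_iff hC.sm hF (fun _ _ _ _ => rfl) h1 h2).2 h3)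
  have h0 := hG.hρ
  have h1 := hG.hρ'
  have h2 := hG.hε
  have hρ : ρ < ε := h1.trans h2
  obtain ⟨g, hg, gT, gO⟩ := hT.exists_fn hC.sm hG.smG h2 hG.out
  have sub : ∀ {s t : ℝ}, s < t → T '' (sphere 0 1 ×ˢ closedBall 0 s) ⊆
      T '' (sphere 0 1 ×ˢ ball 0 t) := fun h =>
    image_mono (prod_mono subset_rfl (closedBall_subset_ball h))
  have sub' : ∀ {s t : ℝ}, s ≤ t → T '' (sphere 0 1 ×ˢ ball 0 s) ⊆
      T '' (sphere 0 1 ×ˢ closedBall 0 t) := fun h =>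
    image_mono (prod_mono subset_rfl (ball_subset_closedBall.trans (closedBall_subset_closedBall h)))
  have tube : ∀ x ∈ T '' (sphere 0 1 ×ˢ ball 0 ε), ∃ σ y, ‖σ‖ = 1 ∧ ‖y‖ < ε ∧ x = T (σ, y) := by
    rintro _ ⟨⟨σ, y⟩, ⟨a1, a2⟩, rfl⟩
    exact ⟨σ, y, by simpa using a1, by simpa using a2, rfl⟩
  have gI : ∀ σ y, ‖σ‖ = 1 → ‖y‖ < ε → g (T (σ, y)) ∈ Ioo a b := fun σ y a1 a2 => by
    rw [gT σ y a1 a2]; exact hG.memG σ y a1 a2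
  have both : ∀ x ∈ W, (f x ∈ Ioo a b ∧ g x ∈ Ioo a b) ∨
      (x ∉ T '' (sphere 0 1 ×ˢ ball 0 ε) ∧ g =ᶠ[𝓝 x] f) := fun x hx => by
    by_cases hx' : x ∈ T '' (sphere 0 1 ×ˢ ball 0 ε)
    · obtain ⟨σ, y, a1, a2, rfl⟩ := tube x hx'
      exact Or.inl ⟨(h.mem σ y a1 a2).2.1, gI σ y a1 a2⟩
    · exact Or.inr ⟨hx', gO x hx fun hh => hx' (sub h2 hh)⟩
  have slab : W ∩ g ⁻¹' Icc a b = W ∩ f ⁻¹' Icc a b := by
    ext x
    refine and_congr_right fun hx => ?_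
    rcases both x hx with ⟨a1, a2⟩ | ⟨-, a2⟩
    · exact iff_of_true (Ioo_subset_Icc_self a2) (Ioo_subset_Icc_self a1)
    · simp only [mem_preimage, a2.eq_of_nhds]
  have lev : ∀ c, c ∉ Ioo a b → Lev W g c = Lev W f c := fun c hc => by
    ext x
    refine and_congr_right fun hx => ?_
    rcases both x hx with ⟨a1, a2⟩ | ⟨-, a2⟩
    · refine iff_of_false (fun hh => hc ?_) fun hh => hc ?_
      · rwa [← (mem_singleton_iff.1 hh)]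
      · rwa [← (mem_singleton_iff.1 hh)]
    · simp only [mem_preimage, a2.eq_of_nhds]
  have na : a ∉ Ioo a b := fun h => lt_irrefl _ h.1
  have nb : b ∉ Ioo a b := fun h => lt_irrefl _ h.2
  have ends : ∀ x ∈ W ∩ f ⁻¹' {a, b}, x ∉ T '' (sphere 0 1 ×ˢ ball 0 ε) ∧ g =ᶠ[𝓝 x] f := by
    rintro x ⟨hx, hx'⟩
    refine (both x hx).resolve_left fun hh => ?_
    rcases hx' with hx' | hx'
    · exact na (hx' ▸ hh.1)
    · exact nb ((mem_singleton_iff.1 hx') ▸ hh.1)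
  obtain ⟨r', Φ', hC', hFl, hO⟩ := top_norm hC h h0 h1 h2
  obtain ⟨E₂, _, _, _, W₂, ι, π, α, β, ϖ, OA, OB, hS⟩ := top_sg1 hT h0 h1 h2
  obtain ⟨f₂, hf₂, hA, hB⟩ := hS.exists_fn h0 hg hG.smV fun σ θ t a1 a2 a3 a4 => by
    have : ‖t • θ‖ < ε := by
      rw [norm_smul, a2, mul_one, Real.norm_of_nonneg (by linarith)]; linarith
    rw [gT σ _ a1 this, hG.shell σ θ t a1 a2 a3.le a4.le]
  obtain ⟨r₂, Φ₂, cr, mr, cΦ, bΦ, eΦ⟩ := hS.exists_nd h0 hρ hT (Z := W ∩ f ⁻¹' Icc a b)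
    inter_subset_left
    (fun σ y a1 a2 => ⟨(h.mem σ y a1 a2).1, Ioo_subset_Icc_self (h.mem σ y a1 a2).2.1⟩)
    hFl hC'.cr hC'.mr hC'.cΦ hC'.bΦ
  have hsub : W₂ ∩ f₂ ⁻¹' Icc a b ⊆ {z | z ∈ W₂ ∧ (z ∈ OA → π z ∈ W ∩ f ⁻¹' Icc a b)} :=
    fun z hz => ⟨hz.1, fun hO => slab ▸ hS.slab_proj hA hz hO⟩
  have far : ∀ x ∈ W, x ∉ T '' (sphere 0 1 ×ˢ ball 0 ε) →
      x ∈ W \ T '' (sphere 0 1 ×ˢ closedBall 0 (ρ / 2)) ∧ α x = ι x := fun x hx hn =>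
    ((hS.loc h0 h1 hT hx fun hh => hn (sub h2 hh)).2).self_of_nhdsWithin hx
  have df : ∀ x, DifferentiableAt ℝ f x := hC.sm.differentiable (by simp)
  have dg : ∀ x, DifferentiableAt ℝ g x := hg.differentiable (by simp)
  refine ⟨E₂, _, _, inferInstance, W₂, f₂, ι, π, r₂, Φ₂,
    ⟨hS.isSub hT hC.sub, hf₂, hS.cpt h0 hρ hT (slab ▸ hC.cpt) hA hB hG.memV, cr.mono hsub,
      mr.mono_left hsub, cΦ.mono hsub, fun z hz => bΦ z hz.1 (hsub hz).2⟩,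
    ⟨hS.πι, ?_, ?_, fun x hx => ?_, fun x hx => ?_, fun x hx => ?_, fun x hx v _ k => ?_⟩,
    fun x hx hc hp => ?_, fun z hz hc => ?_⟩
  · rw [hS.lev h0 h1 h2 hA hB hG.memV gI na, lev a na]
  · rw [hS.lev h0 h1 h2 hA hB hG.memV gI nb, lev b nb]
  · exact (hS.loc h0 h1 hT hx.1 fun hh => (ends x hx).1 (sub h2 hh)).1
  · filter_upwards [(hS.loc h0 h1 hT hx.1 fun hh => (ends x hx).1 (sub h2 hh)).2,
      (ends x hx).2.filter_mono nhdsWithin_le_nhds] with y a1 a2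
    rw [← a1.2, hA y a1.1, a2]
  · have hn := (ends x hx).1
    rw [← (far x hx.1 hn).2, (eΦ x hx.1 hn).1, (hO x fun hh => hn (sub h2 (sub' le_rfl hh))).1]
  · have hn := (ends x hx).1
    rw [← (far x hx.1 hn).2, (eΦ x hx.1 hn).2, (hO x fun hh => hn (sub h2 (sub' le_rfl hh))).2,
      hS.πι]
  · have hn : x ∉ T '' (sphere 0 1 ×ˢ ball 0 ε) := fun hh => by
      obtain ⟨σ, y, a1, a2, rfl⟩ := tube x hh
      obtain ⟨rfl, rfl⟩ := h.reg σ y a1 a2 hc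
      exact hp h.pole
    obtain ⟨a1, a2⟩ := far x hx.1 hn
    have a3 := gO x hx.1 fun hh => hn (sub h2 hh)
    rw [← a2]
    refine ⟨(hS.diffA.mapφ a1).2, (hA x a1).trans a3.eq_of_nhds, fun i l hm => ?_⟩
    exact hS.mchart hT hA a1 (hm.congr hx.1 (a3.filter_mono nhdsWithin_le_nhds))
  · have hOA : z ∈ OA := by
      refine (hS.cov hz.1).resolve_right fun hh => ?_
      obtain ⟨⟨w, θ⟩, ⟨a1, a2⟩, rfl⟩ := hS.eqB ▸ (show z ∈ OB ∩ W₂ from ⟨hh, hz.1⟩)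
      have a1 : ‖w‖ < ρ := by simpa using a1
      exact hS.critB hG.smV hf₂ hB a1 (by simpa using a2) (hG.regV w a1.le) hc
    obtain ⟨x, hx, rfl⟩ := hS.eqA ▸ (show z ∈ OA ∩ W₂ from ⟨hOA, hz.1⟩)
    have cx := (hS.critA hT hg hf₂ hA hx).1 hc
    by_cases hx' : x ∈ T '' (sphere 0 1 ×ˢ ball 0 ε)
    · obtain ⟨σ, y, a1, a2, rfl⟩ := tube x hx'
      have a3 : ρ / 2 < ‖y‖ := lt_of_not_ge fun hh =>
        hx.2 ((hT.mem_closedBall (by linarith) a1 a2).2 hh)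
      refine Or.inr (hS.posAt h0 hρ hT hf₂ hA hG.smG gT a1 a3 a2 (hG.crit σ y a1 a2 ?_
        ((hT.crit_iff hg hG.smG gT a1 a2).1 cx)))
      rintro rfl
      rw [norm_zero] at a3
      linarith
    · have a3 := gO x hx.1 fun hh => hx' (sub h2 hh)
      refine Or.inl ⟨x, ?_, cx.congr hx.1 (dg x) (df x)
        (a3.symm.filter_mono nhdsWithin_le_nhds), ?_, (far x hx.1 hx').2⟩
      · have := hS.slab_proj hA hz hOA
        rwa [hS.πα, slab] at this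
      · rintro rfl
        refine hx' ⟨(-e, 0), ⟨by simpa using h.he, by simpa using h.hε⟩, h.pole⟩

end Pool.Agent.Lib.MP_ccffa6_gt
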