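import Pool.Agent.Lib.MP_ccffa6_gt.TOP.TDef

open Set Filter Topology Metric
open scoped ContDiff RealInnerProductSpace

noncomputable section

namespace Pool.Agent.Lib.MP_ccffa6_gt

variable {E : Type} [NormedAddCommGroup E] [NormedSpace ℝ E] [FiniteDimensional ℝ E]
  {E' : Type} [NormedAddCommGroup E'] [NormedSpace ℝ E'] [FiniteDimensional ℝ E']
  {F : Type} [NormedAddCommGroup F] [NormedSpace ℝ F] [FiniteDimensional ℝ F]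
  {A : Type} [NormedAddCommGroup A] [NormedSpace ℝ A] [FiniteDimensional ℝ A]

/-- `φ` identifies the ball of radius `R` with `W ∩ O`, with inverse `ψ`. -/
structure CBall (W : Set E) (φ : F → E) (ψ : E → F) (R : ℝ) (O : Set E) : Prop where
  pos : 0 < R
  smφ : ContDiff ℝ ∞ φ
  smψ : ContDiff ℝ ∞ ψ
  op : IsOpen O
  fw : ∀ z ∈ ball (0 : F) R, φ z ∈ W ∩ O ∧ ψ (φ z) = z
  bw : ∀ y ∈ W ∩ O, ψ y ∈ ball (0 : F) R ∧ φ (ψ y) = y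

/-- `u` and `v` are homotopic on `X` through maps into `Z`. -/
def HIn (X : Set A) (Z : Set E) (u v : A → E) : Prop :=
  ∃ H : ℝ × A → E, ContinuousOn H (Icc (0 : ℝ) 1 ×ˢ X) ∧ MapsTo H (Icc (0 : ℝ) 1 ×ˢ X) Z ∧
    ∀ x ∈ X, H (0, x) = u x ∧ H (1, x) = v x

/-- `u` on the unit sphere extends to the closed ball, with values in `Z`. -/
def Nul (Z : Set E) (u : A → E) : Prop :=
  ∃ R : A → E, ContinuousOn R (closedBall 0 1) ∧ MapsTo R (closedBall 0 1) Z ∧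
    EqOn R u (sphere 0 1)

/-- A smooth retraction onto `W` on the `η`-neighbourhood of `C`. -/
structure Retr (d : ℕ) (W C : Set E) (pr : E → E) (η : ℝ) : Prop where
  pos : 0 < η
  sm : ContDiff ℝ ∞ pr
  mem : ∀ x ∈ C, ∀ y, ‖y - x‖ < η → pr y ∈ W
  fix : ∀ x ∈ C, ∀ y ∈ W, ‖y - x‖ < η → pr y = y
  tan : ∀ x ∈ C, ∀ y ∈ W, ‖y - x‖ < η →
    (∀ v, fderiv ℝ pr y v ∈ Tan W y) ∧ ∀ v ∈ Tan W y, fderiv ℝ pr y v = v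
  rank : ∀ x ∈ C, ∀ y, ‖y - x‖ < η →
    d ≤ Module.finrank ℝ (LinearMap.range (fderiv ℝ pr y : E →ₗ[ℝ] E))

/-- An equal area chart `z` of the lower hemisphere, and the projection `π` along `e`. -/
structure Pole {j : ℕ} (e : Rd (j + 1)) (π : Rd (j + 1) →L[ℝ] Rd j) (z : Rd (j + 1) → Rd j) :
    Prop where
  he : ‖e‖ = 1
  sq : ∀ w, ‖w‖ ^ 2 = ⟪e, w⟫ ^ 2 + ‖π w‖ ^ 2
  sm : ContDiff ℝ ∞ z
  eq : ∀ σ, ⟪e, σ⟫ ≤ 0 → z σ = (√(1 - ⟪e, σ⟫))⁻¹ • π σ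
  nrm : ∀ σ, ‖σ‖ = 1 → ⟪e, σ⟫ ≤ 0 → ‖z σ‖ ^ 2 = 1 + ⟪e, σ⟫
  inj : InjOn z {σ | ‖σ‖ = 1 ∧ ⟪e, σ⟫ ≤ 0}
  imm : ∀ σ, ‖σ‖ = 1 → ⟪e, σ⟫ < 0 → ∀ v, ⟪σ, v⟫ = 0 → fderiv ℝ z σ v = 0 → v = 0

end Pool.Agent.Lib.MP_ccffa6_gt
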