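import Pool.Agent.Lib.MP_ccffa6_gt.TOP.Ball
import Pool.Agent.Lib.MP_ccffa6_gt.TOP.TDef2
import Pool.Agent.Lib.MP_ccffa6_gt.K.Proj
import Pool.Agent.Lib.MP_ccffa6_gt.K.Lin

open Set Filter Topology Metric
open scoped ContDiff RealInnerProductSpace

noncomputable section

namespace Pool.Agent.Lib.MP_ccffa6_gt

variable {E : Type} [NormedAddCommGroup E] [NormedSpace ℝ E] [FiniteDimensional ℝ E]
  {E' : Type} [NormedAddCommGroup E'] [NormedSpace ℝ E'] [FiniteDimensional ℝ E']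
  {F : Type} [NormedAddCommGroup F] [NormedSpace ℝ F] [FiniteDimensional ℝ F]
  {A : Type} [NormedAddCommGroup A] [NormedSpace ℝ A] [FiniteDimensional ℝ A]

variable {K : Type} [NormedAddCommGroup K] [NormedSpace ℝ K] [FiniteDimensional ℝ K]

theorem top_framea_rank (T : Submodule ℝ E) :
    Module.finrank ℝ (pl T K) = Module.finrank ℝ T + Module.finrank ℝ K := by
  have h : LinearMap.range (T.subtype.prodMap (LinearMap.id : K →ₗ[ℝ] K)) = pl T K := by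
    rw [LinearMap.range_prodMap, Submodule.range_subtype, LinearMap.range_id]
    rfl
  rw [← h, LinearMap.finrank_range_of_inj, Module.finrank_prod]
  exact T.injective_subtype.prodMap Function.injective_id

/-- Trivialise the pulled back bundle over the ball. -/
theorem top_frameA {d' : ℕ} {W C : Set E} {M : Set E'} (hM : Closed d' M) {r : E → E'}
    {Φ : E → (E × K) →L[ℝ] ((E' × ℝ) × K)} (cΦ : ContinuousOn Φ C)
    (bΦ : ∀ p ∈ C, BijOn (Φ p) (pl (Tan W p) K) (pl (T1 M (r p)) K)) {u : A → E}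
    (hu : ContinuousOn u (sphere 0 1)) (hm : MapsTo u (sphere 0 1) C) (hn : Nul M (r ∘ u)) :
    ∃ (R : A → E') (Θ : A → Rd (d' + 1 + Module.finrank ℝ K) →L[ℝ] ((E' × ℝ) × K))
      (Ξ : A → (E × K) →L[ℝ] Rd (d' + 1 + Module.finrank ℝ K)),
      ContinuousOn R (closedBall 0 1) ∧ MapsTo R (closedBall 0 1) M ∧
      EqOn R (r ∘ u) (sphere 0 1) ∧ ContinuousOn Θ (closedBall 0 1) ∧
      (∀ w ∈ closedBall (0 : A) 1, BijOn (Θ w) univ (pl (T1 M (R w)) K)) ∧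
      ContinuousOn Ξ (sphere 0 1) ∧ ∀ σ ∈ sphere (0 : A) 1,
        BijOn (Ξ σ) (pl (Tan W (u σ)) K) univ ∧
        ∀ q ∈ pl (Tan W (u σ)) K, Θ σ (Ξ σ q) = Φ (u σ) q := by
  obtain ⟨R, cR, mR, eR⟩ := hn
  obtain ⟨Pr, U, hP, -, hU, hT⟩ := hM.sub.exists_proj hM.cpt subset_rfl
  have h0 : P.CS M (Tan M) := ⟨Pr, hP.continuous.continuousOn, fun x hx => hT x ⟨hx, hU hx⟩⟩
  have hQ : P.CS (closedBall (0 : A) 1) fun w => pl (T1 M (R w)) K :=
    ((h0.comp cR mR).prod (P.cs_top _)).prod (P.cs_top _)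
  have hN : Module.finrank ℝ (pl (T1 M (R 0)) K) = d' + 1 + Module.finrank ℝ K := by
    rw [top_framea_rank, T1, top_framea_rank, hM.sub.finrank (mR (mem_closedBall_self zero_le_one)),
      Module.finrank_self]
  obtain ⟨Θ, cΘ, bΘ⟩ := top_ball hQ hN
  obtain ⟨Ψ, cΨ, hΨ⟩ := (P.cs_top (closedBall (0 : A) 1)).inv hQ cΘ
    fun w hw => by simpa using bΘ w hw
  refine ⟨R, Θ, fun σ => (Ψ σ).comp (Φ (u σ)), cR, mR, eR, cΘ, bΘ,
    (cΨ.mono sphere_subset_closedBall).clm_comp (cΦ.comp hu hm), fun σ hσ => ?_⟩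
  obtain ⟨-, h2, h3⟩ := hΨ σ (sphere_subset_closedBall hσ)
  have hb := bΦ _ (hm hσ)
  have e : r (u σ) = R σ := (eR hσ).symm
  rw [e] at hb
  have key : ∀ q ∈ pl (Tan W (u σ)) K, Θ σ (Ψ σ (Φ (u σ) q)) = Φ (u σ) q :=
    fun q hq => h2 _ (hb.1 hq)
  refine ⟨⟨mapsTo_univ _ _, fun q hq q' hq' h => hb.2.1 hq hq' ?_, fun y _ => ?_⟩, key⟩
  · rw [← key q hq, ← key q' hq']
    exact congrArg (Θ σ) h
  · obtain ⟨q, hq, hy⟩ := hb.2.2 ((bΘ σ (sphere_subset_closedBall hσ)).1 (mem_univ y))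
    refine ⟨q, hq, ?_⟩
    show Ψ σ (Φ (u σ) q) = y
    rw [hy, h3 y trivial]

end Pool.Agent.Lib.MP_ccffa6_gt
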