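import Pool.Agent.Lib.MP_ccffa6_gt.K.Level

/-! Spheres, sphere times ball, ball times sphere. -/

open Set Filter Topology Metric
open scoped ContDiff RealInnerProductSpace

noncomputable section

namespace Pool.Agent.Lib.MP_ccffa6_gt

variable {E : Type} [NormedAddCommGroup E] [NormedSpace ℝ E] [FiniteDimensional ℝ E]
  {E' : Type} [NormedAddCommGroup E'] [NormedSpace ℝ E'] [FiniteDimensional ℝ E']
  {E₂ : Type} [NormedAddCommGroup E₂] [NormedSpace ℝ E₂] [FiniteDimensional ℝ E₂]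
  {K : Type} [NormedAddCommGroup K] [NormedSpace ℝ K] [FiniteDimensional ℝ K]

theorem top_sph_level {k : ℕ} {σ : Rd (k + 1)} (h : ‖σ‖ = 1) :
    (∃ (φ : Rd k → Rd (k + 1)) (ψ : Rd (k + 1) → Rd k), Chart (sphere (0 : Rd (k + 1)) 1) σ φ ψ) ∧
      ∀ v, v ∈ Tan (sphere (0 : Rd (k + 1)) 1) σ ↔ ⟪σ, v⟫ = 0 := by
  have h1 : ∀ v, fderiv ℝ (fun x : Rd (k + 1) => ‖x‖ ^ 2 - 1) σ v = 2 * ⟪σ, v⟫ := fun v => by
    rw [((hasStrictFDerivAt_norm_sq σ).hasFDerivAt.sub_const 1).fderiv]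
    simp
  have h2 : Tan (univ : Set (Rd (k + 1))) σ = ⊤ := Tan.of_mem_nhds univ_mem
  have h3 : univ ∩ (fun x : Rd (k + 1) => ‖x‖ ^ 2 - 1) ⁻¹' {0} = sphere 0 1 := by
    ext x
    simp [sub_eq_zero, (show ‖x‖ ≠ -1 by linarith [norm_nonneg x])]
  have h4 := Chart.level (e := k) (isSub_of_isOpen isOpen_univ)
    (G := fun x : Rd (k + 1) => ‖x‖ ^ 2 - 1) ((contDiff_norm_sq ℝ).sub contDiff_const) (by simp)
    (mem_univ σ) (by simp [h]) fun w => ⟨(w / 2) • σ, by simp [h2], by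
      rw [h1, inner_smul_right, real_inner_self_eq_norm_sq, h]
      ring⟩
  rw [h3] at h4
  exact ⟨h4.1, fun v => by simp [h4.2, h1, h2]⟩

theorem top_sph_ball (m : ℕ) (ρ : ℝ) : IsSub m (ball (0 : Rd m) ρ) := by
  simpa using isSub_of_isOpen (isOpen_ball (x := (0 : Rd m)) (ε := ρ))

theorem top_isSub_sphere (k : ℕ) : IsSub k (sphere (0 : Rd (k + 1)) 1) :=
  fun _ h => (top_sph_level (mem_sphere_zero_iff_norm.1 h)).1

theorem top_tan_sphere {k : ℕ} {σ : Rd (k + 1)} (h : ‖σ‖ = 1) (v : Rd (k + 1)) :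
    v ∈ Tan (sphere (0 : Rd (k + 1)) 1) σ ↔ ⟪σ, v⟫ = 0 :=
  (top_sph_level h).2 v

theorem top_isSub_sb (j m : ℕ) (ρ : ℝ) :
    IsSub (j + m) (sphere (0 : Rd (j + 1)) 1 ×ˢ ball (0 : Rd m) ρ) :=
  (top_isSub_sphere j).prod (top_sph_ball m ρ)

theorem top_tan_sb {j m : ℕ} {ρ : ℝ} {σ : Rd (j + 1)} {y : Rd m} (h : ‖σ‖ = 1) (hy : ‖y‖ < ρ)
    (q : Rd (j + 1) × Rd m) :
    q ∈ Tan (sphere (0 : Rd (j + 1)) 1 ×ˢ ball (0 : Rd m) ρ) (σ, y) ↔ ⟪σ, q.1⟫ = 0 := by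
  rw [(top_isSub_sphere j).tan_prod (top_sph_ball m ρ) (mem_sphere_zero_iff_norm.2 h)
    (mem_ball_zero_iff.2 hy), Tan.of_mem_nhds (isOpen_ball.mem_nhds (mem_ball_zero_iff.2 hy)),
    Submodule.mem_prod, top_tan_sphere h]
  simp

theorem top_isSub_bs (j m : ℕ) (ρ : ℝ) :
    IsSub (j + m + 1) (ball (0 : Rd (j + 1)) ρ ×ˢ sphere (0 : Rd (m + 1)) 1) := by
  rw [Nat.add_right_comm]
  exact (top_sph_ball (j + 1) ρ).prod (top_isSub_sphere m)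

theorem top_tan_bs {j m : ℕ} {ρ : ℝ} {w : Rd (j + 1)} {θ : Rd (m + 1)} (hw : ‖w‖ < ρ)
    (h : ‖θ‖ = 1) (q : Rd (j + 1) × Rd (m + 1)) :
    q ∈ Tan (ball (0 : Rd (j + 1)) ρ ×ˢ sphere (0 : Rd (m + 1)) 1) (w, θ) ↔ ⟪θ, q.2⟫ = 0 := by
  rw [(top_sph_ball (j + 1) ρ).tan_prod (top_isSub_sphere m) (mem_ball_zero_iff.2 hw)
    (mem_sphere_zero_iff_norm.2 h), Tan.of_mem_nhds (isOpen_ball.mem_nhds (mem_ball_zero_iff.2 hw)),
    Submodule.mem_prod, top_tan_sphere h]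
  simp

/-- Polar form of a nonzero vector. -/
theorem top_polar {k : ℕ} {y : Rd k} (h : y ≠ 0) : ∃ θ : Rd k, ‖θ‖ = 1 ∧ y = ‖y‖ • θ :=
  ⟨‖y‖⁻¹ • y, norm_smul_inv_norm h, (smul_inv_smul₀ (norm_ne_zero_iff.2 h) y).symm⟩

theorem top_finrank_perp {k : ℕ} {y : Rd (k + 1)} (h : y ≠ 0) :
    Module.finrank ℝ ((ℝ ∙ y)ᗮ : Submodule ℝ (Rd (k + 1))) = k := by
  have := Submodule.finrank_add_finrank_orthogonal (ℝ ∙ y : Submodule ℝ (Rd (k + 1)))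
  rw [finrank_span_singleton h, finrank_euclideanSpace_fin] at this
  omega

end Pool.Agent.Lib.MP_ccffa6_gt
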