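import Pool.Agent.Lib.MP_ccffa6_gt.TOP.TDef2
import Pool.Agent.Lib.MP_ccffa6_gt.TOP.Sph

open Set Filter Topology Metric
open scoped ContDiff RealInnerProductSpace

noncomputable section

namespace Pool.Agent.Lib.MP_ccffa6_gt

variable {E : Type} [NormedAddCommGroup E] [NormedSpace ℝ E] [FiniteDimensional ℝ E]
  {E' : Type} [NormedAddCommGroup E'] [NormedSpace ℝ E'] [FiniteDimensional ℝ E']
  {F : Type} [NormedAddCommGroup F] [NormedSpace ℝ F] [FiniteDimensional ℝ F]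
  {A : Type} [NormedAddCommGroup A] [NormedSpace ℝ A] [FiniteDimensional ℝ A]

theorem top_sp_univ (m : ℕ) : IsSub m (univ : Set (Rd m)) := by
  simpa using isSub_of_isOpen (isOpen_univ (X := Rd m))

theorem top_isSub_tube (j m : ℕ) : IsSub (j + m) (sphere (0 : Rd (j + 1)) 1 ×ˢ (univ : Set (Rd m))) := (top_isSub_sphere j).prod (top_sp_univ m)

theorem top_tan_tube {j m : ℕ} {σ : Rd (j + 1)} (h : ‖σ‖ = 1) (y : Rd m) (v : Rd (j + 1) × Rd m) :
    v ∈ Tan (sphere (0 : Rd (j + 1)) 1 ×ˢ (univ : Set (Rd m))) (σ, y) ↔ ⟪σ, v.1⟫ = 0 := by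
  rw [(top_isSub_sphere j).tan_prod (top_sp_univ m) (mem_sphere_zero_iff_norm.2 h) (mem_univ y),
    Submodule.mem_prod, top_tan_sphere h, Tan.of_mem_nhds univ_mem]
  simp

/-- the equal area chart of the lower hemisphere -/
theorem top_exists_pole (j : ℕ) : ∃ (e : Rd (j + 1)) (π : Rd (j + 1) →L[ℝ] Rd j)
    (z : Rd (j + 1) → Rd j), Pole e π z := by
  obtain ⟨l, l1, l2, -⟩ := exists_smooth_nhdsSet (isClosed_Iic (a := (0 : ℝ))) (isOpen_Iio (a := 1))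
    (Iic_subset_Iio.2 one_pos) (f := fun s => (√(1 - s))⁻¹)
    (((contDiffOn_const.sub contDiffOn_id).sqrt fun s hs => (sub_pos.2 hs).ne').inv
      fun s hs => (Real.sqrt_pos.2 (sub_pos.2 hs)).ne')
  have l3 : ∀ s ≤ 0, l s = (√(1 - s))⁻¹ := fun s hs => l2.self_of_nhdsSet s hs
  have l4 : ∀ s ≤ 0, l s ≠ 0 := fun s hs =>
    l3 s hs ▸ inv_ne_zero (Real.sqrt_pos.2 (by linarith)).ne'
  let e : Rd (j + 1) := EuclideanSpace.single 0 1
  let π : Rd (j + 1) →L[ℝ] Rd j := LinearMap.toContinuousLinearMap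
    { toFun := fun w => WithLp.toLp 2 fun i => w i.succ
      map_add' := fun _ _ => rfl
      map_smul' := fun _ _ => rfl }
  have sq : ∀ w, ‖w‖ ^ 2 = ⟪e, w⟫ ^ 2 + ‖π w‖ ^ 2 := fun w => by
    rw [EuclideanSpace.real_norm_sq_eq, EuclideanSpace.real_norm_sq_eq, Fin.sum_univ_succ,
      EuclideanSpace.inner_single_left]
    simp [π]
  have zero : ∀ w, ⟪e, w⟫ = 0 → π w = 0 → w = 0 := fun w h1 h2 => by
    have := sq w
    rw [h1, h2] at this
    simpa using this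
  have sm : ContDiff ℝ ∞ fun σ => l ⟪e, σ⟫ • π σ :=
    (l1.comp (innerSL ℝ e).contDiff).smul π.contDiff
  have nrm : ∀ σ, ‖σ‖ = 1 → ⟪e, σ⟫ ≤ 0 → ‖l ⟪e, σ⟫ • π σ‖ ^ 2 = 1 + ⟪e, σ⟫ := fun σ h1 h2 => by
    have h3 : 0 < 1 - ⟪e, σ⟫ := by linarith
    have h4 := sq σ
    rw [h1] at h4
    rw [norm_smul, mul_pow, Real.norm_eq_abs, sq_abs, l3 _ h2, inv_pow, Real.sq_sqrt h3.le,
      inv_mul_eq_iff_eq_mul₀ h3.ne']
    linarith
  refine ⟨e, π, _, by simp [e], sq, sm, fun σ h => by rw [l3 _ h], nrm, fun σ h σ' h' e1 => ?_,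
    fun σ h1 h2 v hv h0 => ?_⟩
  · have e2 : ⟪e, σ⟫ = ⟪e, σ'⟫ := by
      have := (nrm σ h.1 h.2).symm.trans ((congrArg (‖·‖ ^ 2) e1).trans (nrm σ' h'.1 h'.2))
      linarith
    simp only [e2] at e1
    refine sub_eq_zero.1 (zero _ (by rw [inner_sub_right, e2, sub_self]) ?_)
    rw [map_sub, smul_right_injective _ (l4 _ h'.2) e1, sub_self]
  · have d1 := (sm.differentiable (by simp) σ).hasFDerivAt
    have d2 : HasFDerivAt (fun y => 1 + ⟪e, y⟫) (innerSL ℝ e) σ :=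
      (innerSL ℝ e).hasFDerivAt.const_add 1
    have e2 := Tan.fderiv_congr (mem_sphere_zero_iff_norm.2 h1) d1.norm_sq.differentiableAt
      d2.differentiableAt (by
        filter_upwards [self_mem_nhdsWithin, nhdsWithin_le_nhds
          ((isOpen_lt (innerSL ℝ e).continuous continuous_const).mem_nhds h2)] with y hy hy'
        exact nrm y (mem_sphere_zero_iff_norm.1 hy) (le_of_lt hy')) ((top_tan_sphere h1 v).2 hv)
    rw [d1.norm_sq.fderiv, d2.fderiv] at e2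
    have e3 : ⟪e, v⟫ = 0 := by simpa [h0] using e2.symm
    have d3 := (((l1.differentiable (by simp) ⟪e, σ⟫).hasFDerivAt.comp σ
      (innerSL ℝ e).hasFDerivAt).smul π.hasFDerivAt).fderiv
    have e4 : l ⟪e, σ⟫ • π v = 0 := by
      have := (DFunLike.congr_fun d3 v).symm.trans h0
      simpa [e3] using this
    exact zero v e3 ((smul_eq_zero.1 e4).resolve_left (l4 _ h2.le))

theorem Pole.norm_le {j : ℕ} {e : Rd (j + 1)} {π : Rd (j + 1) →L[ℝ] Rd j} {z : Rd (j + 1) → Rd j}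
    (h : Pole e π z) (w : Rd (j + 1)) : ‖π w‖ ≤ ‖w‖ := 
  (pow_le_pow_iff_left₀ (norm_nonneg _) (norm_nonneg _) two_ne_zero).1
    (h.sq w ▸ le_add_of_nonneg_left (sq_nonneg _))

theorem Pole.pole {j : ℕ} {e : Rd (j + 1)} {π : Rd (j + 1) →L[ℝ] Rd j} {z : Rd (j + 1) → Rd j}
    (h : Pole e π z) : z (-e) = 0 := by
  have h1 : ⟪e, -e⟫ = -1 := by rw [inner_neg_right, real_inner_self_eq_norm_sq, h.he, one_pow]
  have h2 := h.nrm (-e) (by rw [norm_neg, h.he]) (by linarith)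
  rw [h1] at h2
  simpa using h2

theorem top_sp_sq {j : ℕ} {e σ : Rd (j + 1)} (he : ‖e‖ = 1) (h : ‖σ‖ = 1) :
    ‖e + σ‖ ^ 2 = 2 * (1 + ⟪e, σ⟫) := by
  rw [norm_add_sq_real, he, h]
  ring

/-- on the unit sphere the height is at least `-1`, with equality only at the pole -/
theorem top_pole_height {j : ℕ} {e σ : Rd (j + 1)} (he : ‖e‖ = 1) (h : ‖σ‖ = 1) :
    -1 ≤ ⟪e, σ⟫ ∧ ⟪e, σ⟫ ≤ 1 ∧ (⟪e, σ⟫ = -1 ↔ σ = -e) := by
  have h1 := abs_real_inner_le_norm e σ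
  rw [he, h, mul_one, abs_le] at h1
  refine ⟨h1.1, h1.2, fun h2 => ?_, fun h2 => ?_⟩
  · have h3 := top_sp_sq he h
    rw [h2] at h3
    exact eq_neg_of_add_eq_zero_right (by simpa using h3)
  · rw [h2, inner_neg_right, real_inner_self_eq_norm_sq, he, one_pow]

/-- small caps are small: `‖σ + e‖² = 2 (1 + ⟪e, σ⟫)` -/
theorem top_pole_cap {j : ℕ} {e : Rd (j + 1)} (he : ‖e‖ = 1) {P : Rd (j + 1) → Prop}
    (hP : ∀ᶠ σ in 𝓝[sphere 0 1] (-e), P σ) :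
    ∃ δ, 0 < δ ∧ ∀ σ, ‖σ‖ = 1 → ⟪e, σ⟫ < -1 + δ → P σ := by
  obtain ⟨ε, hε, h⟩ := Metric.mem_nhdsWithin_iff.1 hP
  refine ⟨ε ^ 2 / 2, by positivity, fun σ h1 h2 => h ⟨?_, mem_sphere_zero_iff_norm.2 h1⟩⟩
  rw [mem_ball, dist_eq_norm, sub_neg_eq_add, add_comm σ]
  refine lt_of_pow_lt_pow_left₀ 2 hε.le ?_
  rw [top_sp_sq he h1]
  linarith

/-- at the pole `Dz` is onto (injective on `e`-perp, which has dimension `j`) -/
theorem Pole.surj {j : ℕ} {e : Rd (j + 1)} {π : Rd (j + 1) →L[ℝ] Rd j} {z : Rd (j + 1) → Rd j}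
    (h : Pole e π z) (w : Rd j) : ∃ v, ⟪-e, v⟫ = 0 ∧ fderiv ℝ z (-e) v = w := by
  have h1 : ‖-e‖ = 1 := by rw [norm_neg, h.he]
  have h2 : ⟪e, -e⟫ < 0 := by
    rw [inner_neg_right, real_inner_self_eq_norm_sq, h.he]
    norm_num
  let L := (fderiv ℝ z (-e) : Rd (j + 1) →ₗ[ℝ] Rd j).domRestrict (Tan (sphere 0 1) (-e))
  have h3 : Function.Injective L := (injective_iff_map_eq_zero L).2 fun v hv =>
    Subtype.ext (h.imm _ h1 h2 v ((top_tan_sphere h1 _).1 v.2) hv)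
  obtain ⟨v, hv⟩ := (LinearMap.injective_iff_surjective_of_finrank_eq_finrank (by
    rw [(top_isSub_sphere j).finrank (mem_sphere_zero_iff_norm.2 h1)]
    simp)).1 h3 w
  exact ⟨v, (top_tan_sphere h1 _).1 v.2, hv⟩

end Pool.Agent.Lib.MP_ccffa6_gt
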