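import Pool.Agent.Lib.MP_ccffa6_gt.TOP.Stief
import Pool.Agent.Lib.MP_ccffa6_gt.TOP.Sp
import Pool.Agent.Lib.MP_ccffa6_gt.K.Lin

open Set Filter Topology Metric
open scoped ContDiff RealInnerProductSpace

noncomputable section

namespace Pool.Agent.Lib.MP_ccffa6_gt

variable {E : Type} [NormedAddCommGroup E] [NormedSpace ℝ E] [FiniteDimensional ℝ E]
  {E' : Type} [NormedAddCommGroup E'] [NormedSpace ℝ E'] [FiniteDimensional ℝ E']
  {F : Type} [NormedAddCommGroup F] [NormedSpace ℝ F] [FiniteDimensional ℝ F]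
  {A : Type} [NormedAddCommGroup A] [NormedSpace ℝ A] [FiniteDimensional ℝ A]

variable {K : Type} [NormedAddCommGroup K] [NormedSpace ℝ K] [FiniteDimensional ℝ K]

omit [FiniteDimensional ℝ E] [FiniteDimensional ℝ K] in
theorem top_frameb_mem {T : Submodule ℝ E} {u : E × K} : u ∈ pl T K ↔ u.1 ∈ T := by simp [pl]

theorem top_frameb_perp {j : ℕ} {σ : Rd (j + 1)} (h : ‖σ‖ = 1) (v : Rd (j + 1)) :
    ⟪σ, v - ⟪σ, v⟫ • σ⟫ = 0 := by
  rw [inner_sub_right, inner_smul_right, real_inner_self_eq_norm_sq, h]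
  ring

omit [FiniteDimensional ℝ F] in
/-- A smooth `N` with values in `T`, close to `n` after `G`, equal to `N₀` on a cap. -/
theorem top_frameb_smooth {j : ℕ} {T : Rd (j + 1) → Submodule ℝ E} {P : Rd (j + 1) → E →L[ℝ] E}
    (hP : ContDiff ℝ ∞ P) (hT : ∀ σ, ‖σ‖ = 1 → (∀ v, P σ v ∈ T σ) ∧ ∀ v ∈ T σ, P σ v = v)
    {G : Rd (j + 1) → E →L[ℝ] F} (cG : ContinuousOn G (sphere 0 1))
    {n : Rd (j + 1) → A →L[ℝ] E} (cn : ContinuousOn n (sphere 0 1))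
    (mn : ∀ σ, ‖σ‖ = 1 → ∀ y, n σ y ∈ T σ) {e : Rd (j + 1)} (he : ‖e‖ = 1) {δ : ℝ} (hδ : 0 < δ)
    {N₀ : Rd (j + 1) → A →L[ℝ] E} (hN : ContDiff ℝ ∞ N₀)
    (mN : ∀ σ, ‖σ‖ = 1 → ⟪e, σ⟫ < -1 + δ → ∀ y, N₀ σ y ∈ T σ) (h0 : N₀ (-e) = n (-e)) {ε : ℝ}
    (hε : 0 < ε) : ∃ (N : Rd (j + 1) → A →L[ℝ] E) (δ' : ℝ), ContDiff ℝ ∞ N ∧ 0 < δ' ∧ δ' ≤ δ ∧
      ∀ σ, ‖σ‖ = 1 → (⟪e, σ⟫ < -1 + δ' → N σ = N₀ σ) ∧ (∀ y, N σ y ∈ T σ) ∧
        ‖(G σ).comp (N σ) - (G σ).comp (n σ)‖ < ε := by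
  have near : ∀ g : Rd (j + 1) → A →L[ℝ] E, Continuous g → ∀ σ₀ ∈ sphere (0 : Rd (j + 1)) 1,
      g σ₀ = n σ₀ → ∀ᶠ σ in 𝓝[sphere 0 1] σ₀, ‖(G σ).comp (g σ) - (G σ).comp (n σ)‖ < ε := by
    intro g hg σ₀ h₀ h1
    have h2 := (((cG.clm_comp hg.continuousOn).sub (cG.clm_comp cn)) σ₀ h₀).norm
    refine h2.eventually_lt_const ?_
    simpa [h1] using hε
  obtain ⟨δ₂, h2, h3⟩ := top_pole_cap he (near N₀ hN.continuous (-e) (by simpa using he) h0)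
  have h4 : 0 < min δ δ₂ := lt_min hδ h2
  have ci : Continuous fun σ : Rd (j + 1) => ⟪e, σ⟫ := by fun_prop
  obtain ⟨N, U, h5, -, h6, h7, -⟩ := exists_smooth_convex (S := sphere (0 : Rd (j + 1)) 1)
    (isClosed_sphere (x := (0 : Rd (j + 1))) (ε := 1))
    (C := fun σ => {M : A →L[ℝ] E | (⟪e, σ⟫ < -1 + min δ δ₂ / 2 → M = N₀ σ) ∧ (∀ y, M y ∈ T σ) ∧
      ‖(G σ).comp M - (G σ).comp (n σ)‖ < ε}) (fun σ => by
        intro M hM M' hM' a b ha hb hab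
        refine ⟨fun h => ?_, fun y => ?_, ?_⟩
        · rw [hM.1 h, hM'.1 h, ← add_smul, hab, one_smul]
        · exact Submodule.add_mem _ (Submodule.smul_mem _ _ (hM.2.1 y))
            (Submodule.smul_mem _ _ (hM'.2.1 y))
        · have h8 := convex_ball ((G σ).comp (n σ)) ε (mem_ball_iff_norm.2 hM.2.2)
            (mem_ball_iff_norm.2 hM'.2.2) ha hb hab
          rw [ContinuousLinearMap.comp_add, ContinuousLinearMap.comp_smul,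
            ContinuousLinearMap.comp_smul]
          exact mem_ball_iff_norm.1 h8) (fun σ₀ h₀ => by
        have h₀' : ‖σ₀‖ = 1 := by simpa using h₀
        rcases lt_or_ge ⟪e, σ₀⟫ (-1 + min δ δ₂) with h8 | h8
        · refine ⟨N₀, hN, ?_⟩
          filter_upwards [self_mem_nhdsWithin,
            mem_nhdsWithin_of_mem_nhds (ci.continuousAt.eventually_lt_const h8)] with σ h9 h10
          have h9' : ‖σ‖ = 1 := by simpa using h9
          exact ⟨fun _ => rfl, mN σ h9' (by linarith [min_le_left δ δ₂]),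
            h3 σ h9' (by linarith [min_le_right δ δ₂])⟩
        · have h9 : ContDiff ℝ ∞ fun σ => (P σ).comp (n σ₀) := hP.clm_comp contDiff_const
          have h10 : -1 + min δ δ₂ / 2 < ⟪e, σ₀⟫ := by linarith
          refine ⟨_, h9, ?_⟩
          filter_upwards [self_mem_nhdsWithin,
            mem_nhdsWithin_of_mem_nhds (ci.continuousAt.eventually_const_lt h10),
            near _ h9.continuous σ₀ h₀ (ContinuousLinearMap.ext fun y =>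
              (hT σ₀ h₀').2 _ (mn σ₀ h₀' y))] with σ h11 h12 h13
          exact ⟨fun h => absurd h (not_lt.2 h12.le), fun y => (hT σ (by simpa using h11)).1 _, h13⟩)
  refine ⟨N, min δ δ₂ / 2, h5, half_pos h4, by linarith [min_le_left δ δ₂], fun σ hσ => ?_⟩
  have h8 : σ ∈ sphere (0 : Rd (j + 1)) 1 := by simpa using hσ
  exact h7 σ ⟨h8, h6 h8⟩

/-- The normal framing. -/
theorem top_frameB {j m : ℕ} {T : Rd (j + 1) → Submodule ℝ E} {P : Rd (j + 1) → E →L[ℝ] E}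
    (hP : ContDiff ℝ ∞ P)
    (hT : ∀ σ, ‖σ‖ = 1 → (∀ v, P σ v ∈ T σ) ∧ ∀ v ∈ T σ, P σ v = v)
    (hF : Module.finrank ℝ F = m + j + 1 + Module.finrank ℝ K) (hj : j + 2 ≤ m)
    {Ξ : Rd (j + 1) → (E × (ℝ × K)) →L[ℝ] F} (cΞ : ContinuousOn Ξ (sphere 0 1))
    (bΞ : ∀ σ, ‖σ‖ = 1 → BijOn (Ξ σ) (pl (T σ) (ℝ × K)) univ)
    {D : Rd (j + 1) → Rd (j + 1) →L[ℝ] E} (cD : ContinuousOn D (sphere 0 1))
    (mD : ∀ σ, ‖σ‖ = 1 → ∀ v, ⟪σ, v⟫ = 0 → D σ v ∈ T σ ∧ (D σ v = 0 → v = 0))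
    {e : Rd (j + 1)} (he : ‖e‖ = 1) {δ : ℝ} (hδ : 0 < δ) {N₀ : Rd (j + 1) → Rd m →L[ℝ] E}
    (hN : ContDiff ℝ ∞ N₀) (mN : ∀ σ, ‖σ‖ = 1 → ⟪e, σ⟫ < -1 + δ → ∀ y, N₀ σ y ∈ T σ)
    (iN : ∀ v y, ⟪-e, v⟫ = 0 → D (-e) v + N₀ (-e) y = 0 → v = 0 ∧ y = 0) :
    ∃ (N : Rd (j + 1) → Rd m →L[ℝ] E) (δ' : ℝ)
      (Ψ : Rd (j + 1) → (Rd (j + 1) × Rd m × K) →L[ℝ] F), ContDiff ℝ ∞ N ∧ 0 < δ' ∧ δ' ≤ δ ∧
      (∀ σ, ‖σ‖ = 1 → ⟪e, σ⟫ < -1 + δ' → N σ = N₀ σ) ∧ (∀ σ, ‖σ‖ = 1 → ∀ y, N σ y ∈ T σ) ∧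
      ContinuousOn Ψ (closedBall 0 1) ∧
      (∀ w ∈ closedBall (0 : Rd (j + 1)) 1, Function.Bijective (Ψ w)) ∧
      ∀ σ, ‖σ‖ = 1 → ∀ v y k,
        Ψ σ (v, y, k) = Ξ σ (D σ (v - ⟪σ, v⟫ • σ) + N σ y, (⟪σ, v⟫, k)) := by
  have sp : ∀ σ ∈ sphere (0 : Rd (j + 1)) 1, ‖σ‖ = 1 := fun σ h => by simpa using h
  have sb : sphere (0 : Rd (j + 1)) 1 ⊆ closedBall 0 1 := sphere_subset_closedBall
  have he' : -e ∈ sphere (0 : Rd (j + 1)) 1 := by simpa using he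
  let ip : Rd (j + 1) → (Rd (j + 1) × K) →L[ℝ] ℝ := fun σ =>
    (innerSL ℝ σ).comp (ContinuousLinearMap.fst ℝ _ _)
  let a : Rd (j + 1) → (Rd (j + 1) × K) →L[ℝ] F := fun σ => (Ξ σ).comp
    (((D σ).comp (ContinuousLinearMap.fst ℝ _ _ - (ip σ).smulRight σ)).prod
      ((ip σ).prod (ContinuousLinearMap.snd ℝ _ _)))
  have ha : ∀ σ q, a σ q = Ξ σ (D σ (q.1 - ⟪σ, q.1⟫ • σ), (⟪σ, q.1⟫, q.2)) := fun σ q => rfl
  have ca : ContinuousOn a (sphere 0 1) := by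
    refine continuousOn_clm_apply.2 fun q => ?_
    simp only [ha]
    exact cΞ.clm_apply ((cD.clm_apply (by fun_prop)).prodMk (by fun_prop))
  have z : ∀ σ, ‖σ‖ = 1 → ∀ x ∈ T σ, ∀ q : Rd (j + 1) × K, a σ q + Ξ σ (x, 0) = 0 →
      ⟪σ, q.1⟫ = 0 ∧ q.2 = 0 ∧ D σ q.1 + x = 0 := by
    intro σ hσ x hx q h
    rw [ha, ← map_add, ← map_zero (Ξ σ)] at h
    have h1 := (bΞ σ hσ).injOn (top_frameb_mem.2 (Submodule.add_mem _
      (mD σ hσ _ (top_frameb_perp hσ q.1)).1 hx)) (Submodule.zero_mem _) h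
    simp only [Prod.mk_add_mk, add_zero, Prod.mk_eq_zero] at h1
    obtain ⟨h2, h3, h4⟩ := h1
    rw [h3, zero_smul, sub_zero] at h2
    exact ⟨h3, h4, h2⟩
  obtain ⟨b, cb, eb, ib⟩ := top_stief (by simp [hF]; omega) ca fun σ hσ => by
    refine (injective_iff_map_eq_zero _).2 fun q hq => ?_
    obtain ⟨h1, h2, h3⟩ := z σ (sp σ hσ) 0 (Submodule.zero_mem _) q (by
      rw [hq, Prod.mk_zero_zero, map_zero, add_zero])
    exact Prod.ext ((mD σ (sp σ hσ) _ h1).2 (by simpa using h3)) h2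
  let G : Rd (j + 1) → E →L[ℝ] F := fun σ => (Ξ σ).comp (ContinuousLinearMap.inl ℝ _ _)
  have hG : ∀ σ x, G σ x = Ξ σ (x, 0) := fun σ x => rfl
  have cG : ContinuousOn G (sphere 0 1) := cΞ.clm_comp continuousOn_const
  have m0 : ∀ y, N₀ (-e) y ∈ T (-e) := mN (-e) (sp _ he') (by
    rw [inner_neg_right, real_inner_self_eq_norm_sq, he]
    linarith)
  have i0 : Function.Injective ((b (-e)).coprod ((G (-e)).comp (N₀ (-e)))) := by
    refine (injective_iff_map_eq_zero _).2 fun q hq => ?_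
    rw [eb he'] at hq
    obtain ⟨h1, h2, h3⟩ := z (-e) (sp _ he') _ (m0 q.2) q.1 hq
    obtain ⟨h4, h5⟩ := iN _ _ h1 h3
    exact Prod.ext (Prod.ext h4 h2) h5
  obtain ⟨c, cc, ec, bc⟩ := top_compl cb ib (sb he') ⟨i0,
    (LinearMap.injective_iff_surjective_of_finrank_eq_finrank
      (f := ((b (-e)).coprod ((G (-e)).comp (N₀ (-e)))).toLinearMap) (by simp [hF]; omega)).1 i0⟩
  obtain ⟨ε, hε, adj⟩ := top_adjust cb cc bc
  have cs : MP_ccffa6_gt.P.CS (sphere (0 : Rd (j + 1)) 1) T :=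
    ⟨P, hP.continuous.continuousOn, fun σ hσ => hT σ (sp σ hσ)⟩
  obtain ⟨Ξ', cΞ', hΞ'⟩ := (cs.prod (MP_ccffa6_gt.P.cs_top (E := ℝ × K) _)).inv
    (MP_ccffa6_gt.P.cs_top (E := F) _) cΞ fun σ hσ => bΞ σ (sp σ hσ)
  let u : Rd (j + 1) → Rd m →L[ℝ] E × (ℝ × K) := fun σ => (Ξ' σ).comp (c σ)
  have cu : ContinuousOn u (sphere 0 1) := cΞ'.clm_comp (cc.mono sb)
  let n : Rd (j + 1) → Rd m →L[ℝ] E := fun σ => (ContinuousLinearMap.fst ℝ _ _).comp (u σ)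
  let s : Rd (j + 1) → Rd m →L[ℝ] Rd (j + 1) × K := fun σ =>
    -((((ContinuousLinearMap.fst ℝ _ _).comp ((ContinuousLinearMap.snd ℝ _ _).comp
      (u σ))).smulRight σ).prod ((ContinuousLinearMap.snd ℝ _ _).comp
        ((ContinuousLinearMap.snd ℝ _ _).comp (u σ))))
  have hs : ∀ σ y, s σ y = (-((u σ y).2.1 • σ), -(u σ y).2.2) := fun σ y => rfl
  have cs' : ContinuousOn s (sphere 0 1) := by
    refine continuousOn_clm_apply.2 fun y => ?_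
    have h1 := continuousOn_clm_apply.1 cu y
    simp only [hs]
    fun_prop
  have hn : ∀ σ ∈ sphere (0 : Rd (j + 1)) 1, (G σ).comp (n σ) = c σ + (b σ).comp (s σ) := by
    intro σ hσ
    refine ContinuousLinearMap.ext fun y => ?_
    have h1 : Ξ σ (u σ y) = c σ y := (hΞ' σ hσ).2.1 _ trivial
    have h2 : ⟪σ, -((u σ y).2.1 • σ)⟫ = -(u σ y).2.1 := by
      rw [inner_neg_right, inner_smul_right, real_inner_self_eq_norm_sq, sp σ hσ]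
      ring
    change Ξ σ ((u σ y).1, 0) = c σ y + b σ (s σ y)
    rw [eb hσ, ha, hs, h2, ← h1, ← map_add]
    congr 1
    refine Prod.ext ?_ (Prod.ext ?_ ?_) <;> simp
  obtain ⟨N, δ', h1, h2, h3, h4⟩ := top_frameb_smooth (n := n) hP hT cG
    (continuousOn_const.clm_comp cu) (fun σ hσ y => ((hΞ' σ (by simpa using hσ)).1 (c σ y)).1)
    he hδ hN mN (ContinuousLinearMap.ext fun y => by
      have h5 := (hΞ' (-e) he').2.2 (N₀ (-e) y, 0) ⟨m0 y, trivial⟩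
      change _ = (Ξ' (-e) (c (-e) y)).1
      rw [ec]
      exact (congrArg Prod.fst h5).symm) hε
  obtain ⟨c'', cc'', ec'', bc''⟩ := adj (fun σ => (G σ).comp (N σ)) s
    (cG.clm_comp h1.continuous.continuousOn) cs' fun σ hσ => by
      rw [sub_sub, ← hn σ hσ]
      exact (h4 σ (sp σ hσ)).2.2
  let q : (Rd (j + 1) × Rd m × K) →L[ℝ] (Rd (j + 1) × K) × Rd m :=
    ((ContinuousLinearMap.fst ℝ _ _).prod ((ContinuousLinearMap.snd ℝ _ _).comp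
      (ContinuousLinearMap.snd ℝ _ _))).prod ((ContinuousLinearMap.fst ℝ _ _).comp
        (ContinuousLinearMap.snd ℝ _ _))
  have bq : Function.Bijective q := Function.bijective_iff_has_inverse.2
    ⟨fun x => (x.1.1, x.2, x.1.2), fun _ => rfl, fun _ => rfl⟩
  refine ⟨N, δ', fun w => ((b w).coprod (c'' w)).comp q, h1, h2, h3, fun σ hσ => (h4 σ hσ).1,
    fun σ hσ => (h4 σ hσ).2.1, continuousOn_clm_apply.2 fun x => ?_,
    fun w hw => (bc'' w hw).comp bq, fun σ hσ v y k => ?_⟩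
  · exact (continuousOn_clm_apply.1 cb (x.1, x.2.2)).add (continuousOn_clm_apply.1 cc'' x.2.1)
  · have h5 : σ ∈ sphere (0 : Rd (j + 1)) 1 := by simpa using hσ
    change b σ (v, k) + c'' σ y = _
    rw [eb h5, ec'' h5, ha]
    change _ + Ξ σ (N σ y, 0) = _
    rw [← map_add, Prod.mk_add_mk, add_zero]

end Pool.Agent.Lib.MP_ccffa6_gt
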