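import Pool.Agent.Lib.MP_ccffa6_gt.TOP.Hom
import Pool.Agent.Lib.MP_ccffa6_gt.TOP.Sp

open Set Filter Topology Metric
open scoped ContDiff RealInnerProductSpace

noncomputable section

namespace Pool.Agent.Lib.MP_ccffa6_gt

variable {E : Type} [NormedAddCommGroup E] [NormedSpace ℝ E] [FiniteDimensional ℝ E]
  {E' : Type} [NormedAddCommGroup E'] [NormedSpace ℝ E'] [FiniteDimensional ℝ E']
  {F : Type} [NormedAddCommGroup F] [NormedSpace ℝ F] [FiniteDimensional ℝ F]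
  {A : Type} [NormedAddCommGroup A] [NormedSpace ℝ A] [FiniteDimensional ℝ A]

/-- the tube lemma around the sphere -/
theorem top_tubea_tube {j m : ℕ} {P : Rd (j + 1) × Rd m → Prop}
    (hP : ∀ σ, ‖σ‖ = 1 → ∀ᶠ q in 𝓝[sphere 0 1 ×ˢ univ] (σ, 0), P q) :
    ∃ ε > 0, ∀ σ y, ‖σ‖ = 1 → ‖y‖ < ε → P (σ, y) := by
  have h := (isCompact_sphere (0 : Rd (j + 1)) 1).eventually_forall_of_forall_eventually
    (x₀ := (0 : Rd m)) (P := fun y σ => ‖σ‖ = 1 → P (σ, y)) fun σ hσ =>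
      ((continuous_swap.tendsto (0, σ)).eventually
        (eventually_nhdsWithin_iff.1 (hP σ (by simpa using hσ)))).mono
        fun z hz h1 => hz ⟨by simpa using h1, trivial⟩
  obtain ⟨ε, hε, h⟩ := Metric.eventually_nhds_iff.1 h
  exact ⟨ε, hε, fun σ y hσ hy => h (by simpa using hy) σ (by simpa using hσ) hσ⟩

/-- The tube map `T (σ, y) = pr (χ σ • ι (σ, y) + (1 - χ σ) • (u σ + N σ y))`. -/
theorem top_tubeA {d j m : ℕ} {W : Set E} (hW : IsSub d W) {u : Rd (j + 1) → E}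
    (hu : ContDiff ℝ ∞ u) (hm : MapsTo u (sphere 0 1) W) {N : Rd (j + 1) → Rd m →L[ℝ] E}
    (hN : ContDiff ℝ ∞ N) (mN : ∀ σ, ‖σ‖ = 1 → ∀ y, N σ y ∈ Tan W (u σ))
    {ι : Rd (j + 1) × Rd m → E} (hι : ContDiff ℝ ∞ ι) {e : Rd (j + 1)} {δ ε₀ : ℝ} (hδ : 0 < δ)
    (h0 : 0 < ε₀) (hc : ∀ σ, ‖σ‖ = 1 → ⟪e, σ⟫ < -1 + δ → ι (σ, 0) = u σ ∧
      (∀ y, fderiv ℝ ι (σ, 0) (0, y) = N σ y) ∧ ∀ y, ‖y‖ < ε₀ → ι (σ, y) ∈ W) :
    ∃ (T : Rd (j + 1) × Rd m → E) (ε : ℝ), ContDiff ℝ ∞ T ∧ 0 < ε ∧ ε ≤ ε₀ ∧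
      (∀ σ y, ‖σ‖ = 1 → ‖y‖ < ε → T (σ, y) ∈ W) ∧ (∀ σ, ‖σ‖ = 1 → T (σ, 0) = u σ) ∧
      (∀ σ, ‖σ‖ = 1 → ∀ v y, ⟪σ, v⟫ = 0 →
        fderiv ℝ T (σ, 0) (v, y) = fderiv ℝ u σ v + N σ y) ∧
      ∀ σ y, ‖σ‖ = 1 → ‖y‖ < ε → ⟪e, σ⟫ < -1 + δ / 3 → T (σ, y) = ι (σ, y) := by
  obtain ⟨pr, η, hr⟩ := top_retr hW ((isCompact_sphere 0 1).image hu.continuous)
    hm.image_subset
  have hs : ∀ {σ : Rd (j + 1)}, ‖σ‖ = 1 → σ ∈ sphere (0 : Rd (j + 1)) 1 := fun h => by simpa using h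
  obtain ⟨χ, hχ, c1, c0⟩ : ∃ χ : Rd (j + 1) → ℝ, ContDiff ℝ ∞ χ ∧
      (∀ σ, ⟪e, σ⟫ < -1 + δ / 3 → χ σ = 1) ∧ ∀ σ, ¬⟪e, σ⟫ < -1 + δ → χ σ = 0 := by
    refine ⟨fun σ => Real.smoothTransition ((-1 + δ - ⟪e, σ⟫) / (δ / 3)),
      Real.smoothTransition.contDiff.comp
        ((contDiff_const.sub (contDiff_const.inner ℝ contDiff_id)).div_const _), fun σ h => ?_,
      fun σ h => ?_⟩
    · exact Real.smoothTransition.one_of_one_le ((one_le_div (by linarith)).2 (by linarith))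
    · exact Real.smoothTransition.zero_of_nonpos
        (div_nonpos_of_nonpos_of_nonneg (by linarith) (by linarith))
  obtain ⟨G, eG⟩ : ∃ G : Rd (j + 1) × Rd m → E,
    G = fun q => χ q.1 • ι q + (1 - χ q.1) • (u q.1 + N q.1 q.2) := ⟨_, rfl⟩
  have hG : ContDiff ℝ ∞ G := eG ▸ ((hχ.comp contDiff_fst).smul hι).add
    ((contDiff_const.sub (hχ.comp contDiff_fst)).smul
      ((hu.comp contDiff_fst).add ((hN.comp contDiff_fst).clm_apply contDiff_snd)))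
  have G0 : ∀ σ, ‖σ‖ = 1 → G (σ, 0) = u σ := fun σ h => by
    by_cases h1 : ⟪e, σ⟫ < -1 + δ
    · simp [eG, (hc σ h h1).1, sub_smul]
    · simp [eG, c0 σ h1]
  obtain ⟨ε, hε, he⟩ := top_tubea_tube (P := fun q => ‖G q - u q.1‖ < η) fun σ h =>
    mem_nhdsWithin_of_mem_nhds
      (((hG.continuous.sub (hu.continuous.comp continuous_fst)).norm.tendsto (σ, 0)).eventually
        (gt_mem_nhds (by simpa [G0 σ h] using hr.pos)))
  have hT : ContDiff ℝ ∞ (pr ∘ G) := hr.sm.comp hG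
  have T0 : ∀ σ, ‖σ‖ = 1 → (pr ∘ G) (σ, 0) = u σ := fun σ h => by
    rw [Function.comp, G0 σ h, hr.fix _ ⟨σ, hs h, rfl⟩ _ (hm (hs h)) (by simpa using hr.pos)]
  refine ⟨pr ∘ G, min ε ε₀, hT, lt_min hε h0, min_le_right _ _,
    fun σ y h hy => hr.mem _ ⟨σ, hs h, rfl⟩ _ (he σ y h (lt_min_iff.1 hy).1), T0,
    fun σ h v y hv => ?_, fun σ y h hy h1 => ?_⟩
  · have d1 := ((hT.differentiable (by simp)) (σ, 0)).hasFDerivAt.comp (f := fun τ => (τ, 0)) σ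
      (hasFDerivAt_prodMk_left σ (0 : Rd m))
    have e1 := Tan.fderiv_congr (hs h) d1.differentiableAt (hu.differentiable (by simp) σ)
      (eventually_nhdsWithin_of_forall fun τ hτ => T0 τ (by simpa using hτ))
      ((top_tan_sphere h v).2 hv)
    have d2 := ((hG.differentiable (by simp)) (σ, 0)).hasFDerivAt.comp (f := fun z => (σ, z)) 0
      (hasFDerivAt_prodMk_right σ (0 : Rd m))
    have d3 := ((((hι.differentiable (by simp)) (σ, 0)).hasFDerivAt.comp (f := fun z => (σ, z)) 0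
      (hasFDerivAt_prodMk_right σ (0 : Rd m))).const_smul (χ σ)).add
      (((N σ).hasFDerivAt.const_add (u σ)).const_smul (1 - χ σ))
    have e2 : fderiv ℝ G (σ, 0) (0, y) = N σ y := by
      have e3 := congrArg (· y) (d2.unique (by rw [eG]; exact d3))
      by_cases h1 : ⟪e, σ⟫ < -1 + δ
      · simpa [(hc σ h h1).2.1, sub_smul] using e3
      · simpa [c0 σ h1] using e3
    rw [d1.fderiv] at e1
    rw [show (v, y) = (v, 0) + (0, y) by simp, map_add, ← e1]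
    congr 1
    rw [fderiv_comp _ (hr.sm.differentiable (by simp) _) (hG.differentiable (by simp) _),
      ContinuousLinearMap.comp_apply, e2, G0 σ h]
    exact (hr.tan _ ⟨σ, hs h, rfl⟩ _ (hm (hs h)) (by simpa using hr.pos)).2 _ (mN σ h y)
  · have e1 : G (σ, y) = ι (σ, y) := by simp [eG, c1 σ h1]
    have e2 := he σ y h (lt_min_iff.1 hy).1
    rw [Function.comp, e1] at *
    exact hr.fix _ ⟨σ, hs h, rfl⟩ _ ((hc σ h (by linarith)).2.2 y (lt_min_iff.1 hy).2) e2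

/-- The tube is embedded. -/
theorem top_tubeB {j m : ℕ} {W : Set E} (hW : IsSub (j + m) W) {T : Rd (j + 1) × Rd m → E}
    (hT : ContDiff ℝ ∞ T) {ε₀ : ℝ} (h0 : 0 < ε₀)
    (hm : ∀ σ y, ‖σ‖ = 1 → ‖y‖ < ε₀ → T (σ, y) ∈ W)
    (hi : InjOn (fun σ => T (σ, 0)) (sphere 0 1))
    (hd : ∀ σ, ‖σ‖ = 1 → ∀ v y, ⟪σ, v⟫ = 0 → fderiv ℝ T (σ, 0) (v, y) = 0 → v = 0 ∧ y = 0)
    {P : Rd (j + 1) × Rd m → Prop}
    (hP : ∀ σ, ‖σ‖ = 1 → ∀ᶠ q in 𝓝[sphere 0 1 ×ˢ univ] (σ, 0), P q) :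
    ∃ (ε : ℝ) (Λ : E → Rd (j + 1) × Rd m), 0 < ε ∧ ε ≤ ε₀ ∧ ContDiff ℝ ∞ Λ ∧
      (∀ σ y, ‖σ‖ = 1 → ‖y‖ < ε → Λ (T (σ, y)) = (σ, y) ∧ P (σ, y) ∧
        BijOn (fderiv ℝ T (σ, y)) {q | ⟪σ, q.1⟫ = 0} (Tan W (T (σ, y)))) ∧
      ∃ O, IsOpen O ∧ O ∩ W = T '' (sphere 0 1 ×ˢ ball 0 ε) := by
  have hs : ∀ {σ : Rd (j + 1)} (y : Rd m), ‖σ‖ = 1 →
      (σ, y) ∈ sphere (0 : Rd (j + 1)) 1 ×ˢ (univ : Set (Rd m)) := fun y h => by simpa using h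
  obtain ⟨Λ, U, hΛ, hU, hA, hl⟩ := (top_isSub_tube j m).left_inverse
    ((isCompact_sphere 0 1).prod (isCompact_singleton (x := (0 : Rd m))))
    (prod_mono le_rfl (subset_univ _)) hT
    (by
      rintro ⟨σ, _⟩ ⟨h, rfl⟩ ⟨v, y⟩ hv h1
      have h2 : ‖σ‖ = 1 := by simpa using h
      exact Prod.ext_iff.2 (hd σ h2 v y ((top_tan_tube h2 _ _).1 hv) h1))
    (by
      rintro ⟨σ, _⟩ ⟨h, rfl⟩ ⟨τ, _⟩ ⟨h', rfl⟩ e
      exact Prod.ext (hi h h' e) rfl)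
  obtain ⟨ε, hε, he⟩ := top_tubea_tube (P := fun q => q ∈ U ∧ P q) fun σ h =>
    ((hU.eventually_mem (hA (mk_mem_prod (by simpa using h) rfl))).filter_mono
      nhdsWithin_le_nhds).and (hP σ h)
  have dT := hT.differentiable (by simp)
  have hb : ∀ (σ : Rd (j + 1)) (y : Rd m) (a : ℝ), ‖y‖ < a → ∀ᶠ q in 𝓝 (σ, y), ‖q.2‖ < a :=
    fun σ y a h => (continuous_snd.norm.tendsto (σ, y)).eventually (gt_mem_nhds h)
  have hw : ∀ σ y, ‖y‖ < min ε ε₀ → ∀ᶠ q in 𝓝[sphere 0 1 ×ˢ univ] (σ, y), T q ∈ W :=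
    fun σ y h => eventually_nhdsWithin_iff.2 ((hb σ y _ (lt_min_iff.1 h).2).mono
      fun q h1 h2 => hm q.1 q.2 (by simpa using h2) h1)
  have hj : ∀ σ y, ‖σ‖ = 1 → ‖y‖ < min ε ε₀ → ∀ v ∈ Tan (sphere 0 1 ×ˢ univ) (σ, y),
      fderiv ℝ T (σ, y) v = 0 → v = 0 := fun σ y h hy v hv h1 => by
    have e1 := Tan.fderiv_congr (f := Λ ∘ T) (g := id) (hs y h)
      ((hΛ.comp hT).differentiable (by simp) _) differentiableAt_id
      (eventually_nhdsWithin_iff.2 ((hU.eventually_mem (he σ y h (lt_min_iff.1 hy).1).1).mono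
        fun q h2 h3 => hl q ⟨h3, h2⟩)) hv
    rw [fderiv_comp _ (hΛ.differentiable (by simp) _) (dT _)] at e1
    simpa [h1] using e1.symm
  refine ⟨min ε ε₀, Λ, lt_min hε h0, min_le_right _ _, hΛ, fun σ y h hy =>
    ⟨hl _ ⟨hs y h, (he σ y h (lt_min_iff.1 hy).1).1⟩, (he σ y h (lt_min_iff.1 hy).1).2, ?_⟩,
    interior (Wᶜ ∪ T '' (sphere 0 1 ×ˢ ball 0 (min ε ε₀))), isOpen_interior,
    Subset.antisymm (fun z hz => (interior_subset hz.1).resolve_left (not_not.2 hz.2)) ?_⟩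
  · rw [show {q : Rd (j + 1) × Rd m | ⟪σ, q.1⟫ = 0} = Tan (sphere 0 1 ×ˢ univ) (σ, y) from
      Set.ext fun q => (top_tan_tube h y q).symm]
    have m1 : ∀ v ∈ Tan (sphere 0 1 ×ˢ univ) (σ, y), (fderiv ℝ T (σ, y)).toLinearMap v ∈
      Tan W (T (σ, y)) := fun v hv => Tan.map (dT _) (hw σ y hy) hv
    have i1 : Function.Injective ((fderiv ℝ T (σ, y)).toLinearMap.restrict m1) :=
      (injective_iff_map_eq_zero _).2 fun v hv =>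
        Subtype.ext (hj σ y h hy v v.2 (congrArg Subtype.val hv))
    have s1 := (LinearMap.injective_iff_surjective_of_finrank_eq_finrank
      (((top_isSub_tube j m).finrank (hs y h)).trans
        (hW.finrank (hm σ y h (lt_min_iff.1 hy).2)).symm)).1 i1
    refine ⟨m1, fun a ha b hb e => congrArg Subtype.val
      (i1 (a₁ := ⟨a, ha⟩) (a₂ := ⟨b, hb⟩) (Subtype.ext e)), fun w hw => ?_⟩
    obtain ⟨v, hv⟩ := s1 ⟨w, hw⟩
    exact ⟨v, v.2, congrArg Subtype.val hv⟩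
  · rintro _ ⟨⟨σ, y⟩, ⟨h, hy⟩, rfl⟩
    have h1 : ‖σ‖ = 1 := by simpa using h
    have h2 : ‖y‖ < min ε ε₀ := by simpa using hy
    refine ⟨mem_interior_iff_mem_nhds.2 (mem_inf_principal'.1 ?_), hm σ y h1 (lt_min_iff.1 h2).2⟩
    obtain ⟨g, hg, g1, g2⟩ := (top_isSub_tube j m).local_inverse hW hT (hs y h1) (hw σ y h2)
      (hj σ y h1 h2)
    have g3 := hg.continuous.tendsto (T (σ, y))
    rw [g1.self_of_nhdsWithin (hs y h1)] at g3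
    filter_upwards [g2, mem_nhdsWithin_of_mem_nhds (g3.eventually (hb σ y _ h2))] with z h3 h4
    exact ⟨g z, ⟨h3.1.1, mem_ball_zero_iff.2 h4⟩, h3.2⟩

end Pool.Agent.Lib.MP_ccffa6_gt
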