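import Pool.Agent.Lib.MP_ccffa6_gt.TOP.TubeC
import Pool.Agent.Lib.MP_ccffa6_gt.TOP.TubeA
import Pool.Agent.Lib.MP_ccffa6_gt.TOP.FrameA
import Pool.Agent.Lib.MP_ccffa6_gt.TOP.FrameB

open Set Filter Topology Metric
open scoped ContDiff RealInnerProductSpace

noncomputable section

namespace Pool.Agent.Lib.MP_ccffa6_gt

variable {E : Type} [NormedAddCommGroup E] [NormedSpace ℝ E] [FiniteDimensional ℝ E]
  {E' : Type} [NormedAddCommGroup E'] [NormedSpace ℝ E'] [FiniteDimensional ℝ E']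
  {F : Type} [NormedAddCommGroup F] [NormedSpace ℝ F] [FiniteDimensional ℝ F]
  {A : Type} [NormedAddCommGroup A] [NormedSpace ℝ A] [FiniteDimensional ℝ A]

theorem top_tube_nrm {j : ℕ} {e : Rd (j + 1)} {π : Rd (j + 1) →L[ℝ] Rd j} {z : Rd (j + 1) → Rd j}
    (hP : Pole e π z) (R : ℝ) {σ : Rd (j + 1)} (h : ‖σ‖ = 1) (h' : ⟪e, σ⟫ ≤ 0) :
    ‖(R / 2) • z σ‖ ^ 2 = R ^ 2 / 4 * (1 + ⟪e, σ⟫) := by
  rw [norm_smul, mul_pow, hP.nrm σ h h', Real.norm_eq_abs, sq_abs]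
  ring

theorem top_tube_ball {j m : ℕ} {e : Rd (j + 1)} {π : Rd (j + 1) →L[ℝ] Rd j}
    {z : Rd (j + 1) → Rd j} (hP : Pole e π z) {R : ℝ} (hR : 0 < R) {σ : Rd (j + 1)} (h : ‖σ‖ = 1)
    (h' : ⟪e, σ⟫ ≤ 0) {y : Rd m} (hy : ‖y‖ < R) :
    (y, (R / 2) • z σ) ∈ ball (0 : Rd m × Rd j) R := by
  rw [mem_ball_zero_iff, Prod.norm_def, max_lt_iff]
  refine ⟨hy, lt_of_pow_lt_pow_left₀ 2 hR.le ?_⟩
  rw [top_tube_nrm hP R h h']
  nlinarith [sq_pos_of_pos hR]

theorem top_tube_der {j m : ℕ} {z : Rd (j + 1) → Rd j} (hz : ContDiff ℝ ∞ z)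
    {φ : Rd m × Rd j → E} (hφ : ContDiff ℝ ∞ φ) (R : ℝ) (q v : Rd (j + 1) × Rd m) :
    fderiv ℝ (fun q : Rd (j + 1) × Rd m => φ (q.2, (R / 2) • z q.1)) q v =
      fderiv ℝ φ (q.2, (R / 2) • z q.1) (v.2, (R / 2) • fderiv ℝ z q.1 v.1) := by
  have h1 := ((hz.differentiable (by simp) q.1).hasFDerivAt.comp q hasFDerivAt_fst).const_smul
    (R / 2)
  have h2 := (hφ.differentiable (by simp) (q.2, (R / 2) • z q.1)).hasFDerivAt.comp q
    (hasFDerivAt_snd.prodMk h1)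
  exact DFunLike.congr_fun h2.fderiv v

theorem top_tube_der' {j m : ℕ} {z : Rd (j + 1) → Rd j} (hz : ContDiff ℝ ∞ z)
    {φ : Rd m × Rd j → E} (hφ : ContDiff ℝ ∞ φ) (R : ℝ) (σ v : Rd (j + 1)) :
    fderiv ℝ (fun σ : Rd (j + 1) => φ (0, (R / 2) • z σ)) σ v =
      fderiv ℝ φ (0, (R / 2) • z σ) (0, (R / 2) • fderiv ℝ z σ v) := by
  have h1 := (hz.differentiable (by simp) σ).hasFDerivAt.const_smul (R / 2)
  have h2 := (hφ.differentiable (by simp) (0, (R / 2) • z σ)).hasFDerivAt.comp σ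
    ((hasFDerivAt_const (0 : Rd m) σ).prodMk h1)
  exact DFunLike.congr_fun h2.fderiv v

/-- The framed tube through a critical point of low coindex. -/
theorem top_tube (n : ℕ) : TubeStmt n := by
  intro E _ _ _ E' _ _ _ K _ _ _ W f a b M φM ψM r Φ p j m hD hp hj hm hMp hM
  obtain ⟨ν, hS⟩ := hD.slab
  have hcp := hMp.crit hp.1 hS.sm
  have hpa : a < f p := hp.2.1.lt_of_ne fun h => hS.not_crit hp.1 (Or.inl h.symm) hcp
  have hpb : f p < b := hp.2.2.lt_of_ne fun h => hS.not_crit hp.1 (Or.inr h) hcp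
  obtain ⟨φ, ψ, R, O, hC, hR, -, h0, hq⟩ := hMp.cball hp.1 univ_mem
    (lt_min one_pos (half_pos (sub_pos.2 hpb)))
  have R0 := hC.pos
  have hb : f p + R ^ 2 < b := by
    have := le_min_iff.1 hR
    nlinarith [this.1, this.2]
  obtain ⟨e, π, z, hP⟩ := top_exists_pole j
  obtain ⟨u, δ, δ0, δ1, su, mu, cu, pu, iu, du, nu⟩ := top_tubeC hS hj hD.diff hD.cr hD.mr hD.er
    hC hq hpa hb (fun q h1 h2 h3 => by
      obtain ⟨i, k, a1, a2, a3⟩ := hM q h1 h2 h3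
      exact ⟨i, k, by omega, a3⟩) hP
  have sp : ∀ {σ : Rd (j + 1)}, ‖σ‖ = 1 → σ ∈ sphere (0 : Rd (j + 1)) 1 :=
    fun h => mem_sphere_zero_iff_norm.2 h
  have ne : ‖-e‖ = 1 := by rw [norm_neg, hP.he]
  have ee : ⟪e, -e⟫ = -1 := (top_pole_height hP.he ne).2.2.2 rfl
  have muW : MapsTo u (sphere 0 1) W := fun σ h => (mu h).1
  have muC : MapsTo u (sphere 0 1) (W ∩ f ⁻¹' Icc a b) := fun σ h =>
    ⟨(mu h).1, hpa.le.trans (mu h).2.1, (mu h).2.2.le⟩
  obtain ⟨Rr, Θ, Ξ, cR, mR, eR, cΘ, bΘ, cΞ, bΞ⟩ :=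
    top_frameA (hD.diff.closed (hS.closed (Or.inr rfl))) hD.cΦ hD.bΦ su.continuous.continuousOn
      muC nu
  obtain ⟨P, U, sP, -, hU, hPU⟩ := hS.sub.exists_proj hS.cpt inter_subset_left
  have sz : ∀ {X : Type} [NormedAddCommGroup X] [NormedSpace ℝ X] {g : X → Rd m}
      {g' : X → Rd (j + 1)}, ContDiff ℝ ∞ g → ContDiff ℝ ∞ g' →
      ContDiff ℝ ∞ fun x => (g x, (R / 2) • z (g' x)) :=
    fun h h' => h.prodMk ((hP.sm.comp h').const_smul _)
  have mD : ∀ σ, ‖σ‖ = 1 → ∀ v, ⟪σ, v⟫ = 0 → fderiv ℝ u σ v ∈ Tan W (u σ) := fun σ h v hv =>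
    Tan.map (su.differentiable (by simp) σ) (eventually_mem_nhdsWithin.mono fun y hy => muW hy)
      ((top_tan_sphere h v).2 hv)
  have z0 : ‖(0 : Rd m)‖ < R := by simpa using R0
  obtain ⟨N, δ', Ψ, sN, δ'0, δ'δ, eN, tN, cΨ, bΨ, eΨ⟩ := top_frameB (m := m)
    (T := fun σ => Tan W (u σ)) (sP.comp su) (fun σ h => hPU _ ⟨muW (sp h), hU (muC (sp h))⟩)
    (by simp only [finrank_euclideanSpace_fin, Module.finrank_prod, Module.finrank_self]; omega)
    (by omega) cΞ (fun σ h => (bΞ σ (sp h)).1)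
    (su.continuous_fderiv (by simp)).continuousOn (fun σ h v hv => ⟨mD σ h v hv, du σ h v hv⟩)
    hP.he δ0 (N₀ := fun σ => (fderiv ℝ φ (0, (R / 2) • z σ)).comp (ContinuousLinearMap.inl ℝ _ _))
    (((hC.smφ.fderiv_right (m := ∞) (by simp)).comp (sz contDiff_const contDiff_id)).clm_comp
      contDiff_const)
    (fun σ h h' y => by
      rw [cu σ h h']
      exact (hC.mem_tan (top_tube_ball hP R0 h (by linarith) z0) _).2 ⟨_, rfl⟩)
    (fun v y hv h => by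
      have a1 : u =ᶠ[𝓝[sphere 0 1] (-e)] fun σ => φ (0, (R / 2) • z σ) := by
        have : ∀ᶠ σ in 𝓝 (-e), ⟪e, σ⟫ < -1 + δ :=
          (continuous_const.inner continuous_id).continuousAt.eventually_lt continuousAt_const
            (by simp only [id, ee]; linarith)
        filter_upwards [self_mem_nhdsWithin, mem_nhdsWithin_of_mem_nhds this] with σ h1 h2
        exact cu σ (mem_sphere_zero_iff_norm.1 h1) h2
      rw [Tan.fderiv_congr (g := fun σ => φ (0, (R / 2) • z σ)) (sp ne)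
        (su.differentiable (by simp) _)
        ((hC.smφ.comp (sz contDiff_const contDiff_id)).differentiable (by simp) _) a1
        ((top_tan_sphere ne v).2 hv), top_tube_der' hP.sm hC.smφ,
        ContinuousLinearMap.comp_apply, ← map_add] at h
      have a2 := (injective_iff_map_eq_zero _).1
        (hC.inj (top_tube_ball hP R0 ne (by linarith) z0)) _ h
      simp only [ContinuousLinearMap.inl_apply, Prod.mk_add_mk, zero_add, add_zero,
        Prod.mk_eq_zero, smul_eq_zero, (half_pos R0).ne', false_or] at a2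
      exact ⟨hP.imm _ ne (by linarith) v hv a2.2, a2.1⟩)
  obtain ⟨T, ε₁, sT, ε₁0, ε₁R, mT, T0, dT, cT⟩ := top_tubeA hS.sub su muW sN tN
    (ι := fun q => φ (q.2, (R / 2) • z q.1)) (hC.smφ.comp (sz contDiff_snd contDiff_fst))
    (e := e) δ'0 R0 fun σ h h' => ⟨(cu σ h (by linarith)).symm, fun y => by
      rw [top_tube_der hP.sm hC.smφ, eN σ h h']
      simp, fun y hy => (hC.fw _ (top_tube_ball hP R0 h (by linarith) hy)).1.1⟩
  have hev : ∀ σ : Rd (j + 1), ∀ᶠ q in 𝓝[sphere 0 1 ×ˢ univ] ((σ, 0) : Rd (j + 1) × Rd m),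
      ‖q.1‖ = 1 ∧ ‖q.2‖ < ε₁ := fun σ => by
    have : ∀ᶠ q in 𝓝 ((σ, 0) : Rd (j + 1) × Rd m), ‖q.2‖ < ε₁ :=
      continuous_snd.norm.continuousAt.eventually_lt continuousAt_const (by simpa using ε₁0)
    filter_upwards [self_mem_nhdsWithin, mem_nhdsWithin_of_mem_nhds this] with q h1 h2
    exact ⟨mem_sphere_zero_iff_norm.1 h1.1, h2⟩
  obtain ⟨ε, Λ, ε0, ε1, sΛ, hΛ, hop⟩ := top_tubeB (j := j) (m := m)
    (by rw [add_comm, hm]; exact hS.sub) sT ε₁0 mT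
    (iu.congr fun σ h => (T0 σ (mem_sphere_zero_iff_norm.1 h)).symm)
    (fun σ h v y hv h' => by
      have a1 := eΨ σ h v y 0
      rw [dT σ h v y hv] at h'
      rw [hv, zero_smul, sub_zero, h'] at a1
      have a2 := (injective_iff_map_eq_zero _).1 (bΨ σ (sphere_subset_closedBall (sp h))).1 _
        (a1.trans (map_zero _))
      exact ⟨congrArg Prod.fst a2, congrArg (fun q => q.2.1) a2⟩)
    (P := fun q => f (T q) ∈ Ioo a b ∧ (Crit W f (T q) → q.1 = -e ∧ q.2 = 0))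
    (fun σ h => by
      refine Eventually.and (mem_nhdsWithin_of_mem_nhds
        ((hS.sm.continuous.comp sT.continuous).continuousAt.preimage_mem_nhds (Ioo_mem_nhds ?_ ?_)))
        ?_
      · show a < f (T (σ, 0))
        rw [T0 σ h]
        exact hpa.trans_le (mu (sp h)).2.1
      · show f (T (σ, 0)) < b
        rw [T0 σ h]
        exact (mu (sp h)).2.2
      by_cases hσ : σ = -e
      · have : ∀ᶠ q in 𝓝 ((σ, 0) : Rd (j + 1) × Rd m), ⟪e, q.1⟫ < -1 + δ' / 3 :=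
          (continuous_const.inner continuous_fst).continuousAt.eventually_lt continuousAt_const
            (by simp only [hσ, ee]; linarith)
        filter_upwards [hev σ, mem_nhdsWithin_of_mem_nhds this] with q h1 h2 h3
        have a0 : ⟪e, q.1⟫ ≤ 0 := by linarith
        rw [cT q.1 q.2 h1.1 h1.2 h2, hC.crit_morse hS.sm hq
          (top_tube_ball hP R0 h1.1 a0 (h1.2.trans_le ε₁R)), Prod.mk_eq_zero] at h3
        have a1 := top_tube_nrm hP R h1.1 a0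
        rw [h3.2, norm_zero] at a1
        refine ⟨(top_pole_height hP.he h1.1).2.2.1 ?_, h3.1⟩
        have a2 := (mul_eq_zero.1 (a1.symm.trans (by simp))).resolve_left (by positivity)
        linarith
      · have a1 : Tendsto T (𝓝[sphere 0 1 ×ˢ univ] (σ, 0)) (𝓝[W] (u σ)) :=
          tendsto_nhdsWithin_iff.2 ⟨T0 σ h ▸ sT.continuous.continuousWithinAt,
            (hev σ).mono fun q h1 => mT q.1 q.2 h1.1 h1.2⟩
        exact (a1.eventually (hS.sub.eventually_not_crit hS.sm (muW (sp h)) (pu σ h hσ).2)).mono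
          fun q h1 h2 => (h1 h2).elim)
  refine ⟨e, ε, R ^ 2 / 4, δ' / 3, T, Λ, Rr, fun w => (Θ w).comp (Ψ w), hP.he, ε0, by positivity,
    by positivity, sT, sΛ, fun σ y h hy => ⟨mT σ y h (hy.trans_le ε1), (hΛ σ y h hy).2.1.1,
      (hΛ σ y h hy).1⟩, hop, fun σ y h hy => (hΛ σ y h hy).2.2, ?_, fun σ y h hy h' => ?_,
    fun σ h h' => (T0 σ h).symm ▸ (pu σ h h').1, fun σ y h hy => (hΛ σ y h hy).2.1.2, cR, mR,
    fun σ h => by rw [eR (sp h), T0 σ h]; rfl, cΘ.clm_comp cΨ,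
    fun w hw => (bΘ w hw).comp (bijOn_univ.2 (bΨ w hw)), fun σ h v y k => ?_⟩
  · rw [T0 _ ne, cu _ ne (by linarith), hP.pole, smul_zero, ← h0]
    rfl
  · have a0 : ⟪e, σ⟫ ≤ 0 := by linarith
    rw [cT σ y h (hy.trans_le ε1) h',
      hq _ (top_tube_ball hP R0 h a0 (hy.trans_le (ε1.trans ε₁R))), top_tube_nrm hP R h a0]
    ring
  · have a1 : ⟪σ, v - ⟪σ, v⟫ • σ⟫ = 0 := by
      rw [inner_sub_right, real_inner_smul_right, real_inner_self_eq_norm_sq, h]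
      ring
    rw [ContinuousLinearMap.comp_apply, eΨ σ h, dT σ h _ y a1, T0 σ h]
    exact (bΞ σ (sp h)).2 _ (mem_pl.2 (add_mem (mD σ h _ a1) (tN σ h y)))

end Pool.Agent.Lib.MP_ccffa6_gt
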