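import Pool.Agent.Lib.MP_ccffa6_gt.TOP.Stab
import Pool.Agent.Lib.MP_ccffa6_gt.TOP.Surg
import Pool.Agent.Lib.MP_ccffa6_gt.TOP.Tube
import Pool.Agent.Lib.MP_ccffa6_gt.TOP.MPert

/-! Removing the critical points of high index one at a time. -/

open Set Filter Topology Metric
open scoped ContDiff RealInnerProductSpace

noncomputable section

namespace Pool.Agent.Lib.MP_ccffa6_gt

variable {E : Type} [NormedAddCommGroup E] [NormedSpace ℝ E] [FiniteDimensional ℝ E]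
  {E' : Type} [NormedAddCommGroup E'] [NormedSpace ℝ E'] [FiniteDimensional ℝ E']
  {K : Type} [NormedAddCommGroup K] [NormedSpace ℝ K] [FiniteDimensional ℝ K]

theorem Pk.morsify {n k : ℕ} {η : Bil K} {M : Set E'} {ΩM : E' → Bil (E' × ℝ)} {W : Set E}
    {f : E → ℝ} {a b : ℝ} {r : E → E'} {Φ : E → (E × K) →L[ℝ] ((E' × ℝ) × K)}
    (h : Pk n η M ΩM W f a b r Φ) {B : Set E} (hB : B.Finite)
    (hM : ∀ x ∈ B, x ∈ W ∧ ∃ i j, MChart W f x i j)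
    (hp : ∀ x ∈ W ∩ f ⁻¹' Icc a b, Crit W f x → x ∉ B → PosAt (2 * n + 2) k W f x) :
    ∃ g : E → ℝ, Pk n η M ΩM W g a b r Φ ∧ (∀ x ∈ B, g =ᶠ[𝓝 x] f) ∧
      ∀ x ∈ W ∩ g ⁻¹' Icc a b, Crit W g x → x ∉ B →
        ∃ i j, i + j = 2 * n + 2 ∧ i ≤ k ∧ MChart W g x i j := by
  obtain ⟨ν, Ωa, φ, ψ, hS, hN, hη, ha, hΩ, hg, h1, h2⟩ := h
  obtain ⟨g, gS, e, ea, eb, g1, g2⟩ := top_morsify hS hB hM hp
  refine ⟨g, ⟨ν, Ωa, φ, ψ, gS, ⟨⟨ν, gS⟩, ?_, ?_, ?_, ?_, ?_, ?_⟩, hη, ?_, hΩ, ?_, ?_, ?_⟩,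
    fun x hx => g1 x (Or.inl hx), g2⟩
  · rw [eb]; exact hN.diff
  · rw [e]; exact hN.cr
  · rw [e]; exact hN.mr
  · rw [eb]; exact hN.er
  · rw [e]; exact hN.cΦ
  · rw [e]; exact hN.bΦ
  · rw [ea]; exact ha
  · rw [ea]; exact hg
  · rw [ea]; exact h1
  · rw [eb]; exact h2

theorem top_ind {n : ℕ} (hE : ELIStmt n) {η : Bil (ℝ × K)} {M : Set E'} {ΩM : E' → Bil (E' × ℝ)}
    {a b : ℝ} (N : ℕ) :
    ∀ (E : Type) [NormedAddCommGroup E] [NormedSpace ℝ E] [FiniteDimensional ℝ E] (W : Set E)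
      (f : E → ℝ) (r : E → E') (Φ : E → (E × (ℝ × K)) →L[ℝ] ((E' × ℝ) × (ℝ × K))),
      Pk n η M ΩM W f a b r Φ → Morse (2 * n + 2) W f a b →
      (Bad (2 * n + 2) (n + 1) W f a b).ncard < N → SGood n M ΩM := by
  induction N with
  | zero => intro _ _ _ _ _ _ _ _ _ _ h; exact absurd h (Nat.not_lt_zero _)
  | succ N ih =>
    intro E _ _ _ W f r Φ h hM hN
    have hC := h.core
    have hfin : {x | x ∈ W ∩ f ⁻¹' Icc a b ∧ Crit W f x}.Finite :=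
      top_crit_finite hC.sub hC.sm hC.cpt inter_subset_left fun x hx hc =>
        (hM x hx hc).imp fun _ => Exists.imp fun _ h => h.2
    have hbf : (Bad (2 * n + 2) (n + 1) W f a b).Finite := hfin.subset fun x hx => ⟨hx.1, hx.2.1⟩
    rcases (Bad (2 * n + 2) (n + 1) W f a b).eq_empty_or_nonempty with hb | hb
    · refine h.finish hE fun x hx hc => ?_
      have : x ∉ Bad (2 * n + 2) (n + 1) W f a b := by rw [hb]; exact notMem_empty x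
      obtain ⟨i, k, -, h1, φ, ψ, h2⟩ : ∃ i k, i + k = 2 * n + 2 ∧ i ≤ n + 1 ∧ MChart W f x i k := by
        by_contra hh
        exact this ⟨hx, hc, hh⟩
      exact ⟨i, k, φ, ψ, h1, h2⟩
    obtain ⟨p, hp, hmax⟩ := exists_max_image _ f hbf hb
    obtain ⟨i, j, hij, hm⟩ := hM p hp.1 hp.2.1
    have hi : ¬ i ≤ n + 1 := fun hh => hp.2.2 ⟨i, j, hij, hh, hm⟩
    obtain ⟨m, rfl⟩ : ∃ m, i = m + 1 := ⟨i - 1, by omega⟩
    have hd : 2 * n + 2 = j + m + 1 := by omega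
    obtain ⟨ν, Ωa, φ, ψ, -, hD, -⟩ := id h
    obtain ⟨e, ε, κ, δ, T, Λ, R, Ψ, hT⟩ := top_tube n E E' K W f a b M φ ψ r Φ p j (m + 1) hD hp.1
      (by omega) hij hm fun q hq hlt hc => by
        by_contra hh
        exact absurd (hmax q ⟨hq, hc, hh⟩) (not_le.2 hlt)
    obtain ⟨E₂, _, _, _, W₂, f₂, ι, π, r₂, Φ₂, hO⟩ :=
      top_surg E E' K j m W f a b p M r Φ e ε κ δ T Λ R Ψ (hd ▸ hC) hT
    rw [← hd] at hO
    obtain ⟨g, hg, g1, g2⟩ := (h.transfer hO.core hO.ends).morsify (k := j + 1)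
      (B := ι '' ({x | x ∈ W ∩ f ⁻¹' Icc a b ∧ Crit W f x} \ {p}))
      (hfin.sdiff.image _) (by
        rintro _ ⟨x, ⟨⟨h1, h2⟩, h3⟩, rfl⟩
        obtain ⟨i, k, -, h4⟩ := hM x h1 h2
        exact ⟨(hO.old x h1 h2 h3).1, i, k, (hO.old x h1 h2 h3).2.2 i k h4⟩) (by
        intro z hz hc hn
        refine (hO.new z hz hc).resolve_left ?_
        rintro ⟨x, h1, h2, h3, rfl⟩
        exact hn ⟨x, ⟨⟨h1, h2⟩, h3⟩, rfl⟩)
    have tr : ∀ x, x ∈ W ∩ f ⁻¹' Icc a b → Crit W f x → x ≠ p → ∀ i k, MChart W f x i k →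
        MChart W₂ g (ι x) i k := fun x h1 h2 h3 i k h4 =>
      ((hO.old x h1 h2 h3).2.2 i k h4).congr (hO.old x h1 h2 h3).1
        ((g1 _ ⟨x, ⟨⟨h1, h2⟩, h3⟩, rfl⟩).filter_mono nhdsWithin_le_nhds)
    refine ih E₂ W₂ g r₂ Φ₂ hg (fun z hz hc => ?_) ?_
    · by_cases hn : z ∈ ι '' ({x | x ∈ W ∩ f ⁻¹' Icc a b ∧ Crit W f x} \ {p})
      · obtain ⟨x, ⟨⟨h1, h2⟩, h3⟩, rfl⟩ := hn
        obtain ⟨i, k, h4, h5⟩ := hM x h1 h2
        exact ⟨i, k, h4, tr x h1 h2 h3 i k h5⟩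
      · obtain ⟨i, k, h1, -, h2⟩ := g2 z hz hc hn
        exact ⟨i, k, h1, h2⟩
    · have hs : Bad (2 * n + 2) (n + 1) W₂ g a b ⊆
          ι '' (Bad (2 * n + 2) (n + 1) W f a b \ {p}) := by
        rintro z ⟨hz, hc, hb⟩
        by_cases hn : z ∈ ι '' ({x | x ∈ W ∩ f ⁻¹' Icc a b ∧ Crit W f x} \ {p})
        · obtain ⟨x, ⟨⟨h1, h2⟩, h3⟩, rfl⟩ := hn
          refine ⟨x, ⟨⟨h1, h2, ?_⟩, h3⟩, rfl⟩
          rintro ⟨i, k, h4, h5, h6⟩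
          exact hb ⟨i, k, h4, h5, tr x h1 h2 h3 i k h6⟩
        · obtain ⟨i, k, h1, h3, h2⟩ := g2 z hz hc hn
          exact absurd ⟨i, k, h1, by omega, h2⟩ hb
      have h1 := ncard_le_ncard hs (hbf.sdiff.image _)
      have h2 := ncard_image_le (f := ι) (hbf.sdiff (t := {p}))
      have h3 := ncard_sdiff_singleton_lt_of_mem hp hbf
      omega

theorem TE_main {n : ℕ} (hE : ELIStmt n) : TEStmt n := by
  intro E _ _ _ E' _ _ _ W f a b Ωa M ΩM h hg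
  obtain ⟨K, _, _, _, η, r, Φ, hP⟩ := top_pk h hg
  obtain ⟨g, hP', -, g2⟩ := hP.morsify (k := 2 * n + 2) finite_empty (fun _ h => h.elim)
    fun x hx _ _ => PosAt.triv f hx.1 le_rfl
  refine top_ind hE _ E W g r Φ hP' (fun x hx hc => ?_) (Nat.lt_succ_self _)
  obtain ⟨i, k, h1, -, h2⟩ := g2 x hx hc (notMem_empty x)
  exact ⟨i, k, h1, h2⟩

end Pool.Agent.Lib.MP_ccffa6_gt
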