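import Pool.Agent.Lib.MP_ccffa6_gt.TOP.GP1

/-! General position and transversality for families. -/

open Set Filter Topology MeasureTheory
open scoped ContDiff

noncomputable section

namespace Pool.Agent.Lib.MP_ccffa6_gt

variable {X : Type} [NormedAddCommGroup X] [NormedSpace ℝ X] [FiniteDimensional ℝ X]
  {P : Type} [NormedAddCommGroup P] [NormedSpace ℝ P] [FiniteDimensional ℝ P]
  {V : Type} [NormedAddCommGroup V] [NormedSpace ℝ V] [FiniteDimensional ℝ V]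

theorem top_gp_lin {D : X →L[ℝ] V} (hs : Function.Surjective D) {e : ℕ}
    (he : Module.finrank ℝ X = e + Module.finrank ℝ V) :
    ∃ (L : X →L[ℝ] Rd e) (A : X ≃L[ℝ] (V × Rd e)), (A : X →L[ℝ] V × Rd e) = D.prod L := by
  obtain ⟨C, hC⟩ := Submodule.exists_isCompl (LinearMap.ker (D : X →ₗ[ℝ] V))
  have h1 := LinearMap.finrank_range_add_finrank_ker (D : X →ₗ[ℝ] V)
  have h2 : LinearMap.range (D : X →ₗ[ℝ] V) = ⊤ := LinearMap.range_eq_top.2 hs
  rw [h2, finrank_top] at h1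
  have h3 : Module.finrank ℝ (LinearMap.ker (D : X →ₗ[ℝ] V)) = Module.finrank ℝ (Rd e) := by
    rw [finrank_euclideanSpace_fin]; omega
  let I := LinearEquiv.ofFinrankEq _ _ h3
  let L : X →ₗ[ℝ] Rd e := (I : _ →ₗ[ℝ] Rd e).comp (Submodule.projectionOnto _ C hC)
  have hi : Function.Injective ((D : X →ₗ[ℝ] V).prod L) := by
    rw [← LinearMap.ker_eq_bot, LinearMap.ker_eq_bot']
    intro x hx
    have hx1 : D x = 0 := congrArg Prod.fst hx
    have hx2 : L x = 0 := congrArg Prod.snd hx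
    have h4 := Submodule.projectionOnto_apply_left hC ⟨x, hx1⟩
    have h5 : I (Submodule.projectionOnto _ C hC x) = 0 := hx2
    rw [I.map_eq_zero_iff] at h5
    exact congrArg Subtype.val (h4.symm.trans h5)
  have h6 : Module.finrank ℝ X = Module.finrank ℝ (V × Rd e) := by
    rw [Module.finrank_prod, finrank_euclideanSpace_fin]; omega
  refine ⟨LinearMap.toContinuousLinearMap L,
    (LinearMap.linearEquivOfInjective _ hi h6).toContinuousLinearEquiv, ?_⟩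
  ext x <;> rfl

/-- Local parametrisation of the zero set of a `C¹` submersion. -/
theorem top_zero_param {U : Set X} (hU : IsOpen U) {G : X → V} (hG : ContDiffOn ℝ 1 G U) {q : X}
    (hq : q ∈ U) (hs : Function.Surjective (fderiv ℝ G q)) {e : ℕ}
    (he : Module.finrank ℝ X = e + Module.finrank ℝ V) :
    ∃ (O : Set (Rd e)) (h : Rd e → X), IsOpen O ∧ ContDiffOn ℝ 1 h O ∧
      ∀ᶠ x in 𝓝 q, G x = G q → ∃ k ∈ O, h k = x ∧
        ∀ w, fderiv ℝ G x w = 0 → ∃ u, fderiv ℝ h k u = w := by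
  have : CompleteSpace X := FiniteDimensional.complete ℝ X
  obtain ⟨L, A, hA⟩ := top_gp_lin hs he
  let Γ : X → V × Rd e := fun x => (G x, L x)
  have hΓ : ∀ x ∈ U, ContDiffAt ℝ 1 Γ x := fun x hx =>
    (hG.contDiffAt (hU.mem_nhds hx)).prodMk L.contDiff.contDiffAt
  have hD : ∀ x ∈ U, HasFDerivAt Γ ((fderiv ℝ G x).prod L) x := fun x hx =>
    ((hG.contDiffAt (hU.mem_nhds hx)).differentiableAt one_ne_zero).hasFDerivAt.prodMk
      L.hasFDerivAt
  have hq' : HasFDerivAt Γ (A : X →L[ℝ] V × Rd e) q := hA ▸ hD q hq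
  let Φ := (hΓ q hq).toOpenPartialHomeomorph Γ hq' one_ne_zero
  have hΦ : (Φ : X → V × Rd e) = Γ := rfl
  have hc : ContinuousOn (fun x => (fderiv ℝ G x).prod L) U :=
    (ContinuousLinearMap.prodₗᵢ ℝ).continuous.comp_continuousOn
      ((hG.continuousOn_fderiv_of_isOpen hU le_rfl).prodMk continuousOn_const)
  let T : Set X := U ∩ (fun x => (fderiv ℝ G x).prod L) ⁻¹'
    range ((↑) : (X ≃L[ℝ] (V × Rd e)) → X →L[ℝ] V × Rd e)
  have hT : IsOpen T := hc.isOpen_inter_preimage hU ContinuousLinearEquiv.isOpen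
  have hqT : q ∈ T := ⟨hq, A, hA⟩
  let O : Set (Rd e) := (fun k => (G q, k)) ⁻¹' (Φ.target ∩ Φ.symm ⁻¹' T)
  have hO : IsOpen O := (Φ.isOpen_inter_preimage_symm hT).preimage (by fun_prop)
  refine ⟨O, fun k => Φ.symm (G q, k), hO, fun k hk => ?_, ?_⟩
  · obtain ⟨h1, h2, B, hB⟩ := hk
    have h3 : HasFDerivAt Φ (B : X →L[ℝ] V × Rd e) (Φ.symm (G q, k)) := hB ▸ hD _ h2
    exact ((Φ.contDiffAt_symm h1 h3 (hΓ _ h2)).comp k
      (contDiffAt_const.prodMk contDiffAt_id)).contDiffWithinAt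
  · filter_upwards [hT.mem_nhds hqT, Φ.open_source.mem_nhds
      ((hΓ q hq).mem_toOpenPartialHomeomorph_source hq' one_ne_zero)] with x hx hx' hGx
    have h0 : Φ x = (G q, L x) := by rw [hΦ, ← hGx]
    have h1 : (G q, L x) ∈ Φ.target := h0 ▸ Φ.map_source hx'
    have h2 : Φ.symm (G q, L x) = x := by rw [← h0]; exact Φ.left_inv hx'
    obtain ⟨hxU, B, hB⟩ := hx
    refine ⟨L x, ⟨h1, ?_⟩, h2, fun w hw => ⟨L w, ?_⟩⟩
    · show Φ.symm (G q, L x) ∈ T
      rw [h2]; exact ⟨hxU, B, hB⟩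
    · have h3 : HasFDerivAt Φ (B : X →L[ℝ] V × Rd e) (Φ.symm (G q, L x)) := by
        rw [h2, hB]; exact hD x hxU
      have h4 := (Φ.hasFDerivAt_symm h1 h3).comp (L x)
        ((hasFDerivAt_const (G q) (L x)).prodMk (hasFDerivAt_id (L x)))
      have h5 : fderiv ℝ (fun k => Φ.symm (G q, k)) (L x) = _ := h4.fderiv
      rw [h5]
      have h6 : B w = (0, L w) := by
        have := congrArg (fun M : X →L[ℝ] V × Rd e => M w) hB
        simpa [hw] using this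
      simp [← h6]

theorem top_gp_rank {D : X →L[ℝ] V} {a : ℕ}
    (h : a ≤ Module.finrank ℝ (LinearMap.range (D : X →ₗ[ℝ] V))) :
    ∃ l : V →L[ℝ] Rd a, Function.Surjective (l.comp D) := by
  have h1 : Module.finrank ℝ (Rd a) ≤ Module.finrank ℝ (LinearMap.range (D : X →ₗ[ℝ] V)) := by
    rwa [finrank_euclideanSpace_fin]
  obtain ⟨i, hi⟩ := finrank_le_iff_exists_linearMap.1 h1
  have hj : LinearMap.ker ((LinearMap.range (D : X →ₗ[ℝ] V)).subtype.comp i) = ⊥ :=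
    LinearMap.ker_eq_bot.2 (Subtype.val_injective.comp hi)
  obtain ⟨l, hl⟩ := LinearMap.exists_leftInverse_of_injective _ hj
  refine ⟨LinearMap.toContinuousLinearMap l, fun z => ?_⟩
  obtain ⟨x, hx⟩ := (i z).2
  refine ⟨x, ?_⟩
  have h2 := congrArg (fun M : Rd a →ₗ[ℝ] Rd a => M z) hl
  have h3 : D x = (i z : V) := hx
  simpa [h3] using h2

/-- General position on a vector space. -/
theorem top_gp_vec {U Z : Set (X × P)} (hU : IsOpen U) {Ψ : X × P → V} (hΨ : ContDiffOn ℝ 1 Ψ U)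
    (hZ : ∀ q ∈ Z, q ∈ U ∧ Ψ q = 0 ∧ Module.finrank ℝ X <
      Module.finrank ℝ (LinearMap.range (fderiv ℝ Ψ q : X × P →ₗ[ℝ] V))) :
    Thin (Prod.snd '' Z) := by
  refine Thin.of_local fun q hq => ?_
  obtain ⟨hqU, hq0, hr⟩ := hZ q hq
  obtain ⟨l, hl⟩ := top_gp_rank (a := Module.finrank ℝ X + 1) hr
  have hG : ContDiffOn ℝ 1 (l ∘ Ψ) U := l.contDiff.comp_contDiffOn hΨ
  have hd : fderiv ℝ (l ∘ Ψ) q = l.comp (fderiv ℝ Ψ q) := (l.hasFDerivAt.comp q
    ((hΨ.contDiffAt (hU.mem_nhds hqU)).differentiableAt one_ne_zero).hasFDerivAt).fderiv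
  have h1 := (LinearMap.range (fderiv ℝ Ψ q : X × P →ₗ[ℝ] V)).finrank_le
  have h2 := LinearMap.finrank_range_le (fderiv ℝ Ψ q : X × P →ₗ[ℝ] V)
  rw [Module.finrank_prod] at h2
  obtain ⟨e, he⟩ : ∃ e, Module.finrank ℝ P = e + 1 := ⟨Module.finrank ℝ P - 1, by omega⟩
  obtain ⟨O, h, hO, hh, hx⟩ := top_zero_param hU hG hqU (hd ▸ hl) (e := e) (by
    rw [Module.finrank_prod, finrank_euclideanSpace_fin]; omega)
  refine ⟨_, inter_mem_nhdsWithin Z hx, ?_⟩
  have h3 : Thin ((Prod.snd ∘ h) '' O) := Thin.image hO (contDiff_snd.comp_contDiffOn hh) (by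
    rw [finrank_euclideanSpace_fin]; omega)
  refine h3.mono ?_
  rintro _ ⟨x, ⟨hxZ, hx2⟩, rfl⟩
  obtain ⟨k, hk, hkx, -⟩ := hx2 (by simp [hq0, (hZ x hxZ).2.1])
  exact ⟨k, hk, by simp [hkx]⟩

theorem top_gp_inr {U : Set (X × P)} (hU : IsOpen U) {Ψ : X × P → V} (hΨ : ContDiffOn ℝ 1 Ψ U)
    {x : X} {p : P} (h : (x, p) ∈ U) (δ : P) :
    fderiv ℝ (fun p' => Ψ (x, p')) p δ = fderiv ℝ Ψ (x, p) (0, δ) := by
  have h1 := ((hΨ.contDiffAt (hU.mem_nhds h)).differentiableAt one_ne_zero).hasFDerivAt.comp p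
    ((hasFDerivAt_const x p).prodMk (hasFDerivAt_id p))
  have h2 : fderiv ℝ (fun p' => Ψ (x, p')) p = _ := h1.fderiv
  rw [h2]; simp

theorem top_gp_inl {U : Set (X × P)} (hU : IsOpen U) {Ψ : X × P → V} (hΨ : ContDiffOn ℝ 1 Ψ U)
    {x : X} {p : P} (h : (x, p) ∈ U) (v : X) :
    fderiv ℝ (fun x' => Ψ (x', p)) x v = fderiv ℝ Ψ (x, p) (v, 0) := by
  have h1 := ((hΨ.contDiffAt (hU.mem_nhds h)).differentiableAt one_ne_zero).hasFDerivAt.comp x
    (f := fun x' => (x', p)) ((hasFDerivAt_id x).prodMk (hasFDerivAt_const p x))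
  have h2 : fderiv ℝ (fun x' => Ψ (x', p)) x = _ := h1.fderiv
  rw [h2]; simp

/-- General position: if at every zero the derivative in the parameter has rank larger than the
dimension of `S`, almost every member of the family has no zero on `S`. -/
theorem top_gp {a : ℕ} {S : Set X} (hS : Cov a S) {U : Set (X × P)} (hU : IsOpen U)
    {Ψ : X × P → V} (hΨ : ContDiffOn ℝ 1 Ψ U)
    (hr : ∀ x ∈ S, ∀ p, (x, p) ∈ U → Ψ (x, p) = 0 →
      a < Module.finrank ℝ (LinearMap.range (fderiv ℝ (fun p' => Ψ (x, p')) p : P →ₗ[ℝ] V))) :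
    Thin {p | ∃ x ∈ S, (x, p) ∈ U ∧ Ψ (x, p) = 0} := by
  obtain ⟨φ, hφ, hc⟩ := hS
  have key : ∀ i, Thin (Prod.snd '' {q : Rd a × P | φ i q.1 ∈ S ∧ (φ i q.1, q.2) ∈ U ∧
      Ψ (φ i q.1, q.2) = 0}) := by
    intro i
    have hm : ContDiff ℝ 1 fun q : Rd a × P => (φ i q.1, q.2) :=
      ((hφ i).comp contDiff_fst).prodMk contDiff_snd
    have hU' := hU.preimage hm.continuous
    have hΨ' : ContDiffOn ℝ 1 (fun q : Rd a × P => Ψ (φ i q.1, q.2))
        ((fun q : Rd a × P => (φ i q.1, q.2)) ⁻¹' U) :=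
      hΨ.comp hm.contDiffOn fun _ h => h
    refine top_gp_vec hU' hΨ' fun q hq => ⟨hq.2.1, hq.2.2, ?_⟩
    rw [finrank_euclideanSpace_fin]
    refine (hr _ hq.1 _ hq.2.1 hq.2.2).trans_le (Submodule.finrank_mono ?_)
    rintro _ ⟨δ, rfl⟩
    exact ⟨(0, δ), (top_gp_inr hU' hΨ' (x := q.1) (p := q.2) hq.2.1 δ).symm⟩
  refine (Thin.iUnion key).mono ?_
  rintro p ⟨x, hx, h1, h2⟩
  obtain ⟨i, z, rfl⟩ := mem_iUnion.1 (hc hx)
  exact mem_iUnion.2 ⟨i, (z, p), ⟨hx, h1, h2⟩, rfl⟩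

/-- The same with the rank condition given by a subspace of values. -/
theorem top_gp' {a : ℕ} {S : Set X} (hS : Cov a S) {U : Set (X × P)} (hU : IsOpen U)
    {Ψ : X × P → V} (hΨ : ContDiffOn ℝ 1 Ψ U)
    (hr : ∀ x ∈ S, ∀ p, (x, p) ∈ U → Ψ (x, p) = 0 → ∃ T : Submodule ℝ V,
      a < Module.finrank ℝ T ∧ ∀ t ∈ T, ∃ δ : P, fderiv ℝ (fun p' => Ψ (x, p')) p δ = t) :
    Thin {p | ∃ x ∈ S, (x, p) ∈ U ∧ Ψ (x, p) = 0} := by
  refine top_gp hS hU hΨ fun x hx p h1 h2 => ?_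
  obtain ⟨T, hT, hT'⟩ := hr x hx p h1 h2
  exact hT.trans_le (Submodule.finrank_mono fun t ht => hT' t ht)

/-- Transversality in equal dimensions: almost every member of a family which is submersive in the
parameter has only nondegenerate zeros. -/
theorem top_trans (hd : Module.finrank ℝ X = Module.finrank ℝ V) {U : Set (X × P)}
    (hU : IsOpen U) {G : X × P → V} (hG : ContDiffOn ℝ 1 G U)
    (hs : ∀ x p, (x, p) ∈ U → G (x, p) = 0 →
      Function.Surjective (fderiv ℝ (fun p' => G (x, p')) p)) :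
    Thin {p | ∃ x, (x, p) ∈ U ∧ G (x, p) = 0 ∧
      ¬ Function.Injective (fderiv ℝ (fun x' => G (x', p)) x)} := by
  have key : Thin (Prod.snd '' {q : X × P | q ∈ U ∧ G q = 0 ∧
      ¬ Function.Injective (fderiv ℝ (fun x' => G (x', q.2)) q.1)}) := by
    refine Thin.of_local fun q hq => ?_
    have h1 : Function.Surjective (fderiv ℝ G q) := fun v => by
      obtain ⟨δ, hδ⟩ := hs q.1 q.2 hq.1 hq.2.1 v
      exact ⟨(0, δ), by rw [← hδ, top_gp_inr hU hG (x := q.1) (p := q.2) hq.1]⟩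
    obtain ⟨O, h, hO, hh, hx⟩ := top_zero_param hU hG hq.1 h1 (e := Module.finrank ℝ P) (by
      rw [Module.finrank_prod]; omega)
    refine ⟨_, inter_mem_nhdsWithin _ hx, ?_⟩
    refine (Thin.sard hO (contDiff_snd.comp_contDiffOn hh) finrank_euclideanSpace_fin).mono ?_
    rintro _ ⟨x, ⟨⟨hxU, hx0, hxn⟩, hx2⟩, rfl⟩
    obtain ⟨k, hk, hkx, hw⟩ := hx2 (hx0.trans hq.2.1.symm)
    refine ⟨k, ⟨hk, fun hi => hxn ?_⟩, by simp [hkx]⟩
    refine (injective_iff_map_eq_zero _).2 fun v hv => ?_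
    rw [top_gp_inl hU hG (x := x.1) (p := x.2) hxU] at hv
    obtain ⟨u, hu⟩ := hw _ hv
    have h2 := ((hh.contDiffAt (hO.mem_nhds hk)).differentiableAt one_ne_zero).hasFDerivAt
    have h3 : fderiv ℝ (Prod.snd ∘ h) k = _ := (hasFDerivAt_snd.comp k h2).fderiv
    have h4 : u = 0 := (injective_iff_map_eq_zero _).1 hi u (by rw [h3]; simp [hu])
    have h5 : ((v, 0) : X × P) = 0 := by rw [← hu, h4, map_zero]
    exact congrArg Prod.fst h5
  refine key.mono ?_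
  rintro p ⟨x, h1, h2, h3⟩
  exact ⟨(x, p), ⟨h1, h2, h3⟩, rfl⟩

end Pool.Agent.Lib.MP_ccffa6_gt
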