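import Pool.Agent.Lib.MP_ccffa6_gt.P.SB1
import Pool.Agent.Lib.MP_ccffa6_gt.K.Ext

open Set Filter Topology Metric
open scoped ContDiff RealInnerProductSpace

noncomputable section

namespace Pool.Agent.Lib.MP_ccffa6_gt

variable {E : Type} [NormedAddCommGroup E] [NormedSpace ℝ E] [FiniteDimensional ℝ E]
  {E' : Type} [NormedAddCommGroup E'] [NormedSpace ℝ E'] [FiniteDimensional ℝ E']
  {F : Type} [NormedAddCommGroup F] [NormedSpace ℝ F] [FiniteDimensional ℝ F]
  {A : Type} [NormedAddCommGroup A] [NormedSpace ℝ A] [FiniteDimensional ℝ A]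

omit [FiniteDimensional ℝ F] in
theorem top_ball_inj {Q : Submodule ℝ F} {p p' : F →L[ℝ] F} (hp : ∀ v ∈ Q, p v = v)
    (hd : ‖p - p'‖ < 1) {u : F} (hu : u ∈ Q) (h0 : p' u = 0) : u = 0 := by
  by_contra hne
  have h1 : 0 < ‖u‖ := norm_pos_iff.2 hne
  have h2 : ‖(p - p') u‖ ≤ ‖p - p'‖ * ‖u‖ := (p - p').le_opNorm u
  rw [sub_apply, hp u hu, h0, sub_zero] at h2
  nlinarith

/-- Close projectors map their ranges bijectively onto each other. -/
theorem top_ball_bij {Q Q' : Submodule ℝ F} {p p' : F →L[ℝ] F} (hq : ∀ v, p v ∈ Q)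
    (hp : ∀ v ∈ Q, p v = v) (hq' : ∀ v, p' v ∈ Q') (hp' : ∀ v ∈ Q', p' v = v)
    (hd : ‖p - p'‖ < 1) : BijOn p' Q Q' := by
  have hd' : ‖p' - p‖ < 1 := by rwa [norm_sub_rev]
  let f : Q →ₗ[ℝ] Q' := (p' : F →ₗ[ℝ] F).restrict fun v _ => hq' v
  let g : Q' →ₗ[ℝ] Q := (p : F →ₗ[ℝ] F).restrict fun v _ => hq v
  have hf : Function.Injective f := (injective_iff_map_eq_zero f).2 fun u hu =>
    Subtype.ext (top_ball_inj hp hd u.2 (congrArg Subtype.val hu))
  have hg : Function.Injective g := (injective_iff_map_eq_zero g).2 fun u hu =>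
    Subtype.ext (top_ball_inj hp' hd' u.2 (congrArg Subtype.val hu))
  have hr : Module.finrank ℝ Q = Module.finrank ℝ Q' :=
    le_antisymm (LinearMap.finrank_le_finrank_of_injective hf)
      (LinearMap.finrank_le_finrank_of_injective hg)
  have hs := (LinearMap.injective_iff_surjective_of_finrank_eq_finrank hr).1 hf
  refine ⟨fun v _ => hq' v, fun u hu v hv h => ?_, fun y hy => ?_⟩
  · exact sub_eq_zero.1 (top_ball_inj hp hd (Q.sub_mem hu hv) (by rw [map_sub, h, sub_self]))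
  · obtain ⟨u, hu⟩ := hs ⟨y, hy⟩
    exact ⟨u.1, u.2, congrArg Subtype.val hu⟩

/-- A continuous family of subspaces over a closed ball is trivial. -/
theorem top_ball {Q : A → Submodule ℝ F} (h : P.CS (closedBall (0 : A) 1) Q) {N : ℕ}
    (hN : Module.finrank ℝ (Q 0) = N) :
    ∃ Θ : A → Rd N →L[ℝ] F, ContinuousOn Θ (closedBall 0 1) ∧
      ∀ w ∈ closedBall (0 : A) 1, BijOn (Θ w) univ (Q w) := by
  obtain ⟨p, hp, hQ⟩ := h
  have hu := (isCompact_closedBall (0 : A) 1).uniformContinuousOn_of_continuous hp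
  obtain ⟨δ, hδ, hδ'⟩ := Metric.uniformContinuousOn_iff.1 hu 1 one_pos
  obtain ⟨n, hn⟩ := exists_nat_one_div_lt hδ
  have hm : (0 : ℝ) < (n : ℝ) + 1 := by positivity
  have hmem : ∀ k : ℕ, k ≤ n + 1 → ∀ w ∈ closedBall (0 : A) 1,
      ((k : ℝ) / ((n : ℝ) + 1)) • w ∈ closedBall (0 : A) 1 := by
    intro k hk w hw
    rw [mem_closedBall_zero_iff] at hw ⊢
    have h1 : (k : ℝ) / ((n : ℝ) + 1) ≤ 1 := by
      rw [div_le_one hm]
      exact_mod_cast hk
    have h2 : 0 ≤ (k : ℝ) / ((n : ℝ) + 1) := by positivity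
    rw [norm_smul, Real.norm_of_nonneg h2]
    exact mul_le_one₀ h1 (norm_nonneg _) hw
  have key : ∀ k : ℕ, k ≤ n + 1 → ∃ Θ : A → Rd N →L[ℝ] F, ContinuousOn Θ (closedBall 0 1) ∧
      ∀ w ∈ closedBall (0 : A) 1, BijOn (Θ w) univ (Q (((k : ℝ) / ((n : ℝ) + 1)) • w)) := by
    intro k
    induction k with
    | zero =>
      intro _
      let e : Rd N ≃L[ℝ] Q 0 := ContinuousLinearEquiv.ofFinrankEq (by simp [hN])
      refine ⟨fun _ => (Q 0).subtypeL.comp (e : Rd N →L[ℝ] Q 0), continuousOn_const,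
        fun w _ => ?_⟩
      simp only [Nat.cast_zero, zero_div, zero_smul]
      refine ⟨fun v _ => (e v).2, fun u _ v _ h => e.injective (Subtype.ext h), fun y hy => ?_⟩
      exact ⟨e.symm ⟨y, hy⟩, mem_univ _, by simp⟩
    | succ k ih =>
      intro hk
      obtain ⟨Θ, hΘ, hb⟩ := ih (by omega)
      refine ⟨fun w => (p ((((k + 1 : ℕ) : ℝ) / ((n : ℝ) + 1)) • w)).comp (Θ w), ?_,
        fun w hw => ?_⟩
      · exact (hp.comp (continuous_const_smul _).continuousOn (hmem _ hk)).clm_comp hΘ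
      · have h1 := hmem k (by omega) w hw
        have h2 := hmem _ hk w hw
        have h3 : dist (((k : ℝ) / ((n : ℝ) + 1)) • w)
            ((((k + 1 : ℕ) : ℝ) / ((n : ℝ) + 1)) • w) < δ := by
          rw [dist_comm, dist_eq_norm, ← sub_smul, norm_smul]
          have h4 : ((k + 1 : ℕ) : ℝ) / ((n : ℝ) + 1) - (k : ℝ) / ((n : ℝ) + 1) =
              1 / ((n : ℝ) + 1) := by
            push_cast
            ring
          rw [h4, Real.norm_of_nonneg (by positivity)]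
          exact (mul_le_of_le_one_right (by positivity) (mem_closedBall_zero_iff.1 hw)).trans_lt hn
        have h5 := hδ' _ h1 _ h2 h3
        rw [dist_eq_norm] at h5
        exact (top_ball_bij (hQ _ h1).1 (hQ _ h1).2 (hQ _ h2).1 (hQ _ h2).2 h5).comp (hb w hw)
  obtain ⟨Θ, hΘ, hb⟩ := key (n + 1) le_rfl
  refine ⟨Θ, hΘ, fun w hw => ?_⟩
  have h6 := hb w hw
  rwa [Nat.cast_add_one, div_self hm.ne', one_smul] at h6

/-- A continuous left inverse. -/
theorem top_linv {X : Set A} (hX : IsCompact X) {b : A → E →L[ℝ] F} (hb : ContinuousOn b X)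
    (hi : ∀ x ∈ X, Function.Injective (b x)) :
    ∃ l : A → F →L[ℝ] E, ContinuousOn l X ∧ ∀ x ∈ X, ∀ v, l x (b x v) = v := by
  let L : A → (F →L[ℝ] E) →L[ℝ] (E →L[ℝ] E) := fun x =>
    (ContinuousLinearMap.compL ℝ E F E).flip (b x)
  have hL : ContinuousOn L X :=
    (ContinuousLinearMap.compL ℝ E F E).flip.continuous.comp_continuousOn hb
  obtain ⟨S, hS, hS'⟩ := (P.cs_top (E := F →L[ℝ] E) X).rinv hL fun x hx y => by
    obtain ⟨l, hl⟩ := (b x : E →ₗ[ℝ] F).exists_leftInverse_of_injective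
      (LinearMap.ker_eq_bot.2 (hi x hx))
    refine ⟨y.comp (LinearMap.toContinuousLinearMap l), Submodule.mem_top, ?_⟩
    ext v
    have h1 : l (b x v) = v := LinearMap.congr_fun hl v
    simp [L, h1]
  refine ⟨fun x => S x (ContinuousLinearMap.id ℝ E), hS.clm_apply continuousOn_const,
    fun x hx v => ?_⟩
  have h2 := DFunLike.congr_fun (hS' x hx (ContinuousLinearMap.id ℝ E)).2 v
  simpa [L] using h2

/-- Injectivity is uniformly stable on a compact family. -/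
theorem top_inj_stable {X : Set A} (hX : IsCompact X) {b : A → E →L[ℝ] F} (hb : ContinuousOn b X)
    (hi : ∀ x ∈ X, Function.Injective (b x)) :
    ∃ ε, 0 < ε ∧ ∀ x ∈ X, ∀ c : E →L[ℝ] F, ‖c - b x‖ < ε → Function.Injective c := by
  obtain ⟨l, hl, hl'⟩ := top_linv hX hb hi
  obtain ⟨C, hC⟩ := hX.exists_bound_of_continuousOn hl
  have hp : 0 < |C| + 1 := by positivity
  refine ⟨(|C| + 1)⁻¹, inv_pos.2 hp, fun x hx c hc => ?_⟩
  refine (injective_iff_map_eq_zero c).2 fun v hv => ?_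
  by_contra hne
  have h1 : 0 < ‖v‖ := norm_pos_iff.2 hne
  have h2 : ‖b x v‖ ≤ ‖c - b x‖ * ‖v‖ := by
    have := (c - b x).le_opNorm v
    rwa [sub_apply, hv, zero_sub, norm_neg] at this
  have h3 : ‖v‖ ≤ ‖l x‖ * ‖b x v‖ := by
    have := (l x).le_opNorm (b x v)
    rwa [hl' x hx] at this
  have h4 : ‖l x‖ ≤ |C| + 1 := ((hC x hx).trans (le_abs_self C)).trans (by linarith)
  have h5 : ‖b x v‖ < (|C| + 1)⁻¹ * ‖v‖ := h2.trans_lt (mul_lt_mul_of_pos_right hc h1)
  have h6 : ‖l x‖ * ‖b x v‖ ≤ (|C| + 1) * ‖b x v‖ :=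
    mul_le_mul_of_nonneg_right h4 (norm_nonneg _)
  have h7 := mul_lt_mul_of_pos_left h5 hp
  rw [← mul_assoc, mul_inv_cancel₀ hp.ne', one_mul] at h7
  linarith

/-- radial extension `‖w‖ • s (w / ‖w‖)` -/
theorem top_radial {s : A → F} (hs : ContinuousOn s (sphere 0 1)) {ε : ℝ}
    (hb : ∀ σ ∈ sphere (0 : A) 1, ‖s σ‖ < ε) (hε : 0 < ε) :
    ∃ t : A → F, ContinuousOn t (closedBall 0 1) ∧ EqOn t s (sphere 0 1) ∧
      ∀ w ∈ closedBall (0 : A) 1, ‖t w‖ < ε := by
  have hm : ∀ w : A, w ≠ 0 → ‖w‖⁻¹ • w ∈ sphere (0 : A) 1 := fun w hw => by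
    rw [mem_sphere_zero_iff_norm, norm_smul, norm_inv, norm_norm,
      inv_mul_cancel₀ (norm_ne_zero_iff.2 hw)]
  have hle : ∀ w : A, ‖‖w‖ • s (‖w‖⁻¹ • w)‖ ≤ ‖w‖ * ε := fun w => by
    rw [norm_smul, norm_norm]
    by_cases hw : w = 0
    · simp [hw]
    · exact mul_le_mul_of_nonneg_left (hb _ (hm w hw)).le (norm_nonneg _)
  refine ⟨fun w => ‖w‖ • s (‖w‖⁻¹ • w), fun w _ => ContinuousAt.continuousWithinAt ?_,
    fun w hw => ?_, fun w hw => ?_⟩
  · by_cases hw : w = 0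
    · subst hw
      have h1 : Tendsto (fun w : A => ‖w‖ * ε) (𝓝 0) (𝓝 0) := by
        have : Continuous fun w : A => ‖w‖ * ε := continuous_norm.mul continuous_const
        simpa using this.tendsto 0
      have h2 := squeeze_zero_norm hle h1
      simpa [ContinuousAt] using h2
    · have h1 : ContinuousOn (fun w : A => s (‖w‖⁻¹ • w)) {0}ᶜ :=
        hs.comp ((continuous_norm.continuousOn.inv₀ fun w hw => norm_ne_zero_iff.2 hw).smul
          continuousOn_id) fun w hw => hm w hw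
      exact continuous_norm.continuousAt.smul
        (h1.continuousAt (isOpen_compl_singleton.mem_nhds hw))
  · simp [mem_sphere_zero_iff_norm.1 hw]
  · by_cases h0 : w = 0
    · simpa [h0] using hε
    · rw [norm_smul, norm_norm]
      exact (mul_le_of_le_one_left (norm_nonneg _) (mem_closedBall_zero_iff.1 hw)).trans_lt
        (hb _ (hm w h0))

end Pool.Agent.Lib.MP_ccffa6_gt
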