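import Pool.Agent.Lib.MP_ccffa6_gt.TOP.Push
import Pool.Agent.Lib.MP_ccffa6_gt.TOP.Sp

open Set Filter Topology Metric
open scoped ContDiff RealInnerProductSpace

noncomputable section

namespace Pool.Agent.Lib.MP_ccffa6_gt

variable {E : Type} [NormedAddCommGroup E] [NormedSpace ℝ E] [FiniteDimensional ℝ E]
  {E' : Type} [NormedAddCommGroup E'] [NormedSpace ℝ E'] [FiniteDimensional ℝ E']
  {F : Type} [NormedAddCommGroup F] [NormedSpace ℝ F] [FiniteDimensional ℝ F]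
  {A : Type} [NormedAddCommGroup A] [NormedSpace ℝ A] [FiniteDimensional ℝ A]

/-- pasting along the zero set of a continuous function -/
theorem top_csph_paste {X Y : Type} [TopologicalSpace X] [TopologicalSpace Y] {S : Set X}
    (hS : IsClosed S) {g : X → ℝ} (hg : Continuous g) {u v : X → Y} {t : ℝ}
    (hu : ContinuousOn u (S ∩ {x | g x ≤ t})) (hv : ContinuousOn v (S ∩ {x | t ≤ g x}))
    (e : ∀ x ∈ S, g x = t → u x = v x) :
    ContinuousOn (fun x => if g x ≤ t then u x else v x) S := by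
  have h := ContinuousOn.union_of_isClosed (f := fun x => if g x ≤ t then u x else v x)
    (hu.congr fun x hx => if_pos hx.2) (hv.congr fun x hx => ?_)
    (hS.inter (isClosed_le hg continuous_const)) (hS.inter (isClosed_le continuous_const hg))
  · exact h.mono fun x hx => (le_total (g x) t).imp (fun h => ⟨hx, h⟩) fun h => ⟨hx, h⟩
  · by_cases h : g x ≤ t
    · exact (if_pos h).trans (e x hx.1 (le_antisymm h hx.2))
    · exact if_neg h

omit [FiniteDimensional ℝ E] in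
theorem top_csph_cpt {d : ℕ} {W : Set E} {f : E → ℝ} {a b c : ℝ} {ν : E → E}
    (hS : Slab d W f a b ν) (h : a ≤ c) : IsCompact (W ∩ f ⁻¹' Icc c b) := by
  have e : W ∩ f ⁻¹' Icc c b = (W ∩ f ⁻¹' Icc a b) ∩ f ⁻¹' Ici c :=
    Set.ext fun x => ⟨fun h' => ⟨⟨h'.1, h.trans h'.2.1, h'.2.2⟩, h'.2.1⟩,
      fun h' => ⟨h'.1.1, h'.2, h'.1.2.2⟩⟩
  exact e ▸ hS.cpt.inter_right (isClosed_Ici.preimage hS.sm.continuous)

/-- the ascending disc, pushed up to the top level -/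
theorem top_csph_disc {d j m : ℕ} {W O : Set E} {f : E → ℝ} {a b c : ℝ} {ν : E → E}
    (hS : Slab d W f a b ν) {φ : Rd m × Rd j → E} {ψ : E → Rd m × Rd j} {R : ℝ}
    (h : CBall W φ ψ R O)
    (hq : ∀ z ∈ ball (0 : Rd m × Rd j) R, f (φ z) = c - ‖z.1‖ ^ 2 + ‖z.2‖ ^ 2) (hac : a < c)
    (hb : c + R ^ 2 < b)
    (hM : ∀ q ∈ W ∩ f ⁻¹' Icc a b, c < f q → Crit W f q → ∃ i k, j < k ∧ MChart W f q i k)
    {l : ℝ → ℝ} (cl : Continuous l) (l0 : ∀ s, 0 < l s) (l1 : ∀ s, l s < R) :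
    ∃ D : Rd j → E, ContinuousOn D (closedBall 0 1) ∧
      MapsTo D (closedBall 0 1) (W ∩ f ⁻¹' Icc c b) ∧
      (∀ w, ‖w‖ ≤ 1 / 2 → D w = φ (0, l ‖w‖ • w) ∧ f (D w) ≤ c + R ^ 2) ∧
      (∀ w, ‖w‖ ≤ 1 → w ≠ 0 → c < f (D w)) ∧ ∀ w, ‖w‖ = 1 → f (D w) = b := by
  have hR := h.pos
  let D₀ : Rd j → E := fun w => φ (0, l ‖w‖ • w)
  have c0 : Continuous D₀ := h.smφ.continuous.comp
    (continuous_const.prodMk ((cl.comp continuous_norm).smul continuous_id))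
  have h0 : ∀ w : Rd j, ‖w‖ ≤ 1 → D₀ w ∈ W ∧ f (D₀ w) = c + (l ‖w‖ * ‖w‖) ^ 2 ∧
      (l ‖w‖ * ‖w‖) ^ 2 ≤ R ^ 2 := fun w hw => by
    have e : ‖l ‖w‖ • w‖ = l ‖w‖ * ‖w‖ := by rw [norm_smul, Real.norm_of_nonneg (l0 _).le]
    have hlt : l ‖w‖ * ‖w‖ < R := (mul_le_of_le_one_right (l0 _).le hw).trans_lt (l1 _)
    have hm : ((0, l ‖w‖ • w) : Rd m × Rd j) ∈ ball 0 R := by
      rw [mem_ball_zero_iff, Prod.norm_mk, norm_zero, e]
      exact max_lt hR hlt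
    refine ⟨(h.fw _ hm).1.1, ?_, pow_le_pow_left₀ (e ▸ norm_nonneg _) hlt.le 2⟩
    simp only [D₀, hq _ hm, e, norm_zero]
    ring
  have hn : ∀ v : Rd j, ‖v‖ = 1 → ‖(1 / 2 : ℝ) • v‖ = 1 / 2 := fun v hv => by
    rw [norm_smul, hv]
    norm_num
  obtain ⟨k, hk⟩ : ∃ k, k = (l (1 / 2) * (1 / 2)) ^ 2 := ⟨_, rfl⟩
  have k0 : 0 < k := hk ▸ pow_pos (mul_pos (l0 _) one_half_pos) 2
  have k1 : k ≤ R ^ 2 := hk ▸ pow_le_pow_left₀ (mul_pos (l0 _) one_half_pos).le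
    (by linarith [l0 (1 / 2), l1 (1 / 2)]) 2
  obtain ⟨v, ⟨H, cH, mH, eH⟩, hv⟩ := top_push (u := fun v : Rd j => D₀ ((1 / 2 : ℝ) • v)) hS.sub
    (isCompact_sphere 0 1) hS.sm (a := c + k / 2) (c := c + k) (b := b) (by linarith) (by linarith)
    (top_csph_cpt hS (by linarith)) (fun x hx e => hS.not_crit hx (Or.inr e))
    (fun q hq' hc => by
      have := hq'.2.1
      simpa using hM q ⟨hq'.1, by linarith, hq'.2.2⟩ (by linarith) hc)
    (c0.comp (continuous_const_smul _)).continuousOn (fun v hv => by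
      have e := hn v (mem_sphere_zero_iff_norm.1 hv)
      obtain ⟨h1, h2, -⟩ := h0 ((1 / 2 : ℝ) • v) (by rw [e]; norm_num)
      rw [e, ← hk] at h2
      exact ⟨h1, h2.ge, by linarith⟩)
  have hm : ∀ w : Rd j, ‖w‖ ≤ 1 → 1 / 2 ≤ ‖w‖ →
      (2 * ‖w‖ - 1, ‖w‖⁻¹ • w) ∈ Icc (0 : ℝ) 1 ×ˢ sphere (0 : Rd j) 1 := fun w h1 h2 =>
    ⟨⟨by linarith, by linarith⟩, mem_sphere_zero_iff_norm.2
      (norm_smul_inv_norm (norm_pos_iff.1 (by linarith)))⟩
  refine ⟨fun w => if ‖w‖ ≤ 1 / 2 then D₀ w else H (2 * ‖w‖ - 1, ‖w‖⁻¹ • w),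
    top_csph_paste isClosed_closedBall continuous_norm c0.continuousOn (cH.comp ?_ fun w hw =>
      hm w (mem_closedBall_zero_iff.1 hw.1) hw.2) fun w hw e => ?_, fun w hw => ?_,
    fun w hw => ?_, fun w hw h1 => ?_, fun w hw => ?_⟩
  · refine ContinuousOn.prodMk (by fun_prop) ((continuous_norm.continuousOn.inv₀
      fun w hw => ?_).smul continuousOn_id)
    exact (one_half_pos.trans_le hw.2).ne'
  · have : H (0, ‖w‖⁻¹ • w) = D₀ ((1 / 2 : ℝ) • ‖w‖⁻¹ • w) :=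
      (eH _ (hm w (mem_closedBall_zero_iff.1 hw) e.ge).2).1
    rw [e] at this ⊢
    rw [show (2 : ℝ) * (1 / 2) - 1 = 0 by norm_num, this, smul_smul]
    norm_num
  · rw [mem_closedBall_zero_iff] at hw
    beta_reduce
    split_ifs with h1
    · obtain ⟨h2, h3, h4⟩ := h0 w hw
      exact ⟨h2, h3 ▸ le_add_of_nonneg_right (sq_nonneg _), by linarith⟩
    · have := mH (hm w hw (not_le.1 h1).le)
      exact ⟨this.1, le_trans (by linarith) this.2.1, this.2.2⟩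
  · obtain ⟨-, h3, h4⟩ := h0 w (by linarith)
    simp only [if_pos hw]
    exact ⟨rfl, by linarith⟩
  · beta_reduce
    split_ifs with h2
    · rw [(h0 w hw).2.1]
      exact lt_add_of_pos_right _ (pow_pos (mul_pos (l0 _) (norm_pos_iff.2 h1)) 2)
    · exact lt_of_lt_of_le (by linarith) (mH (hm w hw (not_le.1 h2).le)).2.1
  · have h1 : w ∈ sphere (0 : Rd j) 1 := mem_sphere_zero_iff_norm.2 hw
    simp only [hw, if_neg (show ¬ (1 : ℝ) ≤ 1 / 2 by norm_num), inv_one, one_smul]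
    rw [show (2 : ℝ) * 1 - 1 = 1 by norm_num, (eH w h1).2, hv w h1]

/-- The continuous sphere through a critical point. -/
theorem top_sph {d j m : ℕ} {W O : Set E} {f : E → ℝ} {a b c : ℝ} {ν : E → E}
    (hS : Slab d W f a b ν) {M : Set E'} {φM : E → E'} {ψM : E' → E}
    (hd : Diff (Lev W f b) M φM ψM) {r : E → E'} (cr : ContinuousOn r (W ∩ f ⁻¹' Icc a b))
    (mr : MapsTo r (W ∩ f ⁻¹' Icc a b) M) (er : EqOn r φM (Lev W f b))
    {φ : Rd m × Rd j → E} {ψ : E → Rd m × Rd j} {R : ℝ} (h : CBall W φ ψ R O)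
    (hq : ∀ z ∈ ball (0 : Rd m × Rd j) R, f (φ z) = c - ‖z.1‖ ^ 2 + ‖z.2‖ ^ 2) (hac : a < c)
    (hb : c + R ^ 2 < b)
    (hM : ∀ q ∈ W ∩ f ⁻¹' Icc a b, c < f q → Crit W f q → ∃ i k, j < k ∧ MChart W f q i k)
    {e : Rd (j + 1)} {π : Rd (j + 1) →L[ℝ] Rd j} {z : Rd (j + 1) → Rd j} (hP : Pole e π z) :
    ∃ (u : Rd (j + 1) → E) (δ γ : ℝ), 0 < δ ∧ δ ≤ 1 ∧ 0 < γ ∧ ContinuousOn u (sphere 0 1) ∧
      MapsTo u (sphere 0 1) (W ∩ f ⁻¹' Icc c (b - γ)) ∧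
      (∀ σ, ‖σ‖ = 1 → ⟪e, σ⟫ < -1 + δ → u σ = φ (0, (R / 2) • z σ)) ∧
      (∀ σ, ‖σ‖ = 1 → σ ≠ -e → c < f (u σ)) ∧ Nul M (r ∘ u) := by
  have hR := h.pos
  have hl : ∀ s : ℝ, 1 ≤ √(1 + √(1 - s ^ 2)) := fun s =>
    Real.one_le_sqrt.2 (le_add_of_nonneg_right (Real.sqrt_nonneg _))
  obtain ⟨D, cD, mD, eD, pD, tD⟩ := top_csph_disc hS h hq hac hb hM
    (l := fun s => R / 2 * (√(1 + √(1 - s ^ 2)))⁻¹)
    (continuous_const.mul (Continuous.inv₀ (by fun_prop) fun s => (one_pos.trans_le (hl s)).ne'))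
    (fun s => mul_pos (half_pos hR) (inv_pos.2 (one_pos.trans_le (hl s))))
    (fun s => (mul_le_of_le_one_right (half_pos hR).le (inv_le_one_of_one_le₀ (hl s))).trans_lt
      (half_lt_self hR))
  have sub : W ∩ f ⁻¹' Icc c b ⊆ W ∩ f ⁻¹' Icc a b := fun x hx =>
    ⟨hx.1, hac.le.trans hx.2.1, hx.2.2⟩
  have mπ : MapsTo π (closedBall 0 1) (closedBall 0 1) := fun w hw =>
    mem_closedBall_zero_iff.2 ((hP.norm_le w).trans (mem_closedBall_zero_iff.1 hw))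
  have c1 : ContinuousOn (fun w => D (π w)) (closedBall 0 1) :=
    cD.comp π.continuous.continuousOn mπ
  have m1 : MapsTo (fun w => D (π w)) (closedBall 0 1) (W ∩ f ⁻¹' Icc c b) := mD.comp mπ
  have c2 : ContinuousOn (fun w => r (D (π w))) (closedBall 0 1) := cr.comp c1 (m1.mono_right sub)
  have m2 : MapsTo (fun w => r (D (π w))) (closedBall 0 1) M := mr.comp (m1.mono_right sub)
  have sb : sphere (0 : Rd (j + 1)) 1 ⊆ closedBall 0 1 := sphere_subset_closedBall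
  have hcb : c < b := by nlinarith
  let u : Rd (j + 1) → E := fun σ => if ⟪e, σ⟫ ≤ 0 then D (π σ) else ψM (r (D (π σ)))
  have cu : ContinuousOn u (sphere 0 1) := by
    refine top_csph_paste isClosed_sphere (g := fun σ => ⟪e, σ⟫) (by fun_prop)
      (c1.mono (inter_subset_left.trans sb))
      (hd.smψ.continuous.comp_continuousOn (c2.mono (inter_subset_left.trans sb))) fun σ hσ h0 => ?_
    have h1 := hP.sq σ
    rw [mem_sphere_zero_iff_norm.1 hσ, h0] at h1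
    have h2 : D (π σ) ∈ Lev W f b := ⟨(m1 (sb hσ)).1, tD _
      ((sq_eq_sq₀ (norm_nonneg _) zero_le_one).1 (by linarith))⟩
    rw [er h2, hd.left _ h2]
  have mu : MapsTo u (sphere 0 1) (W ∩ f ⁻¹' Icc c b) := fun σ hσ => by
    simp only [u]
    split_ifs
    · exact m1 (sb hσ)
    · have h2 := hd.mapψ (m2 (sb hσ))
      exact ⟨h2.1, hcb.le.trans (Eq.ge h2.2), Eq.le h2.2⟩
  have nu : Nul M (r ∘ u) := by
    refine ⟨_, c2, m2, fun σ hσ => ?_⟩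
    simp only [u, Function.comp]
    split_ifs
    · rfl
    · rw [er (hd.mapψ (m2 (sb hσ))), hd.right _ (m2 (sb hσ))]
  have hR2 : c < c + R ^ 2 := lt_add_of_pos_right _ (pow_pos hR 2)
  obtain ⟨b', hb1, hb2, hr⟩ := top_reg_below hS.sub hS.sm hb (top_csph_cpt hS (by linarith))
    fun x hx e => hS.not_crit hx (Or.inr e)
  obtain ⟨v, hv, fv⟩ := top_push_down hS.sub hS.sm (a := c) (by linarith) hb2.le
    (top_csph_cpt hS (by linarith)) hr cu mu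
  refine ⟨v, 1 / 10, b - b', by norm_num, by norm_num, sub_pos.2 hb2, hv.right.1, fun σ hσ => ?_,
    fun σ hσ h1 => ?_, fun σ hσ h1 => ?_, nu.hIn (hv.comp (cr.mono sub) (mr.mono_left sub))⟩
  · refine ⟨(hv.right.2 hσ).1, (hv.right.2 hσ).2.1, ?_⟩
    rw [(fv σ hσ).1, sub_sub_cancel]
    exact min_le_right _ _
  · have h0 : ⟪e, σ⟫ ≤ 0 := by linarith
    have h2 := hP.sq σ
    rw [hσ] at h2
    obtain ⟨h3, h4⟩ := eD (π σ) (abs_le_of_sq_le_sq' (by nlinarith) (by norm_num)).2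
    have h5 : u σ = D (π σ) := if_pos h0
    rw [(fv σ (mem_sphere_zero_iff_norm.2 hσ)).2 (by rw [h5]; linarith), h5, h3, hP.eq σ h0,
      smul_smul, show 1 - ‖π σ‖ ^ 2 = (-⟪e, σ⟫) ^ 2 by linarith, Real.sqrt_sq (neg_nonneg.2 h0),
      ← sub_eq_add_neg]
  · have hσ' := mem_sphere_zero_iff_norm.2 hσ
    rw [(fv σ hσ').1]
    refine lt_min ?_ (by linarith)
    simp only [u]
    split_ifs with h0
    · refine pD _ ((hP.norm_le σ).trans hσ.le) fun h2 => h1 ?_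
      have h3 := hP.sq σ
      rw [hσ, h2, norm_zero] at h3
      exact (top_pole_height hP.he hσ).2.2.1 (by nlinarith)
    · exact hcb.trans_eq (Eq.symm (hd.mapψ (m2 (sb hσ'))).2)

end Pool.Agent.Lib.MP_ccffa6_gt
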