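import Pool.Agent.Lib.MP_ccffa6_gt.TOP.TDef2
import Pool.Agent.Lib.MP_ccffa6_gt.TOP.MChC
import Pool.Agent.Lib.MP_ccffa6_gt.K.Proj

open Set Filter Topology Metric
open scoped ContDiff RealInnerProductSpace

noncomputable section

namespace Pool.Agent.Lib.MP_ccffa6_gt

variable {E : Type} [NormedAddCommGroup E] [NormedSpace ℝ E] [FiniteDimensional ℝ E]
  {E' : Type} [NormedAddCommGroup E'] [NormedSpace ℝ E'] [FiniteDimensional ℝ E']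
  {F : Type} [NormedAddCommGroup F] [NormedSpace ℝ F] [FiniteDimensional ℝ F]
  {A : Type} [NormedAddCommGroup A] [NormedSpace ℝ A] [FiniteDimensional ℝ A]

theorem Chart.cball {W : Set E} {x : E} {φ : F → E} {ψ : E → F} (h : Chart W x φ ψ) (hx : x ∈ W)
    (h0 : ψ x = 0) {P : F → Prop} (hP : ∀ᶠ z in 𝓝 (0 : F), P z) {U : Set E} (hU : U ∈ 𝓝 x)
    {ρ : ℝ} (hρ : 0 < ρ) :
    ∃ R O, CBall W φ ψ R O ∧ R ≤ ρ ∧ O ⊆ U ∧ φ 0 = x ∧ ∀ z ∈ ball (0 : F) R, P z := by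
  obtain ⟨V, hV, oV, xV⟩ :=
    _root_.mem_nhds_iff.1 (inter_mem hU (eventually_nhdsWithin_iff.1 h.left))
  have e : φ 0 = x := h0 ▸ h.self hx
  have h1 := (h.smφ.continuous.tendsto' _ _ e).eventually (oV.mem_nhds xV)
  obtain ⟨R, hR, h2⟩ := Metric.eventually_nhds_iff_ball.1 ((h0 ▸ h.right).and (h1.and hP))
  have h3 := fun z (hz : z ∈ ball (0 : F) (min R ρ)) => h2 z (ball_subset_ball (min_le_left _ _) hz)
  refine ⟨min R ρ, V ∩ ψ ⁻¹' ball 0 (min R ρ), ⟨lt_min hR hρ, h.smφ, h.smψ,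
    oV.inter (isOpen_ball.preimage h.smψ.continuous), fun z hz => ?_,
    fun y hy => ⟨hy.2.2, (hV hy.2.1).2 hy.1⟩⟩, min_le_right _ _, fun y hy => (hV hy.1).1, e,
    fun z hz => (h3 z hz).2.2⟩
  obtain ⟨⟨h4, h5⟩, h6, -⟩ := h3 z hz
  exact ⟨⟨h4, h6, by rwa [mem_preimage, h5]⟩, h5⟩

theorem CBall.chart {W O : Set E} {φ : F → E} {ψ : E → F} {R : ℝ} (h : CBall W φ ψ R O) {z : F}
    (hz : z ∈ ball (0 : F) R) : Chart W (φ z) φ ψ := by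
  refine ⟨h.smφ, h.smψ, ?_, ?_⟩
  · filter_upwards [self_mem_nhdsWithin,
      mem_nhdsWithin_of_mem_nhds (h.op.mem_nhds (h.fw z hz).1.2)] with y h1 h2
    exact (h.bw y ⟨h1, h2⟩).2
  · rw [(h.fw z hz).2]
    filter_upwards [isOpen_ball.mem_nhds hz] with w hw using ⟨(h.fw w hw).1.1, (h.fw w hw).2⟩

theorem CBall.shrink {W O : Set E} {φ : F → E} {ψ : E → F} {R : ℝ} (h : CBall W φ ψ R O) {r : ℝ}
    (h0 : 0 < r) (hr : r ≤ R) : CBall W φ ψ r (O ∩ ψ ⁻¹' ball 0 r) := by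
  refine ⟨h0, h.smφ, h.smψ, h.op.inter (isOpen_ball.preimage h.smψ.continuous), fun z hz => ?_,
    fun y hy => ⟨hy.2.2, (h.bw y ⟨hy.1, hy.2.1⟩).2⟩⟩
  obtain ⟨h1, h2⟩ := h.fw z (ball_subset_ball hr hz)
  exact ⟨⟨h1.1, h1.2, by rwa [mem_preimage, h2]⟩, h2⟩

theorem CBall.inj {W O : Set E} {φ : F → E} {ψ : E → F} {R : ℝ} (h : CBall W φ ψ R O) {z : F}
    (hz : z ∈ ball (0 : F) R) : Function.Injective (fderiv ℝ φ z) := by
  have h1 := (h.chart hz).left_inv_fderiv (h.fw z hz).1.1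
  rw [(h.fw z hz).2] at h1
  exact Function.LeftInverse.injective h1

theorem CBall.mem_tan {W O : Set E} {φ : F → E} {ψ : E → F} {R : ℝ} (h : CBall W φ ψ R O) {z : F}
    (hz : z ∈ ball (0 : F) R) (v : E) : v ∈ Tan W (φ z) ↔ ∃ w, fderiv ℝ φ z w = v := by
  rw [(h.chart hz).mem_tan (h.fw z hz).1.1, (h.fw z hz).2]

theorem CBall.crit_iff {W O : Set E} {φ : F → E} {ψ : E → F} {R : ℝ} (h : CBall W φ ψ R O)
    {f : E → ℝ} (hf : ContDiff ℝ ∞ f) {z : F} (hz : z ∈ ball (0 : F) R) :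
    Crit W f (φ z) ↔ fderiv ℝ (fun z => f (φ z)) z = 0 := by
  rw [(h.chart hz).crit_iff (h.fw z hz).1.1 (hf.differentiable (by simp) _), (h.fw z hz).2]
  rfl

/-- In a Morse chart only the centre is critical. -/
theorem CBall.crit_morse {i k : ℕ} {W O : Set E} {φ : Rd i × Rd k → E} {ψ : E → Rd i × Rd k}
    {R : ℝ} (h : CBall W φ ψ R O) {f : E → ℝ} (hf : ContDiff ℝ ∞ f) {s : ℝ}
    (hq : ∀ z ∈ ball (0 : Rd i × Rd k) R, f (φ z) = s - ‖z.1‖ ^ 2 + ‖z.2‖ ^ 2)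
    {z : Rd i × Rd k} (hz : z ∈ ball (0 : Rd i × Rd k) R) : Crit W f (φ z) ↔ z = 0 := by
  rw [h.crit_iff hf hz, EventuallyEq.fderiv_eq (eventually_of_mem (isOpen_ball.mem_nhds hz) hq),
    top_mchb_q]

theorem MChart.cball {W : Set E} {f : E → ℝ} {x : E} {i k : ℕ} (h : MChart W f x i k) (hx : x ∈ W)
    {U : Set E} (hU : U ∈ 𝓝 x) {ρ : ℝ} (hρ : 0 < ρ) :
    ∃ (φ : Rd i × Rd k → E) (ψ : E → Rd i × Rd k) (R : ℝ) (O : Set E), CBall W φ ψ R O ∧ R ≤ ρ ∧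
      O ⊆ U ∧ φ 0 = x ∧ ∀ z ∈ ball (0 : Rd i × Rd k) R, f (φ z) = f x - ‖z.1‖ ^ 2 + ‖z.2‖ ^ 2 := by
  obtain ⟨φ, ψ, hc, h0, he⟩ := h
  exact ⟨φ, ψ, hc.cball hx h0 he hU hρ⟩

/-- regular points form an open subset of `W` -/
theorem IsSub.eventually_not_crit {d : ℕ} {W : Set E} (hW : IsSub d W) {f : E → ℝ}
    (hf : ContDiff ℝ ∞ f) {x : E} (hx : x ∈ W) (h : ¬ Crit W f x) :
    ∀ᶠ y in 𝓝[W] x, ¬ Crit W f y := by
  have h1 := top_ncrit_open hW (G := fun q : E × ℝ => f q.1) (hf.comp contDiff_fst) (p := 0) hx h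
  rw [nhdsWithin_prod_eq, nhdsWithin_univ] at h1
  filter_upwards [h1.curry] with y hy using hy.self_of_nhds

theorem IsSub.isCompact_crit {d : ℕ} {W C : Set E} (hW : IsSub d W) {f : E → ℝ}
    (hf : ContDiff ℝ ∞ f) (hC : IsCompact C) (hCW : C ⊆ W) : IsCompact {x ∈ C | Crit W f x} := by
  refine hC.of_isClosed_subset (isClosed_of_closure_subset fun x hx => ?_) fun _ hx => hx.1
  have h1 : x ∈ C := hC.isClosed.closure_subset (closure_mono (fun _ hy => hy.1) hx)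
  refine ⟨h1, by_contra fun h2 => ?_⟩
  obtain ⟨y, h3, h4⟩ := ((mem_closure_iff_frequently.1 hx).and_eventually
    (eventually_nhdsWithin_iff.1 (hW.eventually_not_crit hf (hCW h1) h2))).exists
  exact h4 (hCW h3.1) h3.2

theorem IsSub.finite_crit {d : ℕ} {W C : Set E} (hW : IsSub d W) {f : E → ℝ}
    (hf : ContDiff ℝ ∞ f) (hC : IsCompact C) (hCW : C ⊆ W)
    (hM : ∀ x ∈ C, Crit W f x → ∃ i k, MChart W f x i k) : {x ∈ C | Crit W f x}.Finite :=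
  top_crit_finite hW hf hC hCW hM

theorem Slab.not_crit {d : ℕ} {W : Set E} {f : E → ℝ} {a b : ℝ} {ν : E → E}
    (h : Slab d W f a b ν) {x : E} (hx : x ∈ W) (hc : f x = a ∨ f x = b) : ¬ Crit W f x :=
  fun h1 => by simpa [h1 _ (h.tν x ⟨hx, hc⟩).1] using (h.tν x ⟨hx, hc⟩).2

/-- no critical point just below a regular level -/
theorem top_reg_below {d : ℕ} {W : Set E} (hW : IsSub d W) {f : E → ℝ} (hf : ContDiff ℝ ∞ f)
    {a b : ℝ} (hab : a < b) (hK : IsCompact (W ∩ f ⁻¹' Icc a b))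
    (hb : ∀ x ∈ W, f x = b → ¬ Crit W f x) :
    ∃ b', a < b' ∧ b' < b ∧ ∀ x ∈ W ∩ f ⁻¹' Icc b' b, ¬ Crit W f x := by
  have h1 := (hW.isCompact_crit hf hK inter_subset_left).image hf.continuous
  have h2 : b ∉ f '' {x ∈ W ∩ f ⁻¹' Icc a b | Crit W f x} := by
    rintro ⟨x, hx, h3⟩
    exact hb x hx.1.1 h3 hx.2
  obtain ⟨b', h3, h4⟩ := mem_nhdsLE_iff_exists_Icc_subset.1 (mem_nhdsWithin_of_mem_nhds
    (inter_mem (Ioi_mem_nhds hab) (h1.isClosed.isOpen_compl.mem_nhds h2)))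
  refine ⟨b', (h4 (left_mem_Icc.2 h3.le)).1, h3, fun x hx h5 => ?_⟩
  exact (h4 hx.2).2 ⟨x, ⟨⟨hx.1, (h4 hx.2).1.le, hx.2.2⟩, h5⟩, rfl⟩

end Pool.Agent.Lib.MP_ccffa6_gt
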