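import Pool.Agent.Lib.MP_ccffa6_gt.TOP.EmbA

open Set Filter Topology Metric
open scoped ContDiff RealInnerProductSpace

noncomputable section

namespace Pool.Agent.Lib.MP_ccffa6_gt

variable {E : Type} [NormedAddCommGroup E] [NormedSpace ℝ E] [FiniteDimensional ℝ E]
  {E' : Type} [NormedAddCommGroup E'] [NormedSpace ℝ E'] [FiniteDimensional ℝ E']
  {F : Type} [NormedAddCommGroup F] [NormedSpace ℝ F] [FiniteDimensional ℝ F]
  {A : Type} [NormedAddCommGroup A] [NormedSpace ℝ A] [FiniteDimensional ℝ A]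

/-- Embedding relative to a cap. -/
theorem top_emb {d j : ℕ} {W : Set E} (hW : IsSub d W) (hj : 2 * j < d) {u₁ ι : Rd (j + 1) → E}
    (hu : ContinuousOn u₁ (sphere 0 1)) (hm : MapsTo u₁ (sphere 0 1) W) (hι : ContDiff ℝ ∞ ι)
    {e : Rd (j + 1)} (he : ‖e‖ = 1) {δ : ℝ} (hδ : 0 < δ)
    (hc : ∀ σ, ‖σ‖ = 1 → ⟪e, σ⟫ < -1 + δ → u₁ σ = ι σ)
    (hi : InjOn ι {σ | ‖σ‖ = 1 ∧ ⟪e, σ⟫ < -1 + δ})
    (hd : ∀ σ, ‖σ‖ = 1 → ⟪e, σ⟫ < -1 + δ → ∀ v, ⟪σ, v⟫ = 0 → fderiv ℝ ι σ v = 0 → v = 0)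
    {Z : Set E} (hZ : Z.Finite) {ε : ℝ} (hε : 0 < ε) :
    ∃ u : Rd (j + 1) → E, ContDiff ℝ ∞ u ∧ MapsTo u (sphere 0 1) W ∧
      (∀ σ, ‖σ‖ = 1 → ‖u σ - u₁ σ‖ < ε) ∧ (∀ σ, ‖σ‖ = 1 → ⟪e, σ⟫ ≤ -1 + δ / 2 → u σ = ι σ) ∧
      InjOn u (sphere 0 1) ∧ (∀ σ, ‖σ‖ = 1 → ∀ v, ⟪σ, v⟫ = 0 → fderiv ℝ u σ v = 0 → v = 0) ∧
      ∀ σ, ‖σ‖ = 1 → -1 + δ / 2 < ⟪e, σ⟫ → u σ ∉ Z := by
  have hC : IsCompact (u₁ '' sphere 0 1) := (isCompact_sphere 0 1).image_of_continuousOn hu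
  obtain ⟨pr, η, R⟩ := top_retr hW hC hm.image_subset
  obtain ⟨η', h0, hη, hcl⟩ := R.close hC hm.image_subset hε
  have hin : Continuous fun σ : Rd (j + 1) => ⟪e, σ⟫ := continuous_const.inner continuous_id
  have hop : IsOpen {σ : Rd (j + 1) | ⟪e, σ⟫ < -1 + δ} := isOpen_lt hin continuous_const
  have hs : ∀ {σ : Rd (j + 1)}, ‖σ‖ = 1 → σ ∈ sphere (0 : Rd (j + 1)) 1 :=
    fun h => mem_sphere_zero_iff_norm.2 h
  obtain ⟨g, hg, hgu, hgι⟩ := exists_smooth_approx (B := {σ | ⟪e, σ⟫ ≤ -1 + δ / 2}) isClosed_sphere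
    (isClosed_le hin continuous_const) hu hι
    (by
      refine Filter.mem_of_superset (hop.mem_nhdsSet.2 fun σ h => ?_)
        fun σ h h' => hc σ (mem_sphere_zero_iff_norm.1 h') h
      have h' : ⟪e, σ⟫ ≤ -1 + δ / 2 := h
      change ⟪e, σ⟫ < -1 + δ
      linarith) (half_pos h0)
  set χ : Rd (j + 1) → ℝ := fun σ => Real.smoothTransition (⟪e, σ⟫ + 1 - δ / 2) with hχ'
  have hχ : ContDiff ℝ ∞ χ := Real.smoothTransition.contDiff.comp
    (((contDiff_const.inner ℝ contDiff_id).add contDiff_const).sub contDiff_const)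
  have hz : ∀ σ, χ σ = 0 ↔ ⟪e, σ⟫ ≤ -1 + δ / 2 := fun σ =>
    Real.smoothTransition.zero_iff_nonpos.trans ⟨fun h => by linarith, fun h => by linarith⟩
  set Y : Set E := ⋃ x ∈ u₁ '' sphere 0 1, ball x η' with hY'
  have hY : IsOpen Y := isOpen_biUnion fun _ _ => isOpen_ball
  have hr : ∀ y ∈ Y, d ≤ Module.finrank ℝ (LinearMap.range (fderiv ℝ pr y : E →ₗ[ℝ] E)) := by
    intro y hy
    obtain ⟨x, hx, hy⟩ := mem_iUnion₂.1 hy
    exact R.rank x hx y ((mem_ball_iff_norm.1 hy).trans_le hη)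
  obtain ⟨w, hw, hwB⟩ := (((top_emb_pair R.sm hg hχ hY hr hj).union
    (top_emb_imm R.sm hg hχ hY hr hj)).union (Thin.biUnion hZ.countable fun q _ =>
      top_emb_point R.sm hg hχ hY hr (by omega) q)).exists_notMem
    (ball_mem_nhds (0 : (Rd (j + 1) →L[ℝ] E) × E) (ε := η' / 4) (by positivity))
  rw [mem_ball_zero_iff] at hw
  have near : ∀ σ, ‖σ‖ = 1 → ‖g σ + χ σ • (w.1 σ + w.2) - u₁ σ‖ < η' := fun σ h => by
    have a1 := hgu σ (hs h)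
    have a2 : ‖w.1 σ + w.2‖ ≤ 2 * ‖w‖ := by
      have b1 := w.1.le_opNorm σ
      rw [h, mul_one] at b1
      linarith [norm_add_le (w.1 σ) w.2, norm_fst_le w, norm_snd_le w]
    have a3 : ‖χ σ • (w.1 σ + w.2)‖ ≤ ‖w.1 σ + w.2‖ := by
      rw [norm_smul, Real.norm_of_nonneg (Real.smoothTransition.nonneg _)]
      exact mul_le_of_le_one_left (norm_nonneg _) (Real.smoothTransition.le_one _)
    rw [add_sub_right_comm]
    linarith [norm_add_le (g σ - u₁ σ) (χ σ • (w.1 σ + w.2))]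
  have inY : ∀ σ, ‖σ‖ = 1 → g σ + χ σ • (w.1 σ + w.2) ∈ Y := fun σ h =>
    mem_iUnion₂.2 ⟨u₁ σ, mem_image_of_mem _ (hs h), mem_ball_iff_norm.2 (near σ h)⟩
  have hy : ContDiff ℝ ∞ fun σ => g σ + χ σ • (w.1 σ + w.2) :=
    hg.add (hχ.smul (w.1.contDiff.add contDiff_const))
  have arg : ∀ σ, χ σ = 0 → g σ + χ σ • (w.1 σ + w.2) = ι σ := fun σ h => by
    rw [h, zero_smul, add_zero]
    exact hgι.self_of_nhdsSet σ ((hz σ).1 h)
  have lt : ∀ σ, χ σ = 0 → ⟪e, σ⟫ < -1 + δ := fun σ h => by linarith [(hz σ).1 h]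
  have cap : ∀ σ, ‖σ‖ = 1 → χ σ = 0 → embF pr g χ w σ = ι σ := fun σ h h' => by
    rw [embF, arg σ h', ← hc σ h (lt σ h')]
    exact R.fix _ (mem_image_of_mem _ (hs h)) _ (hm (hs h)) (by simpa using R.pos)
  refine ⟨embF pr g χ w, R.sm.comp hy, fun σ h => ?_, fun σ h => ?_,
    fun σ h h' => cap σ h ((hz σ).2 h'), fun σ h σ' h' huv => ?_, fun σ h v hv h' => ?_,
    fun σ h h' hq => ?_⟩
  · exact R.mem _ (mem_image_of_mem _ h) _ ((near σ (mem_sphere_zero_iff_norm.1 h)).trans_le hη)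
  · exact hcl _ (mem_image_of_mem _ (hs h)) _ (near σ h)
  · rw [mem_sphere_zero_iff_norm] at h h'
    by_contra hne
    by_cases a : χ σ = 0
    · by_cases b : χ σ' = 0
      · rw [cap σ h a, cap σ' h' b] at huv
        exact hne (hi ⟨h, lt σ a⟩ ⟨h', lt σ' b⟩ huv)
      · exact hwB (Or.inl (Or.inl ⟨σ', σ, h', h, Ne.symm hne, b, inY σ' h', huv.symm⟩))
    · exact hwB (Or.inl (Or.inl ⟨σ, σ', h, h', hne, a, inY σ h, huv⟩))
  · by_contra hne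
    by_cases a : χ σ = 0
    swap
    · exact hwB (Or.inl (Or.inr ⟨σ, v, h, hv, hne, a, inY σ h, h'⟩))
    have d1 : HasFDerivAt χ (0 : Rd (j + 1) →L[ℝ] ℝ) σ := by
      have b : IsLocalMin χ σ := Eventually.of_forall fun y => by
        rw [a]
        exact Real.smoothTransition.nonneg _
      rw [← b.fderiv_eq_zero]
      exact (hχ.differentiable (by simp) σ).hasFDerivAt
    have dι := hι.differentiable (by simp) σ
    have d2 : HasFDerivAt g (fderiv ℝ ι σ) σ :=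
      dι.hasFDerivAt.congr_of_eventuallyEq
        (hgι.filter_mono (nhds_le_nhdsSet (x := σ) ((hz σ).1 a)))
    have d3 := d2.add (d1.smul (w.1.hasFDerivAt.add_const w.2))
    have d4 := ((R.sm.differentiable (by simp) (g σ + χ σ • (w.1 σ + w.2))).hasFDerivAt.comp σ
      d3).fderiv
    have d5 : fderiv ℝ (embF pr g χ w) σ v = fderiv ℝ pr (ι σ) (fderiv ℝ ι σ v) := by
      rw [← arg σ a]
      refine (congrArg (fun L => L v) d4).trans ?_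
      simp [a]
    have t1 : fderiv ℝ ι σ v ∈ Tan W (ι σ) := by
      refine Tan.map dι ?_ ((top_tan_sphere h v).2 hv)
      filter_upwards [self_mem_nhdsWithin, mem_nhdsWithin_of_mem_nhds (hop.mem_nhds (lt σ a))]
        with y b1 b2
      rw [← hc y (mem_sphere_zero_iff_norm.1 b1) b2]
      exact hm b1
    have e1 := hc σ h (lt σ a)
    have t2 := (R.tan _ (mem_image_of_mem _ (hs h)) (ι σ) (e1 ▸ hm (hs h))
      (by simpa [e1] using R.pos)).2 _ t1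
    rw [d5, t2] at h'
    exact hne (hd σ h (lt σ a) v hv h')
  · exact hwB (Or.inr (mem_iUnion₂.2 ⟨_, hq, σ, h, fun a => absurd ((hz σ).1 a) (not_le.2 h'),
      inY σ h, rfl⟩))

end Pool.Agent.Lib.MP_ccffa6_gt
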