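import Pool.Agent.Lib.MP_ccffa6_gt.TOP.TDef2
import Pool.Agent.Lib.MP_ccffa6_gt.K.Flow
import Pool.Agent.Lib.MP_ccffa6_gt.K.Proj

open Set Filter Topology Metric
open scoped ContDiff RealInnerProductSpace

noncomputable section

namespace Pool.Agent.Lib.MP_ccffa6_gt

variable {E : Type} [NormedAddCommGroup E] [NormedSpace ℝ E] [FiniteDimensional ℝ E]
  {E' : Type} [NormedAddCommGroup E'] [NormedSpace ℝ E'] [FiniteDimensional ℝ E']
  {F : Type} [NormedAddCommGroup F] [NormedSpace ℝ F] [FiniteDimensional ℝ F]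
  {A : Type} [NormedAddCommGroup A] [NormedSpace ℝ A] [FiniteDimensional ℝ A]

theorem HIn.refl {X : Set A} {Z : Set E} {u : A → E} (hu : ContinuousOn u X) (hm : MapsTo u X Z) :
    HIn X Z u u :=
  ⟨fun q => u q.2, hu.comp continuousOn_snd fun _ hq => hq.2, fun _ hq => hm hq.2,
    fun _ _ => ⟨rfl, rfl⟩⟩

theorem HIn.symm {X : Set A} {Z : Set E} {u v : A → E} (h : HIn X Z u v) : HIn X Z v u := by
  obtain ⟨H, c, m, e⟩ := h
  have hm : MapsTo (fun q : ℝ × A => (1 - q.1, q.2)) (Icc (0 : ℝ) 1 ×ˢ X) (Icc (0 : ℝ) 1 ×ˢ X) :=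
    fun q hq => ⟨⟨sub_nonneg.2 hq.1.2, sub_le_self _ hq.1.1⟩, hq.2⟩
  refine ⟨fun q => H (1 - q.1, q.2), c.comp (by fun_prop) hm, fun q hq => m (hm hq),
    fun x hx => ?_⟩
  simpa using (e x hx).symm

/-- paste on `[0,1/2]` and `[1/2,1]` (`ContinuousOn.if`, or use `min (2t) 1`, `max (2t-1) 0`) -/
theorem HIn.trans {X : Set A} {Z : Set E} {u v w : A → E} (h : HIn X Z u v) (h' : HIn X Z v w) :
    HIn X Z u w := by
  obtain ⟨H, c, m, e⟩ := h
  obtain ⟨H', c', m', e'⟩ := h'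
  have h1 : MapsTo (fun q : ℝ × A => (min (2 * q.1) 1, q.2)) (Icc (0 : ℝ) 1 ×ˢ X)
      (Icc (0 : ℝ) 1 ×ˢ X) := fun q hq =>
    ⟨⟨le_min (by linarith [hq.1.1]) zero_le_one, min_le_right _ _⟩, hq.2⟩
  have h2 : MapsTo (fun q : ℝ × A => (max (2 * q.1 - 1) 0, q.2)) (Icc (0 : ℝ) 1 ×ˢ X)
      (Icc (0 : ℝ) 1 ×ˢ X) := fun q hq =>
    ⟨⟨le_max_right _ _, max_le (by linarith [hq.1.2]) zero_le_one⟩, hq.2⟩
  have h3 : MapsTo (fun q : ℝ × A => ((1 : ℝ), q.2)) (Icc (0 : ℝ) 1 ×ˢ X)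
      (Icc (0 : ℝ) 1 ×ˢ X) := fun q hq => ⟨⟨zero_le_one, le_rfl⟩, hq.2⟩
  refine ⟨fun q => H (min (2 * q.1) 1, q.2) + H' (max (2 * q.1 - 1) 0, q.2) - H (1, q.2),
    ((c.comp (by fun_prop) h1).add (c'.comp (by fun_prop) h2)).sub (c.comp (by fun_prop) h3),
    fun q hq => ?_, fun x hx => ⟨?_, ?_⟩⟩
  · show H (min (2 * q.1) 1, q.2) + H' (max (2 * q.1 - 1) 0, q.2) - H (1, q.2) ∈ Z
    rcases le_total (2 * q.1) 1 with hl | hl
    · rw [max_eq_right (by linarith), (e' _ hq.2).1, (e _ hq.2).2, add_sub_cancel_right]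
      exact m (h1 hq)
    · rw [min_eq_right hl, add_sub_cancel_left]
      exact m' (h2 hq)
  · show H (min (2 * 0) 1, x) + H' (max (2 * 0 - 1) 0, x) - H (1, x) = _
    rw [max_eq_right (by norm_num), min_eq_left (by norm_num), mul_zero, (e' _ hx).1, (e _ hx).2,
      (e _ hx).1, add_sub_cancel_right]
  · show H (min (2 * 1) 1, x) + H' (max (2 * 1 - 1) 0, x) - H (1, x) = _
    rw [max_eq_left (by norm_num), min_eq_right (by norm_num), add_sub_cancel_left,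
      show (2 * 1 - 1 : ℝ) = 1 by norm_num, (e' _ hx).2]

theorem HIn.mono {X : Set A} {Z Z' : Set E} {u v : A → E} (h : HIn X Z u v) (e : Z ⊆ Z') :
    HIn X Z' u v := by
  obtain ⟨H, c, m, e'⟩ := h
  exact ⟨H, c, m.mono_right e, e'⟩

theorem HIn.congr {X : Set A} {Z : Set E} {u v u' v' : A → E} (h : HIn X Z u v) (e : EqOn u' u X)
    (e' : EqOn v' v X) : HIn X Z u' v' := by
  obtain ⟨H, c, m, k⟩ := h
  exact ⟨H, c, m, fun x hx => ⟨(k x hx).1.trans (e hx).symm, (k x hx).2.trans (e' hx).symm⟩⟩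

theorem HIn.comp {X : Set A} {Z : Set E} {u v : A → E} (h : HIn X Z u v) {Z' : Set E'} {r : E → E'}
    (hr : ContinuousOn r Z) (hm : MapsTo r Z Z') : HIn X Z' (r ∘ u) (r ∘ v) := by
  obtain ⟨H, c, m, k⟩ := h
  exact ⟨r ∘ H, hr.comp c m, hm.comp m, fun x hx =>
    ⟨congrArg r (k x hx).1, congrArg r (k x hx).2⟩⟩

theorem HIn.left {X : Set A} {Z : Set E} {u v : A → E} (h : HIn X Z u v) :
    ContinuousOn u X ∧ MapsTo u X Z := by
  obtain ⟨H, c, m, k⟩ := h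
  have h0 : MapsTo (fun x : A => ((0 : ℝ), x)) X (Icc (0 : ℝ) 1 ×ˢ X) := fun x hx =>
    ⟨⟨le_rfl, zero_le_one⟩, hx⟩
  exact ⟨(c.comp (by fun_prop) h0).congr fun x hx => (k x hx).1.symm,
    fun x hx => (k x hx).1 ▸ m (h0 hx)⟩

theorem HIn.right {X : Set A} {Z : Set E} {u v : A → E} (h : HIn X Z u v) :
    ContinuousOn v X ∧ MapsTo v X Z := h.symm.left

/-- `R (2w)` on the ball of radius `1/2`, `H (2‖w‖ - 1, w / ‖w‖)` outside -/
theorem Nul.hIn {Z : Set E} {u v : A → E} (h : Nul Z u) (h' : HIn (sphere 0 1) Z u v) : Nul Z v := by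
  classical
  obtain ⟨R, cR, mR, eR⟩ := h
  obtain ⟨H, c, m, k⟩ := h'
  have h1 : MapsTo (fun w : A => (2 : ℝ) • w) (closedBall 0 (1 / 2)) (closedBall 0 1) := by
    intro w hw
    rw [mem_closedBall_zero_iff] at hw ⊢
    rw [norm_smul, Real.norm_of_nonneg zero_le_two]; linarith
  have hs : ∀ w : A, 1 / 2 ≤ ‖w‖ → ‖w‖⁻¹ • w ∈ sphere (0 : A) 1 := fun w hw => by
    rw [mem_sphere_zero_iff_norm, norm_smul, norm_inv, norm_norm]
    exact inv_mul_cancel₀ (by linarith)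
  have h2 : MapsTo (fun w : A => (2 * ‖w‖ - 1, ‖w‖⁻¹ • w)) (closedBall 0 1 ∩ {w | 1 / 2 ≤ ‖w‖})
      (Icc (0 : ℝ) 1 ×ˢ sphere (0 : A) 1) := by
    intro w hw
    have a1 : ‖w‖ ≤ 1 := mem_closedBall_zero_iff.1 hw.1
    have a2 : 1 / 2 ≤ ‖w‖ := hw.2
    exact ⟨⟨by linarith, by linarith⟩, hs w a2⟩
  have c2 : ContinuousOn (fun w : A => (2 * ‖w‖ - 1, ‖w‖⁻¹ • w))
      (closedBall 0 1 ∩ {w | 1 / 2 ≤ ‖w‖}) := by
    refine ContinuousOn.prodMk (by fun_prop) (ContinuousOn.smul ?_ continuousOn_id)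
    refine continuous_norm.continuousOn.inv₀ fun w hw => ?_
    have a2 : 1 / 2 ≤ ‖w‖ := hw.2
    linarith
  have hu : closedBall (0 : A) 1 = closedBall 0 (1 / 2) ∪ (closedBall 0 1 ∩ {w | 1 / 2 ≤ ‖w‖}) := by
    ext w
    simp only [mem_union, mem_inter_iff, mem_closedBall_zero_iff, mem_ofPred_eq]
    constructor
    · intro hw
      rcases le_total ‖w‖ (1 / 2) with hl | hl
      exacts [Or.inl hl, Or.inr ⟨hw, hl⟩]
    · rintro (hw | hw)
      exacts [by linarith, hw.1]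
  refine ⟨fun w => if ‖w‖ ≤ 1 / 2 then R ((2 : ℝ) • w) else H (2 * ‖w‖ - 1, ‖w‖⁻¹ • w), ?_,
    fun w hw => ?_, fun w hw => ?_⟩
  · rw [hu]
    refine ContinuousOn.union_of_isClosed ?_ ?_ isClosed_closedBall
      (isClosed_closedBall.inter (isClosed_le continuous_const continuous_norm))
    · exact (cR.comp (by fun_prop) h1).congr fun w hw => if_pos (mem_closedBall_zero_iff.1 hw)
    · refine (c.comp c2 h2).congr fun w hw => ?_
      by_cases hl : ‖w‖ ≤ 1 / 2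
      · have a2 : ‖w‖ = 1 / 2 := le_antisymm hl hw.2
        have a3 : ‖w‖⁻¹ = 2 := by rw [a2]; norm_num
        have a4 : 2 * ‖w‖ - 1 = 0 := by rw [a2]; norm_num
        have a5 := hs w hw.2
        show (if ‖w‖ ≤ 1 / 2 then _ else _) = H (2 * ‖w‖ - 1, ‖w‖⁻¹ • w)
        rw [if_pos hl, a4, (k _ a5).1, ← a3, eR a5]
      · exact if_neg hl
  · show (if ‖w‖ ≤ 1 / 2 then _ else _) ∈ Z
    by_cases hl : ‖w‖ ≤ 1 / 2
    · rw [if_pos hl]; exact mR (h1 (mem_closedBall_zero_iff.2 hl))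
    · rw [if_neg hl]; exact m (h2 ⟨hw, (not_le.1 hl).le⟩)
  · have a1 : ‖w‖ = 1 := mem_sphere_zero_iff_norm.1 hw
    show (if ‖w‖ ≤ 1 / 2 then _ else _) = _
    rw [if_neg (by rw [a1]; norm_num), a1, inv_one, one_smul, show (2 * 1 - 1 : ℝ) = 1 by norm_num,
      (k w hw).2]

/-- `IsSub.exists_retr`, Lebesgue number (`IsCompact.exists_thickening_subset_open`); `tan` by
`Tan.map`, `Tan.fderiv_congr`; `rank`: at `x ∈ C` the derivative is injective on `Tan W x`, this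
persists nearby (`isOpen_setOf_linearIndependent` or a norm estimate), then compactness. -/
theorem top_retr {d : ℕ} {W C : Set E} (hW : IsSub d W) (hC : IsCompact C) (hCW : C ⊆ W) :
    ∃ pr η, Retr d W C pr η := by
  obtain ⟨r, U, sr, oU, CU, mr, fr⟩ := hW.exists_retr hC hCW
  have dr : Differentiable ℝ r := sr.differentiable (by simp)
  have ht : ∀ y ∈ W ∩ U, (∀ v, fderiv ℝ r y v ∈ Tan W y) ∧ ∀ v ∈ Tan W y, fderiv ℝ r y v = v := by
    intro y hy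
    have hU := oU.mem_nhds hy.2
    refine ⟨fun v => ?_, fun v hv => ?_⟩
    · have h1 := Tan.map (S := U) (S' := W) (v := v) (dr y)
        (eventually_nhdsWithin_of_forall fun z hz => mr hz) (by rw [Tan.of_mem_nhds hU]; trivial)
      rwa [fr y hy] at h1
    · have h1 := Tan.fderiv_congr (S := W) (g := id) hy.1 (dr y) differentiableAt_id (by
        filter_upwards [self_mem_nhdsWithin, mem_nhdsWithin_of_mem_nhds hU] with z h1 h2
        exact fr z ⟨h1, h2⟩) hv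
      simpa using h1
  have oV : IsOpen {y | (d : Cardinal) ≤ (fderiv ℝ r y : E →ₗ[ℝ] E).rank} :=
    (isOpen_setOfPred_nat_le_rank (𝕜 := ℝ) (E := E) (F := E) d).preimage
      (sr.continuous_fderiv (by simp))
  have hV : ∀ y, (d : Cardinal) ≤ (fderiv ℝ r y : E →ₗ[ℝ] E).rank ↔
      d ≤ Module.finrank ℝ (LinearMap.range (fderiv ℝ r y : E →ₗ[ℝ] E)) := fun y => by
    rw [LinearMap.rank, ← Module.finrank_eq_rank, Nat.cast_le]
  have CV : C ⊆ U ∩ {y | (d : Cardinal) ≤ (fderiv ℝ r y : E →ₗ[ℝ] E).rank} := fun x hx => by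
    refine ⟨CU hx, (hV x).2 ?_⟩
    rw [← hW.finrank (hCW hx)]
    exact Submodule.finrank_mono fun v hv => ⟨v, (ht x ⟨hCW hx, CU hx⟩).2 v hv⟩
  obtain ⟨η, hη, hs⟩ := hC.exists_thickening_subset_open (oU.inter oV) CV
  have hk : ∀ x ∈ C, ∀ y, ‖y - x‖ < η →
      y ∈ U ∩ {y | (d : Cardinal) ≤ (fderiv ℝ r y : E →ₗ[ℝ] E).rank} := fun x hx y hy =>
    hs (mem_thickening_iff.2 ⟨x, hx, by rwa [dist_eq_norm]⟩)
  exact ⟨r, η, hη, sr, fun x hx y hy => mr (hk x hx y hy).1,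
    fun x hx y hy hn => fr y ⟨hy, (hk x hx y hn).1⟩,
    fun x hx y hy hn => ht y ⟨hy, (hk x hx y hn).1⟩, fun x hx y hy => (hV y).1 (hk x hx y hy).2⟩

/-- uniform continuity near the compact set -/
theorem Retr.close {d : ℕ} {W C : Set E} {pr : E → E} {η : ℝ} (h : Retr d W C pr η)
    (hC : IsCompact C) (hCW : C ⊆ W) {ε : ℝ} (hε : 0 < ε) :
    ∃ η', 0 < η' ∧ η' ≤ η ∧ ∀ x ∈ C, ∀ y, ‖y - x‖ < η' → ‖pr y - x‖ < ε := by
  have oV : IsOpen {y | ‖pr y - y‖ < ε / 2} :=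
    isOpen_lt (h.sm.continuous.sub continuous_id).norm continuous_const
  have CV : C ⊆ {y | ‖pr y - y‖ < ε / 2} := fun x hx => by
    show ‖pr x - x‖ < ε / 2
    rw [h.fix x hx x (hCW hx) (by simpa using h.pos)]; simpa using hε
  obtain ⟨δ, hδ, hs⟩ := hC.exists_thickening_subset_open oV CV
  refine ⟨min η (min δ (ε / 2)), lt_min h.pos (lt_min hδ (half_pos hε)), min_le_left _ _,
    fun x hx y hy => ?_⟩
  have h1 : ‖y - x‖ < δ := hy.trans_le ((min_le_right _ _).trans (min_le_left _ _))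
  have h2 : ‖y - x‖ < ε / 2 := hy.trans_le ((min_le_right _ _).trans (min_le_right _ _))
  have h3 : ‖pr y - y‖ < ε / 2 := hs (mem_thickening_iff.2 ⟨x, hx, by rwa [dist_eq_norm]⟩)
  have h4 := norm_sub_le_norm_sub_add_norm_sub (pr y) y x
  linarith

/-- Close maps are homotopic: `pr ((1 - t) u + t v)`, with `C = u '' X`. -/
theorem top_hIn_close {d : ℕ} {W : Set E} (hW : IsSub d W) {X : Set A} (hX : IsCompact X)
    {u : A → E} (hu : ContinuousOn u X) (hm : MapsTo u X W) {ε : ℝ} (hε : 0 < ε) :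
    ∃ η, 0 < η ∧ ∀ v : A → E, ContinuousOn v X → MapsTo v X W → (∀ x ∈ X, ‖v x - u x‖ < η) →
      ∃ H : ℝ × A → E, ContinuousOn H (Icc (0 : ℝ) 1 ×ˢ X) ∧
        (∀ x ∈ X, H (0, x) = u x ∧ H (1, x) = v x) ∧
        ∀ t ∈ Icc (0 : ℝ) 1, ∀ x ∈ X, H (t, x) ∈ W ∧ ‖H (t, x) - u x‖ < ε ∧
          (v x = u x → H (t, x) = u x) := by
  have hC : IsCompact (u '' X) := hX.image_of_continuousOn hu
  have hCW : u '' X ⊆ W := hm.image_subset
  obtain ⟨pr, η, hR⟩ := top_retr hW hC hCW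
  obtain ⟨η', h0, h1, h2⟩ := hR.close hC hCW hε
  refine ⟨η', h0, fun v hv hmv hc => ⟨fun q => pr (u q.2 + q.1 • (v q.2 - u q.2)), ?_,
    fun x hx => ⟨?_, ?_⟩, fun t ht x hx => ?_⟩⟩
  · have cu : ContinuousOn (fun q : ℝ × A => u q.2) (Icc (0 : ℝ) 1 ×ˢ X) :=
      hu.comp continuousOn_snd fun _ hq => hq.2
    have cv : ContinuousOn (fun q : ℝ × A => v q.2) (Icc (0 : ℝ) 1 ×ˢ X) :=
      hv.comp continuousOn_snd fun _ hq => hq.2
    exact hR.sm.continuous.comp_continuousOn (cu.add (continuousOn_fst.smul (cv.sub cu)))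
  · show pr (u x + (0 : ℝ) • (v x - u x)) = u x
    rw [zero_smul, add_zero]
    exact hR.fix _ ⟨x, hx, rfl⟩ _ (hm hx) (by simpa using hR.pos)
  · show pr (u x + (1 : ℝ) • (v x - u x)) = v x
    rw [one_smul, add_sub_cancel]
    exact hR.fix _ ⟨x, hx, rfl⟩ _ (hmv hx) ((hc x hx).trans_le h1)
  · have h3 : ‖u x + t • (v x - u x) - u x‖ < η' := by
      rw [add_sub_cancel_left, norm_smul, Real.norm_of_nonneg ht.1]
      exact (mul_le_of_le_one_left (norm_nonneg _) ht.2).trans_lt (hc x hx)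
    refine ⟨hR.mem _ ⟨x, hx, rfl⟩ _ (h3.trans_le h1), h2 _ ⟨x, hx, rfl⟩ _ h3, fun e => ?_⟩
    show pr (u x + t • (v x - u x)) = u x
    rw [e, sub_self, smul_zero, add_zero]
    exact hR.fix _ ⟨x, hx, rfl⟩ _ (hm hx) (by simpa using hR.pos)

/-- Push up through a regular zone: `Φ (t * max (c - f x) 0) x` with `exists_level_flow`. -/
theorem top_push_up {d : ℕ} {W : Set E} (hW : IsSub d W) {f : E → ℝ} (hf : ContDiff ℝ ∞ f) {a c b : ℝ}
    (hac : a ≤ c) (hcb : c ≤ b) (hK : IsCompact (W ∩ f ⁻¹' Icc a c))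
    (hr : ∀ x ∈ W ∩ f ⁻¹' Icc a c, ¬ Crit W f x) {X : Set A} {u : A → E} (hu : ContinuousOn u X)
    (hm : MapsTo u X (W ∩ f ⁻¹' Icc a b)) :
    ∃ v, HIn X (W ∩ f ⁻¹' Icc a b) u v ∧ MapsTo v X (W ∩ f ⁻¹' Icc c b) := by
  obtain ⟨Y, Φ, hΦ, -, hl⟩ := exists_level_flow hW hf hac hK fun x hx => by
    simpa [Crit] using hr x hx
  have key : ∀ y ∈ W ∩ f ⁻¹' Icc a b, ∀ t ∈ Icc (0 : ℝ) 1,
      Φ (t * max (c - f y) 0) y ∈ W ∧ f (Φ (t * max (c - f y) 0) y) = f y + t * max (c - f y) 0 := by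
    intro y hy t ht
    rcases le_total (f y) c with h | h
    · rw [max_eq_left (sub_nonneg.2 h)]
      have h1 := mul_nonneg ht.1 (sub_nonneg.2 h)
      have h2 := mul_le_of_le_one_left (sub_nonneg.2 h) ht.2
      exact hl y ⟨hy.1, hy.2.1, h⟩ _ ⟨by linarith [hy.2.1], by linarith⟩
    · rw [max_eq_right (sub_nonpos.2 h), mul_zero, hΦ.zero, add_zero]; exact ⟨hy.1, rfl⟩
  have cu : ContinuousOn (fun q : ℝ × A => u q.2) (Icc (0 : ℝ) 1 ×ˢ X) :=
    hu.comp continuousOn_snd fun _ hq => hq.2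
  have cg : Continuous fun y => max (c - f y) 0 := by have := hf.continuous; fun_prop
  refine ⟨fun x => Φ (1 * max (c - f (u x)) 0) (u x),
    ⟨fun q => Φ (q.1 * max (c - f (u q.2)) 0) (u q.2), hΦ.cont.comp_continuousOn
      ((continuousOn_fst.mul (cg.comp_continuousOn cu)).prodMk cu), fun q hq => ?_,
      fun x hx => ⟨by simp [hΦ.zero], rfl⟩⟩, fun x hx => ?_⟩
  · have hy := hm hq.2
    obtain ⟨k1, k2⟩ := key _ hy _ hq.1
    refine ⟨k1, ?_⟩
    show f (Φ (q.1 * max (c - f (u q.2)) 0) (u q.2)) ∈ Icc a b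
    rw [k2]
    have h1 := mul_nonneg hq.1.1 (le_max_right (c - f (u q.2)) 0)
    have h2 := mul_le_of_le_one_left (le_max_right (c - f (u q.2)) 0) hq.1.2
    have h3 : max (c - f (u q.2)) 0 ≤ b - f (u q.2) :=
      max_le (by linarith) (sub_nonneg.2 hy.2.2)
    exact ⟨by linarith [hy.2.1], by linarith⟩
  · have hy := hm hx
    obtain ⟨k1, k2⟩ := key _ hy 1 ⟨zero_le_one, le_rfl⟩
    refine ⟨k1, ?_⟩
    show f (Φ (1 * max (c - f (u x)) 0) (u x)) ∈ Icc c b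
    rw [k2, one_mul]
    have h3 : max (c - f (u x)) 0 ≤ b - f (u x) := max_le (by linarith) (sub_nonneg.2 hy.2.2)
    exact ⟨by linarith [le_max_left (c - f (u x)) 0], by linarith⟩

/-- Push down: `Φ (-(t * max (f x - c) 0)) x`. -/
theorem top_push_down {d : ℕ} {W : Set E} (hW : IsSub d W) {f : E → ℝ} (hf : ContDiff ℝ ∞ f)
    {a c b : ℝ} (hac : a ≤ c) (hcb : c ≤ b) (hK : IsCompact (W ∩ f ⁻¹' Icc c b))
    (hr : ∀ x ∈ W ∩ f ⁻¹' Icc c b, ¬ Crit W f x) {X : Set A} {u : A → E} (hu : ContinuousOn u X)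
    (hm : MapsTo u X (W ∩ f ⁻¹' Icc a b)) :
    ∃ v, HIn X (W ∩ f ⁻¹' Icc a b) u v ∧ ∀ x ∈ X, f (v x) = min (f (u x)) c ∧
      (f (u x) ≤ c → v x = u x) := by
  obtain ⟨Y, Φ, hΦ, -, hl⟩ := exists_level_flow hW hf hcb hK fun x hx => by
    simpa [Crit] using hr x hx
  have key : ∀ y ∈ W ∩ f ⁻¹' Icc a b, ∀ t ∈ Icc (0 : ℝ) 1,
      Φ (-(t * max (f y - c) 0)) y ∈ W ∧
        f (Φ (-(t * max (f y - c) 0)) y) = f y + -(t * max (f y - c) 0) := by
    intro y hy t ht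
    rcases le_total c (f y) with h | h
    · rw [max_eq_left (sub_nonneg.2 h)]
      have h1 := mul_nonneg ht.1 (sub_nonneg.2 h)
      have h2 := mul_le_of_le_one_left (sub_nonneg.2 h) ht.2
      exact hl y ⟨hy.1, h, hy.2.2⟩ _ ⟨by linarith, by linarith [hy.2.2]⟩
    · rw [max_eq_right (sub_nonpos.2 h), mul_zero, neg_zero, hΦ.zero, add_zero]; exact ⟨hy.1, rfl⟩
  have cu : ContinuousOn (fun q : ℝ × A => u q.2) (Icc (0 : ℝ) 1 ×ˢ X) :=
    hu.comp continuousOn_snd fun _ hq => hq.2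
  have cg : Continuous fun y => max (f y - c) 0 := by have := hf.continuous; fun_prop
  refine ⟨fun x => Φ (-(1 * max (f (u x) - c) 0)) (u x),
    ⟨fun q => Φ (-(q.1 * max (f (u q.2) - c) 0)) (u q.2), hΦ.cont.comp_continuousOn
      ((continuousOn_fst.mul (cg.comp_continuousOn cu)).neg.prodMk cu), fun q hq => ?_,
      fun x hx => ⟨by simp [hΦ.zero], rfl⟩⟩, fun x hx => ⟨?_, fun h => ?_⟩⟩
  · have hy := hm hq.2
    obtain ⟨k1, k2⟩ := key _ hy _ hq.1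
    refine ⟨k1, ?_⟩
    show f (Φ (-(q.1 * max (f (u q.2) - c) 0)) (u q.2)) ∈ Icc a b
    rw [k2]
    have h1 := mul_nonneg hq.1.1 (le_max_right (f (u q.2) - c) 0)
    have h2 := mul_le_of_le_one_left (le_max_right (f (u q.2) - c) 0) hq.1.2
    have h3 : max (f (u q.2) - c) 0 ≤ f (u q.2) - a :=
      max_le (by linarith) (sub_nonneg.2 hy.2.1)
    exact ⟨by linarith, by linarith [hy.2.2]⟩
  · show f (Φ (-(1 * max (f (u x) - c) 0)) (u x)) = _
    rw [(key _ (hm hx) 1 ⟨zero_le_one, le_rfl⟩).2, one_mul]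
    rcases le_total c (f (u x)) with h | h
    · rw [max_eq_left (sub_nonneg.2 h), min_eq_right h]; ring
    · rw [max_eq_right (sub_nonpos.2 h), min_eq_left h]; ring
  · show Φ (-(1 * max (f (u x) - c) 0)) (u x) = _
    rw [max_eq_right (sub_nonpos.2 h), mul_zero, neg_zero, hΦ.zero]

end Pool.Agent.Lib.MP_ccffa6_gt
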