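import Pool.Agent.Lib.MP_ccffa6_gt.TOP.GP
import Pool.Agent.Lib.MP_ccffa6_gt.TOP.Hom
import Pool.Agent.Lib.MP_ccffa6_gt.TOP.Sp

open Set Filter Topology Metric
open scoped ContDiff RealInnerProductSpace

noncomputable section

namespace Pool.Agent.Lib.MP_ccffa6_gt

variable {E : Type} [NormedAddCommGroup E] [NormedSpace ℝ E] [FiniteDimensional ℝ E]
  {E' : Type} [NormedAddCommGroup E'] [NormedSpace ℝ E'] [FiniteDimensional ℝ E']
  {F : Type} [NormedAddCommGroup F] [NormedSpace ℝ F] [FiniteDimensional ℝ F]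
  {A : Type} [NormedAddCommGroup A] [NormedSpace ℝ A] [FiniteDimensional ℝ A]

/-- The family of maps used for general position. -/
def embF {j : ℕ} (pr : E → E) (g : Rd (j + 1) → E) (χ : Rd (j + 1) → ℝ)
    (w : (Rd (j + 1) →L[ℝ] E) × E) (σ : Rd (j + 1)) : E := pr (g σ + χ σ • (w.1 σ + w.2))

variable {j d : ℕ} {pr : E → E} {g : Rd (j + 1) → E} {χ : Rd (j + 1) → ℝ} {Y : Set E}

omit [FiniteDimensional ℝ E] in
theorem top_emba_fd (hpr : ContDiff ℝ ∞ pr) (σ : Rd (j + 1)) (w : (Rd (j + 1) →L[ℝ] E) × E) :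
    ∃ D : ((Rd (j + 1) →L[ℝ] E) × E) →L[ℝ] E, HasFDerivAt (fun w' => embF pr g χ w' σ) D w ∧
      ∀ δ, D δ = fderiv ℝ pr (g σ + χ σ • (w.1 σ + w.2)) (χ σ • (δ.1 σ + δ.2)) := by
  let ev : ((Rd (j + 1) →L[ℝ] E) × E) →L[ℝ] E :=
    χ σ • ((ContinuousLinearMap.apply ℝ E σ).comp (ContinuousLinearMap.fst ℝ _ E) +
      ContinuousLinearMap.snd ℝ _ E)
  have h1 : HasFDerivAt (fun w' : (Rd (j + 1) →L[ℝ] E) × E => g σ + χ σ • (w'.1 σ + w'.2)) ev w :=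
    ev.hasFDerivAt.const_add (g σ)
  exact ⟨_, (hpr.differentiable (by simp) _).hasFDerivAt.comp w h1, fun δ => rfl⟩

omit [FiniteDimensional ℝ E] [FiniteDimensional ℝ A] in
theorem top_emba_y (hg : ContDiff ℝ ∞ g) (hχ : ContDiff ℝ ∞ χ) {s : A → Rd (j + 1)}
    {w : A → (Rd (j + 1) →L[ℝ] E) × E} (hs : ContDiff ℝ ∞ s) (hw : ContDiff ℝ ∞ w) :
    ContDiff ℝ ∞ fun x => g (s x) + χ (s x) • ((w x).1 (s x) + (w x).2) :=
  (hg.comp hs).add ((hχ.comp hs).smul ((hw.fst.clm_apply hs).add hw.snd))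

omit [FiniteDimensional ℝ E] in
theorem top_emba_dσ (hpr : ContDiff ℝ ∞ pr) (hg : ContDiff ℝ ∞ g) (hχ : ContDiff ℝ ∞ χ)
    (w : (Rd (j + 1) →L[ℝ] E) × E) (σ v : Rd (j + 1)) :
    fderiv ℝ (embF pr g χ w) σ v = fderiv ℝ pr (g σ + χ σ • (w.1 σ + w.2))
      (fderiv ℝ g σ v + (χ σ • w.1 v + fderiv ℝ χ σ v • (w.1 σ + w.2))) := by
  have h1 := (hg.differentiable (by simp) σ).hasFDerivAt.add
    ((hχ.differentiable (by simp) σ).hasFDerivAt.smul (w.1.hasFDerivAt.add_const w.2))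
  have h2 : HasFDerivAt (embF pr g χ w) _ σ :=
    (hpr.differentiable (by simp) (g σ + χ σ • (w.1 σ + w.2))).hasFDerivAt.comp σ h1
  rw [h2.fderiv]
  rfl

/-- A generic map of the family misses a point. -/
theorem top_emb_point (hpr : ContDiff ℝ ∞ pr) (hg : ContDiff ℝ ∞ g) (hχ : ContDiff ℝ ∞ χ)
    (hY : IsOpen Y)
    (hr : ∀ y ∈ Y, d ≤ Module.finrank ℝ (LinearMap.range (fderiv ℝ pr y : E →ₗ[ℝ] E)))
    (hj : j < d) (q : E) :
    Thin {w : (Rd (j + 1) →L[ℝ] E) × E | ∃ σ, ‖σ‖ = 1 ∧ χ σ ≠ 0 ∧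
      g σ + χ σ • (w.1 σ + w.2) ∈ Y ∧ embF pr g χ w σ = q} := by
  have h1 := top_emba_y (A := Rd (j + 1) × ((Rd (j + 1) →L[ℝ] E) × E)) hg hχ contDiff_fst
    contDiff_snd
  have h2 := top_gp' (Cov.sphere j)
    (U := {x : Rd (j + 1) × ((Rd (j + 1) →L[ℝ] E) × E) | χ x.1 ≠ 0 ∧
      g x.1 + χ x.1 • (x.2.1 x.1 + x.2.2) ∈ Y})
    ((isOpen_ne_fun (hχ.continuous.comp continuous_fst) continuous_const).inter
      (hY.preimage h1.continuous))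
    (Ψ := fun x => embF pr g χ x.2 x.1 - q)
    (((hpr.comp h1).sub contDiff_const).of_le (by simp)).contDiffOn (by
      rintro σ - w hU -
      refine ⟨_, hj.trans_le (hr _ hU.2), ?_⟩
      rintro _ ⟨u, rfl⟩
      obtain ⟨D, hD, hD'⟩ := top_emba_fd (g := g) (χ := χ) hpr σ w
      refine ⟨(0, (χ σ)⁻¹ • u), ?_⟩
      rw [show fderiv ℝ (fun w' => embF pr g χ w' σ - q) w = D from (hD.sub_const q).fderiv, hD']
      have h3 : χ σ ≠ 0 := hU.1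
      simp [smul_inv_smul₀ h3])
  refine h2.mono ?_
  rintro w ⟨σ, a1, a2, a3, a4⟩
  exact ⟨σ, mem_sphere_zero_iff_norm.2 a1, ⟨a2, a3⟩, sub_eq_zero.2 a4⟩

/-- A generic map of the family is injective. -/
theorem top_emb_pair (hpr : ContDiff ℝ ∞ pr) (hg : ContDiff ℝ ∞ g) (hχ : ContDiff ℝ ∞ χ)
    (hY : IsOpen Y)
    (hr : ∀ y ∈ Y, d ≤ Module.finrank ℝ (LinearMap.range (fderiv ℝ pr y : E →ₗ[ℝ] E)))
    (hj : 2 * j < d) :
    Thin {w : (Rd (j + 1) →L[ℝ] E) × E | ∃ σ σ', ‖σ‖ = 1 ∧ ‖σ'‖ = 1 ∧ σ ≠ σ' ∧ χ σ ≠ 0 ∧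
      g σ + χ σ • (w.1 σ + w.2) ∈ Y ∧ embF pr g χ w σ = embF pr g χ w σ'} := by
  have h1 := top_emba_y (A := (Rd (j + 1) × Rd (j + 1)) × ((Rd (j + 1) →L[ℝ] E) × E)) hg hχ
    contDiff_fst.fst contDiff_snd
  have h1' := top_emba_y (A := (Rd (j + 1) × Rd (j + 1)) × ((Rd (j + 1) →L[ℝ] E) × E)) hg hχ
    contDiff_fst.snd contDiff_snd
  have h2 := top_gp' ((Cov.sphere j).prod (Cov.sphere j))
    (U := {x : (Rd (j + 1) × Rd (j + 1)) × ((Rd (j + 1) →L[ℝ] E) × E) | x.1.1 ≠ x.1.2 ∧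
      χ x.1.1 ≠ 0 ∧ g x.1.1 + χ x.1.1 • (x.2.1 x.1.1 + x.2.2) ∈ Y})
    ((isOpen_ne_fun continuous_fst.fst continuous_fst.snd).inter
      ((isOpen_ne_fun (hχ.continuous.comp continuous_fst.fst) continuous_const).inter
        (hY.preimage h1.continuous)))
    (Ψ := fun x => embF pr g χ x.2 x.1.1 - embF pr g χ x.2 x.1.2)
    (((hpr.comp h1).sub (hpr.comp h1')).of_le (by simp)).contDiffOn (by
      rintro ⟨σ, σ'⟩ - w hU -
      refine ⟨_, (by omega : j + j < d).trans_le (hr _ hU.2.2), ?_⟩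
      rintro _ ⟨u, rfl⟩
      obtain ⟨D, hD, hD'⟩ := top_emba_fd (g := g) (χ := χ) hpr σ w
      obtain ⟨D', hE, hE'⟩ := top_emba_fd (g := g) (χ := χ) hpr σ' w
      have h3 : χ σ ≠ 0 := hU.2.1
      have h4 : ⟪σ - σ', σ - σ'⟫ ≠ 0 := inner_self_ne_zero.2 (sub_ne_zero.2 hU.1)
      let L : Rd (j + 1) →L[ℝ] E :=
        (innerSL ℝ (σ - σ')).smulRight ((χ σ * ⟪σ - σ', σ - σ'⟫)⁻¹ • u)
      have h5 : χ σ • (L σ + -L σ') = u := by
        rw [← sub_eq_add_neg, ← map_sub]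
        show χ σ • (⟪σ - σ', σ - σ'⟫ • (χ σ * ⟪σ - σ', σ - σ'⟫)⁻¹ • u) = u
        rw [smul_smul, smul_inv_smul₀ (mul_ne_zero h3 h4)]
      refine ⟨(L, -L σ'), ?_⟩
      rw [show fderiv ℝ (fun w' => embF pr g χ w' σ - embF pr g χ w' σ') w = D - D' from
        (hD.sub hE).fderiv, sub_apply, hD', hE', h5, add_neg_cancel, smul_zero, map_zero, sub_zero]
      rfl)
  refine h2.mono ?_
  rintro w ⟨σ, σ', a1, a2, a3, a4, a5, a6⟩
  exact ⟨(σ, σ'), ⟨mem_sphere_zero_iff_norm.2 a1, mem_sphere_zero_iff_norm.2 a2⟩, ⟨a3, a4, a5⟩,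
    sub_eq_zero.2 a6⟩

/-- A generic map of the family is an immersion. -/
theorem top_emb_imm (hpr : ContDiff ℝ ∞ pr) (hg : ContDiff ℝ ∞ g) (hχ : ContDiff ℝ ∞ χ)
    (hY : IsOpen Y)
    (hr : ∀ y ∈ Y, d ≤ Module.finrank ℝ (LinearMap.range (fderiv ℝ pr y : E →ₗ[ℝ] E)))
    (hj : 2 * j < d) :
    Thin {w : (Rd (j + 1) →L[ℝ] E) × E | ∃ σ v, ‖σ‖ = 1 ∧ ⟪σ, v⟫ = 0 ∧ v ≠ 0 ∧ χ σ ≠ 0 ∧
      g σ + χ σ • (w.1 σ + w.2) ∈ Y ∧ fderiv ℝ (embF pr g χ w) σ v = 0} := by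
  have c1 : ContDiff ℝ ∞ fun x : (Rd (j + 1) × Rd (j + 1)) × ((Rd (j + 1) →L[ℝ] E) × E) =>
    x.1.1 := contDiff_fst.fst
  have c2 : ContDiff ℝ ∞ fun x : (Rd (j + 1) × Rd (j + 1)) × ((Rd (j + 1) →L[ℝ] E) × E) =>
    x.1.2 := contDiff_fst.snd
  have h1 := top_emba_y hg hχ c1 contDiff_snd
  have hΨ : ContDiff ℝ ∞ fun x : (Rd (j + 1) × Rd (j + 1)) × ((Rd (j + 1) →L[ℝ] E) × E) =>
      fderiv ℝ pr (g x.1.1 + χ x.1.1 • (x.2.1 x.1.1 + x.2.2)) (fderiv ℝ g x.1.1 x.1.2 +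
        (χ x.1.1 • x.2.1 x.1.2 + fderiv ℝ χ x.1.1 x.1.2 • (x.2.1 x.1.1 + x.2.2))) :=
    ((hpr.fderiv_right (m := ∞) (by simp)).comp h1).clm_apply
      ((((hg.fderiv_right (m := ∞) (by simp)).comp c1).clm_apply c2).add
        (((hχ.comp c1).smul (contDiff_snd.fst.clm_apply c2)).add
          ((((hχ.fderiv_right (m := ∞) (by simp)).comp c1).clm_apply c2).smul
            ((contDiff_snd.fst.clm_apply c1).add contDiff_snd.snd))))
  have h2 := top_gp' (top_isSub_sphere j).cov_tan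
    (U := {x : (Rd (j + 1) × Rd (j + 1)) × ((Rd (j + 1) →L[ℝ] E) × E) | x.1.2 ≠ 0 ∧
      χ x.1.1 ≠ 0 ∧ g x.1.1 + χ x.1.1 • (x.2.1 x.1.1 + x.2.2) ∈ Y})
    ((isOpen_ne_fun c2.continuous continuous_const).inter
      ((isOpen_ne_fun (hχ.continuous.comp c1.continuous) continuous_const).inter
        (hY.preimage h1.continuous)))
    (hΨ.of_le (by simp)).contDiffOn (by
      rintro ⟨σ, v⟩ - w hU -
      refine ⟨_, (by omega : j + j < d).trans_le (hr _ hU.2.2), ?_⟩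
      rintro _ ⟨u, rfl⟩
      have h3 : χ σ ≠ 0 := hU.2.1
      have h4 : ⟪v, v⟫ ≠ 0 := inner_self_ne_zero.2 hU.1
      let L : Rd (j + 1) →L[ℝ] E := (innerSL ℝ v).smulRight ((χ σ * ⟪v, v⟫)⁻¹ • u)
      have h5 : χ σ • L v = u := by
        show χ σ • (⟪v, v⟫ • (χ σ * ⟪v, v⟫)⁻¹ • u) = u
        rw [smul_smul, smul_inv_smul₀ (mul_ne_zero h3 h4)]
      clear_value L
      refine ⟨(L, -L σ), ?_⟩
      have h6 := ((hΨ.comp (contDiff_const.prodMk contDiff_id :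
        ContDiff ℝ ∞ fun w' : (Rd (j + 1) →L[ℝ] E) × E => ((σ, v), w'))).differentiable
          (by simp) w).hasFDerivAt.hasLineDerivAt (L, -L σ)
      refine h6.unique ?_
      have h7 : ∀ s : ℝ, (w + s • (L, -L σ)).1 σ + (w + s • (L, -L σ)).2 = w.1 σ + w.2 := by
        intro s
        simp only [Prod.fst_add, Prod.smul_fst, Prod.snd_add, Prod.smul_snd, add_apply, smul_apply,
          smul_neg]
        abel
      have h8 : ∀ s : ℝ, χ σ • (w + s • (L, -L σ)).1 v = χ σ • w.1 v + s • u := by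
        intro s
        simp only [Prod.fst_add, Prod.smul_fst, add_apply, smul_apply, smul_add]
        rw [smul_comm (χ σ) s, h5]
      have h9 := (((((hasDerivAt_id (0 : ℝ)).smul_const u).const_add (χ σ • w.1 v)).add_const
        (fderiv ℝ χ σ v • (w.1 σ + w.2))).const_add (fderiv ℝ g σ v))
      have h10 := (fderiv ℝ pr (g σ + χ σ • (w.1 σ + w.2))).hasFDerivAt.comp_hasDerivAt
        (0 : ℝ) h9
      rw [one_smul] at h10
      refine h10.congr_of_eventuallyEq (Eventually.of_forall fun s => ?_)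
      simp only [Function.comp_apply, h7, h8, id])
  refine h2.mono ?_
  rintro w ⟨σ, v, a1, a2, a3, a4, a5, a6⟩
  exact ⟨(σ, v), ⟨mem_sphere_zero_iff_norm.2 a1, (top_tan_sphere a1 v).2 a2⟩, ⟨a3, a4, a5⟩,
    (top_emba_dσ hpr hg hχ w σ v).symm.trans a6⟩

end Pool.Agent.Lib.MP_ccffa6_gt
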