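import Mathlib

/-! The function on the filling: no critical point. -/

open Set Filter Topology Metric
open scoped ContDiff RealInnerProductSpace

noncomputable section

namespace Pool.Agent.Lib.MP_ccffa6_gt

variable {X : Type} [NormedAddCommGroup X] [InnerProductSpace ℝ X]

theorem top_g1_dS (x : ℝ) : 0 ≤ deriv Real.smoothTransition x :=
  Real.smoothTransition.monotone.deriv_nonneg

theorem top_g1_hS (x : ℝ) :
    HasDerivAt Real.smoothTransition (deriv Real.smoothTransition x) x :=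
  ((Real.smoothTransition.contDiff (n := 1)).differentiable (by simp) x).hasDerivAt

theorem top_g1_circ {u n : X} {R : ℝ} (hu : ‖u‖ = R) (hn : ‖n‖ = R) (ho : ⟪u, n⟫ = 0) (t : ℝ) :
    ‖Real.cos t • u + Real.sin t • n‖ = R := by
  have hR : 0 ≤ R := hu ▸ norm_nonneg _
  have h : ‖Real.cos t • u + Real.sin t • n‖ ^ 2 = R ^ 2 := by
    rw [norm_add_sq_real, inner_smul_left, inner_smul_right, ho, norm_smul, norm_smul, hu, hn,
      mul_pow, mul_pow, Real.norm_eq_abs, Real.norm_eq_abs, sq_abs, sq_abs]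
    have := Real.sin_sq_add_cos_sq t
    simp only [mul_zero, add_zero]
    linear_combination R ^ 2 * this
  exact (pow_left_inj₀ (norm_nonneg _) hR two_ne_zero).1 h

theorem top_g1_circ_der (u n : X) :
    HasDerivAt (fun t : ℝ => Real.cos t • u + Real.sin t • n) n 0 := by
  have h := ((Real.hasDerivAt_cos 0).smul_const u).fun_add ((Real.hasDerivAt_sin 0).smul_const n)
  simpa using h

/-- A vector which is not a multiple of `e` has a normal direction which increases `⟪e, ·⟫`. -/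
theorem top_g1_dir {e w : X} (he : ‖e‖ = 1) (hw : w ≠ 0) (h : w ≠ ⟪e, w⟫ • e) :
    ∃ n : X, ‖n‖ = ‖w‖ ∧ ⟪w, n⟫ = 0 ∧ 0 < ⟪e, n⟫ := by
  have hw' : 0 < ‖w‖ := norm_pos_iff.2 hw
  set v : X := (‖w‖ ^ 2) • e - ⟪e, w⟫ • w with hv
  have h1 : ⟪w, v⟫ = 0 := by
    rw [hv, inner_sub_right, inner_smul_right, inner_smul_right, real_inner_self_eq_norm_sq,
      real_inner_comm e w]
    ring
  have h2 : ⟪e, v⟫ = ‖w‖ ^ 2 - ⟪e, w⟫ ^ 2 := by
    rw [hv, inner_sub_right, inner_smul_right, inner_smul_right, real_inner_self_eq_norm_sq, he]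
    ring
  have h3 : ‖w - ⟪e, w⟫ • e‖ ^ 2 = ‖w‖ ^ 2 - ⟪e, w⟫ ^ 2 := by
    rw [norm_sub_sq_real, inner_smul_right, norm_smul, he, Real.norm_eq_abs, mul_one, sq_abs,
      real_inner_comm e w]
    ring
  have h4 : 0 < ⟪e, v⟫ := by
    rw [h2, ← h3]
    exact pow_pos (norm_pos_iff.2 (sub_ne_zero.2 h)) 2
  have h5 : v ≠ 0 := fun h0 => by simp [h0] at h4
  have h6 : 0 < ‖v‖ := norm_pos_iff.2 h5
  refine ⟨(‖w‖ / ‖v‖) • v, ?_, ?_, ?_⟩
  · rw [norm_smul, Real.norm_eq_abs, abs_of_pos (div_pos hw' h6), div_mul_cancel₀ _ h6.ne']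
  · rw [inner_smul_right, h1, mul_zero]
  · rw [inner_smul_right]
    exact mul_pos (div_pos hw' h6) h4

/-- The filling function. -/
def topV (e : X) (c k L ρ : ℝ) (w : X) : ℝ :=
  c + k + k / ρ * ⟪e, w⟫ + Real.smoothTransition (8 * ‖w‖ ^ 2 / ρ ^ 2 - 1) *
    ((k + L * ‖w‖ ^ 2) * (1 + ⟪e, w⟫ / ‖w‖) - ‖w‖ ^ 2 - k - k / ρ * ⟪e, w⟫)

theorem topV_zero (e : X) (c k L : ℝ) {ρ : ℝ} :
    topV e c k L ρ =ᶠ[𝓝 0] fun w => c + k + k / ρ * ⟪e, w⟫ := by
  have hc : Continuous fun w : X => 8 * ‖w‖ ^ 2 / ρ ^ 2 - 1 := by fun_prop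
  have h : ∀ᶠ w : X in 𝓝 0, 8 * ‖w‖ ^ 2 / ρ ^ 2 - 1 < 0 :=
    hc.continuousAt.eventually_lt continuousAt_const (by simp)
  filter_upwards [h] with w hw
  rw [topV, Real.smoothTransition.zero_of_nonpos hw.le, zero_mul, add_zero]

theorem topV_smooth (e : X) (c k L ρ : ℝ) : ContDiff ℝ ∞ (topV e c k L ρ) := by
  have hi : ContDiff ℝ ∞ fun w : X => ⟪e, w⟫ := contDiff_const.inner ℝ contDiff_id
  have hP : ContDiff ℝ ∞ fun w : X => c + k + k / ρ * ⟪e, w⟫ :=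
    contDiff_const.add (contDiff_const.mul hi)
  have hq : ContDiff ℝ ∞ fun w : X => ‖w‖ ^ 2 := contDiff_norm_sq ℝ
  rw [contDiff_iff_contDiffAt]
  intro w
  by_cases hw : w = 0
  · subst hw
    exact hP.contDiffAt.congr_of_eventuallyEq (topV_zero e c k L)
  · have hn : ContDiffAt ℝ ∞ (fun w : X => ‖w‖) w := contDiffAt_norm ℝ hw
    refine hP.contDiffAt.add (ContDiffAt.mul ?_ ?_)
    · exact (Real.smoothTransition.contDiff.comp
        (((contDiff_const.mul hq).div_const _).sub contDiff_const)).contDiffAt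
    · refine ((ContDiffAt.mul ?_ ?_).sub hq.contDiffAt |>.sub contDiffAt_const).sub
        (contDiff_const.mul hi).contDiffAt
      · exact (contDiff_const.add (contDiff_const.mul hq)).contDiffAt
      · exact contDiffAt_const.add (hi.contDiffAt.div hn (norm_ne_zero_iff.2 hw))

theorem topV_shell {e σ : X} (hσ : ‖σ‖ = 1) (c k L : ℝ) {ρ t : ℝ} (hρ : 0 < ρ) (ht : ρ / 2 ≤ t) :
    topV e c k L ρ (t • σ) = c + k * (1 + ⟪e, σ⟫) - t ^ 2 + L * (1 + ⟪e, σ⟫) * t ^ 2 := by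
  have h0 : 0 < t := lt_of_lt_of_le (by positivity) ht
  have h1 : ‖t • σ‖ = t := by rw [norm_smul, hσ, mul_one, Real.norm_eq_abs, abs_of_pos h0]
  have h2 : 1 ≤ 8 * t ^ 2 / ρ ^ 2 - 1 := by
    rw [le_sub_iff_add_le, le_div_iff₀ (by positivity)]
    nlinarith
  rw [topV, h1, Real.smoothTransition.one_of_one_le h2, inner_smul_right,
    mul_div_cancel_left₀ _ h0.ne']
  ring

theorem topV_mem {e : X} (he : ‖e‖ = 1) (c : ℝ) {k L ρ : ℝ} (hk : 0 < k) (hL : 0 ≤ L)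
    (hρ : 0 < ρ) {w : X} (hw : ‖w‖ ≤ ρ) :
    c - ρ ^ 2 ≤ topV e c k L ρ w ∧ topV e c k L ρ w ≤ c + 2 * k + 2 * L * ρ ^ 2 := by
  have h1 : |⟪e, w⟫| ≤ ‖w‖ := by simpa [he] using abs_real_inner_le_norm e w
  have h2 : |⟪e, w⟫ / ‖w‖| ≤ 1 := by
    rw [abs_div, abs_norm]
    exact div_le_one_of_le₀ h1 (norm_nonneg _)
  have h3 : |k / ρ * ⟪e, w⟫| ≤ k := by
    rw [abs_mul, abs_of_pos (div_pos hk hρ), div_mul_eq_mul_div, div_le_iff₀ hρ]
    exact mul_le_mul_of_nonneg_left (h1.trans hw) hk.le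
  have h4 : ‖w‖ ^ 2 ≤ ρ ^ 2 := pow_le_pow_left₀ (norm_nonneg _) hw 2
  have h5 : 0 ≤ ‖w‖ ^ 2 := by positivity
  obtain ⟨h2a, h2b⟩ := abs_le.1 h2
  obtain ⟨h3a, h3b⟩ := abs_le.1 h3
  have hS0 := Real.smoothTransition.nonneg (8 * ‖w‖ ^ 2 / ρ ^ 2 - 1)
  have hS1 := Real.smoothTransition.le_one (8 * ‖w‖ ^ 2 / ρ ^ 2 - 1)
  unfold topV
  generalize Real.smoothTransition (8 * ‖w‖ ^ 2 / ρ ^ 2 - 1) = s at hS0 hS1 ⊢
  generalize ⟪e, w⟫ / ‖w‖ = x at h2a h2b ⊢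
  generalize k / ρ * ⟪e, w⟫ = p at h3a h3b ⊢
  generalize ‖w‖ ^ 2 = r at h4 h5 ⊢
  have hLr : 0 ≤ L * r := mul_nonneg hL h5
  have hLr' : L * r ≤ L * ρ ^ 2 := mul_le_mul_of_nonneg_left h4 hL
  have u0 : 0 ≤ (k + L * r) * (1 + x) := mul_nonneg (by linarith) (by linarith)
  have u1 : (k + L * r) * (1 + x) ≤ (k + L * r) * 2 :=
    mul_le_mul_of_nonneg_left (by linarith) (by linarith)
  generalize (k + L * r) * (1 + x) = q at u0 u1 ⊢
  constructor
  · nlinarith [mul_nonneg hS0 (show 0 ≤ q - r + ρ ^ 2 by linarith),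
      mul_nonneg (sub_nonneg.2 hS1) (show 0 ≤ k + p + ρ ^ 2 by nlinarith)]
  · nlinarith [mul_nonneg hS0 (show 0 ≤ 2 * k + 2 * L * ρ ^ 2 - (q - r) by linarith),
      mul_nonneg (sub_nonneg.2 hS1) (show 0 ≤ 2 * k + 2 * L * ρ ^ 2 - (k + p) by linarith)]

theorem top_g1_comb {s x y : ℝ} (h0 : 0 ≤ s) (h1 : s ≤ 1) (hx : 0 < x) (hy : 0 < y) :
    0 < (1 - s) * x + s * y := by
  rcases h0.eq_or_lt with h | h
  · subst h; simpa using hx
  · have := mul_nonneg (sub_nonneg.2 h1) hx.le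
    have := mul_pos h hy
    linarith

theorem topV_axis {e : X} (he : ‖e‖ = 1) (c : ℝ) {k L ρ : ℝ} (hk : 0 < k) (hL : 1 ≤ L)
    (hρ : 0 < ρ) {s : ℝ} (hs : s ≠ 0) (hsρ : |s| ≤ ρ) :
    ∃ d : ℝ, 0 < d ∧ HasDerivAt (fun t : ℝ => topV e c k L ρ (t • e)) d s := by
  obtain ⟨l, hl, hev⟩ : ∃ l : ℝ, (l = 0 ∧ s < 0 ∨ l = 2 ∧ 0 < s) ∧
      ∀ᶠ t in 𝓝 s, 1 + t / |t| = l := by
    rcases hs.lt_or_gt with h | h
    · refine ⟨0, Or.inl ⟨rfl, h⟩, ?_⟩
      filter_upwards [Iio_mem_nhds h] with t ht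
      rw [abs_of_neg ht, div_neg, div_self (ne_of_lt ht)]
      ring
    · refine ⟨2, Or.inr ⟨rfl, h⟩, ?_⟩
      filter_upwards [Ioi_mem_nhds h] with t ht
      rw [abs_of_pos ht, div_self (ne_of_gt ht)]
      ring
  have hE : (fun t : ℝ => topV e c k L ρ (t • e)) =ᶠ[𝓝 s] fun t => c + k + k / ρ * t +
      Real.smoothTransition (8 * t ^ 2 / ρ ^ 2 - 1) *
        ((k + L * t ^ 2) * l - t ^ 2 - k - k / ρ * t) := by
    filter_upwards [hev] with t ht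
    rw [topV, inner_smul_right, real_inner_self_eq_norm_sq, norm_smul, he, Real.norm_eq_abs]
    simp only [one_pow, mul_one, sq_abs]
    rw [ht]
  have d1 : HasDerivAt (fun t : ℝ => 8 * t ^ 2 / ρ ^ 2 - 1) (16 * s / ρ ^ 2) s := by
    refine ((((hasDerivAt_pow 2 s).const_mul 8).div_const (ρ ^ 2)).sub_const 1).congr_deriv ?_
    norm_num
    ring
  have d2 := (top_g1_hS (8 * s ^ 2 / ρ ^ 2 - 1)).comp s d1
  have d3 : HasDerivAt (fun t : ℝ => (k + L * t ^ 2) * l - t ^ 2 - k - k / ρ * t)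
      (2 * L * s * l - 2 * s - k / ρ) s := by
    refine (((((((hasDerivAt_pow 2 s).const_mul L).const_add k).mul_const l).fun_sub
      (hasDerivAt_pow 2 s)).sub_const k).fun_sub
      ((hasDerivAt_id' s).const_mul (k / ρ))).congr_deriv ?_
    simp only [Nat.cast_ofNat, Nat.add_one_sub_one, pow_one]
    ring
  have d4 := (((hasDerivAt_id s).const_mul (k / ρ)).const_add (c + k)).add (d2.mul d3)
  refine ⟨_, ?_, d4.congr_of_eventuallyEq hE⟩
  have hS0 := Real.smoothTransition.nonneg (8 * s ^ 2 / ρ ^ 2 - 1)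
  have hS1 := Real.smoothTransition.le_one (8 * s ^ 2 / ρ ^ 2 - 1)
  have hD := top_g1_dS (8 * s ^ 2 / ρ ^ 2 - 1)
  simp only [Function.comp_def]
  generalize Real.smoothTransition (8 * s ^ 2 / ρ ^ 2 - 1) = S at hS0 hS1 ⊢
  generalize deriv Real.smoothTransition (8 * s ^ 2 / ρ ^ 2 - 1) = D at hD ⊢
  obtain ⟨hs1, hs2⟩ := abs_le.1 hsρ
  have hkρ : 0 < k / ρ := div_pos hk hρ
  have hk2 : k / ρ * ρ = k := div_mul_cancel₀ _ hρ.ne'
  have key : 0 < 2 * L * s * l - 2 * s ∧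
      0 ≤ s * ((k + L * s ^ 2) * l - s ^ 2 - k - k / ρ * s) := by
    rcases hl with ⟨rfl, h⟩ | ⟨rfl, h⟩
    · refine ⟨by linarith, mul_nonneg_of_nonpos_of_nonpos h.le ?_⟩
      nlinarith [mul_le_mul_of_nonneg_left hs1 hkρ.le]
    · refine ⟨by nlinarith, mul_nonneg h.le ?_⟩
      nlinarith [mul_le_mul_of_nonneg_left hs2 hkρ.le, mul_le_mul_of_nonneg_right hL (sq_nonneg s)]
  have e1 := top_g1_comb hS0 hS1 hkρ key.1
  have e2 : 0 ≤ D * (16 / ρ ^ 2) * (s * ((k + L * s ^ 2) * l - s ^ 2 - k - k / ρ * s)) :=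
    mul_nonneg (mul_nonneg hD (by positivity)) key.2
  have e3 : k / ρ * 1 + (D * (16 * s / ρ ^ 2) * ((k + L * s ^ 2) * l - s ^ 2 - k - k / ρ * s) +
      S * (2 * L * s * l - 2 * s - k / ρ)) = ((1 - S) * (k / ρ) + S * (2 * L * s * l - 2 * s)) +
      D * (16 / ρ ^ 2) * (s * ((k + L * s ^ 2) * l - s ^ 2 - k - k / ρ * s)) := by ring
  rw [e3]
  linarith

theorem topV_reg {e : X} (he : ‖e‖ = 1) (c : ℝ) {k L ρ : ℝ} (hk : 0 < k) (hL : 1 ≤ L)
    (hρ : 0 < ρ) {w : X} (hw : ‖w‖ ≤ ρ) : fderiv ℝ (topV e c k L ρ) w ≠ 0 := by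
  intro h0
  have hd : HasFDerivAt (topV e c k L ρ) (0 : X →L[ℝ] ℝ) w :=
    h0 ▸ ((topV_smooth e c k L ρ).differentiable (by simp) w).hasFDerivAt
  have hkρ : 0 < k / ρ := div_pos hk hρ
  by_cases hw0 : w = 0
  · subst hw0
    have h1 : HasDerivAt (fun t : ℝ => t • e) e 0 := by
      simpa using (hasDerivAt_id (0 : ℝ)).smul_const e
    have h2 := (hd.congr_of_eventuallyEq (topV_zero e c k L).symm)
    have h3 := HasFDerivAt.comp_hasDerivAt (0 : ℝ) (f := fun t : ℝ => t • e)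
      (l := fun w => c + k + k / ρ * ⟪e, w⟫) (l' := 0) (by rwa [zero_smul]) h1
    have h4 : HasDerivAt (fun t : ℝ => c + k + k / ρ * t) (k / ρ * 1) 0 :=
      ((hasDerivAt_id (0 : ℝ)).const_mul (k / ρ)).const_add (c + k)
    have h5 : ((fun w => c + k + k / ρ * ⟪e, w⟫) ∘ fun t : ℝ => t • e) =
        fun t : ℝ => c + k + k / ρ * t := by
      funext t
      simp [inner_smul_right, he]
    rw [h5] at h3
    have := h3.unique h4
    simp only [zero_apply, mul_one] at this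
    exact hkρ.ne this
  by_cases h : w = ⟪e, w⟫ • e
  · have hs : ⟪e, w⟫ ≠ 0 := fun h1 => hw0 (by rw [h, h1, zero_smul])
    have hs' : |⟪e, w⟫| ≤ ρ := le_trans (by simpa [he] using abs_real_inner_le_norm e w) hw
    obtain ⟨d, hd0, hd1⟩ := topV_axis he c hk hL hρ hs hs'
    have h1 : HasDerivAt (fun t : ℝ => t • e) e ⟪e, w⟫ := by
      simpa using (hasDerivAt_id ⟪e, w⟫).smul_const e
    have h3 := HasFDerivAt.comp_hasDerivAt ⟪e, w⟫ (f := fun t : ℝ => t • e) (h ▸ hd) h1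
    have := h3.unique hd1
    simp only [zero_apply] at this
    exact hd0.ne this
  · obtain ⟨n, hn, ho, hp⟩ := top_g1_dir he hw0 h
    have hR : 0 < ‖w‖ := norm_pos_iff.2 hw0
    have h1 := top_g1_circ_der w n
    have h3 := HasFDerivAt.comp_hasDerivAt (0 : ℝ)
      (f := fun t : ℝ => Real.cos t • w + Real.sin t • n) (by simpa using hd) h1
    set S := Real.smoothTransition (8 * ‖w‖ ^ 2 / ρ ^ 2 - 1) with hS
    have h4 : HasDerivAt (fun t : ℝ => ⟪e, Real.cos t • w + Real.sin t • n⟫) ⟪e, n⟫ 0 := by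
      simpa using (hasDerivAt_const (0 : ℝ) e).inner ℝ h1
    have h5 := (h4.const_mul ((1 - S) * (k / ρ) + S * ((k + L * ‖w‖ ^ 2) / ‖w‖))).const_add
      (c + k + S * ((k + L * ‖w‖ ^ 2) - ‖w‖ ^ 2 - k))
    have h6 : (topV e c k L ρ ∘ fun t : ℝ => Real.cos t • w + Real.sin t • n) = fun t =>
        c + k + S * ((k + L * ‖w‖ ^ 2) - ‖w‖ ^ 2 - k) +
          ((1 - S) * (k / ρ) + S * ((k + L * ‖w‖ ^ 2) / ‖w‖)) *
            ⟪e, Real.cos t • w + Real.sin t • n⟫ := by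
      funext t
      rw [Function.comp_apply, topV, top_g1_circ rfl hn ho t, ← hS]
      ring
    rw [h6] at h3
    have h7 := h3.unique h5
    simp only [zero_apply] at h7
    have h8 : 0 < (k + L * ‖w‖ ^ 2) / ‖w‖ := by positivity
    exact (mul_pos (top_g1_comb (Real.smoothTransition.nonneg _)
      (Real.smoothTransition.le_one _) hkρ h8) hp).ne h7

end Pool.Agent.Lib.MP_ccffa6_gt
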