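import Pool.Agent.Lib.MP_ccffa6_gt.TOP.G1a

/-! The new function on the tube: first and second derivatives. -/

open Set Filter Topology Metric
open scoped ContDiff RealInnerProductSpace

noncomputable section

namespace Pool.Agent.Lib.MP_ccffa6_gt

variable {X Y : Type} [NormedAddCommGroup X] [InnerProductSpace ℝ X]
  [NormedAddCommGroup Y] [InnerProductSpace ℝ Y]

/-- The model function near the core. -/
def topU (e : X) (c k L : ℝ) (q : X × Y) : ℝ :=
  c + k * (1 + ⟪e, q.1⟫) - ‖q.2‖ ^ 2 + L * (1 + ⟪e, q.1⟫) * ‖q.2‖ ^ 2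

/-- The new function on the tube. -/
def topG (F : X × Y → ℝ) (e : X) (c k L ρ : ℝ) (q : X × Y) : ℝ :=
  topU e c k L q + Real.smoothTransition (‖q.2‖ ^ 2 / ρ ^ 2 - 1) * (F q - topU e c k L q)

theorem topU_smooth (e : X) (c k L : ℝ) : ContDiff ℝ ∞ (topU e c k L : X × Y → ℝ) := by
  have hi : ContDiff ℝ ∞ fun q : X × Y => 1 + ⟪e, q.1⟫ :=
    contDiff_const.add (contDiff_const.inner ℝ contDiff_fst)
  have hq : ContDiff ℝ ∞ fun q : X × Y => ‖q.2‖ ^ 2 := (contDiff_norm_sq ℝ).comp contDiff_snd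
  exact ((contDiff_const.add (contDiff_const.mul hi)).sub hq).add ((contDiff_const.mul hi).mul hq)

theorem topG_smooth {F : X × Y → ℝ} (hF : ContDiff ℝ ∞ F) (e : X) (c k L ρ : ℝ) :
    ContDiff ℝ ∞ (topG F e c k L ρ) := by
  have hq : ContDiff ℝ ∞ fun q : X × Y => ‖q.2‖ ^ 2 := (contDiff_norm_sq ℝ).comp contDiff_snd
  exact (topU_smooth e c k L).add ((Real.smoothTransition.contDiff.comp
    ((hq.div_const _).sub contDiff_const)).mul (hF.sub (topU_smooth e c k L)))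

omit [InnerProductSpace ℝ Y] in
theorem topG_out (F : X × Y → ℝ) (e : X) (c k L : ℝ) {ρ : ℝ} (hρ : 0 < ρ) {q : X × Y}
    (hq : 3 / 2 * ρ ≤ ‖q.2‖) : topG F e c k L ρ q = F q := by
  have h : 1 ≤ ‖q.2‖ ^ 2 / ρ ^ 2 - 1 := by
    rw [le_sub_iff_add_le, le_div_iff₀ (by positivity)]
    nlinarith
  rw [topG, Real.smoothTransition.one_of_one_le h]
  ring

omit [InnerProductSpace ℝ Y] in
theorem topG_in (F : X × Y → ℝ) (e : X) (c k L : ℝ) {ρ : ℝ} (hρ : 0 < ρ) {q : X × Y}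
    (hq : ‖q.2‖ ≤ ρ) : topG F e c k L ρ q = topU e c k L q := by
  have h : ‖q.2‖ ^ 2 / ρ ^ 2 - 1 ≤ 0 := by
    rw [sub_nonpos, div_le_one (by positivity)]
    exact pow_le_pow_left₀ (norm_nonneg _) hq 2
  rw [topG, Real.smoothTransition.zero_of_nonpos h, zero_mul, add_zero]

theorem top_g1_line {Z : Type} [NormedAddCommGroup Z] [NormedSpace ℝ Z] (q p : Z) (t : ℝ) :
    HasDerivAt (fun s : ℝ => q + s • p) p t := by
  simpa using ((hasDerivAt_id t).smul_const p).const_add q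

theorem top_g1_lineF {Z V : Type} [NormedAddCommGroup Z] [NormedSpace ℝ Z] [NormedAddCommGroup V]
    [NormedSpace ℝ V] {F : Z → V} (hF : Differentiable ℝ F) (q p : Z) :
    HasDerivAt (fun s : ℝ => F (q + s • p)) (fderiv ℝ F q p) 0 := by
  have h := HasFDerivAt.comp_hasDerivAt (0 : ℝ) (f := fun s : ℝ => q + s • p) (l := F)
    (l' := fderiv ℝ F q) (by rw [zero_smul, add_zero]; exact (hF q).hasFDerivAt)
    (top_g1_line q p 0)
  exact h

theorem top_g1_dd {Z : Type} [NormedAddCommGroup Z] [NormedSpace ℝ Z] {H : Z → ℝ}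
    (hH : ContDiff ℝ ∞ H) (q v : Z) : HasDerivAt (fun s : ℝ => fderiv ℝ H (q + s • v) v)
      (fderiv ℝ (fderiv ℝ H) q v v) 0 := by
  have h1 : Differentiable ℝ (fderiv ℝ H) :=
    (hH.fderiv_right (m := 1) (by norm_cast)).differentiable (by simp)
  have h2 := top_g1_lineF h1 q v
  exact (ContinuousLinearMap.apply ℝ ℝ v).hasFDerivAt.comp_hasDerivAt (0 : ℝ) h2

theorem top_g1_dsq (q p : X × Y) :
    HasDerivAt (fun s : ℝ => ‖(q + s • p).2‖ ^ 2) (2 * ⟪q.2, p.2⟫) 0 := by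
  have h := (top_g1_line q.2 p.2 0).norm_sq
  rw [zero_smul, add_zero] at h
  exact h

theorem topU_fderiv (e : X) (c k L : ℝ) (q p : X × Y) :
    fderiv ℝ (topU e c k L) q p = (k + L * ‖q.2‖ ^ 2) * ⟪e, p.1⟫ +
      2 * (L * (1 + ⟪e, q.1⟫) - 1) * ⟪q.2, p.2⟫ := by
  have h0 := top_g1_lineF ((topU_smooth e c k L).differentiable (by simp)) q p
  have h1 : HasDerivAt (fun s : ℝ => 1 + ⟪e, (q + s • p).1⟫) ⟪e, p.1⟫ 0 := by
    have := ((hasDerivAt_const (0 : ℝ) e).inner ℝ (top_g1_line q.1 p.1 0)).const_add 1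
    rw [inner_zero_left, add_zero] at this
    exact this
  have h2 := top_g1_dsq q p
  have h3 := (((h1.const_mul k).const_add c).fun_sub h2).fun_add ((h1.const_mul L).fun_mul h2)
  rw [h0.unique h3, zero_smul, add_zero]
  ring

theorem topG_fderiv {F : X × Y → ℝ} (hF : ContDiff ℝ ∞ F) (e : X) (c k L ρ : ℝ) (q p : X × Y) :
    fderiv ℝ (topG F e c k L ρ) q p =
      (1 - Real.smoothTransition (‖q.2‖ ^ 2 / ρ ^ 2 - 1)) * fderiv ℝ (topU e c k L) q p +
      Real.smoothTransition (‖q.2‖ ^ 2 / ρ ^ 2 - 1) * fderiv ℝ F q p +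
      2 * (deriv Real.smoothTransition (‖q.2‖ ^ 2 / ρ ^ 2 - 1) / ρ ^ 2) *
        (F q - topU e c k L q) * ⟪q.2, p.2⟫ := by
  have h0 := top_g1_lineF ((topG_smooth hF e c k L ρ).differentiable (by simp)) q p
  have h1 := top_g1_lineF ((topU_smooth e c k L).differentiable (by simp)) q p
  have h2 := top_g1_lineF (hF.differentiable (by simp)) q p
  have h3 := ((top_g1_dsq q p).div_const (ρ ^ 2)).sub_const 1
  have h4 := (top_g1_hS _).comp (0 : ℝ) h3
  have h5 := h1.fun_add (h4.fun_mul (h2.fun_sub h1))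
  rw [h0.unique h5]
  simp only [Function.comp_def, zero_smul, add_zero]
  ring

/-- The second derivative in a direction of the second factor normal to the point. -/
theorem topG_second {F : X × Y → ℝ} (hF : ContDiff ℝ ∞ F) (e : X) (c k L ρ : ℝ) (σ : X)
    {y z : Y} (ho : ⟪y, z⟫ = 0) :
    fderiv ℝ (fderiv ℝ (topG F e c k L ρ)) (σ, y) (0, z) (0, z) =
      ‖z‖ ^ 2 * (2 * (1 - Real.smoothTransition (‖y‖ ^ 2 / ρ ^ 2 - 1)) * (L * (1 + ⟪e, σ⟫) - 1) +
        2 * (deriv Real.smoothTransition (‖y‖ ^ 2 / ρ ^ 2 - 1) / ρ ^ 2) *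
          (F (σ, y) - topU e c k L (σ, y))) +
      Real.smoothTransition (‖y‖ ^ 2 / ρ ^ 2 - 1) *
        fderiv ℝ (fderiv ℝ F) (σ, y) (0, z) (0, z) := by
  have dd : ∀ {H : X × Y → ℝ}, ContDiff ℝ ∞ H → HasDerivAt
      (fun s : ℝ => fderiv ℝ H ((σ, y) + s • ((0 : X), z)) (0, z))
      (fderiv ℝ (fderiv ℝ H) (σ, y) (0, z) (0, z)) 0 := fun {H} hH => top_g1_dd hH _ _
  have h1 := top_g1_lineF ((topU_smooth e c k L).differentiable (by simp)) (σ, y) (0, z)
  have h2 := top_g1_lineF (hF.differentiable (by simp)) (σ, y) (0, z)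
  have h3 := ((top_g1_dsq (σ, y) ((0 : X), z)).div_const (ρ ^ 2)).sub_const 1
  have h4 := (top_g1_hS _).comp (0 : ℝ) h3
  have hS2 : Differentiable ℝ (deriv Real.smoothTransition) :=
    ((contDiff_infty_iff_deriv.1 Real.smoothTransition.contDiff).2).differentiable (by simp)
  have h5 := (hS2 _).hasDerivAt.comp (0 : ℝ) h3
  have h6 : HasDerivAt (fun s : ℝ => s * ‖z‖ ^ 2) (‖z‖ ^ 2) 0 := by
    simpa using (hasDerivAt_id (0 : ℝ)).mul_const (‖z‖ ^ 2)
  have h7 := (((h4.const_sub 1).fun_mul (h6.const_mul (2 * (L * (1 + ⟪e, σ⟫) - 1)))).fun_add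
    (h4.fun_mul (dd hF))).fun_add
    ((((h5.div_const (ρ ^ 2)).const_mul 2).fun_mul (h2.fun_sub h1)).fun_mul h6)
  have h8 := (dd (topG_smooth hF e c k L ρ)).unique (h7.congr_of_eventuallyEq
    (Eventually.of_forall fun s => by
      have e1 : ⟪((σ, y) + s • ((0 : X), z)).2, z⟫ = s * ‖z‖ ^ 2 := by
        simp [inner_add_left, inner_smul_left, ho]
      have e2 : ((σ, y) + s • ((0 : X), z)).1 = σ := by simp
      simp only [topG_fderiv hF, topU_fderiv, e1, e2, Function.comp_def, inner_zero_right,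
        mul_zero, zero_add]))
  rw [h8]
  simp only [Function.comp_def, zero_smul, add_zero, ho, mul_zero, zero_div, zero_mul, neg_zero,
    zero_add]
  ring

end Pool.Agent.Lib.MP_ccffa6_gt
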