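import Pool.Agent.Lib.MP_ccffa6_gt.TOP.MDefs
import Pool.Agent.Lib.MP_ccffa6_gt.K.Tan
import Pool.Agent.Lib.MP_ccffa6_gt.K.Ext

/-! Null sets and countable covers by images of low dimensional spaces. -/

open Set Filter Topology MeasureTheory
open scoped ContDiff

noncomputable section

namespace Pool.Agent.Lib.MP_ccffa6_gt

variable {E : Type} [NormedAddCommGroup E] [NormedSpace ℝ E] [FiniteDimensional ℝ E]
  {F : Type} [NormedAddCommGroup F] [NormedSpace ℝ F] [FiniteDimensional ℝ F]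

theorem Thin.empty : Thin (∅ : Set E) := ⟨fun _ _ => measure_empty⟩

theorem Thin.mono {A B : Set E} (h : Thin B) (hAB : A ⊆ B) : Thin A :=
  ⟨fun μ _ => measure_mono_null hAB (h.null μ)⟩

theorem Thin.union {A B : Set E} (hA : Thin A) (hB : Thin B) : Thin (A ∪ B) :=
  ⟨fun μ _ => measure_union_null (hA.null μ) (hB.null μ)⟩

theorem Thin.iUnion {ι : Type} [Countable ι] {A : ι → Set E} (h : ∀ i, Thin (A i)) :
    Thin (⋃ i, A i) := ⟨fun μ _ => measure_iUnion_null fun i => (h i).null μ⟩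

theorem Thin.biUnion {ι : Type} {s : Set ι} (hs : s.Countable) {A : ι → Set E}
    (h : ∀ i ∈ s, Thin (A i)) : Thin (⋃ i ∈ s, A i) :=
  ⟨fun μ _ => (measure_biUnion_null_iff hs).2 fun i hi => (h i hi).null μ⟩

/-- A null set misses a point of every neighbourhood. -/
theorem Thin.exists_notMem {B U : Set E} (h : Thin B) {x : E} (hU : U ∈ 𝓝 x) :
    ∃ p ∈ U, p ∉ B := by
  borelize E
  by_contra hc
  have h1 : U ⊆ B := fun p hp => by
    by_contra hb
    exact hc ⟨p, hp, hb⟩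
  exact (Measure.measure_pos_of_mem_nhds Measure.addHaar hU).ne'
    (measure_mono_null h1 (h.null Measure.addHaar))

theorem Thin.exists_of_eventually {B : Set E} (h : Thin B) {x : E} {Q : E → Prop}
    (hQ : ∀ᶠ p in 𝓝 x, Q p) : ∃ p, Q p ∧ p ∉ B := h.exists_notMem hQ

/-- Local to global. -/
theorem Thin.of_local {Z : Set F} {g : F → E}
    (h : ∀ z ∈ Z, ∃ U ∈ 𝓝[Z] z, Thin (g '' U)) : Thin (g '' Z) := by
  choose! U hU hT using h
  obtain ⟨s, hs, hc, hZ⟩ := TopologicalSpace.countable_cover_nhdsWithin hU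
  have h1 : Thin (⋃ i ∈ s, g '' U i) := Thin.biUnion hc fun i hi => hT i (hs hi)
  refine h1.mono ?_
  rw [← image_iUnion₂]
  exact image_mono hZ

theorem top_gp0_sard {U : Set F} (hU : IsOpen U) {g : F → E} (hg : ContDiffOn ℝ 1 g U)
    (hd : Module.finrank ℝ F = Module.finrank ℝ E) :
    Thin (g '' {z | z ∈ U ∧ ¬ Function.Injective (fderiv ℝ g z)}) := by
  refine ⟨fun μ _ => ?_⟩
  let L : E ≃L[ℝ] F := ContinuousLinearEquiv.ofFinrankEq hd.symm
  have h1 : g '' {p | p ∈ U ∧ ¬ Function.Injective (fderiv ℝ g p)} =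
      (g ∘ L) '' (L ⁻¹' {p | p ∈ U ∧ ¬ Function.Injective (fderiv ℝ g p)}) := by
    rw [Set.image_comp, Set.image_preimage_eq _ L.surjective]
  rw [h1]
  refine addHaar_image_eq_zero_of_det_fderivWithin_eq_zero μ
    (f' := fun x => (fderiv ℝ g (L x)).comp (L : E →L[ℝ] F)) ?_ ?_
  · intro x hx
    have h2 : DifferentiableAt ℝ g (L x) :=
      (hg.differentiableOn one_ne_zero).differentiableAt (hU.mem_nhds hx.1)
    exact (h2.hasFDerivAt.comp x L.hasFDerivAt).hasFDerivWithinAt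
  · intro x hx
    rw [ContinuousLinearMap.det, LinearMap.det_eq_zero_iff_ker_ne_bot]
    intro h3
    rw [LinearMap.ker_eq_bot] at h3
    apply hx.2
    have h4 : Function.Injective ((fderiv ℝ g (L x)) ∘ L) := h3
    exact (Function.Injective.of_comp_iff' _ L.bijective).1 h4

/-- A differentiable image of a set of lower dimension is null. -/
theorem Thin.image {U : Set F} (hU : IsOpen U) {g : F → E} (hg : ContDiffOn ℝ 1 g U)
    (hd : Module.finrank ℝ F < Module.finrank ℝ E) : Thin (g '' U) := by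
  obtain ⟨k, hk⟩ := Nat.exists_eq_add_of_lt hd
  have h1 : Module.finrank ℝ (F × (Fin (k + 1) → ℝ)) = Module.finrank ℝ E := by
    rw [Module.finrank_prod, Module.finrank_fin_fun, hk, add_assoc]
  have h2 : ContDiffOn ℝ 1 (g ∘ (Prod.fst : F × (Fin (k + 1) → ℝ) → F)) (Prod.fst ⁻¹' U) :=
    hg.comp contDiffOn_fst fun _ hz => hz
  refine (top_gp0_sard (hU.preimage continuous_fst) h2 h1).mono ?_
  rintro _ ⟨z, hz, rfl⟩
  refine ⟨(z, 0), ⟨hz, fun hi => ?_⟩, rfl⟩
  have h3 : DifferentiableAt ℝ g z :=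
    (hg.differentiableOn one_ne_zero).differentiableAt (hU.mem_nhds hz)
  have h4 : HasFDerivAt (g ∘ (Prod.fst : F × (Fin (k + 1) → ℝ) → F))
      ((fderiv ℝ g z).comp (ContinuousLinearMap.fst ℝ F (Fin (k + 1) → ℝ))) (z, 0) :=
    HasFDerivAt.comp (z, 0) (g := g) h3.hasFDerivAt hasFDerivAt_fst
  rw [h4.fderiv] at hi
  have h5 : ((0, 1) : F × (Fin (k + 1) → ℝ)) = (0, 0) := hi rfl
  exact one_ne_zero (congrArg Prod.snd h5)

/-- Sard's lemma in equal dimensions. -/
theorem Thin.sard {U : Set F} (hU : IsOpen U) {g : F → E} (hg : ContDiffOn ℝ 1 g U)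
    (hd : Module.finrank ℝ F = Module.finrank ℝ E) :
    Thin (g '' {z | z ∈ U ∧ ¬ Function.Injective (fderiv ℝ g z)}) := top_gp0_sard hU hg hd

end Pool.Agent.Lib.MP_ccffa6_gt
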