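import Pool.Agent.Lib.MP_ccffa6_gt.TOP.GP0

/-! Null sets and countable covers by images of low dimensional spaces. -/

open Set Filter Topology MeasureTheory
open scoped ContDiff

noncomputable section

namespace Pool.Agent.Lib.MP_ccffa6_gt

variable {E : Type} [NormedAddCommGroup E] [NormedSpace ℝ E] [FiniteDimensional ℝ E]
  {F : Type} [NormedAddCommGroup F] [NormedSpace ℝ F] [FiniteDimensional ℝ F]

omit [FiniteDimensional ℝ E] in
theorem Cov.mono {a : ℕ} {S S' : Set E} (h : Cov a S') (hS : S ⊆ S') : Cov a S := by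
  obtain ⟨φ, h1, h2⟩ := h
  exact ⟨φ, h1, hS.trans h2⟩

theorem top_gp1_surj {a : ℕ} (hd : Module.finrank ℝ F ≤ a) :
    ∃ L : Rd a →L[ℝ] F, Function.Surjective L := by
  obtain ⟨f, hf⟩ := (finrank_le_iff_exists_linearMap (R := ℝ) (M := F) (M' := Rd a)).1
    (by simpa using hd)
  obtain ⟨g, hg⟩ := f.exists_leftInverse_of_injective (LinearMap.ker_eq_bot.2 hf)
  exact ⟨LinearMap.toContinuousLinearMap g, fun y => ⟨f y, LinearMap.congr_fun hg y⟩⟩

omit [FiniteDimensional ℝ E] in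
/-- Covers indexed by any countable type and modelled on any space of dimension at most `a`. -/
theorem Cov.of_family {a : ℕ} {S : Set E} {ι : Type} [Countable ι] {φ : ι → F → E}
    (hd : Module.finrank ℝ F ≤ a) (hφ : ∀ i, ContDiff ℝ 1 (φ i)) (hS : S ⊆ ⋃ i, range (φ i)) :
    Cov a S := by
  obtain ⟨L, hL⟩ := top_gp1_surj hd
  rcases isEmpty_or_nonempty ι with hι | hι
  · exact ⟨fun _ _ => 0, fun _ => contDiff_const, hS.trans (by simp)⟩
  obtain ⟨e, he⟩ := exists_surjective_nat ι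
  refine ⟨fun n => φ (e n) ∘ L, fun n => (hφ _).comp L.contDiff, fun x hx => ?_⟩
  obtain ⟨i, z, rfl⟩ := mem_iUnion.1 (hS hx)
  obtain ⟨n, rfl⟩ := he i
  obtain ⟨w, rfl⟩ := hL z
  exact mem_iUnion.2 ⟨n, w, rfl⟩

omit [FiniteDimensional ℝ E] in
theorem top_gp1_range {a : ℕ} {φ : F → E} (hd : Module.finrank ℝ F ≤ a) (hφ : ContDiff ℝ 1 φ) :
    Cov a (range φ) :=
  Cov.of_family (ι := Unit) (φ := fun _ => φ) hd (fun _ => hφ) (subset_iUnion (fun _ => range φ) ())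

omit [FiniteDimensional ℝ E] in
theorem Cov.le {a b : ℕ} {S : Set E} (h : Cov a S) (hab : a ≤ b) : Cov b S := by
  obtain ⟨φ, h1, h2⟩ := h
  exact Cov.of_family (by simpa using hab) h1 h2

theorem Cov.univ {a : ℕ} (h : Module.finrank ℝ E ≤ a) : Cov a (univ : Set E) :=
  (top_gp1_range h contDiff_id).mono fun x _ => ⟨x, rfl⟩

omit [FiniteDimensional ℝ E] in
theorem Cov.of_countable {a : ℕ} {S : Set E} (h : S.Countable) : Cov a S := by
  have := h.to_subtype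
  exact Cov.of_family (ι := S) (F := Rd a) (φ := fun i _ => i) (by simp) (fun _ => contDiff_const)
    fun x hx => mem_iUnion.2 ⟨⟨x, hx⟩, 0, rfl⟩

omit [FiniteDimensional ℝ E] in
theorem top_gp1_iUnion {a : ℕ} {ι : Type} [Countable ι] {S : ι → Set E} (h : ∀ i, Cov a (S i)) :
    Cov a (⋃ i, S i) := by
  choose φ h1 h2 using h
  refine Cov.of_family (ι := ι × ℕ) (φ := fun q => φ q.1 q.2) (by simp) (fun q => h1 _ _)
    fun x hx => ?_
  obtain ⟨i, hi⟩ := mem_iUnion.1 hx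
  obtain ⟨n, hn⟩ := mem_iUnion.1 (h2 i hi)
  exact mem_iUnion.2 ⟨(i, n), hn⟩

omit [FiniteDimensional ℝ E] in
theorem Cov.union {a : ℕ} {S S' : Set E} (h : Cov a S) (h' : Cov a S') : Cov a (S ∪ S') := by
  rw [union_eq_iUnion]
  exact top_gp1_iUnion fun b => by cases b <;> assumption

omit [FiniteDimensional ℝ E] in
theorem Cov.iUnion {a : ℕ} {ι : Type} [Countable ι] {S : ι → Set E} (h : ∀ i, Cov a (S i)) :
    Cov a (⋃ i, S i) := top_gp1_iUnion h

omit [FiniteDimensional ℝ E] [FiniteDimensional ℝ F] in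
theorem Cov.image {a : ℕ} {S : Set E} (h : Cov a S) {g : E → F} (hg : ContDiff ℝ 1 g) :
    Cov a (g '' S) := by
  obtain ⟨φ, h1, h2⟩ := h
  refine ⟨fun n => g ∘ φ n, fun n => hg.comp (h1 n), ?_⟩
  rintro _ ⟨x, hx, rfl⟩
  obtain ⟨n, z, rfl⟩ := mem_iUnion.1 (h2 hx)
  exact mem_iUnion.2 ⟨n, z, rfl⟩

omit [FiniteDimensional ℝ E] [FiniteDimensional ℝ F] in
theorem Cov.prod {a b : ℕ} {S : Set E} {S' : Set F} (h : Cov a S) (h' : Cov b S') :
    Cov (a + b) (S ×ˢ S') := by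
  obtain ⟨φ, h1, h2⟩ := h
  obtain ⟨ψ, h3, h4⟩ := h'
  refine Cov.of_family (ι := ℕ × ℕ) (F := Rd a × Rd b) (φ := fun q => Prod.map (φ q.1) (ψ q.2))
    (by simp) (fun q => (h1 _).prodMap (h3 _)) fun x hx => ?_
  obtain ⟨i, z, hz⟩ := mem_iUnion.1 (h2 hx.1)
  obtain ⟨j, w, hw⟩ := mem_iUnion.1 (h4 hx.2)
  exact mem_iUnion.2 ⟨(i, j), (z, w), Prod.ext hz hw⟩

theorem Cov.of_local {a : ℕ} {S : Set E} (h : ∀ x ∈ S, ∃ U ∈ 𝓝[S] x, Cov a U) : Cov a S := by
  choose! U h1 h2 using h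
  obtain ⟨t, ht, hc, hs⟩ := TopologicalSpace.countable_cover_nhdsWithin h1
  have := hc.to_subtype
  refine (Cov.iUnion (ι := t) (S := fun i => U i) fun i => h2 _ (ht i.2)).mono ?_
  rwa [iUnion_coe_set]

theorem IsSub.cov {d : ℕ} {S : Set E} (h : IsSub d S) : Cov d S := by
  refine Cov.of_local fun x hx => ?_
  obtain ⟨φ, ψ, c⟩ := h x hx
  exact ⟨range φ, c.left.mono fun y hy => ⟨_, hy⟩,
    top_gp1_range (by simp) (c.smφ.of_le (by exact_mod_cast le_top))⟩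

/-- The tangent bundle: `(z, u) ↦ (φ z, Dφ z u)` in a chart. -/
theorem IsSub.cov_tan {d : ℕ} {S : Set E} (h : IsSub d S) :
    Cov (d + d) {q : E × E | q.1 ∈ S ∧ q.2 ∈ Tan S q.1} := by
  refine Cov.of_local fun q hq => ?_
  obtain ⟨φ, ψ, c⟩ := h q.1 hq.1
  have h1 : ContDiff ℝ 1 fun p : Rd d × Rd d => (φ p.1, fderiv ℝ φ p.1 p.2) :=
    ((c.smφ.of_le (by exact_mod_cast le_top)).comp contDiff_fst).prodMk
      (((c.smφ.fderiv_right (m := 1) (by norm_cast)).comp contDiff_fst).clm_apply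
        contDiff_snd)
  refine ⟨_, ?_, top_gp1_range (by simp) h1⟩
  have h2 : Tendsto Prod.fst (𝓝[{q : E × E | q.1 ∈ S ∧ q.2 ∈ Tan S q.1}] q) (𝓝[S] q.1) :=
    continuous_fst.continuousWithinAt.tendsto_nhdsWithin fun p hp => hp.1
  filter_upwards [h2.eventually c.eventually, self_mem_nhdsWithin] with p c' hp
  obtain ⟨z, hz⟩ := (c'.mem_tan hp.1 _).1 hp.2
  exact ⟨(ψ p.1, z), Prod.ext (c'.self hp.1) hz⟩

/-- The unit sphere. -/
theorem Cov.sphere (j : ℕ) : Cov j (Metric.sphere (0 : Rd (j + 1)) 1) := by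
  have hv : ‖(EuclideanSpace.single 0 1 : Rd (j + 1))‖ = 1 := by simp
  generalize (EuclideanSpace.single 0 1 : Rd (j + 1)) = v at hv
  have : Fact (Module.finrank ℝ (Rd (j + 1)) = j + 1) := ⟨by simp⟩
  have hd : Module.finrank ℝ (ℝ ∙ v)ᗮ = j :=
    Submodule.finrank_orthogonal_span_singleton (by rintro rfl; simp at hv)
  have h1 : ContDiff ℝ 1 fun w : (ℝ ∙ v)ᗮ => stereoInvFunAux v w :=
    contDiff_stereoInvFunAux.comp (ℝ ∙ v)ᗮ.subtypeL.contDiff
  refine ((top_gp1_range hd.le h1).union (Cov.of_countable (countable_singleton v))).mono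
    fun x hx => ?_
  by_cases e : x = v
  · exact Or.inr e
  · exact Or.inl ⟨stereoToFun v x, congrArg Subtype.val (stereo_left_inv hv (x := ⟨x, hx⟩) e)⟩

theorem Cov.thin {a : ℕ} {S : Set E} (h : Cov a S) (ha : a < Module.finrank ℝ E) : Thin S := by
  obtain ⟨φ, h1, h2⟩ := h
  refine Thin.mono (Thin.iUnion fun i => ?_) h2
  rw [← image_univ]
  exact Thin.image isOpen_univ (h1 i).contDiffOn (by simpa using ha)

/-- A continuous map on a closed part of a space of lower dimension is close to a smooth map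
without zeros. -/
theorem top_avoid {A : Set F} (hA : IsClosed A) {u : F → E} (hu : ContinuousOn u A)
    (hd : Module.finrank ℝ F < Module.finrank ℝ E) {ε : ℝ} (hε : 0 < ε) :
    ∃ g : F → E, ContDiff ℝ ∞ g ∧ (∀ x ∈ A, ‖g x - u x‖ < ε) ∧ ∀ x, g x ≠ 0 := by
  obtain ⟨g, h1, h2, -⟩ := exists_smooth_approx (h := fun _ => 0) hA isClosed_empty hu
    contDiff_const (by simp) (half_pos hε)
  have h0 : Thin (range g) :=
    Cov.thin (top_gp1_range le_rfl (h1.of_le (by exact_mod_cast le_top))) hd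
  obtain ⟨p, hp, hp'⟩ := Thin.exists_notMem h0 (Metric.ball_mem_nhds (0 : E) (half_pos hε))
  refine ⟨fun x => g x - p, h1.sub contDiff_const, fun x hx => ?_,
    fun x hx => hp' ⟨x, sub_eq_zero.1 hx⟩⟩
  have h3 := norm_sub_le (g x - u x) p
  have h4 := mem_ball_zero_iff.1 hp
  have h5 := h2 x hx
  rw [sub_right_comm]
  linarith

end Pool.Agent.Lib.MP_ccffa6_gt
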