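import Pool.Agent.Lib.MP_ccffa6_gt.TOP.MDefs
import Pool.Agent.Lib.MP_ccffa6_gt.K.Level

/-! Critical points, Hessians and Morse charts. -/

open Set Filter Topology
open scoped ContDiff

noncomputable section

namespace Pool.Agent.Lib.MP_ccffa6_gt

variable {E : Type} [NormedAddCommGroup E] [NormedSpace ℝ E] [FiniteDimensional ℝ E]
  {E' : Type} [NormedAddCommGroup E'] [NormedSpace ℝ E'] [FiniteDimensional ℝ E']
  {F : Type} [NormedAddCommGroup F] [NormedSpace ℝ F] [FiniteDimensional ℝ F]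
  {P : Type} [NormedAddCommGroup P] [NormedSpace ℝ P] [FiniteDimensional ℝ P]

theorem Chart.crit_iff {W : Set E} {x : E} {φ : F → E} {ψ : E → F} (h : Chart W x φ ψ)
    (hx : x ∈ W) {f : E → ℝ} (hf : DifferentiableAt ℝ f x) :
    Crit W f x ↔ fderiv ℝ (f ∘ φ) (ψ x) = 0 := by
  rw [fderiv_comp _ (by rwa [h.self hx]) (h.smφ.differentiable (by simp) _), h.self hx]
  refine ⟨fun hc => ContinuousLinearMap.ext fun z => hc _ ((h.mem_tan hx _).2 ⟨z, rfl⟩),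
    fun hc v hv => ?_⟩
  obtain ⟨z, rfl⟩ := (h.mem_tan hx v).1 hv
  exact DFunLike.congr_fun hc z

theorem Crit.congr {W : Set E} {f g : E → ℝ} {x : E} (h : Crit W f x) (hx : x ∈ W)
    (hf : DifferentiableAt ℝ f x) (hg : DifferentiableAt ℝ g x) (he : g =ᶠ[𝓝[W] x] f) :
    Crit W g x := fun v hv => (Tan.fderiv_congr hx hg hf he hv).trans (h v hv)

theorem top_mcha_two : (2 : WithTop ℕ∞) ≤ ∞ := WithTop.coe_le_coe.2 (le_top : (2 : ℕ∞) ≤ ⊤)

theorem top_mcha_ev {g : F → E} {z : F} (hg : ContDiffAt ℝ 2 g z) :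
    ∀ᶠ y in 𝓝 z, DifferentiableAt ℝ g y :=
  (hg.eventually (by simp)).mono fun _ h => h.differentiableAt (by simp)

theorem top_mcha_fd {g : F → E} {z : F} (hg : ContDiffAt ℝ 2 g z) :
    HasFDerivAt (fderiv ℝ g) (fderiv ℝ (fderiv ℝ g) z) z :=
  ((hg.fderiv_right (m := 1) (by norm_num)).differentiableAt (by simp)).hasFDerivAt

/-- Chain rule for the Hessian at a critical point. -/
theorem top_hess_comp {g : F → ℝ} {γ : E → F} {z : E} (hg : ContDiffAt ℝ 2 g (γ z))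
    (hγ : ContDiffAt ℝ 2 γ z) (h : fderiv ℝ g (γ z) = 0) (u v : E) :
    fderiv ℝ (fderiv ℝ (g ∘ γ)) z u v =
      fderiv ℝ (fderiv ℝ g) (γ z) (fderiv ℝ γ z u) (fderiv ℝ γ z v) := by
  have h1 : fderiv ℝ (g ∘ γ) =ᶠ[𝓝 z] fun y => (fderiv ℝ g (γ y)).comp (fderiv ℝ γ y) := by
    filter_upwards [hγ.continuousAt.eventually (top_mcha_ev hg), top_mcha_ev hγ] with y h1 h2
    exact fderiv_comp y h1 h2
  have h2 := ((top_mcha_fd hg).comp z (hγ.differentiableAt (by simp)).hasFDerivAt).clm_comp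
    (top_mcha_fd hγ)
  rw [h1.fderiv_eq, show fderiv ℝ (fun y => (fderiv ℝ g (γ y)).comp (fderiv ℝ γ y)) z = _ from
    h2.fderiv]
  simp [h]

/-- The Hessian along a line. -/
theorem top_hess_line {g : F → ℝ} {z : F} (hg : ContDiffAt ℝ 2 g z) (v : F) :
    fderiv ℝ (fderiv ℝ g) z v v = deriv (deriv fun t : ℝ => g (z + t • v)) 0 := by
  have hγ : ∀ t, HasDerivAt (fun t : ℝ => z + t • v) v t := fun t => by
    simpa using ((hasDerivAt_id t).smul_const v).const_add z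
  have e : z + (0 : ℝ) • v = z := by simp
  have h1 : deriv (fun t : ℝ => g (z + t • v)) =ᶠ[𝓝 0] fun t => fderiv ℝ g (z + t • v) v := by
    filter_upwards [(hγ 0).continuousAt.eventually (top_mcha_ev (e.symm ▸ hg))] with t ht
    exact (ht.hasFDerivAt.comp_hasDerivAt t (hγ t)).deriv
  have h2 := top_mcha_fd (z := z + (0 : ℝ) • v) (e.symm ▸ hg)
  have h3 := h2.comp_hasDerivAt 0 (hγ 0)
  have h4 := h3.clm_apply (hasDerivAt_const 0 v)
  rw [h1.deriv_eq, show deriv (fun t : ℝ => fderiv ℝ g (z + t • v) v) 0 = _ from h4.deriv]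
  simp

/-- `PosAt` from second derivatives along lines. -/
theorem PosAt.of_line {d k : ℕ} {W : Set E} {f : E → ℝ} {x : E} (hf : ContDiffAt ℝ 2 f x)
    {c : F → E} (hd : d ≤ Module.finrank ℝ F + k) (hc : ContDiffAt ℝ 2 c 0) (h0 : c 0 = x)
    (hW : ∀ᶠ v in 𝓝 (0 : F), c v ∈ W)
    (hp : ∀ v : F, v ≠ 0 → 0 < deriv (deriv fun t : ℝ => f (c (t • v))) 0) :
    PosAt d k W f x :=
  ⟨F, _, _, inferInstance, c, hd, hc, h0, hW, fun v hv => by
    rw [top_hess_line (ContDiffAt.comp 0 (h0.symm ▸ hf) hc)]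
    simpa using hp v hv⟩

theorem PosAt.triv {d k : ℕ} {W : Set E} (f : E → ℝ) {x : E} (hx : x ∈ W) (h : d ≤ k) :
    PosAt d k W f x :=
  ⟨Fin 0 → ℝ, _, _, inferInstance, fun _ => x, le_add_left h, contDiffAt_const, rfl,
    Eventually.of_forall fun _ => hx, fun v hv => (hv (Subsingleton.elim v 0)).elim⟩

/-- At a critical point: `c = φ ∘ (ψ ∘ c)` near `0`, `N` = range of `D(ψ ∘ c)(0)`. -/
theorem PosAt.chart {d k : ℕ} {W : Set E} {f : E → ℝ} {x : E} (h : PosAt d k W f x)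
    {φ : F → E} {ψ : E → F} (hc : Chart W x φ ψ) (hx : x ∈ W) (hf : ContDiff ℝ ∞ f)
    (hcr : Crit W f x) : ∃ N : Submodule ℝ F, d ≤ Module.finrank ℝ N + k ∧
      ∀ v ∈ N, v ≠ 0 → 0 < fderiv ℝ (fderiv ℝ (f ∘ φ)) (ψ x) v v := by
  obtain ⟨N, _, _, _, c, h1, h2, rfl, h3, h4⟩ := h
  have h5 : f ∘ c =ᶠ[𝓝 0] (f ∘ φ) ∘ ψ ∘ c :=
    ((tendsto_nhdsWithin_iff.2 ⟨h2.continuousAt, h3⟩).eventually hc.left).mono fun v hv =>
      congrArg f hv.symm
  have h6 : ∀ v, v ≠ 0 → 0 < fderiv ℝ (fderiv ℝ (f ∘ φ)) (ψ (c 0))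
      (fderiv ℝ (ψ ∘ c) 0 v) (fderiv ℝ (ψ ∘ c) 0 v) := fun v hv => by
    have := h4 v hv
    rwa [h5.fderiv.fderiv_eq, top_hess_comp (γ := ψ ∘ c)
      ((hf.comp hc.smφ).contDiffAt.of_le top_mcha_two)
      ((hc.smψ.contDiffAt.of_le top_mcha_two).comp 0 h2)
      ((hc.crit_iff hx (hf.differentiable (by simp) _)).1 hcr)] at this
  refine ⟨LinearMap.range (fderiv ℝ (ψ ∘ c) 0 : N →ₗ[ℝ] F), ?_, ?_⟩
  · rwa [LinearMap.finrank_range_of_inj]
    refine (injective_iff_map_eq_zero _).2 fun v hv => by_contra fun e => ?_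
    have := h6 v e
    rw [show fderiv ℝ (ψ ∘ c) 0 v = 0 from hv, map_zero] at this
    exact lt_irrefl _ this
  · rintro _ ⟨v, rfl⟩ hv
    exact h6 v fun e => hv (by rw [e, map_zero])

/-- `c v = φ (ψ x + v)`. -/
theorem PosAt.of_chart {d k : ℕ} {W : Set E} {f : E → ℝ} {x : E} {φ : F → E} {ψ : E → F}
    (hc : Chart W x φ ψ) (hx : x ∈ W) (hf : ContDiff ℝ ∞ f) (N : Submodule ℝ F)
    (hd : d ≤ Module.finrank ℝ N + k)
    (hN : ∀ v ∈ N, v ≠ 0 → 0 < fderiv ℝ (fderiv ℝ (f ∘ φ)) (ψ x) v v) : PosAt d k W f x := by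
  have h1 : ContDiff ℝ ∞ fun v : N => ψ x + (v : F) := contDiff_const.add N.subtypeL.contDiff
  refine PosAt.of_line (hf.contDiffAt.of_le top_mcha_two) (c := fun v : N => φ (ψ x + v)) hd
    ((hc.smφ.comp h1).contDiffAt.of_le top_mcha_two) (by simpa using hc.self hx)
    (((h1.continuous.tendsto' 0 (ψ x) (by simp)).eventually hc.right).mono fun v hv => hv.1)
    fun v hv => ?_
  have := hN v v.2 fun e => hv (Subtype.ext e)
  rwa [top_hess_line ((hf.comp hc.smφ).contDiffAt.of_le top_mcha_two)] at this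

end Pool.Agent.Lib.MP_ccffa6_gt
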