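import Pool.Agent.Lib.MP_ccffa6_gt.TOP.TDef

/-! General position and Morse theory: definitions. -/

open Set Filter Topology MeasureTheory
open scoped ContDiff

noncomputable section

namespace Pool.Agent.Lib.MP_ccffa6_gt

variable {E : Type} [NormedAddCommGroup E] [NormedSpace ℝ E]

/-- A null set of a finite dimensional space. -/
structure Thin (B : Set E) : Prop where
  null : ∀ [MeasurableSpace E] [BorelSpace E] (μ : Measure E) [μ.IsAddHaarMeasure], μ B = 0

/-- `S` is covered by countably many `C¹` images of `ℝ^a`. -/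
def Cov (a : ℕ) (S : Set E) : Prop :=
  ∃ φ : ℕ → Rd a → E, (∀ i, ContDiff ℝ 1 (φ i)) ∧ S ⊆ ⋃ i, range (φ i)

/-- The second derivative of `f` is positive along a piece of codimension at most `k` of the
`d`-dimensional set `W` through `x`. -/
def PosAt (d k : ℕ) (W : Set E) (f : E → ℝ) (x : E) : Prop :=
  ∃ (N : Type) (_ : NormedAddCommGroup N) (_ : NormedSpace ℝ N) (_ : FiniteDimensional ℝ N)
    (c : N → E), d ≤ Module.finrank ℝ N + k ∧ ContDiffAt ℝ 2 c 0 ∧ c 0 = x ∧
      (∀ᶠ v in 𝓝 (0 : N), c v ∈ W) ∧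
      ∀ v : N, v ≠ 0 → 0 < fderiv ℝ (fderiv ℝ (f ∘ c)) 0 v v

end Pool.Agent.Lib.MP_ccffa6_gt
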