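import Pool.Agent.Lib.MP_ccffa6_gt.TOP.MDefs
import Pool.Agent.Lib.MP_ccffa6_gt.K.Level

/-! Ingredients of the Morse lemma. -/

open Set Filter Topology
open scoped ContDiff

noncomputable section

namespace Pool.Agent.Lib.MP_ccffa6_gt

variable {E : Type} [NormedAddCommGroup E] [NormedSpace ℝ E] [FiniteDimensional ℝ E]
  {F : Type} [NormedAddCommGroup F] [NormedSpace ℝ F] [FiniteDimensional ℝ F]

/-- Splitting of coordinates along a predicate. -/
theorem top_mlemc_split {n : ℕ} (p : Fin n → Prop) [DecidablePred p] :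
    ∃ (i j : ℕ) (L : (Fin n → ℝ) ≃ₗ[ℝ] (Rd i × Rd j)), ∀ x,
      ‖(L x).1‖ ^ 2 = ∑ a : {k // p k}, x a ^ 2 ∧ ‖(L x).2‖ ^ 2 = ∑ a : {k // ¬ p k}, x a ^ 2 := by
  let eI := Fintype.equivFin {k // p k}
  let eJ := Fintype.equivFin {k // ¬ p k}
  let l : (Fin n → ℝ) →ₗ[ℝ] (Rd (Fintype.card {k // p k}) × Rd (Fintype.card {k // ¬ p k})) :=
    { toFun := fun x =>
        (WithLp.toLp 2 fun a => x (eI.symm a), WithLp.toLp 2 fun a => x (eJ.symm a))
      map_add' := fun x y => by ext <;> simp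
      map_smul' := fun c x => by ext <;> simp }
  have hl : Function.Injective l := by
    intro x y h
    funext k
    by_cases hk : p k
    · have := congrArg (fun z => z.1 (eI ⟨k, hk⟩)) h
      simpa [l] using this
    · have := congrArg (fun z => z.2 (eJ ⟨k, hk⟩)) h
      simpa [l] using this
  have hd : Module.finrank ℝ (Fin n → ℝ) = Module.finrank ℝ
      (Rd (Fintype.card {k // p k}) × Rd (Fintype.card {k // ¬ p k})) := by
    have h1 : Fintype.card {k // p k} ≤ Fintype.card (Fin n) := Fintype.card_subtype_le p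
    rw [Module.finrank_prod, finrank_euclideanSpace_fin, finrank_euclideanSpace_fin,
      Module.finrank_fintype_fun_eq_card, Fintype.card_subtype_compl]
    omega
  refine ⟨_, _, l.linearEquivOfInjective hl hd, fun x => ⟨?_, ?_⟩⟩
  · rw [LinearMap.linearEquivOfInjective_apply, EuclideanSpace.real_norm_sq_eq]
    exact Equiv.sum_comp eI.symm fun a => x a ^ 2
  · rw [LinearMap.linearEquivOfInjective_apply, EuclideanSpace.real_norm_sq_eq]
    exact Equiv.sum_comp eJ.symm fun a => x a ^ 2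

/-- Sylvester normal form. -/
theorem top_sylv {B : Bil F} (hs : ∀ u v, B u v = B v u) (hn : Function.Injective B) :
    ∃ (i j : ℕ) (L : F ≃L[ℝ] (Rd i × Rd j)),
      ∀ u, B u u = -‖(L u).1‖ ^ 2 + ‖(L u).2‖ ^ 2 := by
  classical
  let B' : LinearMap.BilinMap ℝ F ℝ := B.toLinearMap₁₂
  have hB' : ∀ u v, B' u v = B u v := fun u v => rfl
  have hQ : (QuadraticMap.associated (R := ℝ) B'.toQuadraticMap).SeparatingLeft := by
    have e : QuadraticMap.associated (R := ℝ) B'.toQuadraticMap = B' :=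
      QuadraticMap.associated_left_inverse ℝ fun x y => hs x y
    rw [e]
    intro x hx
    apply hn
    ext v
    simpa [hB'] using hx v
  obtain ⟨w, hw, ⟨f⟩⟩ :=
    QuadraticForm.equivalent_one_neg_one_weighted_sum_squared B'.toQuadraticMap hQ
  obtain ⟨i, j, L, hL⟩ := top_mlemc_split fun k => w k = -1
  refine ⟨i, j, (f.toLinearEquiv.trans L).toContinuousLinearEquiv, fun u => ?_⟩
  have h1 : B u u = ∑ k, w k • (f u k * f u k) := by
    rw [← QuadraticMap.weightedSumSquares_apply, f.map_app]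
    rfl
  have h2 : (f.toLinearEquiv.trans L).toContinuousLinearEquiv u = L (f u) := rfl
  rw [h2, (hL _).1, (hL _).2, h1, ← Fintype.sum_subtype_add_sum_subtype fun k => w k = -1,
    ← Finset.sum_neg_distrib]
  refine congrArg₂ (· + ·) (Finset.sum_congr rfl fun a _ => ?_)
    (Finset.sum_congr rfl fun a _ => ?_)
  · rw [a.2, smul_eq_mul]
    ring
  · rw [(hw a).resolve_left a.2, smul_eq_mul]
    ring

/-- The index bound: `N` meets `L⁻¹ (ℝ^i × 0)` trivially. -/
theorem top_index {Q : F → ℝ} {i j : ℕ} (L : F ≃L[ℝ] (Rd i × Rd j))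
    (h : ∀ u, Q u = -‖(L u).1‖ ^ 2 + ‖(L u).2‖ ^ 2) (N : Submodule ℝ F)
    (hN : ∀ v ∈ N, v ≠ 0 → 0 < Q v) : i + Module.finrank ℝ N ≤ Module.finrank ℝ F := by
  let l : N →ₗ[ℝ] Rd j :=
    (LinearMap.snd ℝ (Rd i) (Rd j)).comp (L.toLinearEquiv.toLinearMap.comp N.subtype)
  have hl : Function.Injective l := by
    rw [injective_iff_map_eq_zero]
    intro v hv
    by_contra h0
    have h1 := hN v v.2 fun e => h0 (Subtype.ext e)
    have h2 : (L v).2 = 0 := hv
    rw [h, h2, norm_zero] at h1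
    nlinarith [sq_nonneg ‖(L v).1‖]
  have h1 := LinearMap.finrank_le_finrank_of_injective hl
  have h2 := L.toLinearEquiv.finrank_eq
  rw [Module.finrank_prod, finrank_euclideanSpace_fin, finrank_euclideanSpace_fin] at h2
  rw [finrank_euclideanSpace_fin] at h1
  omega

end Pool.Agent.Lib.MP_ccffa6_gt
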