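import Pool.Agent.Lib.MP_ccffa6_gt.TOP.MLemB
import Pool.Agent.Lib.MP_ccffa6_gt.TOP.MLemC
import Pool.Agent.Lib.MP_ccffa6_gt.TOP.MChC

/-! The Morse lemma. -/

open Set Filter Topology
open scoped ContDiff

noncomputable section

namespace Pool.Agent.Lib.MP_ccffa6_gt

variable {E : Type} [NormedAddCommGroup E] [NormedSpace ℝ E] [FiniteDimensional ℝ E]
  {F : Type} [NormedAddCommGroup F] [NormedSpace ℝ F] [FiniteDimensional ℝ F]

/-- The Morse lemma in a vector space, with the index bound. -/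
theorem top_morse_vec {g : F → ℝ} (hg : ContDiff ℝ ∞ g) {z : F} (h1 : fderiv ℝ g z = 0)
    (h2 : Function.Injective (fderiv ℝ (fderiv ℝ g) z)) :
    ∃ i j, MChart univ g z i j ∧ ∀ N : Submodule ℝ F,
      (∀ v ∈ N, v ≠ 0 → 0 < fderiv ℝ (fderiv ℝ g) z v v) →
        i + Module.finrank ℝ N ≤ Module.finrank ℝ F := by
  have hg0 : ContDiff ℝ ∞ fun w => g (z + w) := hg.comp (contDiff_const.add contDiff_id)
  have e1 : (fderiv ℝ fun w => g (z + w)) = fun w => fderiv ℝ g (z + w) :=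
    funext fun w => fderiv_comp_add_left z
  obtain ⟨B, hB, hs, hB0, hT⟩ := top_had2 hg0 (by rw [e1]; simpa using h1)
  rw [e1, fderiv_comp_add_left, add_zero] at hB0
  have hn : Function.Injective (B 0) := fun u u' h => h2 (by
    ext v
    rw [← hB0, ← hB0, h])
  obtain ⟨A, hA, hA0, hAB⟩ := top_congr hB hs hn
  obtain ⟨i, j, L, hL⟩ := top_sylv (hs 0) hn
  have hsub : ContDiff ℝ ∞ fun y : F => y - z := contDiff_id.sub contDiff_const
  have hχ : ContDiff ℝ ∞ fun y => A (y - z) (y - z) := (hA.comp hsub).clm_apply hsub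
  have hψ : ContDiff ℝ ∞ fun y => L (A (y - z) (y - z)) := L.contDiff.comp hχ
  have hd : HasFDerivAt (fun y => L (A (y - z) (y - z))) (L : F →L[ℝ] Rd i × Rd j) z := by
    have a1 := ((hA.comp hsub).differentiable (by simp) z).hasFDerivAt.clm_apply
      ((hasFDerivAt_id z).sub_const z)
    have a2 : HasFDerivAt (fun y => A (y - z) (y - z)) (ContinuousLinearMap.id ℝ F) z := by
      refine a1.congr_fderiv ?_
      ext v
      simp [hA0]
    exact L.hasFDerivAt.comp z a2
  obtain ⟨φ, hφ, hl, hr⟩ := top_local_inv L.toLinearEquiv.finrank_eq hψ (x := z)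
    (by rw [hd.fderiv]; exact L.injective)
  have h0 : L (A (z - z) (z - z)) = 0 := by simp
  refine ⟨i, j, ⟨φ, fun y => L (A (y - z) (y - z)),
    ⟨hφ, hψ, hl.filter_mono nhdsWithin_le_nhds, hr.mono fun w hw => ⟨mem_univ _, hw⟩⟩, h0, ?_⟩,
    fun N hN => top_index L hL N fun v hv hv0 => ?_⟩
  · have hz : φ 0 = z := by
      have := hl.self_of_nhds
      rwa [h0] at this
    have ht : Tendsto (fun w => φ w - z) (𝓝 0) (𝓝 0) := by
      have := (hφ.continuous.tendsto 0).sub_const z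
      rwa [hz, sub_self] at this
    rw [h0] at hr
    filter_upwards [hr, ht.eventually hAB] with w hw hw'
    have a1 := hT (φ w - z)
    rw [add_sub_cancel, add_zero, hw', hL, hw] at a1
    rw [a1]
    ring
  · have := hN v hv hv0
    linarith [hB0 v v]

/-- The Morse lemma on a submanifold, with the index bound (`MChart.map` with `α = φ`). -/
theorem top_mchart {d k : ℕ} {W : Set E} (hW : IsSub d W) {x : E} (hx : x ∈ W) {φ : F → E}
    {ψ : E → F} (hc : Chart W x φ ψ) {f : E → ℝ} (hf : ContDiff ℝ ∞ f) (hcr : Crit W f x)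
    (hn : Function.Injective (fderiv ℝ (fderiv ℝ (f ∘ φ)) (ψ x))) (hp : PosAt d k W f x) :
    ∃ i j, i + j = d ∧ i ≤ k ∧ MChart W f x i j := by
  have hx' := hc.self hx
  obtain ⟨i, j, hm, hi⟩ := top_morse_vec (hf.comp hc.smφ)
    ((hc.crit_iff hx (hf.differentiable (by simp) x)).1 hcr) hn
  have hm' : MChart W f (φ (ψ x)) i j := hm.map (mem_univ _) hc.smφ hc.smψ
    ((hc.right.filter_mono nhdsWithin_le_nhds).mono fun y hy => ⟨hy.1, hy.2, rfl⟩)
    (by
      rw [hx']
      exact hc.left.mono fun y hy => ⟨mem_univ _, hy⟩)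
  rw [hx'] at hm'
  obtain ⟨N, hN, hpos⟩ := hp.chart hc hx hf hcr
  have h1 := hi N hpos
  have h2 := hc.finrank hx
  have h3 := hW.finrank hx
  exact ⟨i, j, hm'.dim hx hW, by omega, hm'⟩

end Pool.Agent.Lib.MP_ccffa6_gt
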