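import Pool.Agent.Lib.MP_ccffa6_gt.TOP.MDefs
import Pool.Agent.Lib.MP_ccffa6_gt.K.Level

/-! Ingredients of the Morse lemma. -/

open Set Filter Topology
open scoped ContDiff

noncomputable section

namespace Pool.Agent.Lib.MP_ccffa6_gt

variable {E : Type} [NormedAddCommGroup E] [NormedSpace ℝ E] [FiniteDimensional ℝ E]
  {F : Type} [NormedAddCommGroup F] [NormedSpace ℝ F] [FiniteDimensional ℝ F]

/-- Integrals over a parameter of smooth functions are smooth. -/
theorem top_param_integral {f : E × ℝ → F} (hf : ContDiff ℝ ∞ f) :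
    ContDiff ℝ ∞ fun x => ∫ u in (0 : ℝ)..1, f (x, u) := by
  have hc : CompleteSpace F := FiniteDimensional.complete ℝ F
  let χ : ContDiffBump (0 : ℝ) := ⟨1, 2, one_pos, one_lt_two⟩
  let φ : ℝ → ℝ := Set.indicator (Set.Ioc (0 : ℝ) 1) fun _ => 1
  let g : E → ℝ → F := fun p u => χ u • f (p, -u)
  have hφ : MeasureTheory.LocallyIntegrable φ MeasureTheory.volume := by
    refine MeasureTheory.Integrable.locallyIntegrable ?_
    exact (MeasureTheory.integrable_indicator_iff measurableSet_Ioc).2
      (MeasureTheory.integrableOn_const (by simp))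
  have hg : ContDiff ℝ ∞ (Function.uncurry g) := by
    have h1 : ContDiff ℝ ∞ fun q : E × ℝ => χ q.2 := χ.contDiff.comp contDiff_snd
    have h2 : ContDiff ℝ ∞ fun q : E × ℝ => f (q.1, -q.2) :=
      hf.comp (contDiff_fst.prodMk contDiff_snd.neg)
    exact h1.smul h2
  have key := MeasureTheory.contDiffOn_convolution_right_with_param_comp (𝕜 := ℝ)
    (μ := MeasureTheory.volume) (n := ⊤)
    (ContinuousLinearMap.lsmul ℝ ℝ : ℝ →L[ℝ] F →L[ℝ] F) (s := Set.univ)
    (v := fun _ : E => (0 : ℝ)) contDiffOn_const (f := φ) (g := g)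
    (k := Metric.closedBall (0 : ℝ) 2) isOpen_univ (isCompact_closedBall _ _)
    (fun p x _ hx => by
      have : χ x = 0 := χ.zero_of_le_dist (by
        simp only [Metric.mem_closedBall, not_le] at hx
        exact hx.le)
      simp only [g, this, zero_smul]) hφ hg.contDiffOn
  rw [contDiffOn_univ] at key
  convert key using 2 with x
  rw [MeasureTheory.convolution_def, intervalIntegral.integral_of_le zero_le_one,
    ← MeasureTheory.integral_indicator measurableSet_Ioc]
  refine MeasureTheory.integral_congr_ae (Eventually.of_forall fun u => ?_)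
  by_cases hu : u ∈ Set.Ioc (0 : ℝ) 1
  · have h1 : χ (0 - u) = 1 := χ.one_of_mem_closedBall (by
      simp only [Metric.mem_closedBall, dist_zero_right, Real.norm_eq_abs, zero_sub, abs_neg]
      rw [abs_of_pos hu.1]
      exact hu.2)
    simp only [φ, g, Set.indicator_of_mem hu, ContinuousLinearMap.lsmul_apply, one_smul, h1]
    simp
  · simp [φ, Set.indicator_of_notMem hu]

omit [FiniteDimensional ℝ F] in
theorem top_mlema_sm {G : Type} [NormedAddCommGroup G] [NormedSpace ℝ G] {D : F → G}
    (hD : ContDiff ℝ ∞ D) : ContDiff ℝ ∞ fun q : F × ℝ => (1 - q.2) • D (q.2 • q.1) :=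
  (contDiff_const.sub contDiff_snd).smul (hD.comp (contDiff_snd.smul contDiff_fst))

/-- Taylor's formula of second order, `B z = ∫ (1 - t) D²g (t z) dt`. -/
theorem top_had2 {g : F → ℝ} (hg : ContDiff ℝ ∞ g) (h1 : fderiv ℝ g 0 = 0) :
    ∃ B : F → Bil F, ContDiff ℝ ∞ B ∧ (∀ z u v, B z u v = B z v u) ∧
      (∀ u v, 2 * B 0 u v = fderiv ℝ (fderiv ℝ g) 0 u v) ∧ ∀ z, g z = g 0 + B z z z := by
  have hD1 : ContDiff ℝ ∞ (fderiv ℝ g) := hg.fderiv_right (m := ∞) (by simp)
  have hD2 : ContDiff ℝ ∞ (fderiv ℝ (fderiv ℝ g)) := hD1.fderiv_right (m := ∞) (by simp)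
  let f : F × ℝ → Bil F := fun q => (1 - q.2) • fderiv ℝ (fderiv ℝ g) (q.2 • q.1)
  have hf : ContDiff ℝ ∞ f := top_mlema_sm hD2
  have hcz : ∀ z : F, Continuous fun t : ℝ => f (z, t) := fun z =>
    hf.continuous.comp (Continuous.prodMk_right z)
  have hap : ∀ z u v : F, (∫ t in (0 : ℝ)..1, f (z, t)) u v =
      ∫ t in (0 : ℝ)..1, (1 - t) * fderiv ℝ (fderiv ℝ g) (t • z) u v := by
    intro z u v
    rw [ContinuousLinearMap.intervalIntegral_apply ((hcz z).intervalIntegrable _ _),
      ContinuousLinearMap.intervalIntegral_apply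
        (((hcz z).clm_apply continuous_const).intervalIntegrable _ _)]
    simp [f]
  refine ⟨fun z => ∫ t in (0 : ℝ)..1, f (z, t), top_param_integral hf, fun z u v => ?_,
    fun u v => ?_, fun z => ?_⟩
  · rw [hap, hap]
    refine intervalIntegral.integral_congr fun t _ => ?_
    have := (hg.contDiffAt (x := t • z)).isSymmSndFDerivAt (by
      simp only [minSmoothness_of_isRCLikeNormedField]
      exact WithTop.coe_le_coe.2 (le_top : (2 : ℕ∞) ≤ ⊤))
    simp only [this.eq u v]
  · rw [hap]
    simp only [smul_zero]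
    rw [intervalIntegral.integral_mul_const,
      intervalIntegral.integral_sub (continuous_const.intervalIntegrable _ _)
        (continuous_id'.intervalIntegrable _ _)]
    simp
    ring
  · rw [hap]
    have hder : ∀ t ∈ uIcc (0 : ℝ) 1, HasDerivAt
        (fun t : ℝ => g (t • z) + (1 - t) * fderiv ℝ g (t • z) z)
        ((1 - t) * fderiv ℝ (fderiv ℝ g) (t • z) z z) t := by
      intro t _
      have hl : HasDerivAt (fun t : ℝ => t • z) z t := by
        simpa using (hasDerivAt_id t).smul_const z
      have h1 : HasDerivAt (fun t : ℝ => g (t • z)) (fderiv ℝ g (t • z) z) t :=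
        ((hg.differentiable (by simp)) (t • z)).hasFDerivAt.comp_hasDerivAt t hl
      have h2 : HasDerivAt (fun t : ℝ => fderiv ℝ g (t • z))
          (fderiv ℝ (fderiv ℝ g) (t • z) z) t :=
        ((hD1.differentiable (by simp)) (t • z)).hasFDerivAt.comp_hasDerivAt t hl
      have h3 : HasDerivAt (fun t : ℝ => fderiv ℝ g (t • z) z)
          (fderiv ℝ (fderiv ℝ g) (t • z) z z) t := by
        simpa using h2.clm_apply (hasDerivAt_const t z)
      have h4 : HasDerivAt (fun t : ℝ => 1 - t) (-1) t := by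
        simpa using (hasDerivAt_id t).const_sub 1
      have h5 := h1.add (h4.mul h3)
      have h6 : fderiv ℝ g (t • z) z + (-1 * fderiv ℝ g (t • z) z +
          (1 - t) * fderiv ℝ (fderiv ℝ g) (t • z) z z) =
          (1 - t) * fderiv ℝ (fderiv ℝ g) (t • z) z z := by ring
      rw [h6] at h5
      exact h5
    have hint : IntervalIntegrable
        (fun t : ℝ => (1 - t) * fderiv ℝ (fderiv ℝ g) (t • z) z z) MeasureTheory.volume 0 1 := by
      have := (((hcz z).clm_apply (continuous_const (y := z))).clm_apply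
        (continuous_const (y := z))).intervalIntegrable (μ := MeasureTheory.volume) 0 1
      simpa [f] using this
    rw [intervalIntegral.integral_eq_sub_of_hasDerivAt hder hint]
    simp [h1]

/-- The inverse function theorem with a global smooth representative
(`IsSub.local_inverse` for `univ`, `isSub_of_isOpen`). -/
theorem top_local_inv (hd : Module.finrank ℝ E = Module.finrank ℝ F) {f : E → F}
    (hf : ContDiff ℝ ∞ f) {x : E} (hi : Function.Injective (fderiv ℝ f x)) :
    ∃ g : F → E, ContDiff ℝ ∞ g ∧ (∀ᶠ y in 𝓝 x, g (f y) = y) ∧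
      ∀ᶠ z in 𝓝 (f x), f (g z) = z := by
  have hE : IsSub (Module.finrank ℝ E) (univ : Set E) := isSub_of_isOpen isOpen_univ
  have hF : IsSub (Module.finrank ℝ E) (univ : Set F) := hd ▸ isSub_of_isOpen isOpen_univ
  obtain ⟨g, hg, h1, h2⟩ := hE.local_inverse hF hf (mem_univ x)
    (Eventually.of_forall fun _ => mem_univ _)
    (fun v _ hv => hi (by rw [hv, map_zero]))
  rw [nhdsWithin_univ] at h1 h2
  exact ⟨g, hg, h1, h2.mono fun z hz => hz.2⟩

end Pool.Agent.Lib.MP_ccffa6_gt
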