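import Pool.Agent.Lib.MP_ccffa6_gt.TOP.MLemA

/-! Ingredients of the Morse lemma. -/

open Set Filter Topology
open scoped ContDiff

noncomputable section

namespace Pool.Agent.Lib.MP_ccffa6_gt

variable {E : Type} [NormedAddCommGroup E] [NormedSpace ℝ E] [FiniteDimensional ℝ E]
  {F : Type} [NormedAddCommGroup F] [NormedSpace ℝ F] [FiniteDimensional ℝ F]

/-- An injective form has an inverse. -/
theorem top_mlemb_inv {B : Bil F} (hn : Function.Injective B) :
    ∃ γ : (F →L[ℝ] ℝ) →L[ℝ] F, ∀ l, B (γ l) = l := by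
  have hd : Module.finrank ℝ F = Module.finrank ℝ (F →L[ℝ] ℝ) := by
    rw [← (LinearMap.toContinuousLinearMap (𝕜 := ℝ) (E := F) (F' := ℝ)).finrank_eq]
    exact Subspace.dual_finrank_eq.symm
  let β : F ≃ₗ[ℝ] (F →L[ℝ] ℝ) := LinearMap.linearEquivOfInjective (B : F →ₗ[ℝ] F →L[ℝ] ℝ) hn hd
  refine ⟨LinearMap.toContinuousLinearMap β.symm.toLinearMap, fun l => ?_⟩
  exact β.apply_symm_apply l

/-- A smooth square root near the identity. -/
theorem top_mlemb_sqrt (R : Type) [NormedRing R] [NormedAlgebra ℝ R] [FiniteDimensional ℝ R] :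
    ∃ S : R → R, ContDiff ℝ ∞ S ∧ (∀ᶠ y in 𝓝 (1 : R), S (y * y) = y) ∧
      ∀ᶠ z in 𝓝 (1 : R), S z * S z = z := by
  have hf : ContDiff ℝ ∞ fun y : R => y * y := contDiff_id.mul contDiff_id
  have hd : HasFDerivAt (fun y : R => y * y) ((2 : ℝ) • ContinuousLinearMap.id ℝ R) 1 := by
    have h := (hasFDerivAt_id (𝕜 := ℝ) (1 : R)).mul' (hasFDerivAt_id (1 : R))
    refine h.congr_fderiv ?_
    ext1 y
    simp [two_smul]
  have hi : Function.Injective (fderiv ℝ (fun y : R => y * y) 1) := by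
    rw [hd.fderiv]
    intro a b hab
    exact smul_right_injective R (two_ne_zero (α := ℝ)) hab
  obtain ⟨S, h1, h2, h3⟩ := top_local_inv rfl hf hi
  rw [one_mul] at h3
  exact ⟨S, h1, h2, h3⟩

/-- Symmetric forms near a nondegenerate one are smoothly congruent to it. -/
theorem top_congr {B : E → Bil F} (hB : ContDiff ℝ ∞ B) (hs : ∀ z u v, B z u v = B z v u)
    (hn : Function.Injective (B 0)) :
    ∃ A : E → F →L[ℝ] F, ContDiff ℝ ∞ A ∧ A 0 = 1 ∧
      ∀ᶠ z in 𝓝 (0 : E), ∀ u v, B z u v = B 0 (A z u) (A z v) := by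
  obtain ⟨γ, hγ⟩ := top_mlemb_inv hn
  obtain ⟨S, hS, hl, hr⟩ := top_mlemb_sqrt (F →L[ℝ] F)
  let C : E → F →L[ℝ] F := fun z => γ.comp (B z)
  have hC : ContDiff ℝ ∞ C := contDiff_const.clm_comp hB
  have hCB : ∀ z u, B 0 (C z u) = B z u := fun z u => hγ _
  have hC0 : C 0 = 1 := by
    ext u
    exact hn (hCB 0 u)
  let ad : (F →L[ℝ] F) → F →L[ℝ] F := fun A => γ.comp ((B 0).comp A).flip
  have had : ∀ A u v, B 0 (ad A u) v = B 0 u (A v) := fun A u v => by
    have h : B 0 (ad A u) = ((B 0).comp A).flip u := hγ _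
    rw [h, hs 0 u]
    rfl
  have hadc : Continuous ad :=
    continuous_const.clm_comp ((ContinuousLinearMap.flipₗᵢ ℝ F F ℝ).continuous.comp
      (continuous_const.clm_comp continuous_id))
  have had1 : ad 1 = 1 := by
    ext u
    refine hn ?_
    ext v
    exact had 1 u v
  have had2 : ∀ A, ad A * ad A = ad (A * A) := fun A => by
    ext u
    refine hn ?_
    ext v
    rw [mul_apply_eq_comp, had, had, had, mul_apply_eq_comp]
  have had3 : ∀ z, ad (C z) = C z := fun z => by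
    ext u
    refine hn ?_
    ext v
    rw [had, hs 0 u, hCB, hCB, hs z v]
  have hS1 : S 1 = 1 := by
    have h := hl.self_of_nhds
    rwa [one_mul] at h
  have hA0 : S (C 0) = 1 := by rw [hC0, hS1]
  refine ⟨fun z => S (C z), hS.comp hC, hA0, ?_⟩
  have t1 : Tendsto C (𝓝 0) (𝓝 1) := hC0 ▸ hC.continuous.tendsto 0
  have t2 : Tendsto (fun z => ad (S (C z))) (𝓝 0) (𝓝 1) := by
    have h := (hadc.comp (hS.comp hC).continuous).tendsto 0
    simp only [Function.comp_apply, hA0, had1] at h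
    exact h
  filter_upwards [t1.eventually hr, t2.eventually hl] with z h1 h2 u v
  rw [had2, h1, had3] at h2
  rw [← had (S (C z)) (S (C z) u) v, ← h2, ← mul_apply_eq_comp, h1, hCB]

end Pool.Agent.Lib.MP_ccffa6_gt
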