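import Pool.Agent.Lib.MP_ccffa6_gt.TOP.MLem
import Pool.Agent.Lib.MP_ccffa6_gt.TOP.GP

/-! Generic linear perturbations are Morse. -/

open Set Filter Topology
open scoped ContDiff

noncomputable section

namespace Pool.Agent.Lib.MP_ccffa6_gt

variable {E : Type} [NormedAddCommGroup E] [NormedSpace ℝ E] [FiniteDimensional ℝ E]
  {F : Type} [NormedAddCommGroup F] [NormedSpace ℝ F] [FiniteDimensional ℝ F]

theorem top_mpert_fderiv {f : E → ℝ} (hf : ContDiff ℝ ∞ f) {φ : F → E} (hφ : ContDiff ℝ ∞ φ)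
    (l : E →L[ℝ] ℝ) : fderiv ℝ ((fun y => f y + l y) ∘ φ) =
      fun z => fderiv ℝ (f ∘ φ) z + l.comp (fderiv ℝ φ z) := by
  funext z
  have h1 := ((hf.comp hφ).differentiable (by simp) z).hasFDerivAt
  have h2 := l.hasFDerivAt.comp z (hφ.differentiable (by simp) z).hasFDerivAt
  exact (h1.add h2).fderiv

theorem top_mpert_chart {f : E → ℝ} (hf : ContDiff ℝ ∞ f) {φ : F → E} (hφ : ContDiff ℝ ∞ φ)
    {ψ : E → F} (hψ : ContDiff ℝ ∞ ψ) {O : Set F} (hO : IsOpen O) (h : ∀ z ∈ O, ψ (φ z) = z) :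
    Thin {l : E →L[ℝ] ℝ | ∃ z ∈ O, fderiv ℝ ((fun y => f y + l y) ∘ φ) z = 0 ∧
      ¬ Function.Injective (fderiv ℝ (fderiv ℝ ((fun y => f y + l y) ∘ φ)) z)} := by
  let G : F × (E →L[ℝ] ℝ) → F →L[ℝ] ℝ :=
    fun q => fderiv ℝ (f ∘ φ) q.1 + q.2.comp (fderiv ℝ φ q.1)
  have h1 : ContDiff ℝ 1 (fderiv ℝ (f ∘ φ)) := (hf.comp hφ).fderiv_right (by norm_cast)
  have h2 : ContDiff ℝ 1 (fderiv ℝ φ) := hφ.fderiv_right (by norm_cast)
  have hG : ContDiff ℝ 1 G :=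
    (h1.comp contDiff_fst).add (contDiff_snd.clm_comp (h2.comp contDiff_fst))
  have hd : Module.finrank ℝ F = Module.finrank ℝ (F →L[ℝ] ℝ) := by
    rw [← (LinearMap.toContinuousLinearMap : (F →ₗ[ℝ] ℝ) ≃ₗ[ℝ] F →L[ℝ] ℝ).finrank_eq]
    exact Subspace.dual_finrank_eq.symm
  have key := top_trans hd (U := O ×ˢ univ) (hO.prod isOpen_univ) hG.contDiffOn (by
    intro z l hz _ t
    have h3 : HasFDerivAt (fun l' => G (z, l'))
        ((ContinuousLinearMap.compL ℝ F E ℝ).flip (fderiv ℝ φ z)) l :=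
      ((ContinuousLinearMap.compL ℝ F E ℝ).flip (fderiv ℝ φ z)).hasFDerivAt.const_add
        (fderiv ℝ (f ∘ φ) z)
    have h4 : ψ ∘ φ =ᶠ[𝓝 z] id := by
      filter_upwards [hO.mem_nhds hz.1] with w hw using h w hw
    have h5 := (hψ.differentiable (by simp) (φ z)).hasFDerivAt.comp z
      (hφ.differentiable (by simp) z).hasFDerivAt
    have h6 := h5.unique ((hasFDerivAt_id z).congr_of_eventuallyEq h4)
    refine ⟨t.comp (fderiv ℝ ψ (φ z)), ?_⟩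
    rw [h3.fderiv]
    simp [ContinuousLinearMap.comp_assoc, h6])
  refine key.mono ?_
  rintro l ⟨z, hz, h3, h4⟩
  rw [top_mpert_fderiv hf hφ] at h3 h4
  exact ⟨z, ⟨hz, trivial⟩, h3, h4⟩

/-- For almost every linear `l` the function `f + l` is Morse on `W`. -/
theorem top_generic {d : ℕ} {W : Set E} (hW : IsSub d W) {f : E → ℝ} (hf : ContDiff ℝ ∞ f) :
    ∃ B : Set (E →L[ℝ] ℝ), Thin B ∧ ∀ l ∉ B, ∀ x ∈ W, Crit W (fun y => f y + l y) x →
      ∃ (φ : Rd d → E) (ψ : E → Rd d), Chart W x φ ψ ∧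
        Function.Injective (fderiv ℝ (fderiv ℝ ((fun y => f y + l y) ∘ φ)) (ψ x)) := by
  choose! φ ψ hc using hW
  have h1 : ∀ x ∈ W, ∃ O : Set (Rd d), IsOpen O ∧ ψ x x ∈ O ∧ ∀ z ∈ O, ψ x (φ x z) = z := by
    intro x hx
    obtain ⟨O, h1, h2, h3⟩ := eventually_nhds_iff.1 (hc x hx).right
    exact ⟨O, h2, h3, fun z hz => (h1 z hz).2⟩
  choose! O hO hO1 hO2 using h1
  have h2 : ∀ x ∈ W, {y | Chart W y (φ x) (ψ x) ∧ ψ x y ∈ O x} ∈ 𝓝[W] x := fun x hx =>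
    (hc x hx).eventually.and (mem_nhdsWithin_of_mem_nhds
      ((hc x hx).smψ.continuous.continuousAt.preimage_mem_nhds ((hO x hx).mem_nhds (hO1 x hx))))
  obtain ⟨s, hs, hsc, hcov⟩ := TopologicalSpace.countable_cover_nhdsWithin h2
  refine ⟨_, Thin.biUnion hsc fun x hx => top_mpert_chart hf (hc x (hs hx)).smφ
    (hc x (hs hx)).smψ (hO x (hs hx)) (hO2 x (hs hx)), fun l hl y hy hcr => ?_⟩
  obtain ⟨x, hx, h3, h4⟩ := mem_iUnion₂.1 (hcov hy)
  refine ⟨φ x, ψ x, h3, ?_⟩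
  by_contra h5
  refine hl (mem_iUnion₂.2 ⟨x, hx, ψ x y, h4, (h3.crit_iff hy ?_).1 hcr, h5⟩)
  exact (hf.add l.contDiff).differentiable (by simp) y

theorem top_ncrit_open0 {d : ℕ} {W : Set E} (hW : IsSub d W) {f : E → ℝ} (hf : ContDiff ℝ ∞ f)
    {x : E} (hx : x ∈ W) (h : ¬ Crit W f x) : ∀ᶠ y in 𝓝[W] x, ¬ Crit W f y := by
  have h1 := top_ncrit_open hW (G := fun q : E × ℝ => f q.1) (hf.comp contDiff_fst) (p := 0) hx h
  have h2 : ContinuousWithinAt (fun y : E => (y, (0 : ℝ))) W x := by fun_prop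
  exact (h2.tendsto_nhdsWithin (t := W ×ˢ univ) fun y hy => ⟨hy, trivial⟩).eventually h1

/-- Tube lemma along `W`. -/
theorem top_tube_within {W A : Set E} (hA : IsCompact A) {Q : E → F → Prop} {p : F}
    (h : ∀ x ∈ A, ∀ᶠ q in 𝓝[W ×ˢ univ] (x, p), Q q.1 q.2) :
    ∀ᶠ p' in 𝓝 p, ∀ x ∈ A, x ∈ W → Q x p' := by
  refine hA.eventually_forall_of_forall_eventually (P := fun p' x => x ∈ W → Q x p') fun x hx => ?_
  have h1 := eventually_nhdsWithin_iff.1 (h x hx)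
  have h2 : Tendsto (Prod.swap : F × E → E × F) (𝓝 (p, x)) (𝓝 (x, p)) :=
    continuous_swap.tendsto (p, x)
  filter_upwards [h2.eventually h1] with q hq hW using hq ⟨hW, trivial⟩

end Pool.Agent.Lib.MP_ccffa6_gt
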