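import Pool.Agent.Lib.MP_ccffa6_gt.TOP.Cr
import Pool.Agent.Lib.MP_ccffa6_gt.TOP.GP1

open Set Filter Topology Metric
open scoped ContDiff RealInnerProductSpace

noncomputable section

namespace Pool.Agent.Lib.MP_ccffa6_gt

variable {E : Type} [NormedAddCommGroup E] [NormedSpace ℝ E] [FiniteDimensional ℝ E]
  {E' : Type} [NormedAddCommGroup E'] [NormedSpace ℝ E'] [FiniteDimensional ℝ E']
  {F : Type} [NormedAddCommGroup F] [NormedSpace ℝ F] [FiniteDimensional ℝ F]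
  {A : Type} [NormedAddCommGroup A] [NormedSpace ℝ A] [FiniteDimensional ℝ A]

omit [FiniteDimensional ℝ F] in
theorem top_pushm_est {y g : F} {a τ : ℝ} (hg : g ≠ 0) (h : ‖g - y‖ < a / 16) (h0 : 0 ≤ τ)
    (h1 : τ ≤ 1) : ‖y‖ - a / 8 ≤ ‖y + τ • (max 1 (a / ‖g‖) • g - y)‖ ∧
      ‖y + τ • (max 1 (a / ‖g‖) • g - y)‖ ≤ max (‖y‖ + a / 16) a ∧
      a ≤ ‖max 1 (a / ‖g‖) • g‖ := by
  have hp := norm_pos_iff.2 hg
  have hm : 1 ≤ max 1 (a / ‖g‖) := le_max_left _ _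
  have hY : ‖max 1 (a / ‖g‖) • g‖ = max ‖g‖ a := by
    rw [norm_smul, Real.norm_of_nonneg (by linarith), max_mul_of_nonneg _ _ hp.le, one_mul,
      div_mul_cancel₀ _ hp.ne']
  have h2 := abs_le.1 (abs_norm_sub_norm_le g y)
  have h3 := norm_nonneg (g - y)
  generalize max 1 (a / ‖g‖) = m at hm hY ⊢
  refine ⟨?_, ?_, hY ▸ le_max_right _ _⟩
  · have e : (1 - τ + τ * m) • g = y + τ • (m • g - y) + (1 - τ) • (g - y) := by module
    have := norm_add_le (y + τ • (m • g - y)) ((1 - τ) • (g - y))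
    rw [← e, norm_smul, norm_smul, Real.norm_of_nonneg (by nlinarith),
      Real.norm_of_nonneg (by linarith)] at this
    nlinarith [mul_nonneg (mul_nonneg h0 (sub_nonneg.2 hm)) hp.le, mul_nonneg h0 h3]
  · have e : y + τ • (m • g - y) = (1 - τ) • y + τ • m • g := by module
    have := norm_add_le ((1 - τ) • y) (τ • m • g)
    rw [← e, norm_smul, norm_smul, Real.norm_of_nonneg (by linarith), Real.norm_of_nonneg h0,
      hY] at this
    have h4 : max ‖g‖ a ≤ max (‖y‖ + a / 16) a := max_le_max (by linarith) le_rfl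
    have h5 : ‖y‖ ≤ max (‖y‖ + a / 16) a := le_max_of_le_left (by linarith)
    nlinarith [mul_le_mul_of_nonneg_left h4 h0, mul_le_mul_of_nonneg_left h5 (sub_nonneg.2 h1)]

/-- Move a map off the descending disc: push the second coordinate away from `0`. -/
theorem top_move {i k : ℕ} {W O : Set E} {φ : Rd i × Rd k → E} {ψ : E → Rd i × Rd k} {R : ℝ}
    (h : CBall W φ ψ R O) {f : E → ℝ} (hf : ContDiff ℝ ∞ f) {s ε b : ℝ}
    (hq : ∀ z ∈ ball (0 : Rd i × Rd k) R, f (φ z) = s - ‖z.1‖ ^ 2 + ‖z.2‖ ^ 2) (hε : 0 < ε)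
    (hR : 4 * ε < R ^ 2) (hb : s + R ^ 2 ≤ b) (hk : Module.finrank ℝ A < k) {X : Set A}
    (hX : IsCompact X) {u : A → E} (hu : ContinuousOn u X)
    (hm : MapsTo u X (W ∩ f ⁻¹' Icc (s - ε / 2) b)) :
    ∃ v, HIn X (W ∩ f ⁻¹' Icc (s - ε) b) u v ∧ ∀ x ∈ X, v x ∈ O → ε ≤ ‖(ψ (v x)).2‖ ^ 2 := by
  classical
  obtain ⟨a, ha, rfl⟩ : ∃ a, 0 < a ∧ ε = a ^ 2 := ⟨√ε, Real.sqrt_pos.2 hε, (Real.sq_sqrt hε.le).symm⟩
  have haR : 2 * a < R := lt_of_pow_lt_pow_left₀ 2 h.pos.le (by linarith)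
  have hz : ContinuousOn (fun x => ψ (u x)) X := h.smψ.continuous.comp_continuousOn hu
  obtain ⟨g, gs, gy, g0⟩ := top_avoid hX.isClosed hz.snd (by simpa using hk)
    (show 0 < a / 16 by positivity)
  let c : Rd k → ℝ := fun y => max 0 (min 1 (7 / 2 - 2 * ‖y‖ / a))
  have c0 : ∀ y, 0 ≤ c y := fun y => le_max_left _ _
  have c1 : ∀ y, c y ≤ 1 := fun y => max_le zero_le_one (min_le_left _ _)
  have c2 : ∀ y, ‖y‖ ≤ 5 / 4 * a → c y = 1 := fun y hy => by
    have : 2 * ‖y‖ / a ≤ 5 / 2 := by rw [div_le_iff₀ ha]; linarith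
    simp only [c]
    rw [min_eq_left (by linarith), max_eq_right zero_le_one]
  have c3 : ∀ y, 7 / 4 * a ≤ ‖y‖ → c y = 0 := fun y hy => by
    have : 7 / 2 ≤ 2 * ‖y‖ / a := by rw [le_div_iff₀ ha]; linarith
    exact max_eq_left ((min_le_right _ _).trans (by linarith))
  let w : ℝ × A → Rd k := fun p => (ψ (u p.2)).2 +
    (p.1 * c (ψ (u p.2)).2) • (max 1 (a / ‖g p.2‖) • g p.2 - (ψ (u p.2)).2)
  let H : ℝ × A → E := fun p => if u p.2 ∈ O then φ ((ψ (u p.2)).1, w p) else u p.2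
  have hu' : ContinuousOn (fun p : ℝ × A => u p.2) (Icc (0 : ℝ) 1 ×ˢ X) :=
    hu.comp continuousOn_snd fun _ hp => hp.2
  have hG : ContinuousOn (fun p => φ ((ψ (u p.2)).1, w p)) (Icc (0 : ℝ) 1 ×ˢ X) := by
    have h1 := h.smψ.continuous.comp_continuousOn hu'
    have h2 : Continuous fun p : ℝ × A => g p.2 := gs.continuous.comp continuous_snd
    have h3 : Continuous c := by fun_prop
    exact h.smφ.continuous.comp_continuousOn (h1.fst.prodMk (h1.snd.add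
      ((continuousOn_fst.mul (h3.comp_continuousOn h1.snd)).smul
        (((continuous_const.max (continuous_const.div h2.norm fun p =>
          norm_ne_zero_iff.2 (g0 _))).smul h2).continuousOn.sub h1.snd))))
  have est := fun (t : ℝ) (ht : t ∈ Icc (0 : ℝ) 1) x (hx : x ∈ X) =>
    top_pushm_est (g0 x) (gy x hx) (mul_nonneg ht.1 (c0 (ψ (u x)).2))
      (mul_le_one₀ ht.2 (c0 _) (c1 _))
  have hξ : ∀ x ∈ X, u x ∈ O → ‖(ψ (u x)).1‖ ^ 2 ≤ a ^ 2 / 2 + ‖(ψ (u x)).2‖ ^ 2 := fun x hx ho => by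
    obtain ⟨h1, h2⟩ := h.bw _ ⟨(hm hx).1, ho⟩
    have h3 := hq _ h1
    have h4 := (hm hx).2.1
    rw [h2] at h3
    linarith
  have hw : ∀ p : ℝ × A, 7 / 4 * a ≤ ‖(ψ (u p.2)).2‖ → w p = (ψ (u p.2)).2 := fun p hp => by
    simp only [w, c3 _ hp, mul_zero, zero_smul, add_zero]
  have hB : ∀ t ∈ Icc (0 : ℝ) 1, ∀ x ∈ X, u x ∈ O → ((ψ (u x)).1, w (t, x)) ∈ ball 0 R ∧
      ‖(ψ (u x)).2‖ ^ 2 ≤ a ^ 2 / 2 + ‖w (t, x)‖ ^ 2 := fun t ht x hx ho => by
    have h1 := (h.bw _ ⟨(hm hx).1, ho⟩).1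
    rcases le_total (7 / 4 * a) ‖(ψ (u x)).2‖ with h2 | h2
    · rw [hw (t, x) h2]
      exact ⟨h1, by nlinarith⟩
    · obtain ⟨h3, h4, -⟩ := est t ht x hx
      rw [mem_ball_zero_iff, Prod.norm_def, max_lt_iff] at h1 ⊢
      refine ⟨⟨h1.1, h4.trans_lt (max_lt (by linarith) (by linarith))⟩, ?_⟩
      change _ ≤ ‖w (t, x)‖ at h3
      have h5 := norm_nonneg (ψ (u x)).2
      have h6 := norm_nonneg (w (t, x))
      rcases le_total ‖(ψ (u x)).2‖ (a / 8) with h7 | h7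
      · nlinarith
      · nlinarith [pow_le_pow_left₀ (sub_nonneg.2 h7) h3 2]
  refine ⟨fun x => H (1, x), ⟨H, fun p hp => ?_, fun p hp => ?_, fun x hx => ⟨?_, rfl⟩⟩,
    fun x hx => ?_⟩
  · by_cases ho : u p.2 ∈ O
    · refine (hG p hp).congr_of_eventuallyEq ?_ (if_pos ho)
      filter_upwards [(hu' p hp).eventually (h.op.mem_nhds ho)] with q hq using if_pos hq
    · have hK : IsClosed (φ '' closedBall 0 (2 * a)) :=
        ((isCompact_closedBall _ _).image h.smφ.continuous).isClosed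
      have hn : u p.2 ∈ (φ '' closedBall 0 (2 * a))ᶜ := by
        rintro ⟨z, h1, h2⟩
        exact ho (h2 ▸ (h.fw z (closedBall_subset_ball haR h1)).1.2)
      refine (hu' p hp).congr_of_eventuallyEq ?_ (if_neg ho)
      filter_upwards [(hu' p hp).eventually (hK.isOpen_compl.mem_nhds hn), self_mem_nhdsWithin]
        with q h1 h2
      simp only [H]
      split_ifs with h3
      · have h4 := (h.bw _ ⟨(hm h2.2).1, h3⟩).2
        rw [hw q (not_lt.1 fun h5 => h1 ⟨_, ?_, h4⟩), h4]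
        have h6 := hξ _ h2.2 h3
        have h7 := norm_nonneg (ψ (u q.2)).2
        rw [mem_closedBall_zero_iff, Prod.norm_def]
        exact max_le (le_of_sq_le_sq (by nlinarith) (by positivity)) (by linarith)
      · rfl
  · simp only [H]
    split_ifs with ho
    · obtain ⟨h1, h2⟩ := hB p.1 hp.1 p.2 hp.2 ho
      have h3 := hξ _ hp.2 ho
      refine ⟨(h.fw _ h1).1.1, ?_⟩
      rw [mem_preimage, hq _ h1]
      rw [mem_ball_zero_iff, Prod.norm_def, max_lt_iff] at h1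
      have h4 := pow_le_pow_left₀ (norm_nonneg _) h1.2.le 2
      exact ⟨by simp only; linarith, by simp only at h4 ⊢; nlinarith⟩
    · exact ⟨(hm hp.2).1, by linarith [(hm hp.2).2.1], (hm hp.2).2.2⟩
  · simp only [H, w, zero_mul, zero_smul, add_zero]
    split_ifs with ho
    exacts [(h.bw _ ⟨(hm hx).1, ho⟩).2, rfl]
  · simp only [H]
    split_ifs with ho
    · intro _
      rw [(h.fw _ (hB 1 ⟨zero_le_one, le_rfl⟩ x hx ho).1).2]
      obtain ⟨h1, -, h2⟩ := est 1 ⟨zero_le_one, le_rfl⟩ x hx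
      refine pow_le_pow_left₀ ha.le ?_ 2
      rcases le_total ‖(ψ (u x)).2‖ (5 / 4 * a) with h3 | h3
      · simpa [w, c2 _ h3] using h2
      · exact le_trans (by linarith) h1
    · exact fun h => (ho h).elim

end Pool.Agent.Lib.MP_ccffa6_gt
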