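import Pool.Agent.Lib.MP_ccffa6_gt.TOP.PushF
import Pool.Agent.Lib.MP_ccffa6_gt.TOP.PushM
import Pool.Agent.Lib.MP_ccffa6_gt.TOP.Hom

open Set Filter Topology Metric
open scoped ContDiff RealInnerProductSpace

noncomputable section

namespace Pool.Agent.Lib.MP_ccffa6_gt

variable {E : Type} [NormedAddCommGroup E] [NormedSpace ℝ E] [FiniteDimensional ℝ E]
  {E' : Type} [NormedAddCommGroup E'] [NormedSpace ℝ E'] [FiniteDimensional ℝ E']
  {F : Type} [NormedAddCommGroup F] [NormedSpace ℝ F] [FiniteDimensional ℝ F]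
  {A : Type} [NormedAddCommGroup A] [NormedSpace ℝ A] [FiniteDimensional ℝ A]

omit [NormedSpace ℝ E] [FiniteDimensional ℝ E] in
theorem top_push_cpt {W : Set E} {f g : E → ℝ} {a b a' b' : ℝ} (hK : IsCompact (W ∩ f ⁻¹' Icc a b))
    (hg : Continuous g) (h : W ∩ g ⁻¹' Icc a' b' ⊆ W ∩ f ⁻¹' Icc a b) :
    IsCompact (W ∩ g ⁻¹' Icc a' b') := by
  have e : W ∩ g ⁻¹' Icc a' b' = (W ∩ f ⁻¹' Icc a b) ∩ g ⁻¹' Icc a' b' :=
    Subset.antisymm (fun x hx => ⟨h hx, hx.2⟩) fun x hx => ⟨hx.1.1, hx.2⟩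
  rw [e]
  exact hK.inter_right (isClosed_Icc.preimage hg)

theorem top_push_aux {d : ℕ} {W : Set E} (hW : IsSub d W) {X : Set A} (hX : IsCompact X) {b : ℝ}
    (n : ℕ) : ∀ (f : E → ℝ) (a c : ℝ) (u : A → E),
      {x ∈ W ∩ f ⁻¹' Icc a b | Crit W f x}.ncard = n → ContDiff ℝ ∞ f → a < c → c ≤ b →
      IsCompact (W ∩ f ⁻¹' Icc a b) → (∀ x ∈ W, f x = b → ¬ Crit W f x) →
      (∀ q ∈ W ∩ f ⁻¹' Icc a b, Crit W f q → ∃ i k, Module.finrank ℝ A < k ∧ MChart W f q i k) →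
      ContinuousOn u X → MapsTo u X (W ∩ f ⁻¹' Icc c b) →
      ∃ v, HIn X (W ∩ f ⁻¹' Icc a b) u v ∧ ∀ x ∈ X, f (v x) = b := by
  induction n using Nat.strong_induction_on with
  | _ n ih =>
  intro f a c u hn hf hac hcb hK hb hM hu hm
  have hm' : MapsTo u X (W ∩ f ⁻¹' Icc a b) := fun x hx =>
    ⟨(hm hx).1, hac.le.trans (hm hx).2.1, (hm hx).2.2⟩
  have hfin : {x ∈ W ∩ f ⁻¹' Icc a b | Crit W f x}.Finite :=
    hW.finite_crit hf hK inter_subset_left fun x hx hc => by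
      obtain ⟨i, k, -, h⟩ := hM x hx hc
      exact ⟨i, k, h⟩
  rcases {x ∈ W ∩ f ⁻¹' Icc a b | Crit W f x}.eq_empty_or_nonempty with h0 | h0
  · obtain ⟨v, h1, h2⟩ := top_push_up hW hf (hac.le.trans hcb) le_rfl hK
      (fun x hx hc => (h0.subset ⟨hx, hc⟩ : x ∈ (∅ : Set E))) hu hm'
    exact ⟨v, h1, fun x hx => le_antisymm (h2 hx).2.2 (h2 hx).2.1⟩
  obtain ⟨q, ⟨hq, hqc⟩, hmin⟩ := exists_min_image _ f hfin h0
  have hqb : f q < b := lt_of_le_of_ne hq.2.2 fun e => hb q hq.1 e hqc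
  have hlt : ∀ S ⊆ {x ∈ W ∩ f ⁻¹' Icc a b | Crit W f x}, q ∉ S → S.ncard < n := fun S hS hq' =>
    hn ▸ ncard_lt_ncard ⟨hS, fun h => hq' (h ⟨hq, hqc⟩)⟩ hfin
  rcases lt_or_ge (f q) c with hc | hc
  · have haq : a ≤ f q := hq.2.1
    have hs : W ∩ f ⁻¹' Icc ((f q + c) / 2) b ⊆ W ∩ f ⁻¹' Icc a b :=
      inter_subset_inter_right _ (preimage_mono (Icc_subset_Icc_left (by linarith)))
    obtain ⟨v, h1, h2⟩ := ih _ (hlt {x ∈ W ∩ f ⁻¹' Icc ((f q + c) / 2) b | Crit W f x}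
      (fun x hx => ⟨hs hx.1, hx.2⟩) fun h => by
        have : (f q + c) / 2 ≤ f q := h.1.2.1
        linarith) f ((f q + c) / 2) c u rfl hf (by linarith) hcb
      (top_push_cpt hK hf.continuous hs) hb (fun x hx => hM x (hs hx)) hu hm
    exact ⟨v, h1.mono hs, h2⟩
  obtain ⟨i, k, hk, hch⟩ := hM q hq hqc
  obtain ⟨φ, ψ, R, O, hB, hR, -, h0, hφ⟩ := hch.cball hq.1 univ_mem
    (Real.sqrt_pos.2 (sub_pos.2 hqb))
  have hR0 := hB.pos
  have hR2 : f q + R ^ 2 ≤ b := by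
    have := pow_le_pow_left₀ hR0.le hR 2
    rw [Real.sq_sqrt (sub_pos.2 hqb).le] at this
    linarith
  obtain ⟨ε, hε, hε1, hε2⟩ : ∃ ε : ℝ, 0 < ε ∧ 4 * ε < R ^ 2 ∧ a < f q - 2 * ε := by
    have h1 : 0 < R ^ 2 := by positivity
    have h2 := min_le_left (R ^ 2 / 8) ((f q - a) / 4)
    have h3 := min_le_right (R ^ 2 / 8) ((f q - a) / 4)
    exact ⟨min (R ^ 2 / 8) ((f q - a) / 4), lt_min (by linarith) (by linarith), by linarith,
      by linarith⟩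
  have hs₁ : W ∩ f ⁻¹' Icc a (f q - ε / 2) ⊆ W ∩ f ⁻¹' Icc a b :=
    inter_subset_inter_right _ (preimage_mono (Icc_subset_Icc_right (by linarith)))
  obtain ⟨u₁, H₁, m₁⟩ := top_push_up hW hf (a := a) (c := f q - ε / 2) (b := b) (by linarith)
    (by linarith) (top_push_cpt hK hf.continuous hs₁) (fun x hx hc' => by
      have h1 := hmin x ⟨hs₁ hx, hc'⟩
      have h2 : f x ≤ f q - ε / 2 := hx.2.2
      linarith) hu hm'
  obtain ⟨u₂, H₂, m₂⟩ := top_move hB hf hφ hε hε1 hR2 hk hX H₁.right.1 m₁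
  obtain ⟨g, hg, hle, hg0, hne, hcr⟩ := top_lower hB hf hφ hε hε1
  rw [h0] at hg0 hcr
  obtain ⟨a', ha1, ha2, ha3⟩ : ∃ a', g q < a' ∧ a < a' ∧ a' < f q - ε := by
    obtain ⟨a', h1, h2⟩ := exists_between (max_lt hg0 (by linarith : a < f q - ε))
    exact ⟨a', (le_max_left _ _).trans_lt h1, (le_max_right _ _).trans_lt h1, h2⟩
  have hfb : ∀ x ∈ W, g x ≠ f x → f x < b := fun x hx h => by
    have := (hne x hx h).2.2
    linarith
  have hs₂ : W ∩ g ⁻¹' Icc a' b ⊆ W ∩ f ⁻¹' Icc a b := fun x hx => by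
    refine ⟨hx.1, ha2.le.trans (hx.2.1.trans (hle x)), ?_⟩
    by_cases h : g x = f x
    · exact h ▸ hx.2.2
    · exact (hfb x hx.1 h).le
  have hgc : ∀ x ∈ W, a' ≤ g x → Crit W g x → x ≠ q ∧ g =ᶠ[𝓝[W] x] f ∧ Crit W f x := by
    intro x hx h1 h2
    rcases hcr x hx h2 with rfl | h3
    · exact absurd h1 (not_le.2 ha1)
    · exact ⟨h3.1, h3.2, h2.congr hx (hg.differentiable (by simp) x) (hf.differentiable (by simp) x)
        h3.2.symm⟩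
  obtain ⟨v, H₃, h3⟩ := ih _ (hlt {x ∈ W ∩ g ⁻¹' Icc a' b | Crit W g x}
    (fun x hx => ⟨hs₂ hx.1, (hgc x hx.1.1 hx.1.2.1 hx.2).2.2⟩)
    fun h => (hgc q h.1.1 h.1.2.1 h.2).1 rfl) g a' (f q - ε) u₂ rfl hg ha3 (by linarith)
    (top_push_cpt hK hg.continuous hs₂)
    (fun x hx e hc' => by
      obtain ⟨-, h1, h2⟩ := hgc x hx (by linarith) hc'
      exact hb x hx ((h1.self_of_nhdsWithin hx).symm.trans e) h2)
    (fun x hx hc' => by
      obtain ⟨-, h1, h2⟩ := hgc x hx.1 hx.2.1 hc'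
      obtain ⟨i', k', h4, h5⟩ := hM x (hs₂ hx) h2
      exact ⟨i', k', h4, h5.congr hx.1 h1⟩)
    H₂.right.1
    (fun x hx => by
      have h1 := H₂.right.2 hx
      have h2 : g (u₂ x) = f (u₂ x) := by
        by_contra h
        exact absurd (m₂ x hx (hne _ h1.1 h).1) (not_le.2 (hne _ h1.1 h).2.1)
      refine ⟨h1.1, ?_⟩
      rw [mem_preimage, h2]
      exact h1.2)
  refine ⟨v, H₁.trans ((H₂.mono (inter_subset_inter_right _ (preimage_mono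
    (Icc_subset_Icc_left (by linarith))))).trans (H₃.mono hs₂)), fun x hx => ?_⟩
  by_contra h
  have h1 := hfb _ (H₃.right.2 hx).1 fun e => h (e.symm.trans (h3 x hx))
  have h2 := hle (v x)
  rw [h3 x hx] at h2
  linarith

/-- Push lemma: induction on the number of critical points in the slab. -/
theorem top_push {d : ℕ} {W : Set E} (hW : IsSub d W) {X : Set A} (hX : IsCompact X) {b : ℝ}
    {f : E → ℝ} (hf : ContDiff ℝ ∞ f) {a c : ℝ} (hac : a < c) (hcb : c ≤ b)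
    (hK : IsCompact (W ∩ f ⁻¹' Icc a b)) (hb : ∀ x ∈ W, f x = b → ¬ Crit W f x)
    (hM : ∀ q ∈ W ∩ f ⁻¹' Icc a b, Crit W f q → ∃ i k, Module.finrank ℝ A < k ∧ MChart W f q i k)
    {u : A → E} (hu : ContinuousOn u X) (hm : MapsTo u X (W ∩ f ⁻¹' Icc c b)) :
    ∃ v, HIn X (W ∩ f ⁻¹' Icc a b) u v ∧ ∀ x ∈ X, f (v x) = b :=
  top_push_aux hW hX _ f a c u rfl hf hac hcb hK hb hM hu hm

end Pool.Agent.Lib.MP_ccffa6_gt
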