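import Pool.Agent.Lib.MP_ccffa6_gt.TOP.Cr

open Set Filter Topology Metric
open scoped ContDiff RealInnerProductSpace

noncomputable section

namespace Pool.Agent.Lib.MP_ccffa6_gt

variable {E : Type} [NormedAddCommGroup E] [NormedSpace ℝ E] [FiniteDimensional ℝ E]
  {E' : Type} [NormedAddCommGroup E'] [NormedSpace ℝ E'] [FiniteDimensional ℝ E']
  {F : Type} [NormedAddCommGroup F] [NormedSpace ℝ F] [FiniteDimensional ℝ F]
  {A : Type} [NormedAddCommGroup A] [NormedSpace ℝ A] [FiniteDimensional ℝ A]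

/-- The profile function: smooth, nonnegative, slope in `(-1, 0]`, zero from `2ε` on. -/
theorem top_pushf_mu {ε : ℝ} (hε : 0 < ε) :
    ∃ μ β : ℝ → ℝ, ContDiff ℝ ∞ μ ∧ (∀ r, HasDerivAt μ (-β r) r) ∧ (∀ r, 0 ≤ β r ∧ β r < 1) ∧
      (∀ r, 0 ≤ μ r) ∧ ε < μ 0 ∧ ∀ r, 2 * ε ≤ r → μ r = 0 := by
  obtain ⟨β, hβ⟩ : ∃ β : ℝ → ℝ,
      β = fun r => 3 / 4 * Real.smoothTransition ((2 * ε - r) / (ε / 2)) := ⟨_, rfl⟩
  have hβs : ContDiff ℝ ∞ β := by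
    rw [hβ]
    exact contDiff_const.mul (Real.smoothTransition.contDiff.comp
      ((contDiff_const.sub contDiff_id).div_const _))
  have hβc : Continuous β := hβs.continuous
  have h0 : ∀ r, 0 ≤ β r := fun r => by
    rw [hβ]
    exact mul_nonneg (by norm_num) (Real.smoothTransition.nonneg _)
  have h1 : ∀ r, β r < 1 := fun r => by
    have := Real.smoothTransition.le_one ((2 * ε - r) / (ε / 2))
    rw [hβ]
    dsimp only
    linarith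
  have hz : ∀ r, 2 * ε ≤ r → β r = 0 := fun r hr => by
    rw [hβ]
    dsimp only
    rw [Real.smoothTransition.zero_of_nonpos, mul_zero]
    exact div_nonpos_of_nonpos_of_nonneg (by linarith) (by linarith)
  have ho : ∀ r, r ≤ 3 * ε / 2 → β r = 3 / 4 := fun r hr => by
    rw [hβ]
    dsimp only
    rw [Real.smoothTransition.one_of_one_le, mul_one]
    rw [le_div_iff₀ (by linarith)]
    linarith
  have hd : ∀ r, HasDerivAt (fun r => ∫ t in r..2 * ε, β t) (-β r) r := fun r =>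
    intervalIntegral.integral_hasDerivAt_left (hβc.intervalIntegrable _ _)
      (hβc.stronglyMeasurableAtFilter _ _) hβc.continuousAt
  have hzero : ∀ r, 2 * ε ≤ r → ∫ t in r..2 * ε, β t = 0 := fun r hr => by
    rw [intervalIntegral.integral_congr (g := fun _ => (0 : ℝ))]
    · simp
    · intro t ht
      rw [uIcc_of_ge hr] at ht
      exact hz t ht.1
  have hpos : ∀ r, 0 ≤ ∫ t in r..2 * ε, β t := fun r => by
    rcases le_total r (2 * ε) with hr | hr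
    · exact intervalIntegral.integral_nonneg hr fun t _ => h0 t
    · exact (hzero r hr).ge
  refine ⟨fun r => ∫ t in r..2 * ε, β t, β, ?_, hd, fun r => ⟨h0 r, h1 r⟩, hpos, ?_, hzero⟩
  · rw [contDiff_infty_iff_deriv]
    refine ⟨fun r => (hd r).differentiableAt, ?_⟩
    have e : deriv (fun r => ∫ t in r..2 * ε, β t) = fun r => -β r :=
      funext fun r => (hd r).deriv
    rw [e]
    exact hβs.neg
  · have e := intervalIntegral.integral_add_adjacent_intervals (μ := MeasureTheory.volume)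
      (hβc.intervalIntegrable 0 (3 * ε / 2)) (hβc.intervalIntegrable (3 * ε / 2) (2 * ε))
    have e1 : ∫ t in (0 : ℝ)..3 * ε / 2, β t = 9 / 8 * ε := by
      rw [intervalIntegral.integral_congr (g := fun _ => (3 / 4 : ℝ))]
      · simp only [intervalIntegral.integral_const, sub_zero, smul_eq_mul]
        ring
      · intro t ht
        rw [uIcc_of_le (by linarith)] at ht
        exact ho t ht.2
    have e2 := hpos (3 * ε / 2)
    show ε < ∫ t in (0 : ℝ)..2 * ε, β t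
    linarith

/-- The model function has the origin as its only critical point. -/
theorem top_pushf_model {i k : ℕ} {μ β : ℝ → ℝ} (hd : ∀ r, HasDerivAt μ (-β r) r)
    (hβ : ∀ r, 0 ≤ β r ∧ β r < 1) {G : Rd i × Rd k → ℝ} {s : ℝ} {z : Rd i × Rd k}
    (hG : HasFDerivAt G (0 : Rd i × Rd k →L[ℝ] ℝ) z)
    (he : ∀ᶠ w in 𝓝 z, G w = s - ‖w.1‖ ^ 2 + ‖w.2‖ ^ 2 - μ (‖w.1‖ ^ 2 + 2 * ‖w.2‖ ^ 2)) :
    z = 0 := by
  obtain ⟨ξ, hξ⟩ : ∃ ξ, ξ = ‖z.1‖ ^ 2 := ⟨_, rfl⟩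
  obtain ⟨η, hη⟩ : ∃ η, η = ‖z.2‖ ^ 2 := ⟨_, rfl⟩
  obtain ⟨γ, hγ⟩ : ∃ γ : ℝ → Rd i × Rd k, γ = fun t => ((1 - t) • z.1, (1 + t) • z.2) := ⟨_, rfl⟩
  have γ0 : γ 0 = z := by simp [hγ]
  have a1 : HasDerivAt (fun t : ℝ => 1 - t) (-1) 0 := (hasDerivAt_id (0 : ℝ)).const_sub 1
  have a2 : HasDerivAt (fun t : ℝ => 1 + t) 1 0 := (hasDerivAt_id (0 : ℝ)).const_add 1
  have dγ : HasDerivAt γ ((-1 : ℝ) • z.1, (1 : ℝ) • z.2) 0 := by
    rw [hγ]
    exact (a1.smul_const z.1).prodMk (a2.smul_const z.2)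
  have hG' : HasFDerivAt G (0 : Rd i × Rd k →L[ℝ] ℝ) (γ 0) := by rwa [γ0]
  have b1 : HasDerivAt (fun t => G (γ t)) 0 0 := hG'.comp_hasDerivAt (0 : ℝ) dγ
  have c1 : HasDerivAt (fun t : ℝ => (1 - t) ^ 2 * ξ) (-2 * ξ) 0 := by
    refine ((a1.pow 2).mul_const ξ).congr_deriv ?_
    simp
  have c2 : HasDerivAt (fun t : ℝ => (1 + t) ^ 2 * η) (2 * η) 0 := by
    refine ((a2.pow 2).mul_const η).congr_deriv ?_
    simp
  have c3 : HasDerivAt (fun t : ℝ => (1 - t) ^ 2 * ξ + 2 * ((1 + t) ^ 2 * η))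
      (-2 * ξ + 2 * (2 * η)) 0 := c1.add (c2.const_mul 2)
  obtain ⟨b, hb, c4⟩ : ∃ b : ℝ, (0 ≤ b ∧ b < 1) ∧
      HasDerivAt (fun t : ℝ => μ ((1 - t) ^ 2 * ξ + 2 * ((1 + t) ^ 2 * η)))
        (-b * (-2 * ξ + 2 * (2 * η))) 0 := ⟨_, hβ _, (hd _).comp (0 : ℝ) c3⟩
  have c5 : HasDerivAt (fun t : ℝ => s - (1 - t) ^ 2 * ξ + (1 + t) ^ 2 * η -
      μ ((1 - t) ^ 2 * ξ + 2 * ((1 + t) ^ 2 * η)))
      (-(-2 * ξ) + 2 * η - -b * (-2 * ξ + 2 * (2 * η))) 0 := ((c1.const_sub s).add c2).sub c4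
  have b2 : HasDerivAt (fun t => G (γ t))
      (-(-2 * ξ) + 2 * η - -b * (-2 * ξ + 2 * (2 * η))) 0 := by
    refine c5.congr_of_eventuallyEq ?_
    have ht : Tendsto γ (𝓝 0) (𝓝 z) := by
      rw [← γ0]
      exact dγ.continuousAt
    filter_upwards [ht.eventually he] with t ht
    rw [ht, hγ, hξ, hη]
    simp only [norm_smul, mul_pow, Real.norm_eq_abs, sq_abs]
  have e := b1.unique b2
  have p1 : 0 ≤ ξ := by rw [hξ]; positivity
  have p2 : 0 ≤ η := by rw [hη]; positivity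
  have p3 : 0 ≤ ξ * (1 - b) := mul_nonneg p1 (by linarith [hb.2])
  have p4 : 0 ≤ η * b := mul_nonneg p2 hb.1
  have q2 : η = 0 := by nlinarith
  have q1 : ξ * (1 - b) = 0 := by nlinarith
  have q3 : ξ = 0 := (mul_eq_zero.1 q1).resolve_right (by linarith [hb.2])
  rw [hξ] at q3
  rw [hη] at q2
  exact Prod.ext (norm_eq_zero.1 (pow_eq_zero_iff two_ne_zero |>.1 q3))
    (norm_eq_zero.1 (pow_eq_zero_iff two_ne_zero |>.1 q2))

/-- Milnor's function `f - χ * μ (‖ψ.1‖² + 2‖ψ.2‖²)` lowers the critical value. -/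
theorem top_lower {i k : ℕ} {W O : Set E} {φ : Rd i × Rd k → E} {ψ : E → Rd i × Rd k} {R : ℝ}
    (h : CBall W φ ψ R O) {f : E → ℝ} (hf : ContDiff ℝ ∞ f) {s ε : ℝ}
    (hq : ∀ z ∈ ball (0 : Rd i × Rd k) R, f (φ z) = s - ‖z.1‖ ^ 2 + ‖z.2‖ ^ 2) (hε : 0 < ε)
    (hR : 4 * ε < R ^ 2) :
    ∃ g : E → ℝ, ContDiff ℝ ∞ g ∧ (∀ x, g x ≤ f x) ∧ g (φ 0) < s - ε ∧
      (∀ x ∈ W, g x ≠ f x → x ∈ O ∧ ‖(ψ x).2‖ ^ 2 < ε ∧ f x < s + ε) ∧
      ∀ x ∈ W, Crit W g x → x = φ 0 ∨ (x ≠ φ 0 ∧ g =ᶠ[𝓝[W] x] f) := by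
  obtain ⟨μ, β, hμ, hd, hβ, hμ0, hμε, hμz⟩ := top_pushf_mu hε
  have hρ : √(2 * ε) < R := by
    rw [Real.sqrt_lt' h.pos]
    linarith
  have hsub : closedBall (0 : Rd i × Rd k) √(2 * ε) ⊆ ball 0 R := closedBall_subset_ball hρ
  obtain ⟨K, hK⟩ : ∃ K, K = φ '' closedBall (0 : Rd i × Rd k) √(2 * ε) := ⟨_, rfl⟩
  have hKc : IsClosed K := by
    rw [hK]
    exact ((isCompact_closedBall _ _).image h.smφ.continuous).isClosed
  have hKO : K ⊆ O := by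
    rw [hK]
    rintro _ ⟨z, hz, rfl⟩
    exact (h.fw z (hsub hz)).1.2
  obtain ⟨χ, hχ, hχ01, hχ1, hχO, -⟩ := exists_cutoff hKc h.op hKO
  obtain ⟨g, hg⟩ : ∃ g : E → ℝ,
      g = fun x => f x - χ x * μ (‖(ψ x).1‖ ^ 2 + 2 * ‖(ψ x).2‖ ^ 2) := ⟨_, rfl⟩
  have hgx : ∀ x, g x = f x - χ x * μ (‖(ψ x).1‖ ^ 2 + 2 * ‖(ψ x).2‖ ^ 2) := fun x => by rw [hg]
  have hgs : ContDiff ℝ ∞ g := by
    rw [hg]
    exact hf.sub (hχ.mul (hμ.comp ((h.smψ.fst.norm_sq ℝ).add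
      (contDiff_const.mul (h.smψ.snd.norm_sq ℝ)))))
  have h0K : φ 0 ∈ K := by
    rw [hK]
    exact mem_image_of_mem φ (mem_closedBall_self (Real.sqrt_nonneg _))
  have h0R : (0 : Rd i × Rd k) ∈ ball (0 : Rd i × Rd k) R := mem_ball_self h.pos
  have key : ∀ x, g x ≠ f x → x ∈ O ∧ ‖(ψ x).1‖ ^ 2 + 2 * ‖(ψ x).2‖ ^ 2 < 2 * ε := by
    intro x hx
    have hne : χ x * μ (‖(ψ x).1‖ ^ 2 + 2 * ‖(ψ x).2‖ ^ 2) ≠ 0 := fun h0 =>
      hx (by rw [hgx, h0, sub_zero])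
    refine ⟨hχO (subset_tsupport χ (left_ne_zero_of_mul hne)), ?_⟩
    by_contra hc
    exact right_ne_zero_of_mul hne (hμz _ (not_lt.1 hc))
  refine ⟨g, hgs, fun x => ?_, ?_, fun x hxW hx => ?_, fun x hxW hc => ?_⟩
  · have := mul_nonneg (hχ01 x).1 (hμ0 (‖(ψ x).1‖ ^ 2 + 2 * ‖(ψ x).2‖ ^ 2))
    rw [hgx]
    linarith
  · rw [hgx, hq 0 h0R, (h.fw 0 h0R).2, hχ1.self_of_nhdsSet _ h0K]
    simp only [Prod.fst_zero, Prod.snd_zero, norm_zero, ne_eq, OfNat.ofNat_ne_zero,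
      not_false_eq_true, zero_pow, sub_zero, add_zero, mul_zero, one_mul]
    linarith
  · obtain ⟨hxO, hlt⟩ := key x hx
    obtain ⟨hb, hl⟩ := h.bw x ⟨hxW, hxO⟩
    have e := hq _ hb
    rw [hl] at e
    have p1 : 0 ≤ ‖(ψ x).1‖ ^ 2 := by positivity
    exact ⟨hxO, by linarith, by linarith⟩
  · by_cases hxK : x ∈ K
    · left
      have hxK' := hxK
      rw [hK] at hxK'
      obtain ⟨z, hz, rfl⟩ := hxK'
      have h1 := (h.crit_iff hgs (hsub hz)).1 hc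
      have h2 : HasFDerivAt (fun z => g (φ z)) (0 : Rd i × Rd k →L[ℝ] ℝ) z := by
        rw [← h1]
        exact ((hgs.comp h.smφ).differentiable (by simp) z).hasFDerivAt
      have h3 : ∀ᶠ w in 𝓝 z, χ (φ w) = 1 :=
        h.smφ.continuous.continuousAt.eventually (hχ1.filter_mono (nhds_le_nhdsSet hxK))
      rw [top_pushf_model (s := s) hd hβ h2 ?_]
      filter_upwards [h3, isOpen_ball.mem_nhds (hsub hz)] with w hw hwR
      rw [hgx, hq w hwR, hw, (h.fw w hwR).2, one_mul]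
    · right
      refine ⟨fun h0 => hxK (h0 ▸ h0K), ?_⟩
      filter_upwards [self_mem_nhdsWithin, mem_nhdsWithin_of_mem_nhds (hKc.isOpen_compl.mem_nhds hxK)]
        with y hyW hyK
      by_contra hne
      obtain ⟨hyO, hlt⟩ := key y hne
      refine hyK ?_
      rw [hK]
      refine ⟨ψ y, ?_, (h.bw y ⟨hyW, hyO⟩).2⟩
      have p1 : 0 ≤ ‖(ψ y).1‖ ^ 2 := by positivity
      have p2 : 0 ≤ ‖(ψ y).2‖ ^ 2 := by positivity
      rw [mem_closedBall_zero_iff, Prod.norm_def]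
      exact max_le (Real.le_sqrt_of_sq_le (by linarith)) (Real.le_sqrt_of_sq_le (by linarith))

end Pool.Agent.Lib.MP_ccffa6_gt
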