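import Pool.Agent.Lib.MP_ccffa6_gt.TOP.TubeF

/-! The two pieces of the surgered manifold. -/

open Set Filter Topology Metric
open scoped ContDiff RealInnerProductSpace

noncomputable section

namespace Pool.Agent.Lib.MP_ccffa6_gt

variable {E : Type} [NormedAddCommGroup E] [NormedSpace ℝ E] [FiniteDimensional ℝ E]
  {E' : Type} [NormedAddCommGroup E'] [NormedSpace ℝ E'] [FiniteDimensional ℝ E']
  {E₂ : Type} [NormedAddCommGroup E₂] [NormedSpace ℝ E₂] [FiniteDimensional ℝ E₂]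
  {K : Type} [NormedAddCommGroup K] [NormedSpace ℝ K] [FiniteDimensional ℝ K]

variable {j m : ℕ} {W : Set E} {ε ρ ρ' : ℝ} {T : Rd (j + 1) × Rd (m + 1) → E}
  {Λ : E → Rd (j + 1) × Rd (m + 1)} {W₂ : Set E₂} {ι : E →L[ℝ] E₂} {π : E₂ →L[ℝ] E} {α : E → E₂}
  {β : Rd (j + 1) × Rd (m + 1) → E₂} {ϖ : E₂ →L[ℝ] Rd (j + 1) × Rd (m + 1)} {OA OB : Set E₂}

theorem top_sg2_ev {X : Type} [TopologicalSpace X] {O S : Set X} (hO : IsOpen O) {z : X}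
    (hz : z ∈ O) : S =ᶠ[𝓝 z] (O ∩ S : Set X) := by
  filter_upwards [hO.mem_nhds hz] with y hy
  exact propext ⟨fun h => ⟨hy, h⟩, fun h => h.2⟩

theorem top_sg2_mem {w : Rd (j + 1)} {θ : Rd (m + 1)} (hw : ‖w‖ < ρ) (hθ : ‖θ‖ = 1) :
    (w, θ) ∈ ball (0 : Rd (j + 1)) ρ ×ˢ sphere (0 : Rd (m + 1)) 1 :=
  ⟨by simpa using hw, by simpa using hθ⟩

theorem top_sg2_norm {k : ℕ} {σ : Rd k} (hσ : ‖σ‖ = 1) {t : ℝ} (ht : 0 < t) :
    HasFDerivAt (fun w : Rd k => ‖w‖) (innerSL ℝ σ) (t • σ) := by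
  have hn : ‖t • σ‖ = t := by rw [norm_smul, hσ, mul_one, Real.norm_of_nonneg ht.le]
  have h1 := (hasStrictFDerivAt_norm_sq (t • σ)).hasFDerivAt.sqrt (by rw [hn]; positivity)
  simp only [Real.sqrt_sq (norm_nonneg _), hn, Real.sqrt_sq ht.le] at h1
  refine h1.congr_fderiv (ContinuousLinearMap.ext fun u => ?_)
  simp only [innerSL_apply_apply, smul_apply, inner_smul_left, smul_eq_mul,
    nsmul_eq_mul, conj_trivial]
  field_simp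
  norm_num

theorem Surg.diffA (h : Surg W T ρ ρ' W₂ ι π α β ϖ OA OB) :
    Diff (W \ T '' (sphere 0 1 ×ˢ closedBall 0 (ρ / 2))) (OA ∩ W₂) α π := by
  rw [h.eqA]
  exact Diff.image h.smα π.contDiff fun x _ => h.πα x

theorem Surg.diffB (h : Surg W T ρ ρ' W₂ ι π α β ϖ OA OB) :
    Diff (ball 0 ρ ×ˢ sphere 0 1) (OB ∩ W₂) β ϖ := by
  rw [h.eqB]
  exact Diff.image h.smβ ϖ.contDiff fun x _ => h.ϖβ x

/-- `IsSub.of_local`, `Diff.isSub`, `IsSub.inter_open`, `top_isSub_bs`. -/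
theorem Surg.isSub (h : Surg W T ρ ρ' W₂ ι π α β ϖ OA OB)
    (hT : TubeG j (m + 1) W ε T Λ) (hW : IsSub (j + m + 1) W) : IsSub (j + m + 1) W₂ := by
  refine IsSub.of_local fun z hz => ?_
  rcases h.cov hz with hA | hB
  · exact ⟨OA ∩ W₂, h.diffA.isSub (hW.inter_open (hT.compact _).isClosed.isOpen_compl),
      top_sg2_ev h.opA hA⟩
  · exact ⟨OB ∩ W₂, h.diffB.isSub (top_isSub_bs j m ρ), top_sg2_ev h.opB hB⟩

/-- `Diff.tan_bijOn` for the inverse, `Tan.congr`. -/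
theorem Surg.tanA (h : Surg W T ρ ρ' W₂ ι π α β ϖ OA OB)
    (hT : TubeG j (m + 1) W ε T Λ) {x : E}
    (hx : x ∈ W \ T '' (sphere 0 1 ×ˢ closedBall 0 (ρ / 2))) :
    BijOn π (Tan W₂ (α x)) (Tan W x) := by
  have hz := h.diffA.mapφ hx
  have h1 := h.diffA.symm.tan_bijOn hz
  have h2 : W =ᶠ[𝓝 x] (W \ T '' (sphere 0 1 ×ˢ closedBall 0 (ρ / 2)) : Set E) := by
    filter_upwards [(hT.compact (ρ / 2)).isClosed.isOpen_compl.mem_nhds hx.2] with y hy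
    exact propext ⟨fun h => ⟨h, hy⟩, fun h => h.1⟩
  rwa [π.fderiv, h.πα, ← Tan.congr (top_sg2_ev h.opA hz.1), ← Tan.congr h2] at h1

theorem Surg.tanA' (h : Surg W T ρ ρ' W₂ ι π α β ϖ OA OB)
    (hT : TubeG j (m + 1) W ε T Λ) {x : E}
    (hx : x ∈ W \ T '' (sphere 0 1 ×ˢ closedBall 0 (ρ / 2))) {v : E₂} (hv : v ∈ Tan W₂ (α x)) :
    fderiv ℝ α x (π v) = v := by
  have _ := hT
  have hz := h.diffA.mapφ hx
  rw [Tan.congr (top_sg2_ev h.opA hz.1)] at hv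
  have h1 := h.diffA.symm.tan_left hz hv
  rwa [π.fderiv, h.πα] at h1

theorem Surg.tanB (h : Surg W T ρ ρ' W₂ ι π α β ϖ OA OB) {w : Rd (j + 1)} {θ : Rd (m + 1)}
    (hw : ‖w‖ < ρ) (hθ : ‖θ‖ = 1) : BijOn ϖ (Tan W₂ (β (w, θ))) {q | ⟪θ, q.2⟫ = 0} := by
  have hz := h.diffB.mapφ (top_sg2_mem hw hθ)
  have h1 := h.diffB.symm.tan_bijOn hz
  rw [ϖ.fderiv, h.ϖβ, ← Tan.congr (top_sg2_ev h.opB hz.1)] at h1
  convert h1 using 1
  ext q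
  exact (top_tan_bs hw hθ q).symm

theorem Surg.tanB' (h : Surg W T ρ ρ' W₂ ι π α β ϖ OA OB) {w : Rd (j + 1)} {θ : Rd (m + 1)}
    (hw : ‖w‖ < ρ) (hθ : ‖θ‖ = 1) {v : E₂} (hv : v ∈ Tan W₂ (β (w, θ))) :
    fderiv ℝ β (w, θ) (ϖ v) = v := by
  have hz := h.diffB.mapφ (top_sg2_mem hw hθ)
  rw [Tan.congr (top_sg2_ev h.opB hz.1)] at hv
  have h1 := h.diffB.symm.tan_left hz hv
  rwa [ϖ.fderiv, h.ϖβ] at h1

theorem Surg.overlap (h : Surg W T ρ ρ' W₂ ι π α β ϖ OA OB) (h0 : 0 < ρ) {z : E₂} (hz : z ∈ W₂)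
    (hA : z ∈ OA) (hB : z ∈ OB) : ∃ (σ : Rd (j + 1)) (θ : Rd (m + 1)) (t : ℝ), ‖σ‖ = 1 ∧ ‖θ‖ = 1 ∧
      ρ / 2 < t ∧ t < ρ ∧ z = α (T (σ, t • θ)) ∧ z = β (t • σ, θ) := by
  obtain ⟨⟨w, θ⟩, ⟨hw, hθ⟩, rfl⟩ : z ∈ β '' (ball 0 ρ ×ˢ sphere 0 1) := h.eqB ▸ ⟨hB, hz⟩
  have hw' : ‖w‖ < ρ := by simpa using hw
  have hθ' : ‖θ‖ = 1 := by simpa using hθ
  have h1 := h.only w θ hw' hθ' hA
  obtain ⟨σ, hσ, e⟩ := top_polar (y := w) (norm_pos_iff.1 (by linarith))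
  refine ⟨σ, θ, ‖w‖, hσ, hθ', h1, hw', ?_, by rw [← e]⟩
  rw [h.glue σ θ ‖w‖ hσ hθ' h1 hw', ← e]

/-- On the overlap the two projections of a tangent vector are related by the derivative of
`(w, θ) ↦ (w / ‖w‖, ‖w‖ θ)`: differentiate `π (β (w, θ)) = T (‖w‖⁻¹ • w, ‖w‖ • θ)` along
`ball ×ˢ sphere` (`Tan.fderiv_congr`), or along curves. -/
theorem Surg.tan_overlap (h : Surg W T ρ ρ' W₂ ι π α β ϖ OA OB) (h0 : 0 < ρ)
    (hT : TubeG j (m + 1) W ε T Λ) {σ : Rd (j + 1)} {θ : Rd (m + 1)} {t : ℝ} (hσ : ‖σ‖ = 1)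
    (hθ : ‖θ‖ = 1) (h1 : ρ / 2 < t) (h2 : t < ρ) {v : E₂} (hv : v ∈ Tan W₂ (β (t • σ, θ))) :
    π v = fderiv ℝ T (σ, t • θ)
      (t⁻¹ • ((ϖ v).1 - ⟪σ, (ϖ v).1⟫ • σ), ⟪σ, (ϖ v).1⟫ • θ + t • (ϖ v).2) := by
  have ht : 0 < t := by linarith
  have hn : ‖t • σ‖ = t := by rw [norm_smul, hσ, mul_one, Real.norm_of_nonneg ht.le]
  have hw : ‖t • σ‖ < ρ := by rwa [hn]
  have hq : ϖ v ∈ Tan (ball (0 : Rd (j + 1)) ρ ×ˢ sphere (0 : Rd (m + 1)) 1) (t • σ, θ) :=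
    (top_tan_bs hw hθ _).2 ((h.tanB hw hθ).mapsTo hv)
  have hN : HasFDerivAt (fun q : Rd (j + 1) × Rd (m + 1) => ‖q.1‖)
      ((innerSL ℝ σ).comp (ContinuousLinearMap.fst ℝ _ _)) (t • σ, θ) :=
    HasFDerivAt.comp (f := Prod.fst) (g := fun w : Rd (j + 1) => ‖w‖) (t • σ, θ)
      (top_sg2_norm hσ ht) hasFDerivAt_fst
  have hI := (hasDerivAt_inv (x := ‖t • σ‖) (by rw [hn]; exact ht.ne')).comp_hasFDerivAt
    (f := fun q : Rd (j + 1) × Rd (m + 1) => ‖q.1‖) (t • σ, θ) hN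
  have hn' := (hI.smul (hasFDerivAt_fst (p := (t • σ, θ)))).prodMk
    (hN.smul (hasFDerivAt_snd (p := (t • σ, θ))))
  have hp : (‖t • σ‖⁻¹ • t • σ, ‖t • σ‖ • θ) = (σ, t • θ) := by
    rw [hn, smul_smul, inv_mul_cancel₀ ht.ne', one_smul]
  have hT' : HasFDerivAt T (fderiv ℝ T (σ, t • θ)) (‖t • σ‖⁻¹ • t • σ, ‖t • σ‖ • θ) := by
    rw [hp]
    exact (hT.smT.differentiable (by simp) _).hasFDerivAt
  have hc := HasFDerivAt.comp (t • σ, θ) hT' hn'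
  have hβ := (h.smβ.differentiable (by simp) (t • σ, θ)).hasFDerivAt
  have hb := π.hasFDerivAt.comp (t • σ, θ) hβ
  have key := Tan.fderiv_congr (top_sg2_mem hw hθ) hb.differentiableAt hc.differentiableAt ?_ hq
  · rw [hb.fderiv, hc.fderiv, ContinuousLinearMap.comp_apply, h.tanB' hw hθ hv,
      ContinuousLinearMap.comp_apply] at key
    rw [key]
    congr 1
    have e : -(t ^ 2)⁻¹ * ⟪σ, (ϖ v).1⟫ * t = -(t⁻¹ * ⟪σ, (ϖ v).1⟫) := by field_simp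
    refine Prod.ext ?_ ?_
    · simp only [ContinuousLinearMap.prod_apply, add_apply,
        smul_apply, ContinuousLinearMap.smulRight_apply,
        ContinuousLinearMap.comp_apply, ContinuousLinearMap.coe_fst', innerSL_apply_apply,
        Function.comp_apply, hn, smul_eq_mul, smul_smul, e, smul_sub]
      rw [neg_smul, sub_eq_add_neg]
    · simp only [ContinuousLinearMap.prod_apply, add_apply,
        smul_apply, ContinuousLinearMap.smulRight_apply,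
        ContinuousLinearMap.comp_apply, ContinuousLinearMap.coe_fst', ContinuousLinearMap.coe_snd',
        innerSL_apply_apply, hn]
      exact add_comm _ _
  · have h3 : ∀ᶠ q : Rd (j + 1) × Rd (m + 1) in 𝓝 (t • σ, θ), ρ / 2 < ‖q.1‖ :=
      hN.continuousAt.eventually (lt_mem_nhds (h1.trans_eq hn.symm))
    filter_upwards [mem_nhdsWithin_of_mem_nhds h3, self_mem_nhdsWithin] with q hq1 hq2
    have hw' : ‖q.1‖ < ρ := by simpa using hq2.1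
    have hθ' : ‖q.2‖ = 1 := by simpa using hq2.2
    have hpos : 0 < ‖q.1‖ := by linarith
    have h4 := h.glue (‖q.1‖⁻¹ • q.1) q.2 ‖q.1‖ (norm_smul_inv_norm (norm_pos_iff.1 hpos)) hθ' hq1 hw'
    rw [smul_smul, mul_inv_cancel₀ hpos.ne', one_smul] at h4
    change π (β (q.1, q.2)) = T (‖q.1‖⁻¹ • q.1, ‖q.1‖ • q.2)
    rw [← h4, h.πα]

/-- Gluing continuous maps: `s = OB.piecewise (v ∘ ϖ) (u ∘ π)`. A point of `W₂` outside `OB` is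
`α x` with `x` outside the open tube of radius `ρ`, and the closed tube of radius `ρ₀` is
compact. -/
theorem Surg.exists_glue (h : Surg W T ρ ρ' W₂ ι π α β ϖ OA OB) (h0 : 0 < ρ) (hρ : ρ < ε)
    (hT : TubeG j (m + 1) W ε T Λ) {ρ₀ : ℝ} (h1 : ρ / 2 ≤ ρ₀) (h2 : ρ₀ < ρ) {X : Type}
    [TopologicalSpace X] {Z : Set E} {u : E → X} {v : Rd (j + 1) × Rd (m + 1) → X}
    (hu : ContinuousOn u Z) (hv : ContinuousOn v (ball 0 ρ ×ˢ sphere 0 1))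
    (he : ∀ σ θ (t : ℝ), ‖σ‖ = 1 → ‖θ‖ = 1 → ρ₀ < t → t < ρ →
      u (T (σ, t • θ)) = v (t • σ, θ)) :
    ∃ s : E₂ → X, ContinuousOn s {z | z ∈ W₂ ∧ (z ∈ OA → π z ∈ Z)} ∧
      (∀ x ∈ W \ T '' (sphere 0 1 ×ˢ closedBall 0 ρ₀), s (α x) = u x) ∧
      ∀ w θ, ‖w‖ < ρ → ‖θ‖ = 1 → s (β (w, θ)) = v (w, θ) := by
  classical
  have _ := hρ
  have hB : ∀ z ∈ OB, OB.piecewise (v ∘ ϖ) (u ∘ π) z = v (ϖ z) := fun z hz =>
    piecewise_eq_of_mem _ _ _ hz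
  have hA : ∀ z ∈ OA ∩ W₂, π z ∉ T '' (sphere 0 1 ×ˢ closedBall 0 ρ₀) →
      OB.piecewise (v ∘ ϖ) (u ∘ π) z = u (π z) := by
    intro z hz hn
    by_cases hz' : z ∈ OB
    · obtain ⟨σ, θ, t, hσ, hθ, t1, t2, e1, e2⟩ := h.overlap h0 hz.2 hz.1 hz'
      have e3 : π z = T (σ, t • θ) := by rw [e1, h.πα]
      have e4 : ϖ z = (t • σ, θ) := by rw [e2, h.ϖβ]
      rw [hB z hz', e3, e4]
      refine (he σ θ t hσ hθ (not_le.1 fun ht => hn ⟨(σ, t • θ), ⟨by simpa using hσ, ?_⟩,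
        e3.symm⟩) t2).symm
      rw [mem_closedBall_zero_iff, norm_smul, hθ, mul_one, Real.norm_of_nonneg (by linarith)]
      exact ht
    · exact piecewise_eq_of_notMem _ _ _ hz'
  refine ⟨OB.piecewise (v ∘ ϖ) (u ∘ π), fun z hz => ?_, fun x hx => ?_, fun w θ hw hθ => ?_⟩
  · by_cases hz' : z ∈ OB
    · refine (continuousWithinAt_inter (h.opB.mem_nhds hz')).1 ?_
      have hc : ContinuousOn (v ∘ ϖ) ({z | z ∈ W₂ ∧ (z ∈ OA → π z ∈ Z)} ∩ OB) :=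
        hv.comp ϖ.continuous.continuousOn fun y hy => h.diffB.mapψ ⟨hy.2, hy.1.1⟩
      exact (hc.congr fun y hy => hB y hy.2) z ⟨hz, hz'⟩
    · have hzA : z ∈ OA := (h.cov hz.1).resolve_right hz'
      have hn : π z ∉ T '' (sphere 0 1 ×ˢ closedBall 0 ρ₀) := by
        rintro ⟨⟨σ, y⟩, ⟨hσ, hy⟩, e⟩
        have hσ' : ‖σ‖ = 1 := by simpa using hσ
        have hy' : ‖y‖ ≤ ρ₀ := by simpa using hy
        have h3 : ρ / 2 < ‖y‖ := not_le.1 fun h4 =>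
          (h.diffA.mapψ ⟨hzA, hz.1⟩).2 ⟨(σ, y), ⟨hσ, by simpa using h4⟩, e⟩
        obtain ⟨θ, hθ, e'⟩ := top_polar (y := y) (norm_pos_iff.1 (by linarith))
        have h4 := h.glue σ θ ‖y‖ hσ' hθ h3 (by linarith)
        rw [← e', e, h.diffA.right z ⟨hzA, hz.1⟩] at h4
        refine hz' (h4 ▸ (h.diffB.mapφ (top_sg2_mem ?_ hθ)).1)
        rw [norm_smul, hσ', mul_one, norm_norm]
        linarith
      have hU : IsOpen (OA ∩ π ⁻¹' (T '' (sphere 0 1 ×ˢ closedBall 0 ρ₀))ᶜ) :=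
        h.opA.inter ((hT.compact ρ₀).isClosed.isOpen_compl.preimage π.continuous)
      refine (continuousWithinAt_inter (hU.mem_nhds ⟨hzA, hn⟩)).1 ?_
      have hc : ContinuousOn (u ∘ π) ({z | z ∈ W₂ ∧ (z ∈ OA → π z ∈ Z)} ∩
          (OA ∩ π ⁻¹' (T '' (sphere 0 1 ×ˢ closedBall 0 ρ₀))ᶜ)) :=
        hu.comp π.continuous.continuousOn fun y hy => hy.1.2 hy.2.1
      exact (hc.congr fun y hy => hA y ⟨hy.2.1, hy.1.1⟩ hy.2.2) z ⟨hz, hzA, hn⟩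
  · have hx' : x ∈ W \ T '' (sphere 0 1 ×ˢ closedBall 0 (ρ / 2)) :=
      ⟨hx.1, fun h3 => hx.2 (image_mono (prod_mono subset_rfl (closedBall_subset_closedBall h1)) h3)⟩
    rw [hA _ (h.diffA.mapφ hx') (by rw [h.πα]; exact hx.2), h.πα]
  · rw [hB _ (h.diffB.mapφ (top_sg2_mem hw hθ)).1, h.ϖβ]

end Pool.Agent.Lib.MP_ccffa6_gt
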