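import Pool.Agent.Lib.MP_ccffa6_gt.TOP.Sg2

/-! The function on the surgered manifold and its slab. -/

open Set Filter Topology Metric
open scoped ContDiff RealInnerProductSpace

noncomputable section

namespace Pool.Agent.Lib.MP_ccffa6_gt

variable {E : Type} [NormedAddCommGroup E] [NormedSpace ℝ E] [FiniteDimensional ℝ E]
  {E' : Type} [NormedAddCommGroup E'] [NormedSpace ℝ E'] [FiniteDimensional ℝ E']
  {E₂ : Type} [NormedAddCommGroup E₂] [NormedSpace ℝ E₂] [FiniteDimensional ℝ E₂]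
  {K : Type} [NormedAddCommGroup K] [NormedSpace ℝ K] [FiniteDimensional ℝ K]

variable {j m : ℕ} {W : Set E} {ε ρ ρ' : ℝ} {T : Rd (j + 1) × Rd (m + 1) → E}
  {Λ : E → Rd (j + 1) × Rd (m + 1)} {W₂ : Set E₂} {ι : E →L[ℝ] E₂} {π : E₂ →L[ℝ] E} {α : E → E₂}
  {β : Rd (j + 1) × Rd (m + 1) → E₂} {ϖ : E₂ →L[ℝ] Rd (j + 1) × Rd (m + 1)} {OA OB : Set E₂}

variable {g : E → ℝ} {V : Rd (j + 1) → ℝ} {f₂ : E₂ → ℝ} {a b : ℝ}


omit [FiniteDimensional ℝ E] [FiniteDimensional ℝ E₂] in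
theorem top_sg3_A (h : Surg W T ρ ρ' W₂ ι π α β ϖ OA OB) {x : E}
    (hx : x ∈ W \ T '' (sphere 0 1 ×ˢ closedBall 0 (ρ / 2))) : α x ∈ OA ∩ W₂ := by
  rw [h.eqA]
  exact mem_image_of_mem α hx

omit [FiniteDimensional ℝ E] [FiniteDimensional ℝ E₂] in
theorem top_sg3_B (h : Surg W T ρ ρ' W₂ ι π α β ϖ OA OB) {w : Rd (j + 1)} {θ : Rd (m + 1)}
    (hw : ‖w‖ < ρ) (hθ : ‖θ‖ = 1) : β (w, θ) ∈ OB ∩ W₂ := by
  rw [h.eqB]
  exact mem_image_of_mem β ⟨mem_ball_zero_iff.2 hw, mem_sphere_zero_iff_norm.2 hθ⟩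

theorem top_sg3_norm {k : ℕ} {θ : Rd k} (hθ : ‖θ‖ = 1) {t : ℝ} (ht : 0 ≤ t) : ‖t • θ‖ = t := by
  rw [norm_smul, hθ, mul_one, Real.norm_of_nonneg ht]

theorem top_sg3_polar {k : ℕ} {y : Rd k} {s : ℝ} (hs : 0 ≤ s) (h : s < ‖y‖) :
    ∃ (θ : Rd k) (t : ℝ), ‖θ‖ = 1 ∧ ‖y‖ = t ∧ y = t • θ := by
  obtain ⟨θ, h1, h2⟩ := top_polar (y := y) (norm_pos_iff.1 (hs.trans_lt h))
  exact ⟨θ, _, h1, rfl, h2⟩

/-- The function on the surgered manifold. -/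
theorem Surg.exists_fn (h : Surg W T ρ ρ' W₂ ι π α β ϖ OA OB) (h0 : 0 < ρ)
    (hg : ContDiff ℝ ∞ g) (hV : ContDiff ℝ ∞ V)
    (he : ∀ σ θ (t : ℝ), ‖σ‖ = 1 → ‖θ‖ = 1 → ρ / 2 < t → t < ρ → g (T (σ, t • θ)) = V (t • σ)) :
    ∃ f₂ : E₂ → ℝ, ContDiff ℝ ∞ f₂ ∧
      (∀ x ∈ W \ T '' (sphere 0 1 ×ˢ closedBall 0 (ρ / 2)), f₂ (α x) = g x) ∧
      ∀ w θ, ‖w‖ < ρ → ‖θ‖ = 1 → f₂ (β (w, θ)) = V w := by
  have hA : IsCompact (β '' (closedBall 0 (ρ / 2) ×ˢ sphere 0 1)) :=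
    ((isCompact_closedBall _ _).prod (isCompact_sphere _ _)).image h.smβ.continuous
  obtain ⟨χ, hχ, -, h1, hs, -⟩ := exists_cutoff hA.isClosed h.opB (by
    rintro _ ⟨⟨w, θ⟩, ⟨hw, hθ⟩, rfl⟩
    exact (top_sg3_B h ((mem_closedBall_zero_iff.1 hw).trans_lt (by linarith))
      (mem_sphere_zero_iff_norm.1 hθ)).1)
  refine ⟨fun z => χ z * V (ϖ z).1 + (1 - χ z) * g (π z),
    (hχ.mul (hV.comp ϖ.contDiff.fst)).add ((contDiff_const.sub hχ).mul (hg.comp π.contDiff)),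
    fun x hx => ?_, fun w θ hw hθ => ?_⟩
  · have hz := top_sg3_A h hx
    dsimp only
    rw [h.πα]
    by_cases hB : α x ∈ OB
    · obtain ⟨σ, θ, t, hσ, hθ, t1, t2, e1, e2⟩ := h.overlap h0 hz.2 hz.1 hB
      have e3 : x = T (σ, t • θ) := by rw [← h.πα x, e1, h.πα]
      rw [e2, h.ϖβ, ← he σ θ t hσ hθ t1 t2, ← e3]
      ring
    · rw [image_eq_zero_of_notMem_tsupport fun h' => hB (hs h')]
      ring
  · dsimp only
    rw [h.ϖβ]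
    rcases le_or_gt ‖w‖ (ρ / 2) with h2 | h2
    · rw [h1.self_of_nhdsSet _ (mem_image_of_mem β
        (mk_mem_prod (mem_closedBall_zero_iff.2 h2) (mem_sphere_zero_iff_norm.2 hθ)))]
      ring
    · obtain ⟨σ, t, hσ, ht, rfl⟩ := top_sg3_polar (by linarith) h2
      rw [ht] at h2 hw
      rw [← h.glue σ θ t hσ hθ h2 hw, h.πα, he σ θ t hσ hθ h2 hw]
      ring

/-- The new slab is compact. -/
theorem Surg.cpt (h : Surg W T ρ ρ' W₂ ι π α β ϖ OA OB) (h0 : 0 < ρ) (hρ : ρ < ε)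
    (hT : TubeG j (m + 1) W ε T Λ) (hc : IsCompact (W ∩ g ⁻¹' Icc a b))
    (hA : ∀ x ∈ W \ T '' (sphere 0 1 ×ˢ closedBall 0 (ρ / 2)), f₂ (α x) = g x)
    (hB : ∀ w θ, ‖w‖ < ρ → ‖θ‖ = 1 → f₂ (β (w, θ)) = V w)
    (hV : ∀ w, ‖w‖ ≤ ρ → V w ∈ Ioo a b) : IsCompact (W₂ ∩ f₂ ⁻¹' Icc a b) := by
  obtain ⟨O, hO, hOW⟩ := hT.open_ball (ρ := 3 * ρ / 4) (by linarith)
  have h1 : IsCompact (α '' ((W ∩ g ⁻¹' Icc a b) \ O) ∪
      β '' (closedBall 0 (3 * ρ / 4) ×ˢ sphere 0 1)) :=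
    ((hc.diff hO).image h.smα.continuous).union
      (((isCompact_closedBall _ _).prod (isCompact_sphere _ _)).image h.smβ.continuous)
  refine (Subset.antisymm ?_ ?_ : _ = W₂ ∩ f₂ ⁻¹' Icc a b) ▸ h1
  · rintro _ (⟨x, ⟨⟨hx, hg⟩, hn⟩, rfl⟩ | ⟨⟨w, θ⟩, ⟨hw, hθ⟩, rfl⟩)
    · have hx' : x ∈ W \ T '' (sphere 0 1 ×ˢ closedBall 0 (ρ / 2)) := ⟨hx, fun h' => hn (by
        have : x ∈ O ∩ W := hOW ▸
          image_mono (Set.prod_mono Subset.rfl (closedBall_subset_ball (by linarith))) h'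
        exact this.1)⟩
      refine ⟨(top_sg3_A h hx').2, ?_⟩
      rw [mem_preimage, hA x hx']
      exact hg
    · have hw' : ‖w‖ < ρ := (mem_closedBall_zero_iff.1 hw).trans_lt (by linarith)
      have hθ' := mem_sphere_zero_iff_norm.1 hθ
      refine ⟨(top_sg3_B h hw' hθ').2, ?_⟩
      rw [mem_preimage, hB w θ hw' hθ']
      exact Ioo_subset_Icc_self (hV w hw'.le)
  · rintro z ⟨hz, hf⟩
    rcases h.cov hz with hz' | hz'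
    · obtain ⟨x, hx, rfl⟩ : z ∈ α '' (W \ T '' (sphere 0 1 ×ˢ closedBall 0 (ρ / 2))) :=
        h.eqA ▸ ⟨hz', hz⟩
      rw [mem_preimage, hA x hx] at hf
      by_cases hxO : x ∈ O
      · obtain ⟨⟨σ, y⟩, ⟨hσ, hy⟩, rfl⟩ : x ∈ T '' (sphere 0 1 ×ˢ ball 0 (3 * ρ / 4)) :=
          hOW ▸ ⟨hxO, hx.1⟩
        have hσ' := mem_sphere_zero_iff_norm.1 hσ
        have hy' := mem_ball_zero_iff.1 hy
        have h2 : ρ / 2 < ‖y‖ := not_le.1 fun h' =>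
          hx.2 (mem_image_of_mem T (mk_mem_prod hσ (mem_closedBall_zero_iff.2 h')))
        obtain ⟨θ, t, hθ, ht, rfl⟩ := top_sg3_polar (by linarith) h2
        dsimp only at hy' hσ'
        rw [ht] at h2 hy'
        rw [h.glue σ θ t hσ' hθ h2 (by linarith)]
        refine Or.inr (mem_image_of_mem β (mk_mem_prod (mem_closedBall_zero_iff.2 ?_)
          (mem_sphere_zero_iff_norm.2 hθ)))
        rw [top_sg3_norm hσ' (by linarith)]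
        exact hy'.le
      · exact Or.inl (mem_image_of_mem α ⟨⟨hx.1, hf⟩, hxO⟩)
    · obtain ⟨⟨w, θ⟩, ⟨hw, hθ⟩, rfl⟩ : z ∈ β '' (ball 0 ρ ×ˢ sphere 0 1) := h.eqB ▸ ⟨hz', hz⟩
      rcases le_or_gt ‖w‖ (3 * ρ / 4) with h2 | h2
      · exact Or.inr (mem_image_of_mem β (mk_mem_prod (mem_closedBall_zero_iff.2 h2) hθ))
      · have hθ' : ‖θ‖ = 1 := mem_sphere_zero_iff_norm.1 hθ
        have hw' : ‖w‖ < ρ := mem_ball_zero_iff.1 hw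
        obtain ⟨σ, t, hσ, ht, rfl⟩ := top_sg3_polar (by linarith) h2
        rw [ht] at h2 hw'
        have hn : ‖t • θ‖ = t := top_sg3_norm hθ' (by linarith)
        have hy : ‖t • θ‖ < ε := by linarith
        have hx : T (σ, t • θ) ∈ W \ T '' (sphere 0 1 ×ˢ closedBall 0 (ρ / 2)) :=
          ⟨(hT.mem σ _ hσ hy).1, fun h' => by
            have := (hT.mem_closedBall (by linarith) hσ hy).1 h'
            linarith⟩
        rw [← h.glue σ θ t hσ hθ' (by linarith) hw'] at hf ⊢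
        rw [mem_preimage, hA _ hx] at hf
        refine Or.inl (mem_image_of_mem α ⟨⟨hx.1, hf⟩, fun h' => ?_⟩)
        have := (hT.mem_ball (ρ := 3 * ρ / 4) (by linarith) hσ hy).1 (hOW ▸ ⟨h', hx.1⟩)
        linarith

theorem Surg.slab_proj (h : Surg W T ρ ρ' W₂ ι π α β ϖ OA OB)
    (hA : ∀ x ∈ W \ T '' (sphere 0 1 ×ˢ closedBall 0 (ρ / 2)), f₂ (α x) = g x)
    {z : E₂} (hz : z ∈ W₂ ∩ f₂ ⁻¹' Icc a b) (hO : z ∈ OA) : π z ∈ W ∩ g ⁻¹' Icc a b := by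
  obtain ⟨x, hx, rfl⟩ : z ∈ α '' (W \ T '' (sphere 0 1 ×ˢ closedBall 0 (ρ / 2))) :=
    h.eqA ▸ ⟨hO, hz.1⟩
  have h1 := hz.2
  rw [mem_preimage, hA x hx] at h1
  rw [h.πα]
  exact ⟨hx.1, h1⟩

/-- Near a point outside the closed tube of radius `ρ'` nothing has changed. -/
theorem Surg.loc (h : Surg W T ρ ρ' W₂ ι π α β ϖ OA OB) (h0 : 0 < ρ) (h1 : ρ < ρ')
    (hT : TubeG j (m + 1) W ε T Λ) {x : E} (hx : x ∈ W)
    (hn : x ∉ T '' (sphere 0 1 ×ˢ closedBall 0 ρ')) :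
    W₂ =ᶠ[𝓝 (ι x)] ι '' W ∧
      ∀ᶠ y in 𝓝[W] x, y ∈ W \ T '' (sphere 0 1 ×ˢ closedBall 0 (ρ / 2)) ∧ α y = ι y := by
  have key : ∀ y ∈ W, y ∉ T '' (sphere 0 1 ×ˢ closedBall 0 ρ') →
      y ∈ W \ T '' (sphere 0 1 ×ˢ closedBall 0 (ρ / 2)) ∧ α y = ι y := fun y hy hy' =>
    ⟨⟨hy, fun h' => hy' (image_mono
        (Set.prod_mono Subset.rfl (closedBall_subset_closedBall (by linarith))) h')⟩,
      h.far y hy fun h' => hy' (image_mono (Set.prod_mono Subset.rfl ball_subset_closedBall) h')⟩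
  have hU := (hT.compact ρ').isClosed.isOpen_compl
  constructor
  · have a1 : ι x ∈ OA := (key x hx hn).2 ▸ (top_sg3_A h (key x hx hn).1).1
    have a2 : ∀ᶠ z in 𝓝 (ι x), π z ∉ T '' (sphere 0 1 ×ˢ closedBall 0 ρ') :=
      π.continuous.continuousAt.eventually (hU.mem_nhds (by rwa [h.πι]))
    filter_upwards [h.opA.mem_nhds a1, a2] with z hz hz'
    refine propext ⟨fun hW => ?_, ?_⟩
    · obtain ⟨y, hy, rfl⟩ : z ∈ α '' (W \ T '' (sphere 0 1 ×ˢ closedBall 0 (ρ / 2))) :=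
        h.eqA ▸ ⟨hz, hW⟩
      rw [h.πα] at hz'
      exact ⟨y, hy.1, (key y hy.1 hz').2.symm⟩
    · rintro ⟨y, hy, rfl⟩
      rw [h.πι] at hz'
      exact ((key y hy hz').2 ▸ (top_sg3_A h (key y hy hz').1).2 : ι y ∈ W₂)
  · filter_upwards [self_mem_nhdsWithin, mem_nhdsWithin_of_mem_nhds (hU.mem_nhds hn)] with y hy hy'
    exact key y hy hy'

/-- Levels outside `(a, b)` are unchanged. -/
theorem Surg.lev (h : Surg W T ρ ρ' W₂ ι π α β ϖ OA OB) (h0 : 0 < ρ) (h1 : ρ < ρ') (h2 : ρ' < ε)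
    (hA : ∀ x ∈ W \ T '' (sphere 0 1 ×ˢ closedBall 0 (ρ / 2)), f₂ (α x) = g x)
    (hB : ∀ w θ, ‖w‖ < ρ → ‖θ‖ = 1 → f₂ (β (w, θ)) = V w)
    (hV : ∀ w, ‖w‖ ≤ ρ → V w ∈ Ioo a b)
    (hg : ∀ σ y, ‖σ‖ = 1 → ‖y‖ < ε → g (T (σ, y)) ∈ Ioo a b) {c : ℝ} (hc : c ∉ Ioo a b) :
    Lev W₂ f₂ c = ι '' Lev W g c := by
  have key : ∀ x, g x = c → x ∉ T '' (sphere 0 1 ×ˢ ball 0 ρ') := by
    rintro _ hx ⟨⟨σ, y⟩, ⟨hσ, hy⟩, rfl⟩
    exact hc (hx ▸ hg σ y (mem_sphere_zero_iff_norm.1 hσ) ((mem_ball_zero_iff.1 hy).trans h2))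
  ext z
  constructor
  · rintro ⟨hz, hf⟩
    rw [mem_preimage, mem_singleton_iff] at hf
    rcases h.cov hz with hz' | hz'
    · obtain ⟨x, hx, rfl⟩ : z ∈ α '' (W \ T '' (sphere 0 1 ×ˢ closedBall 0 (ρ / 2))) :=
        h.eqA ▸ ⟨hz', hz⟩
      rw [hA x hx] at hf
      exact ⟨x, ⟨hx.1, hf⟩, (h.far x hx.1 (key x hf)).symm⟩
    · obtain ⟨⟨w, θ⟩, ⟨hw, hθ⟩, rfl⟩ : z ∈ β '' (ball 0 ρ ×ˢ sphere 0 1) := h.eqB ▸ ⟨hz', hz⟩
      have hw' : ‖w‖ < ρ := mem_ball_zero_iff.1 hw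
      rw [hB w θ hw' (mem_sphere_zero_iff_norm.1 hθ)] at hf
      exact absurd (hf ▸ hV w hw'.le) hc
  · rintro ⟨x, ⟨hx, hf⟩, rfl⟩
    have hn := key x hf
    have hx' : x ∈ W \ T '' (sphere 0 1 ×ˢ closedBall 0 (ρ / 2)) := ⟨hx, fun h' => hn
      (image_mono (Set.prod_mono Subset.rfl (closedBall_subset_ball (by linarith))) h')⟩
    rw [← h.far x hx hn]
    exact ⟨(top_sg3_A h hx').2, (hA x hx').trans hf⟩

end Pool.Agent.Lib.MP_ccffa6_gt
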