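import Pool.Agent.Lib.MP_ccffa6_gt.TOP.Tran

/-! Adding a symplectic plane to the stabilising summand. -/

open Set Filter Topology Metric
open scoped ContDiff RealInnerProductSpace

noncomputable section

namespace Pool.Agent.Lib.MP_ccffa6_gt

variable {E : Type} [NormedAddCommGroup E] [NormedSpace ℝ E] [FiniteDimensional ℝ E]
  {E' : Type} [NormedAddCommGroup E'] [NormedSpace ℝ E'] [FiniteDimensional ℝ E']
  {K : Type} [NormedAddCommGroup K] [NormedSpace ℝ K] [FiniteDimensional ℝ K]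

/-- The area form of the plane. -/
def top_area : Bil (ℝ × ℝ) :=
  (ContinuousLinearMap.fst ℝ ℝ ℝ).smulRight (ContinuousLinearMap.snd ℝ ℝ ℝ) -
    (ContinuousLinearMap.snd ℝ ℝ ℝ).smulRight (ContinuousLinearMap.fst ℝ ℝ ℝ)

theorem top_area_apply (u v : ℝ × ℝ) : top_area u v = u.1 * v.2 - u.2 * v.1 := by
  simp [top_area]

theorem top_area_nd : ND ⊤ top_area := by
  refine ⟨fun u _ => by rw [top_area_apply]; ring, fun u _ h => ?_⟩
  have h1 := h (1, 0) trivial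
  have h2 := h (0, 1) trivial
  rw [top_area_apply] at h1 h2
  ext
  · simpa using h2
  · simpa using h1

/-- `(v, s, t, k) ↦ ((v, k), (s, t))`. -/
def top_sh (V K : Type) [NormedAddCommGroup V] [NormedSpace ℝ V] [NormedAddCommGroup K]
    [NormedSpace ℝ K] : (V × (ℝ × (ℝ × K))) ≃L[ℝ] ((V × K) × (ℝ × ℝ)) where
  toFun u := ((u.1, u.2.2.2), (u.2.1, u.2.2.1))
  invFun u := (u.1.1, (u.2.1, (u.2.2, u.1.2)))
  map_add' _ _ := rfl
  map_smul' _ _ := rfl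
  left_inv _ := rfl
  right_inv _ := rfl
  continuous_toFun := by fun_prop
  continuous_invFun := by fun_prop

theorem top_sh_bij (T : Submodule ℝ E) :
    BijOn (top_sh E K : (E × (ℝ × (ℝ × K))) →L[ℝ] ((E × K) × (ℝ × ℝ))) (pl T (ℝ × (ℝ × K)))
      (pl (pl T K) (ℝ × ℝ)) := by
  refine ⟨fun u hu => ?_, (top_sh E K).injective.injOn, fun u hu => ⟨(top_sh E K).symm u, ?_, ?_⟩⟩
  · simpa [top_sh] using hu
  · exact mem_pl.2 (mem_pl.1 (mem_pl.1 hu))
  · simp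

/-- The stabilised form. -/
def top_eta (η : Bil K) : Bil (ℝ × (ℝ × K)) :=
  (osum η top_area).bilinearComp
    (((ContinuousLinearMap.snd ℝ ℝ K).comp (ContinuousLinearMap.snd ℝ ℝ (ℝ × K))).prod
      ((ContinuousLinearMap.fst ℝ ℝ (ℝ × K)).prod
        ((ContinuousLinearMap.fst ℝ ℝ K).comp (ContinuousLinearMap.snd ℝ ℝ (ℝ × K)))))
    (((ContinuousLinearMap.snd ℝ ℝ K).comp (ContinuousLinearMap.snd ℝ ℝ (ℝ × K))).prod
      ((ContinuousLinearMap.fst ℝ ℝ (ℝ × K)).prod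
        ((ContinuousLinearMap.fst ℝ ℝ K).comp (ContinuousLinearMap.snd ℝ ℝ (ℝ × K)))))

theorem top_eta_apply (η : Bil K) (u v : ℝ × (ℝ × K)) :
    top_eta η u v = η u.2.2 v.2.2 + top_area (u.1, u.2.1) (v.1, v.2.1) := by
  simp [top_eta]

theorem top_eta_nd {η : Bil K} (h : ND ⊤ η) : ND ⊤ (top_eta η) := by
  refine (h.plus top_area_nd).comp ⟨fun u _ => by simp, ?_, ?_⟩
  · rintro ⟨s, t, k⟩ _ ⟨s', t', k'⟩ _ he
    simp only [ContinuousLinearMap.prod_apply, ContinuousLinearMap.comp_apply,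
      ContinuousLinearMap.coe_fst', ContinuousLinearMap.coe_snd', Prod.mk.injEq] at he
    rw [he.1, he.2.1, he.2.2]
  · rintro ⟨k, s, t⟩ _
    exact ⟨(s, t, k), by simp, by simp⟩

/-- The stabilised bundle map. -/
def top_up (A : (E × K) →L[ℝ] (E' × K)) : (E × (ℝ × (ℝ × K))) →L[ℝ] (E' × (ℝ × (ℝ × K))) :=
  ((top_sh E' K).symm : ((E' × K) × (ℝ × ℝ)) →L[ℝ] _).comp
    ((A.prodMap (ContinuousLinearMap.id ℝ (ℝ × ℝ))).comp
      (top_sh E K : (E × (ℝ × (ℝ × K))) →L[ℝ] _))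

theorem top_up_apply (A : (E × K) →L[ℝ] (E' × K)) (u : E × (ℝ × (ℝ × K))) :
    top_up A u = ((A (u.1, u.2.2.2)).1, (u.2.1, (u.2.2.1, (A (u.1, u.2.2.2)).2))) := rfl

theorem top_up_cont : Continuous (top_up : ((E × K) →L[ℝ] (E' × K)) → _) := by
  refine continuous_clm_apply.2 fun u => ?_
  simp only [top_up_apply]
  fun_prop

theorem top_up_bij {A : (E × K) →L[ℝ] (E' × K)} {T : Submodule ℝ E} {T' : Submodule ℝ E'}
    (h : BijOn A (pl T K) (pl T' K)) :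
    BijOn (top_up A) (pl T (ℝ × (ℝ × K))) (pl T' (ℝ × (ℝ × K))) := by
  refine ⟨?_, ?_, ?_⟩
  · rintro ⟨u, s, t, k⟩ hu
    have := h.mapsTo (show (u, k) ∈ (pl T K : Set (E × K)) by simpa using hu)
    simpa [top_up_apply] using this
  · rintro ⟨u, s, t, k⟩ hu ⟨u', s', t', k'⟩ hu' he
    simp only [top_up_apply, Prod.mk.injEq] at he
    have := h.injOn (show (u, k) ∈ (pl T K : Set (E × K)) by simpa using hu)
      (show (u', k') ∈ (pl T K : Set (E × K)) by simpa using hu') (Prod.ext he.1 he.2.2.2)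
    simp only [Prod.mk.injEq] at this
    rw [this.1, this.2, he.2.1, he.2.2.1]
  · rintro ⟨u, s, t, k⟩ hu
    obtain ⟨⟨v, l⟩, hv, he⟩ := h.surjOn (show (u, k) ∈ (pl T' K : Set (E' × K)) by simpa using hu)
    exact ⟨(v, s, t, l), by simpa using hv, by simp [top_up_apply, he]⟩

theorem top_stab_htpy {S : Set E} {A B : E → Bil ((E × ℝ) × K)}
    {A₂ B₂ : E → Bil ((E × ℝ) × (ℝ × (ℝ × K)))} (h : NDHtpy S (fun x => pl (T1 S x) K) A B)
    (hA : ∀ x u v, A₂ x u v =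
      A x (u.1, u.2.2.2) (v.1, v.2.2.2) + top_area (u.2.1, u.2.2.1) (v.2.1, v.2.2.1))
    (hB : ∀ x u v, B₂ x u v =
      B x (u.1, u.2.2.2) (v.1, v.2.2.2) + top_area (u.2.1, u.2.2.1) (v.2.1, v.2.2.1)) :
    NDHtpy S (fun x => pl (T1 S x) (ℝ × (ℝ × K))) A₂ B₂ := by
  refine ((h.plus top_area_nd).comp (r := id) continuousOn_id (mapsTo_id _)
    (Φ := fun _ => (top_sh (E × ℝ) K : ((E × ℝ) × (ℝ × (ℝ × K))) →L[ℝ] _)) continuousOn_const
    fun x _ => top_sh_bij _).congr ?_ ?_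
  · intro x _ u _ v _
    rw [hA]
    simp [top_sh]
  · intro x _ u _ v _
    rw [hB]
    simp [top_sh]

theorem top_pk {n : ℕ} {W : Set E} {f : E → ℝ} {a b : ℝ} {Ωa : E → Bil (E × ℝ)} {M : Set E'}
    {ΩM : E' → Bil (E' × ℝ)} (h : NBord n W f a b Ωa M ΩM) (hg : SGood n (Lev W f a) Ωa) :
    ∃ (K : Type) (_ : NormedAddCommGroup K) (_ : NormedSpace ℝ K) (_ : FiniteDimensional ℝ K)
      (η : Bil (ℝ × K)) (r : E → E') (Φ : E → (E × (ℝ × K)) →L[ℝ] ((E' × ℝ) × (ℝ × K))),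
      Pk n η M ΩM W f a b r Φ := by
  obtain ⟨ν, K, _, _, _, η, φ, ψ, r, Φ, hS, hη, ha, hΩ, hd, cr, mr, er, cΦ, bΦ, h1, h2⟩ := h
  refine ⟨ℝ × K, _, _, inferInstance, top_eta η, r, fun x => top_up (Φ x), ν, Ωa, φ, ψ, hS,
    ⟨⟨ν, hS⟩, hd, cr, mr, er, top_up_cont.comp_continuousOn cΦ, fun p hp => top_up_bij (bΦ p hp)⟩,
    top_eta_nd hη, ha, hΩ, hg, ?_, ?_⟩
  · refine top_stab_htpy h1 (fun x u v => ?_) fun x u v => ?_
    · simp [top_eta_apply, add_assoc]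
    · simp [top_eta_apply, top_up_apply, add_assoc]
  · refine top_stab_htpy h2 (fun x u v => ?_) fun x u v => ?_
    · simp [top_eta_apply, add_assoc]
    · simp [top_eta_apply, top_up_apply, add_assoc]

end Pool.Agent.Lib.MP_ccffa6_gt
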