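import Pool.Agent.Lib.MP_ccffa6_gt.TOP.Ball
import Pool.Agent.Lib.MP_ccffa6_gt.TOP.GP

open Set Filter Topology Metric
open scoped ContDiff RealInnerProductSpace

noncomputable section

namespace Pool.Agent.Lib.MP_ccffa6_gt

variable {E : Type} [NormedAddCommGroup E] [NormedSpace ℝ E] [FiniteDimensional ℝ E]
  {E' : Type} [NormedAddCommGroup E'] [NormedSpace ℝ E'] [FiniteDimensional ℝ E']
  {F : Type} [NormedAddCommGroup F] [NormedSpace ℝ F] [FiniteDimensional ℝ F]
  {A : Type} [NormedAddCommGroup A] [NormedSpace ℝ A] [FiniteDimensional ℝ A]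

theorem top_stief_gen (hd : Module.finrank ℝ A + Module.finrank ℝ E < Module.finrank ℝ F)
    {b : A → E →L[ℝ] F} (hb : ContDiff ℝ 1 b) {ε : ℝ} (hε : 0 < ε) :
    ∃ W : E →L[ℝ] F, ‖W‖ < ε ∧ ∀ w, Function.Injective (b w + W) := by
  have h1 := top_gp' (a := Module.finrank ℝ A + Module.finrank ℝ E)
    (Cov.univ (E := A × E) (by simp)) (U := {q : (A × E) × (E →L[ℝ] F) | q.1.2 ≠ 0})
    (isOpen_ne_fun (by fun_prop) continuous_const) (Ψ := fun q => (b q.1.1 + q.2) q.1.2)
    (((hb.comp contDiff_fst.fst).add contDiff_snd).clm_apply contDiff_fst.snd).contDiffOn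
    fun x _ p hx _ => ⟨⊤, by simpa using hd, fun t _ => by
      obtain ⟨f, hf⟩ := SeparatingDual.exists_eq_one (R := ℝ) (show x.2 ≠ 0 from hx)
      refine ⟨f.smulRight t, ?_⟩
      have h2 : HasFDerivAt (fun p' : E →L[ℝ] F => (b x.1 + p') x.2)
          (ContinuousLinearMap.apply ℝ F x.2) p :=
        (ContinuousLinearMap.apply ℝ F x.2).hasFDerivAt.const_add (b x.1 x.2)
      rw [h2.fderiv]; simp [hf]⟩
  obtain ⟨W, hW, hW'⟩ := h1.exists_notMem (ball_mem_nhds 0 hε)
  refine ⟨W, mem_ball_zero_iff.1 hW, fun w => (injective_iff_map_eq_zero _).2 fun v hv => ?_⟩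
  by_contra h0
  exact hW' ⟨(w, v), mem_univ _, h0, hv⟩

theorem top_stief_bij {f g : E →L[ℝ] F} (hg : Function.Bijective g) (hf : Function.Injective f) :
    Function.Bijective f :=
  ⟨hf, (LinearMap.injective_iff_surjective_of_finrank_eq_finrank (f := (f : E →ₗ[ℝ] F))
    (LinearEquiv.ofBijective (g : E →ₗ[ℝ] F) hg).finrank_eq).1 hf⟩

/-- Stiefel manifolds are highly connected. -/
theorem top_stief (hd : Module.finrank ℝ A + Module.finrank ℝ E < Module.finrank ℝ F)
    {a : A → E →L[ℝ] F} (ha : ContinuousOn a (sphere 0 1))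
    (hi : ∀ σ ∈ sphere (0 : A) 1, Function.Injective (a σ)) :
    ∃ b : A → E →L[ℝ] F, ContinuousOn b (closedBall 0 1) ∧ EqOn b a (sphere 0 1) ∧
      ∀ w ∈ closedBall (0 : A) 1, Function.Injective (b w) := by
  obtain ⟨a₀, h1, h2⟩ := exists_cont_ext isClosed_sphere ha
  have hK := isCompact_closedBall (0 : A) 1
  obtain ⟨δ, hδ, h3⟩ := (hK.diff (ContinuousLinearMap.isOpen_injective.preimage h1)).exists_forall_le'
    (f := fun w => 1 - ‖w‖) (a := 0) (by fun_prop) fun w hw => by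
      refine sub_pos.2 (lt_of_le_of_ne (mem_closedBall_zero_iff.1 hw.1) fun e => hw.2 ?_)
      have h3 : w ∈ sphere (0 : A) 1 := mem_sphere_zero_iff_norm.2 e
      show Function.Injective (a₀ w)
      rw [h2 h3]
      exact hi w h3
  obtain ⟨ε, hε, h4⟩ := top_inj_stable (hK.inter_right (t := {w | 1 - ‖w‖ ≤ δ / 2})
    (isClosed_le (by fun_prop) continuous_const)) h1.continuousOn fun w hw => by
      by_contra h0
      have h4 := h3 w ⟨hw.1, h0⟩
      have h5 : 1 - ‖w‖ ≤ δ / 2 := hw.2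
      linarith
  obtain ⟨b₀, h5, h6, -⟩ := exists_smooth_approx (h := fun _ => 0) (A := closedBall (0 : A) 1)
    isClosed_closedBall isClosed_empty h1.continuousOn contDiff_const (by simp) (half_pos hε)
  obtain ⟨W, hW, h7⟩ := top_stief_gen hd (h5.of_le (by exact_mod_cast le_top)) (half_pos hε)
  have h8 := h5.continuous
  refine ⟨fun w => a₀ w + min 1 ((1 - ‖w‖) / (δ / 2)) • (b₀ w + W - a₀ w),
    Continuous.continuousOn (by fun_prop), fun σ hσ => ?_, fun w hw => ?_⟩
  · simp [mem_sphere_zero_iff_norm.1 hσ, h2 hσ]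
  · by_cases h9 : 1 - ‖w‖ ≤ δ / 2
    · refine h4 w ⟨hw, h9⟩ _ ?_
      have h10 : 0 ≤ min 1 ((1 - ‖w‖) / (δ / 2)) :=
        le_min zero_le_one (div_nonneg (sub_nonneg.2 (mem_closedBall_zero_iff.1 hw)) (half_pos hδ).le)
      have h11 := norm_add_le (b₀ w - a₀ w) W
      have h12 := h6 w hw
      rw [add_sub_cancel_left, norm_smul, Real.norm_of_nonneg h10, add_sub_right_comm]
      exact (mul_le_of_le_one_left (norm_nonneg _) (min_le_left _ _)).trans_lt (by linarith)
    · have h10 : min 1 ((1 - ‖w‖) / (δ / 2)) = 1 :=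
        min_eq_left ((one_le_div (half_pos hδ)).2 (not_le.1 h9).le)
      simp only [h10, one_smul, add_sub_cancel]
      exact h7 w

/-- A complement with a prescribed value at one point. -/
theorem top_compl {b : A → E →L[ℝ] F} (hb : ContinuousOn b (closedBall 0 1))
    (hi : ∀ w ∈ closedBall (0 : A) 1, Function.Injective (b w)) {w₀ : A}
    (h0 : w₀ ∈ closedBall (0 : A) 1) {c₀ : E' →L[ℝ] F} (hc : Function.Bijective ((b w₀).coprod c₀)) :
    ∃ c : A → E' →L[ℝ] F, ContinuousOn c (closedBall 0 1) ∧ c w₀ = c₀ ∧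
      ∀ w ∈ closedBall (0 : A) 1, Function.Bijective ((b w).coprod (c w)) := by
  obtain ⟨l, hl, h1⟩ := top_linv (isCompact_closedBall (0 : A) 1) hb hi
  have h2 : ∀ w ∈ closedBall (0 : A) 1, ∀ y,
      y - b w (l w y) ∈ LinearMap.ker (l w : F →ₗ[ℝ] E) := fun w hw y => by simp [h1 w hw]
  obtain ⟨Θ, hΘ, h3⟩ := top_ball (Q := fun w => LinearMap.ker (l w : F →ₗ[ℝ] E))
    ⟨fun w => 1 - (b w).comp (l w), continuousOn_const.sub (hb.clm_comp hl), fun w hw =>
      ⟨h2 w hw, fun v hv => by simp [show l w v = 0 from hv]⟩⟩ rfl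
  have h4 : ∀ w ∈ closedBall (0 : A) 1, Function.Injective (Θ w) := fun w hw =>
    injOn_univ.1 (h3 w hw).injOn
  obtain ⟨g, hg⟩ := LinearMap.exists_leftInverse_of_injective (Θ w₀).toLinearMap
    (LinearMap.ker_eq_bot.2 (h4 w₀ h0))
  have h5 : ∀ y, Θ w₀ (g (y - b w₀ (l w₀ y))) = y - b w₀ (l w₀ y) := fun y => by
    obtain ⟨z, -, hz⟩ := (h3 w₀ h0).surjOn (h2 w₀ h0 y)
    rw [← hz]
    exact congrArg (Θ w₀) (LinearMap.congr_fun hg z)
  refine ⟨fun w => (Θ w).comp ((LinearMap.toContinuousLinearMap g).comp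
      ((1 - (b w₀).comp (l w₀)).comp c₀)) + (b w).comp ((l w₀).comp c₀),
    (hΘ.clm_comp continuousOn_const).add (hb.clm_comp continuousOn_const), ?_,
    fun w hw => top_stief_bij hc ((injective_iff_map_eq_zero _).2 fun x hx => ?_)⟩
  · ext v
    show Θ w₀ (g (c₀ v - b w₀ (l w₀ (c₀ v)))) + b w₀ (l w₀ (c₀ v)) = c₀ v
    rw [h5, sub_add_cancel]
  · obtain ⟨u, v⟩ := x
    replace hx : b w u + (Θ w (g (c₀ v - b w₀ (l w₀ (c₀ v)))) + b w (l w₀ (c₀ v))) = 0 := hx
    have h6 : l w (Θ w (g (c₀ v - b w₀ (l w₀ (c₀ v))))) = 0 := (h3 w hw).mapsTo (mem_univ _)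
    have h7 : u = -l w₀ (c₀ v) := by
      have := congrArg (l w) hx
      rw [map_add, map_add, h6, h1 w hw, h1 w hw, map_zero, zero_add] at this
      exact eq_neg_of_add_eq_zero_left this
    have h8 : g (c₀ v - b w₀ (l w₀ (c₀ v))) = 0 := by
      refine (injective_iff_map_eq_zero _).1 (h4 w hw) _ ?_
      rw [← hx, h7, map_neg]; abel
    refine (injective_iff_map_eq_zero _).1 hc.1 _ ?_
    have h9 := h5 (c₀ v)
    rw [h8, map_zero] at h9
    show b w₀ u + c₀ v = 0
    rw [h9, h7, map_neg]; abel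

/-- Change a complement on the sphere by `b ∘ s` and a small error. -/
theorem top_adjust {b : A → E →L[ℝ] F} {c : A → E' →L[ℝ] F} (hb : ContinuousOn b (closedBall 0 1))
    (hc : ContinuousOn c (closedBall 0 1))
    (hi : ∀ w ∈ closedBall (0 : A) 1, Function.Bijective ((b w).coprod (c w))) :
    ∃ ε, 0 < ε ∧ ∀ (c' : A → E' →L[ℝ] F) (s : A → E' →L[ℝ] E), ContinuousOn c' (sphere 0 1) →
      ContinuousOn s (sphere 0 1) →
      (∀ σ ∈ sphere (0 : A) 1, ‖c' σ - c σ - (b σ).comp (s σ)‖ < ε) →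
      ∃ c'' : A → E' →L[ℝ] F, ContinuousOn c'' (closedBall 0 1) ∧ EqOn c'' c' (sphere 0 1) ∧
        ∀ w ∈ closedBall (0 : A) 1, Function.Bijective ((b w).coprod (c'' w)) := by
  obtain ⟨ε, hε, h1⟩ := top_inj_stable (isCompact_closedBall (0 : A) 1)
    (b := fun w => (b w).coprod (c w))
    (((hb.clm_comp continuousOn_const).add (hc.clm_comp continuousOn_const)).congr
      fun w _ => (ContinuousLinearMap.comp_fst_add_comp_snd _ _).symm) fun w hw => (hi w hw).1
  refine ⟨ε, hε, fun c' s h2 h3 h4 => ?_⟩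
  obtain ⟨s', h5, h6⟩ := exists_cont_ext isClosed_sphere h3
  obtain ⟨t, h7, h8, h9⟩ := top_radial ((h2.sub (hc.mono sphere_subset_closedBall)).sub
    ((hb.mono sphere_subset_closedBall).clm_comp h3)) h4 hε
  refine ⟨fun w => c w + t w + (b w).comp (s' w), (hc.add h7).add (hb.clm_comp h5.continuousOn),
    fun σ hσ => ?_, fun w hw =>
      top_stief_bij (hi w hw) ((injective_iff_map_eq_zero _).2 fun x hx => ?_)⟩
  · simp only [h8 hσ, h6 hσ, Pi.sub_apply]
    abel
  · have h10 := h1 w hw ((b w).coprod (c w) + (t w).comp (ContinuousLinearMap.snd ℝ E E')) (by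
      rw [add_sub_cancel_left]
      exact ((t w).opNorm_comp_le _).trans_lt ((mul_le_of_le_one_right (norm_nonneg _)
        (ContinuousLinearMap.norm_snd_le ℝ E E')).trans_lt (h9 w hw)))
    have h11 := (injective_iff_map_eq_zero _).1 h10 (x.1 + s' w x.2, x.2) (by
      rw [← hx]; simp; abel)
    have h12 : x.2 = 0 := congrArg Prod.snd h11
    have h13 : x.1 + s' w x.2 = 0 := congrArg Prod.fst h11
    exact Prod.ext (by simpa [h12] using h13) h12

end Pool.Agent.Lib.MP_ccffa6_gt
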