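import Pool.Agent.Lib.MP_ccffa6_gt.Defs

/-! The framed tube around a sphere through a critical point: interface. -/

open Set Filter Topology Metric
open scoped ContDiff RealInnerProductSpace

noncomputable section

namespace Pool.Agent.Lib.MP_ccffa6_gt

variable {E : Type} [NormedAddCommGroup E] [NormedSpace ℝ E]
  {E' : Type} [NormedAddCommGroup E'] [NormedSpace ℝ E']
  {K : Type} [NormedAddCommGroup K] [NormedSpace ℝ K]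

/-- `x` is a critical point of `f` restricted to `W`. -/
def Crit (W : Set E) (f : E → ℝ) (x : E) : Prop := ∀ v ∈ Tan W x, fderiv ℝ f x v = 0

/-- `x` has a Morse chart with `i` negative and `j` positive directions. -/
def MChart (W : Set E) (f : E → ℝ) (x : E) (i j : ℕ) : Prop :=
  ∃ (φ : Rd i × Rd j → E) (ψ : E → Rd i × Rd j), Chart W x φ ψ ∧ ψ x = 0 ∧
    ∀ᶠ z in 𝓝 (0 : Rd i × Rd j), f (φ z) = f x - ‖z.1‖ ^ 2 + ‖z.2‖ ^ 2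

/-- The normal data of a normal bordism, without the forms. -/
structure NDat (d : ℕ) (W : Set E) (f : E → ℝ) (a b : ℝ) (M : Set E') (φ : E → E') (ψ : E' → E)
    (r : E → E') (Φ : E → (E × K) →L[ℝ] ((E' × ℝ) × K)) : Prop where
  slab : ∃ ν, Slab d W f a b ν
  diff : Diff (Lev W f b) M φ ψ
  cr : ContinuousOn r (W ∩ f ⁻¹' Icc a b)
  mr : MapsTo r (W ∩ f ⁻¹' Icc a b) M
  er : EqOn r φ (Lev W f b)
  cΦ : ContinuousOn Φ (W ∩ f ⁻¹' Icc a b)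
  bΦ : ∀ p ∈ W ∩ f ⁻¹' Icc a b, BijOn (Φ p) (pl (Tan W p) K) (pl (T1 M (r p)) K)

/-- A tube `S^j × B^m` through the critical point `p = T (-e, 0)`, equal to the Morse chart near
`p`, whose core is null-homotopic in `M` compatibly with the bundle data. -/
structure Tube (j m : ℕ) (W : Set E) (f : E → ℝ) (a b : ℝ) (p : E) (M : Set E') (r : E → E')
    (Φ : E → (E × (ℝ × K)) →L[ℝ] ((E' × ℝ) × (ℝ × K))) (e : Rd (j + 1)) (ε κ δ : ℝ)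
    (T : Rd (j + 1) × Rd m → E) (Λ : E → Rd (j + 1) × Rd m) (R : Rd (j + 1) → E')
    (Ψ : Rd (j + 1) → (Rd (j + 1) × Rd m × K) →L[ℝ] ((E' × ℝ) × (ℝ × K))) : Prop where
  he : ‖e‖ = 1
  hε : 0 < ε
  hκ : 0 < κ
  hδ : 0 < δ
  smT : ContDiff ℝ ∞ T
  smΛ : ContDiff ℝ ∞ Λ
  mem : ∀ σ y, ‖σ‖ = 1 → ‖y‖ < ε → T (σ, y) ∈ W ∧ f (T (σ, y)) ∈ Ioo a b ∧ Λ (T (σ, y)) = (σ, y)
  op : ∃ O, IsOpen O ∧ O ∩ W = T '' (sphere 0 1 ×ˢ ball 0 ε)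
  bij : ∀ σ y, ‖σ‖ = 1 → ‖y‖ < ε →
    BijOn (fderiv ℝ T (σ, y)) {q | ⟪σ, q.1⟫ = 0} (Tan W (T (σ, y)))
  pole : T (-e, 0) = p
  cap : ∀ σ y, ‖σ‖ = 1 → ‖y‖ < ε → ⟪e, σ⟫ < -1 + δ →
    f (T (σ, y)) = f p + κ * (1 + ⟪e, σ⟫) - ‖y‖ ^ 2
  up : ∀ σ, ‖σ‖ = 1 → σ ≠ -e → f p < f (T (σ, 0))
  reg : ∀ σ y, ‖σ‖ = 1 → ‖y‖ < ε → Crit W f (T (σ, y)) → σ = -e ∧ y = 0
  cR : ContinuousOn R (closedBall 0 1)
  mR : MapsTo R (closedBall 0 1) M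
  eR : ∀ σ, ‖σ‖ = 1 → R σ = r (T (σ, 0))
  cΨ : ContinuousOn Ψ (closedBall 0 1)
  bΨ : ∀ w ∈ closedBall (0 : Rd (j + 1)) 1, BijOn (Ψ w) univ (pl (T1 M (R w)) (ℝ × K))
  eΨ : ∀ σ, ‖σ‖ = 1 → ∀ u y k, Ψ σ (u, y, k) =
    Φ (T (σ, 0)) (fderiv ℝ T (σ, 0) (u - ⟪σ, u⟫ • σ, y), (⟪σ, u⟫, k))

/-- The statement of the sub-block TUBE. -/
def TubeStmt (n : ℕ) : Prop :=
  ∀ (E : Type) [NormedAddCommGroup E] [NormedSpace ℝ E] [FiniteDimensional ℝ E]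
    (E' : Type) [NormedAddCommGroup E'] [NormedSpace ℝ E'] [FiniteDimensional ℝ E']
    (K : Type) [NormedAddCommGroup K] [NormedSpace ℝ K] [FiniteDimensional ℝ K]
    (W : Set E) (f : E → ℝ) (a b : ℝ) (M : Set E') (φ : E → E') (ψ : E' → E) (r : E → E')
    (Φ : E → (E × (ℝ × K)) →L[ℝ] ((E' × ℝ) × (ℝ × K))) (p : E) (j m : ℕ),
    NDat (2 * n + 2) W f a b M φ ψ r Φ → p ∈ W ∩ f ⁻¹' Icc a b → j ≤ n → m + j = 2 * n + 2 →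
    MChart W f p m j →
    (∀ q ∈ W ∩ f ⁻¹' Icc a b, f p < f q → Crit W f q →
      ∃ i k, i + k = 2 * n + 2 ∧ i ≤ n + 1 ∧ MChart W f q i k) →
    ∃ e ε κ δ T Λ R Ψ, Tube j m W f a b p M r Φ e ε κ δ T Λ R Ψ

end Pool.Agent.Lib.MP_ccffa6_gt
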