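import Pool.Agent.Lib.MP_ccffa6_gt.TOP.Dat
import Pool.Agent.Lib.MP_ccffa6_gt.K.Main

/-! Transport of normal bordisms. -/

open Set Filter Topology Metric
open scoped ContDiff RealInnerProductSpace

noncomputable section

namespace Pool.Agent.Lib.MP_ccffa6_gt

variable {E : Type} [NormedAddCommGroup E] [NormedSpace ℝ E] [FiniteDimensional ℝ E]
  {E' : Type} [NormedAddCommGroup E'] [NormedSpace ℝ E'] [FiniteDimensional ℝ E']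
  {E₂ : Type} [NormedAddCommGroup E₂] [NormedSpace ℝ E₂] [FiniteDimensional ℝ E₂]
  {K : Type} [NormedAddCommGroup K] [NormedSpace ℝ K] [FiniteDimensional ℝ K]

theorem Pk.core {n : ℕ} {η : Bil K} {M : Set E'} {ΩM : E' → Bil (E' × ℝ)} {W : Set E} {f : E → ℝ}
    {a b : ℝ} {r : E → E'} {Φ : E → (E × K) →L[ℝ] ((E' × ℝ) × K)}
    (h : Pk n η M ΩM W f a b r Φ) : Core (2 * n + 2) W f a b M r Φ := by
  obtain ⟨ν, Ωa, φ, ψ, hS, hN, -⟩ := h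
  exact ⟨hS.sub, hS.sm, hS.cpt, hN.cr, hN.mr, hN.cΦ, hN.bΦ⟩

/-- With handles of index at most `n + 1` only, Eliashberg's theorem applies. -/
theorem Pk.finish {n : ℕ} (hE : ELIStmt n) {η : Bil K} {M : Set E'} {ΩM : E' → Bil (E' × ℝ)}
    {W : Set E} {f : E → ℝ} {a b : ℝ} {r : E → E'} {Φ : E → (E × K) →L[ℝ] ((E' × ℝ) × K)}
    (h : Pk n η M ΩM W f a b r Φ) (hM : MorseLe (n + 1) W f a b) : SGood n M ΩM := by
  obtain ⟨ν, Ωa, φ, ψ, hS, hN, hη, ha, hΩ, hg, h1, h2⟩ := h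
  have hb : SGood n (Lev W f b) (pb2 φ ΩM) := by
    refine hE E W f a b Ωa (pb2 φ ΩM) ⟨K, _, _, inferInstance, η, hη, ν,
      fun x => (osum (ΩM (r x)) η).bilinearComp (Φ x) (Φ x), hS, hM, ha, hΩ.diff hN.diff,
      (NDField.plus hΩ hη).comp hN.cr hN.mr hN.cΦ hN.bΦ, ?_, ?_⟩ hg
    · exact h1.congr (fun _ _ _ _ _ _ => rfl) (fun _ _ _ _ _ _ => by simp)
    · exact h2.congr (fun _ _ _ _ _ _ => rfl) (fun _ _ _ _ _ _ => by simp)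
  refine (hb.diff hN.diff.symm).stab (Htpy.stab (NDHtpy.symm (NDField.htpy hΩ ?_)))
  intro x hx u hu v hv
  exact (hN.diff.symm.pb2_pb2 ΩM hx hu hv).symm

theorem Ends.tan {W : Set E} {f : E → ℝ} {W₂ : Set E₂} {f₂ : E₂ → ℝ} {a b : ℝ} {ι : E →L[ℝ] E₂}
    {π : E₂ →L[ℝ] E} {r : E → E'} {Φ : E → (E × K) →L[ℝ] ((E' × ℝ) × K)} {r₂ : E₂ → E'}
    {Φ₂ : E₂ → (E₂ × K) →L[ℝ] ((E' × ℝ) × K)} (h : Ends W f W₂ f₂ a b ι π r Φ r₂ Φ₂)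
    (hf : ContDiff ℝ ∞ f) (hf₂ : ContDiff ℝ ∞ f₂) {x : E} (hx : x ∈ W ∩ f ⁻¹' {a, b}) {v : E}
    (hv : v ∈ Tan W x) : ι v ∈ Tan W₂ (ι x) ∧ fderiv ℝ f₂ (ι x) (ι v) = fderiv ℝ f x v := by
  constructor
  · rw [Tan.congr (h.loc x hx)]
    have := Tan.map (S' := ι '' W) ι.differentiableAt
      (eventually_nhdsWithin_of_forall fun y hy => mem_image_of_mem _ hy) hv
    simpa using this
  · have d2 : DifferentiableAt ℝ f₂ (ι x) := hf₂.differentiable (by simp) _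
    have := Tan.fderiv_congr hx.1 (d2.comp x ι.differentiableAt)
      (hf.differentiable (by simp) x) (h.fn x hx) hv
    rw [fderiv_comp x d2 ι.differentiableAt] at this
    simpa using this

theorem top_tran_htpy {S : Set E} {S₂ : Set E₂} {ι : E →L[ℝ] E₂} {π : E₂ →L[ℝ] E}
    (hd : Diff S S₂ ι π) {A B : E → Bil ((E × ℝ) × K)} {A₂ B₂ : E₂ → Bil ((E₂ × ℝ) × K)}
    (h : NDHtpy S (fun x => pl (T1 S x) K) A B)
    (hA : ∀ x ∈ S, ∀ u ∈ Tan S x, ∀ v ∈ Tan S x, ∀ s k t l,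
      A₂ (ι x) ((ι u, s), k) ((ι v, t), l) = A x ((u, s), k) ((v, t), l))
    (hB : ∀ x ∈ S, ∀ u ∈ Tan S x, ∀ v ∈ Tan S x, ∀ s k t l,
      B₂ (ι x) ((ι u, s), k) ((ι v, t), l) = B x ((u, s), k) ((v, t), l)) :
    NDHtpy S₂ (fun x => pl (T1 S₂ x) K) A₂ B₂ := by
  have hb : ∀ z ∈ S₂, BijOn π (Tan S₂ z) (Tan S (π z)) := fun z hz => by
    simpa using hd.symm.tan_bijOn hz
  have hl : ∀ z ∈ S₂, ∀ v ∈ Tan S₂ z, ι (π v) = v := fun z hz v hv => by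
    simpa using hd.symm.tan_left hz hv
  let P : ((E₂ × ℝ) × K) →L[ℝ] ((E × ℝ) × K) :=
    (π.prodMap (ContinuousLinearMap.id ℝ ℝ)).prodMap (ContinuousLinearMap.id ℝ K)
  have key : ∀ {C : E → Bil ((E × ℝ) × K)} {C₂ : E₂ → Bil ((E₂ × ℝ) × K)},
      (∀ x ∈ S, ∀ u ∈ Tan S x, ∀ v ∈ Tan S x, ∀ s k t l,
        C₂ (ι x) ((ι u, s), k) ((ι v, t), l) = C x ((u, s), k) ((v, t), l)) →
      ∀ z ∈ S₂, ∀ u ∈ pl (T1 S₂ z) K, ∀ v ∈ pl (T1 S₂ z) K,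
        (C (π z)).bilinearComp P P u v = C₂ z u v := by
    rintro C C₂ hC z hz ⟨⟨u, s⟩, k⟩ hu ⟨⟨v, t⟩, l⟩ hv
    simp only [mem_pl, mem_T1] at hu hv
    have := hC (π z) (hd.mapψ hz) (π u) ((hb z hz).mapsTo hu) (π v) ((hb z hz).mapsTo hv) s k t l
    rw [hd.right z hz, hl z hz u hu, hl z hz v hv] at this
    rw [this]
    simp [P]
  refine (h.comp (r := π) π.continuous.continuousOn hd.mapψ (Φ := fun _ => P)
    continuousOn_const fun z hz => ?_).congr (key hA) (key hB)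
  refine ⟨?_, ?_, ?_⟩
  · rintro ⟨⟨u, s⟩, k⟩ hu
    simp only [SetLike.mem_coe, mem_pl, mem_T1] at hu ⊢
    exact (hb z hz).mapsTo hu
  · rintro ⟨⟨u, s⟩, k⟩ hu ⟨⟨v, t⟩, l⟩ hv he
    simp only [SetLike.mem_coe, mem_pl, mem_T1] at hu hv
    simp only [P, ContinuousLinearMap.coe_prodMap', Prod.map, ContinuousLinearMap.coe_id', id,
      Prod.mk.injEq] at he
    rw [(hb z hz).injOn hu hv he.1.1, he.1.2, he.2]
  · rintro ⟨⟨u, s⟩, k⟩ hu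
    simp only [SetLike.mem_coe, mem_pl, mem_T1] at hu
    obtain ⟨v, hv, rfl⟩ := (hb z hz).surjOn hu
    exact ⟨((v, s), k), by simpa using hv, by simp [P]⟩

theorem Pk.transfer {n : ℕ} {η : Bil K} {M : Set E'} {ΩM : E' → Bil (E' × ℝ)} {W : Set E}
    {f : E → ℝ} {a b : ℝ} {r : E → E'} {Φ : E → (E × K) →L[ℝ] ((E' × ℝ) × K)}
    (h : Pk n η M ΩM W f a b r Φ) {W₂ : Set E₂} {f₂ : E₂ → ℝ} {ι : E →L[ℝ] E₂} {π : E₂ →L[ℝ] E}
    {r₂ : E₂ → E'} {Φ₂ : E₂ → (E₂ × K) →L[ℝ] ((E' × ℝ) × K)}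
    (hC : Core (2 * n + 2) W₂ f₂ a b M r₂ Φ₂) (hE : Ends W f W₂ f₂ a b ι π r Φ r₂ Φ₂) :
    Pk n η M ΩM W₂ f₂ a b r₂ Φ₂ := by
  obtain ⟨ν, Ωa, φ, ψ, hS, hN, hη, ha, hΩ, hg, h1, h2⟩ := h
  have da : Diff (Lev W f a) (Lev W₂ f₂ a) ι π :=
    hE.leva ▸ Diff.image ι.contDiff π.contDiff fun x _ => hE.inv x
  have db : Diff (Lev W f b) (Lev W₂ f₂ b) ι π :=
    hE.levb ▸ Diff.image ι.contDiff π.contDiff fun x _ => hE.inv x
  have ma : ∀ x ∈ Lev W f a, x ∈ W ∩ f ⁻¹' {a, b} := fun x hx => ⟨hx.1, Or.inl hx.2⟩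
  have mb : ∀ x ∈ Lev W f b, x ∈ W ∩ f ⁻¹' {a, b} := fun x hx => ⟨hx.1, Or.inr hx.2⟩
  have hz : ∀ z ∈ W₂ ∩ f₂ ⁻¹' {a, b}, ∃ x ∈ W ∩ f ⁻¹' {a, b}, ι x = z := by
    rintro z ⟨h1, h2 | h2⟩
    · exact ⟨π z, ma _ (da.mapψ ⟨h1, h2⟩), da.right z ⟨h1, h2⟩⟩
    · exact ⟨π z, mb _ (db.mapψ ⟨h1, h2⟩), db.right z ⟨h1, h2⟩⟩
  have hS₂ : Slab (2 * n + 2) W₂ f₂ a b (fun z => ι (ν (π z))) := by
    refine ⟨hC.sub, hC.sm, hS.le, hC.cpt, ?_, fun z h => ?_⟩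
    · refine ι.continuous.comp_continuousOn (hS.cν.comp π.continuous.continuousOn fun z h => ?_)
      obtain ⟨x, hx, rfl⟩ := hz z h
      rwa [hE.inv]
    · obtain ⟨x, hx, rfl⟩ := hz z h
      rw [hE.inv]
      obtain ⟨h1, h2⟩ := hE.tan hS.sm hC.sm hx (hS.tν x hx).1
      exact ⟨h1, h2.trans (hS.tν x hx).2⟩
  have key : ∀ c, c = a ∨ c = b → ∀ x ∈ Lev W f c, x ∈ W ∩ f ⁻¹' {a, b} →
      ∀ u ∈ Tan (Lev W f c) x, ∀ v ∈ Tan (Lev W f c) x, ∀ s k t l,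
      (osum (ΩM (r₂ (ι x))) η).bilinearComp ((Φ₂ (ι x)).comp (incl (ι (ν (π (ι x)))) K))
        ((Φ₂ (ι x)).comp (incl (ι (ν (π (ι x)))) K)) ((ι u, s), k) ((ι v, t), l) =
      (osum (ΩM (r x)) η).bilinearComp ((Φ x).comp (incl (ν x) K))
        ((Φ x).comp (incl (ν x) K)) ((u, s), k) ((v, t), l) := by
    intro c hc x hx hx' u hu v hv s k t l
    have e : ∀ w ∈ Tan (Lev W f c) x, ∀ (s : ℝ) (k : K),
        Φ₂ (ι x) (ι w + s • ι (ν x), k) = Φ x (w + s • ν x, k) := fun w hw s k => by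
      rw [← hE.eΦ x hx' _ (add_mem ((hS.mem_tan hc hx w).1 hw).1
        (Submodule.smul_mem _ s (hS.tν x hx').1)) k, map_add, map_smul]
    simp only [ContinuousLinearMap.bilinearComp_apply, ContinuousLinearMap.comp_apply,
      incl_apply, hE.inv, hE.er x hx', e u hu, e v hv]
  refine ⟨fun z => ι (ν (π z)), pb2 π Ωa, φ ∘ π, ι ∘ ψ, hS₂,
    ⟨⟨_, hS₂⟩, db.symm.trans hN.diff, hC.cr, hC.mr, fun z hz => ?_, hC.cΦ, hC.bΦ⟩, hη,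
    ha.diff da.symm, hΩ, hg.diff da.symm, ?_, ?_⟩
  · have hx := db.mapψ hz
    rw [← db.right z hz, hE.er _ (mb _ hx), hN.er hx]
    simp [hE.inv]
  · refine top_tran_htpy da h1 ?_ fun x hx => key a (Or.inl rfl) x hx (ma x hx)
    intro x _ u _ v _ s k t l
    simp [pb2_apply, hE.inv]
  · refine top_tran_htpy db h2 ?_ fun x hx => key b (Or.inr rfl) x hx (mb x hx)
    intro x _ u _ v _ s k t l
    have : fderiv ℝ (φ ∘ π) (ι x) = (fderiv ℝ φ x).comp π := by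
      rw [fderiv_comp _ (hN.diff.smφ.differentiable (by simp) _) π.differentiableAt]
      simp [hE.inv]
    simp [pb2_apply, this, hE.inv]

end Pool.Agent.Lib.MP_ccffa6_gt
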