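import Pool.Agent.Lib.MP_ccffa6_gt.TOP.CSph
import Pool.Agent.Lib.MP_ccffa6_gt.TOP.Emb

open Set Filter Topology Metric
open scoped ContDiff RealInnerProductSpace

noncomputable section

namespace Pool.Agent.Lib.MP_ccffa6_gt

variable {E : Type} [NormedAddCommGroup E] [NormedSpace ℝ E] [FiniteDimensional ℝ E]
  {E' : Type} [NormedAddCommGroup E'] [NormedSpace ℝ E'] [FiniteDimensional ℝ E']
  {F : Type} [NormedAddCommGroup F] [NormedSpace ℝ F] [FiniteDimensional ℝ F]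
  {A : Type} [NormedAddCommGroup A] [NormedSpace ℝ A] [FiniteDimensional ℝ A]

omit [NormedSpace ℝ E] [FiniteDimensional ℝ E] in
theorem top_tubec_unif {C : Set E} (hC : IsCompact C) {f : E → ℝ} (hf : Continuous f) {μ : ℝ}
    (hμ : 0 < μ) : ∃ ε, 0 < ε ∧ ∀ x ∈ C, ∀ y, ‖y - x‖ < ε → |f y - f x| < μ := by
  obtain ⟨ε, hε, h⟩ := Metric.mem_uniformity_dist.1
    (hC.uniformContinuousAt_of_continuousAt f (fun a _ => hf.continuousAt)
      (Metric.dist_mem_uniformity hμ))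
  refine ⟨ε, hε, fun x hx y hy => ?_⟩
  have h1 : dist (f x) (f y) < μ := h (a := x) (b := y) (by rwa [dist_comm, dist_eq_norm]) hx
  rwa [dist_comm, Real.dist_eq] at h1

theorem top_tubec_ball {j m : ℕ} {R : ℝ} (hR : 0 < R) {e : Rd (j + 1)} {π : Rd (j + 1) →L[ℝ] Rd j}
    {z : Rd (j + 1) → Rd j} (hP : Pole e π z) {σ : Rd (j + 1)} (hσ : ‖σ‖ = 1) (h0 : ⟪e, σ⟫ ≤ 0) :
    ((0 : Rd m), (R / 2) • z σ) ∈ ball (0 : Rd m × Rd j) R := by
  have h1 := hP.nrm σ hσ h0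
  have h2 : ‖z σ‖ ≤ 1 := (sq_le_one_iff₀ (norm_nonneg _)).1 (by linarith)
  rw [mem_ball_zero_iff, Prod.norm_mk, norm_zero, norm_smul, Real.norm_of_nonneg (by linarith)]
  exact max_lt hR (by nlinarith)

/-- The embedded sphere. -/
theorem top_tubeC {n j m : ℕ} {W O : Set E} {f : E → ℝ} {a b c : ℝ} {ν : E → E}
    (hS : Slab (2 * n + 2) W f a b ν) (hj : j ≤ n) {M : Set E'} {φM : E → E'} {ψM : E' → E}
    (hd : Diff (Lev W f b) M φM ψM) {r : E → E'} (cr : ContinuousOn r (W ∩ f ⁻¹' Icc a b))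
    (mr : MapsTo r (W ∩ f ⁻¹' Icc a b) M) (er : EqOn r φM (Lev W f b))
    {φ : Rd m × Rd j → E} {ψ : E → Rd m × Rd j} {R : ℝ} (h : CBall W φ ψ R O)
    (hq : ∀ z ∈ ball (0 : Rd m × Rd j) R, f (φ z) = c - ‖z.1‖ ^ 2 + ‖z.2‖ ^ 2) (hac : a < c)
    (hb : c + R ^ 2 < b)
    (hM : ∀ q ∈ W ∩ f ⁻¹' Icc a b, c < f q → Crit W f q → ∃ i k, j < k ∧ MChart W f q i k)
    {e : Rd (j + 1)} {π : Rd (j + 1) →L[ℝ] Rd j} {z : Rd (j + 1) → Rd j} (hP : Pole e π z) :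
    ∃ (u : Rd (j + 1) → E) (δ : ℝ), 0 < δ ∧ δ ≤ 1 ∧ ContDiff ℝ ∞ u ∧
      MapsTo u (sphere 0 1) (W ∩ f ⁻¹' Ico c b) ∧
      (∀ σ, ‖σ‖ = 1 → ⟪e, σ⟫ < -1 + δ → u σ = φ (0, (R / 2) • z σ)) ∧
      (∀ σ, ‖σ‖ = 1 → σ ≠ -e → c < f (u σ) ∧ ¬ Crit W f (u σ)) ∧ InjOn u (sphere 0 1) ∧
      (∀ σ, ‖σ‖ = 1 → ∀ v, ⟪σ, v⟫ = 0 → fderiv ℝ u σ v = 0 → v = 0) ∧ Nul M (r ∘ u) := by
  obtain ⟨u₁, δ, γ, hδ, hδ1, hγ, hu₁, hm₁, hcap, hup, hnul⟩ :=
    top_sph hS hd cr mr er h hq hac hb hM hP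
  have hR := h.pos
  have hR2 : R / 2 ≠ 0 := by positivity
  have hfc := hS.sm.continuous
  have hz : ContDiff ℝ ∞ fun σ => ((0 : Rd m), (R / 2) • z σ) :=
    contDiff_const.prodMk (hP.sm.const_smul _)
  have hin : Continuous fun σ : Rd (j + 1) => ⟪e, σ⟫ := continuous_const.inner continuous_id
  obtain ⟨c', hc', hcu⟩ := ((isCompact_sphere (0 : Rd (j + 1)) 1).inter_right
    (isClosed_le (continuous_const (y := -1 + δ / 2)) hin)).exists_forall_le'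
    (hfc.comp_continuousOn (hu₁.mono inter_subset_left)) (a := c) (by
      rintro σ ⟨h1, h2⟩
      have h3 := mem_sphere_zero_iff_norm.1 h1
      refine hup σ h3 fun h4 => ?_
      have h5 := (top_pole_height hP.he h3).2.2.2 h4
      have h6 : -1 + δ / 2 ≤ ⟪e, σ⟫ := h2
      linarith)
  have hZ := hS.sub.finite_crit hS.sm
    (hS.cpt.inter_right (isClosed_le (continuous_const (y := (c + c') / 2)) hfc))
    (fun x hx => hx.1.1) (fun x hx hcr => by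
      have h1 : (c + c') / 2 ≤ f x := hx.2
      obtain ⟨i, k, -, h2⟩ := hM x hx.1 (by linarith) hcr
      exact ⟨i, k, h2⟩)
  obtain ⟨ε₁, hε₁, hun⟩ := top_tubec_unif ((isCompact_sphere _ _).image_of_continuousOn hu₁) hfc
    (lt_min hγ (show 0 < (c' - c) / 2 by linarith))
  have hW₁ : MapsTo u₁ (sphere 0 1) W := fun σ hσ => (hm₁ hσ).1
  obtain ⟨η, hη, hH⟩ := top_hIn_close hS.sub (isCompact_sphere _ _) hu₁ hW₁ hε₁
  obtain ⟨u, hu, huW, hcl, hue, hui, hud, huZ⟩ := top_emb hS.sub (show 2 * j < 2 * n + 2 by omega)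
    hu₁ hW₁ (ι := fun σ => φ (0, (R / 2) • z σ)) (h.smφ.comp hz) hP.he hδ hcap
    (by
      rintro σ ⟨h1, h2⟩ σ' ⟨h1', h2'⟩ he
      have a1 : ⟪e, σ⟫ ≤ 0 := by linarith
      have a2 : ⟪e, σ'⟫ ≤ 0 := by linarith
      have a3 := congrArg ψ he
      rw [(h.fw _ (top_tubec_ball hR hP h1 a1)).2, (h.fw _ (top_tubec_ball hR hP h1' a2)).2] at a3
      exact hP.inj ⟨h1, a1⟩ ⟨h1', a2⟩ (smul_right_injective _ hR2 (congrArg Prod.snd a3)))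
    (fun σ h1 h2 v hv h0 => by
      have a1 : ⟪e, σ⟫ < 0 := by linarith
      have a2 := (h.smφ.differentiable (by simp) _).hasFDerivAt.comp σ
        ((hasFDerivAt_const (0 : Rd m) σ).prodMk
          ((hP.sm.differentiable (by simp) σ).hasFDerivAt.const_smul (R / 2)))
      rw [show fderiv ℝ (fun σ => φ (0, (R / 2) • z σ)) σ = _ from a2.fderiv] at h0
      have a3 := congrArg Prod.snd (h.inj (top_tubec_ball hR hP h1 a1.le) (h0.trans (map_zero _).symm))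
      exact hP.imm σ h1 a1 v hv ((smul_eq_zero.1 a3).resolve_left hR2))
    hZ hη
  obtain ⟨H, hHc, hH01, hHt⟩ := hH u hu.continuous.continuousOn huW
    fun σ hσ => hcl σ (mem_sphere_zero_iff_norm.1 hσ)
  have key : ∀ t ∈ Icc (0 : ℝ) 1, ∀ σ ∈ sphere (0 : Rd (j + 1)) 1,
      H (t, σ) ∈ W ∩ f ⁻¹' Ico c b ∧ (-1 + δ / 2 < ⟪e, σ⟫ → (c + c') / 2 < f (H (t, σ))) := by
    intro t ht σ hσ
    obtain ⟨a1, a2, a3⟩ := hHt t ht σ hσ
    obtain ⟨a4, a5⟩ := abs_lt.1 (hun _ (mem_image_of_mem u₁ hσ) _ a2)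
    have a6 := min_le_left γ ((c' - c) / 2)
    have a7 := min_le_right γ ((c' - c) / 2)
    obtain ⟨a8, a9⟩ := (hm₁ hσ).2
    have b1 : -1 + δ / 2 < ⟪e, σ⟫ → (c + c') / 2 < f (H (t, σ)) := fun h' => by
      have : c' ≤ f (u₁ σ) := hcu σ ⟨hσ, h'.le⟩
      linarith
    refine ⟨⟨a1, ?_, by linarith⟩, b1⟩
    rcases le_or_gt ⟪e, σ⟫ (-1 + δ / 2) with h' | h'
    · have hσ' := mem_sphere_zero_iff_norm.1 hσ
      rw [a3 ((hue σ hσ' h').trans (hcap σ hσ' (by linarith)).symm)]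
      exact a8
    · linarith [b1 h']
  have key1 := fun σ hσ => (hH01 σ hσ).2 ▸ key 1 ⟨zero_le_one, le_rfl⟩ σ hσ
  have hsub : W ∩ f ⁻¹' Ico c b ⊆ W ∩ f ⁻¹' Icc a b := fun x hx =>
    ⟨hx.1, hac.le.trans hx.2.1, hx.2.2.le⟩
  have hI : HIn (sphere 0 1) (W ∩ f ⁻¹' Icc a b) u₁ u :=
    ⟨H, hHc, fun p hp => hsub (key p.1 hp.1 p.2 hp.2).1, hH01⟩
  refine ⟨u, δ / 2, by linarith, by linarith, hu, fun σ hσ => (key1 σ hσ).1,
    fun σ h1 h2 => hue σ h1 h2.le, fun σ h1 h2 => ?_, hui, hud, hnul.hIn (hI.comp cr mr)⟩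
  have hσ := mem_sphere_zero_iff_norm.2 h1
  rcases le_or_gt ⟪e, σ⟫ (-1 + δ / 2) with h' | h'
  · have a1 : ⟪e, σ⟫ ≤ 0 := by linarith
    refine ⟨?_, ?_⟩
    · rw [(hue σ h1 h').trans (hcap σ h1 (by linarith)).symm]
      exact hup σ h1 h2
    · rw [hue σ h1 h', h.crit_morse hS.sm hq (top_tubec_ball hR hP h1 a1)]
      intro h0
      have a2 : z σ = 0 := (smul_eq_zero.1 (congrArg Prod.snd h0)).resolve_left hR2
      have a3 := hP.nrm σ h1 a1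
      rw [a2, norm_zero] at a3
      exact h2 ((top_pole_height hP.he h1).2.2.1 (by linarith))
  · have a1 := (key1 σ hσ).2 h'
    exact ⟨by linarith, fun hcr => huZ σ h1 h' ⟨⟨hsub (key1 σ hσ).1, a1.le⟩, hcr⟩⟩

end Pool.Agent.Lib.MP_ccffa6_gt
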