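import Pool.Agent.Lib.MP_ccffa6_gt.TOP.Dat
import Pool.Agent.Lib.MP_ccffa6_gt.TOP.Sph
import Pool.Agent.Lib.MP_ccffa6_gt.K.Diffeo

/-! Elementary facts about a tube. -/

open Set Filter Topology Metric
open scoped ContDiff RealInnerProductSpace

noncomputable section

namespace Pool.Agent.Lib.MP_ccffa6_gt

variable {E : Type} [NormedAddCommGroup E] [NormedSpace ℝ E] [FiniteDimensional ℝ E]
  {E' : Type} [NormedAddCommGroup E'] [NormedSpace ℝ E'] [FiniteDimensional ℝ E']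
  {E₂ : Type} [NormedAddCommGroup E₂] [NormedSpace ℝ E₂] [FiniteDimensional ℝ E₂]
  {K : Type} [NormedAddCommGroup K] [NormedSpace ℝ K] [FiniteDimensional ℝ K]

variable {j m : ℕ} {W : Set E} {ε : ℝ} {T : Rd (j + 1) × Rd m → E} {Λ : E → Rd (j + 1) × Rd m}

theorem TubeG.inv (h : TubeG j m W ε T Λ) {q : Rd (j + 1) × Rd m}
    (hq : q ∈ sphere (0 : Rd (j + 1)) 1 ×ˢ ball (0 : Rd m) ε) : T q ∈ W ∧ Λ (T q) = q :=
  h.mem q.1 q.2 (mem_sphere_zero_iff_norm.1 hq.1) (mem_ball_zero_iff.1 hq.2)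

theorem TubeG.diff (h : TubeG j m W ε T Λ) :
    Diff (sphere 0 1 ×ˢ ball 0 ε) (T '' (sphere 0 1 ×ˢ ball 0 ε)) T Λ :=
  Diff.image h.smT h.smΛ fun _ hq => (h.inv hq).2

/-- Smaller open tubes are open in `W`. -/
theorem TubeG.open_ball (h : TubeG j m W ε T Λ) {ρ : ℝ} (hρ : ρ ≤ ε) :
    ∃ O, IsOpen O ∧ O ∩ W = T '' (sphere 0 1 ×ˢ ball 0 ρ) := by
  obtain ⟨O, hO, hOW⟩ := h.op
  refine ⟨O ∩ (fun x => (Λ x).2) ⁻¹' ball 0 ρ,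
    hO.inter (isOpen_ball.preimage h.smΛ.continuous.snd), ?_⟩
  rw [inter_right_comm, hOW]
  ext x
  constructor
  · rintro ⟨⟨q, hq, rfl⟩, h2⟩
    refine ⟨q, ⟨hq.1, ?_⟩, rfl⟩
    rwa [mem_preimage, (h.inv hq).2] at h2
  · rintro ⟨q, hq, rfl⟩
    have hq' : q ∈ sphere (0 : Rd (j + 1)) 1 ×ˢ ball (0 : Rd m) ε :=
      ⟨hq.1, ball_subset_ball hρ hq.2⟩
    refine ⟨⟨q, hq', rfl⟩, ?_⟩
    rw [mem_preimage, (h.inv hq').2]
    exact hq.2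

theorem TubeG.compact (h : TubeG j m W ε T Λ) (ρ : ℝ) :
    IsCompact (T '' (sphere 0 1 ×ˢ closedBall 0 ρ)) :=
  ((isCompact_sphere _ _).prod (isCompact_closedBall _ _)).image h.smT.continuous

theorem TubeG.mem_iff (h : TubeG j m W ε T Λ) {s : Set (Rd m)} (hs : s ⊆ ball 0 ε)
    {σ : Rd (j + 1)} {y : Rd m} (hσ : ‖σ‖ = 1) (hy : ‖y‖ < ε) :
    T (σ, y) ∈ T '' (sphere 0 1 ×ˢ s) ↔ y ∈ s := by
  refine ⟨?_, fun h1 => ⟨(σ, y), ⟨mem_sphere_zero_iff_norm.2 hσ, h1⟩, rfl⟩⟩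
  rintro ⟨q, hq, h1⟩
  have h2 : q = (σ, y) := by
    rw [← (h.inv (q := q) ⟨hq.1, hs hq.2⟩).2, h1, (h.mem σ y hσ hy).2]
  exact (h2 ▸ hq).2

theorem TubeG.mem_ball (h : TubeG j m W ε T Λ) {ρ : ℝ} (hρ : ρ ≤ ε) {σ : Rd (j + 1)} {y : Rd m}
    (hσ : ‖σ‖ = 1) (hy : ‖y‖ < ε) : T (σ, y) ∈ T '' (sphere 0 1 ×ˢ ball 0 ρ) ↔ ‖y‖ < ρ :=
  (h.mem_iff (ball_subset_ball hρ) hσ hy).trans mem_ball_zero_iff

theorem TubeG.mem_closedBall (h : TubeG j m W ε T Λ) {ρ : ℝ} (hρ : ρ < ε) {σ : Rd (j + 1)}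
    {y : Rd m} (hσ : ‖σ‖ = 1) (hy : ‖y‖ < ε) :
    T (σ, y) ∈ T '' (sphere 0 1 ×ˢ closedBall 0 ρ) ↔ ‖y‖ ≤ ρ :=
  (h.mem_iff (closedBall_subset_ball hρ) hσ hy).trans mem_closedBall_zero_iff

theorem TubeG.left (h : TubeG j m W ε T Λ) {σ : Rd (j + 1)} {y : Rd m} (hσ : ‖σ‖ = 1)
    (hy : ‖y‖ < ε) {q : Rd (j + 1) × Rd m} (hq : ⟪σ, q.1⟫ = 0) :
    fderiv ℝ Λ (T (σ, y)) (fderiv ℝ T (σ, y) q) = q :=
  h.diff.tan_left (x := (σ, y)) ⟨mem_sphere_zero_iff_norm.2 hσ, mem_ball_zero_iff.2 hy⟩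
    ((top_tan_sb hσ hy q).2 hq)

theorem TubeG.bijΛ (h : TubeG j m W ε T Λ) {σ : Rd (j + 1)} {y : Rd m} (hσ : ‖σ‖ = 1)
    (hy : ‖y‖ < ε) :
    BijOn (fderiv ℝ Λ (T (σ, y))) (Tan W (T (σ, y))) {q | ⟪σ, q.1⟫ = 0} := by
  have h1 := h.bij σ y hσ hy
  refine h1.symm ⟨fun v hv => ?_, fun q hq => h.left hσ hy hq⟩
  obtain ⟨q, hq, rfl⟩ := h1.surjOn hv
  rw [h.left hσ hy hq]

/-- Critical points in tube coordinates. -/
theorem TubeG.crit_iff (h : TubeG j m W ε T Λ) {g : E → ℝ} (hg : ContDiff ℝ ∞ g)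
    {G : Rd (j + 1) × Rd m → ℝ} (hG : ContDiff ℝ ∞ G)
    (he : ∀ σ y, ‖σ‖ = 1 → ‖y‖ < ε → g (T (σ, y)) = G (σ, y)) {σ : Rd (j + 1)} {y : Rd m}
    (hσ : ‖σ‖ = 1) (hy : ‖y‖ < ε) :
    Crit W g (T (σ, y)) ↔
      ∀ q : Rd (j + 1) × Rd m, ⟪σ, q.1⟫ = 0 → fderiv ℝ G (σ, y) q = 0 := by
  have h1 := h.bij σ y hσ hy
  have h2 := (hg.differentiable (by simp) (T (σ, y))).hasFDerivAt.comp (σ, y)
    (h.smT.differentiable (by simp) (σ, y)).hasFDerivAt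
  have key : ∀ q : Rd (j + 1) × Rd m, ⟪σ, q.1⟫ = 0 →
      fderiv ℝ g (T (σ, y)) (fderiv ℝ T (σ, y) q) = fderiv ℝ G (σ, y) q := by
    intro q hq
    have h3 := Tan.fderiv_congr (S := sphere (0 : Rd (j + 1)) 1 ×ˢ ball (0 : Rd m) ε)
      (x := (σ, y)) ⟨mem_sphere_zero_iff_norm.2 hσ, mem_ball_zero_iff.2 hy⟩ h2.differentiableAt
      (hG.differentiable (by simp) _) (eventually_nhdsWithin_of_forall fun z hz =>
        he z.1 z.2 (mem_sphere_zero_iff_norm.1 hz.1) (mem_ball_zero_iff.1 hz.2))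
      ((top_tan_sb hσ hy q).2 hq)
    rw [← h3, h2.fderiv]
    rfl
  refine ⟨fun hc q hq => (key q hq).symm.trans (hc _ (h1.mapsTo hq)), fun hc v hv => ?_⟩
  obtain ⟨q, hq, rfl⟩ := h1.surjOn hv
  exact (key q hq).trans (hc q hq)

/-- A function on the tube which agrees with `f` outside a smaller tube extends. -/
theorem TubeG.exists_fn (h : TubeG j m W ε T Λ) {f : E → ℝ} (hf : ContDiff ℝ ∞ f)
    {G : Rd (j + 1) × Rd m → ℝ} (hG : ContDiff ℝ ∞ G) {ρ : ℝ} (hρ : ρ < ε)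
    (he : ∀ σ y, ρ ≤ ‖y‖ → G (σ, y) = f (T (σ, y))) :
    ∃ g : E → ℝ, ContDiff ℝ ∞ g ∧ (∀ σ y, ‖σ‖ = 1 → ‖y‖ < ε → g (T (σ, y)) = G (σ, y)) ∧
      ∀ x ∈ W, x ∉ T '' (sphere 0 1 ×ˢ closedBall 0 ρ) → g =ᶠ[𝓝 x] f := by
  obtain ⟨O, hO, hOW⟩ := h.op
  have hsub : T '' (sphere 0 1 ×ˢ closedBall 0 ρ) ⊆ O := fun x hx =>
    (hOW.symm.subset (image_mono (prod_mono_right (closedBall_subset_ball hρ)) hx)).1
  obtain ⟨χ, hχ, -, h1, h2, -⟩ := exists_cutoff (h.compact ρ).isClosed hO hsub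
  refine ⟨fun x => f x + χ x * (G (Λ x) - f (T (Λ x))),
    hf.add (hχ.mul ((hG.comp h.smΛ).sub (hf.comp (h.smT.comp h.smΛ)))), fun σ y hσ hy => ?_,
    fun x hx hn => ?_⟩
  · simp only [(h.mem σ y hσ hy).2]
    by_cases hr : ‖y‖ ≤ ρ
    · rw [h1.self_of_nhdsSet _ ((h.mem_closedBall hρ hσ hy).2 hr)]
      ring
    · rw [he σ y (not_le.1 hr).le]
      ring
  · by_cases hxO : x ∈ O
    · obtain ⟨⟨σ, y⟩, hq, rfl⟩ := hOW.subset ⟨hxO, hx⟩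
      have hσ := mem_sphere_zero_iff_norm.1 hq.1
      have hy := mem_ball_zero_iff.1 hq.2
      have h3 : ρ < ‖(Λ (T (σ, y))).2‖ := by
        rw [(h.mem σ y hσ hy).2]
        exact not_le.1 fun h4 => hn ((h.mem_closedBall hρ hσ hy).2 h4)
      filter_upwards [h.smΛ.continuous.snd.norm.continuousAt.eventually (lt_mem_nhds h3)] with z hz
      rw [show G (Λ z) = f (T (Λ z)) from he _ _ hz.le]
      ring
    · filter_upwards [notMem_tsupport_iff_eventuallyEq.1 fun h3 => hxO (h2 h3)] with z hz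
      simp [hz]

/-- Gluing a continuous map on the tube with a continuous map outside a smaller closed tube. -/
theorem TubeG.exists_glue (h : TubeG j m W ε T Λ) {X : Type} [TopologicalSpace X] {Z : Set E}
    (hZ : Z ⊆ W) {ρ : ℝ} (hρ : ρ < ε) {u v : E → X} (hu : ContinuousOn u Z)
    (hv : ContinuousOn v (T '' (sphere 0 1 ×ˢ ball 0 ε)))
    (he : ∀ σ y, ‖σ‖ = 1 → ρ ≤ ‖y‖ → ‖y‖ < ε → v (T (σ, y)) = u (T (σ, y))) :
    ∃ s : E → X, ContinuousOn s Z ∧ (∀ σ y, ‖σ‖ = 1 → ‖y‖ < ε → s (T (σ, y)) = v (T (σ, y))) ∧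
      ∀ x, x ∉ T '' (sphere 0 1 ×ˢ ball 0 ρ) → s x = u x := by
  classical
  obtain ⟨O, hO, hOW⟩ := h.op
  let s : E → X := (T '' (sphere 0 1 ×ˢ ball 0 ρ)).piecewise v u
  have h1 : ∀ x, x ∉ T '' (sphere 0 1 ×ˢ ball 0 ρ) → s x = u x := fun x hx =>
    piecewise_eq_of_notMem _ _ _ hx
  have h2 : ∀ σ y, ‖σ‖ = 1 → ‖y‖ < ε → s (T (σ, y)) = v (T (σ, y)) := by
    intro σ y hσ hy
    by_cases hr : ‖y‖ < ρ
    · exact piecewise_eq_of_mem _ _ _ ((h.mem_ball hρ.le hσ hy).2 hr)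
    · rw [h1 _ fun h3 => hr ((h.mem_ball hρ.le hσ hy).1 h3), he σ y hσ (not_lt.1 hr) hy]
  refine ⟨s, fun x hx => ?_, h2, h1⟩
  by_cases hxO : x ∈ O
  · have h3 : ContinuousOn s (O ∩ W) := by
      rw [hOW]
      refine hv.congr ?_
      rintro _ ⟨q, hq, rfl⟩
      exact h2 q.1 q.2 (mem_sphere_zero_iff_norm.1 hq.1) (mem_ball_zero_iff.1 hq.2)
    exact (h3 x ⟨hxO, hZ hx⟩).mono_of_mem_nhdsWithin (inter_mem
      (mem_nhdsWithin_of_mem_nhds (hO.mem_nhds hxO)) (mem_of_superset self_mem_nhdsWithin hZ))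
  · have h3 : x ∉ T '' (sphere 0 1 ×ˢ closedBall 0 ρ) := fun h4 =>
      hxO (hOW.symm.subset (image_mono (prod_mono_right (closedBall_subset_ball hρ)) h4)).1
    have h4 : s =ᶠ[𝓝 x] u := by
      filter_upwards [(h.compact ρ).isClosed.isOpen_compl.mem_nhds h3] with z hz
      exact h1 z fun h5 => hz (image_mono (prod_mono_right ball_subset_closedBall) h5)
    exact (hu x hx).congr_of_eventuallyEq (h4.filter_mono nhdsWithin_le_nhds) h4.eq_of_nhds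

end Pool.Agent.Lib.MP_ccffa6_gt
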